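import Mathlib

set_option autoImplicit false

open Set

namespace Pool.Agent.H334

/-- The plane in which the triangles are drawn. -/
abbrev Plane := EuclideanSpace ℝ (Fin 2)

/-- Euclidean 3-space. -/
abbrev Space := EuclideanSpace ℝ (Fin 3)

/-- A hinged tree of n + 1 triangles (n hinges). Triangle `i` is drawn in the plane, with vertices
`vtx i 0`, `vtx i 1`, `vtx i 2`. For each `k`, hinge number `k` glues the edge
`vtx (k+1) 0`, `vtx (k+1) 1` of triangle k + 1 to the edge `vtx (par k) (u k)`,
`vtx (par k) (v k)` of the earlier triangle `par k`, an edge of the same length. So the hinge graph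
is a tree. Every edge of every triangle belongs to at most one hinge. -/
structure HingedTree (n : ℕ) where
  vtx : Fin (n + 1) → Fin 3 → Plane
  nondeg : ∀ i, AffineIndependent ℝ (vtx i)
  par : Fin n → Fin (n + 1)
  par_lt : ∀ k, par k < k.succ
  u : Fin n → Fin 3
  v : Fin n → Fin 3
  ne : ∀ k, u k ≠ v k
  len : ∀ k, dist (vtx (par k) (u k)) (vtx (par k) (v k)) = dist (vtx k.succ 0) (vtx k.succ 1)
  once : ∀ k l, par k = par l → ({u k, v k} : Set (Fin 3)) = {u l, v l} → k = l
  base : ∀ k l, par k = Fin.succ l → ({u k, v k} : Set (Fin 3)) ≠ {0, 1}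

variable {n : ℕ}

/-- The closed triangle number `i`. -/
def HingedTree.tri (X : HingedTree n) (i : Fin (n + 1)) : Set Plane :=
  convexHull ℝ (Set.range (X.vtx i))

/-- The point at parameter `s` of the base of triangle k + 1 is glued to the point at parameter
`s` of the edge of `par k` to which it is hinged. -/
def HingedTree.Glue (X : HingedTree n) (a b : Fin (n + 1) × Plane) : Prop :=
  ∃ (k : Fin n) (s : ℝ), s ∈ Icc (0 : ℝ) 1 ∧
    a = (k.succ, AffineMap.lineMap (X.vtx k.succ 0) (X.vtx k.succ 1) s) ∧
    b = (X.par k, AffineMap.lineMap (X.vtx (X.par k) (X.u k)) (X.vtx (X.par k) (X.v k)) s)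

/-- `f` is a well defined injective continuous map from the glued space to 3-space: it agrees on
glued points, it is continuous on every triangle, and two points with the same image are the same
point of the glued space. (The glued space is compact, so such a map is an embedding.) -/
structure HingedTree.Embeds (X : HingedTree n) (f : Fin (n + 1) → Plane → Space) : Prop where
  glued : ∀ a b, X.Glue a b → f a.1 a.2 = f b.1 b.2
  cont : ∀ i, ContinuousOn (f i) (X.tri i)
  inj : ∀ i j, ∀ x ∈ X.tri i, ∀ y ∈ X.tri j, f i x = f j y →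
    Relation.EqvGen X.Glue (i, x) (j, y)

/-- A configuration: an injective map of the glued space to 3-space whose restriction to each
triangle is an isometry. -/
def HingedTree.IsConfig (X : HingedTree n) (f : Fin (n + 1) → Plane → Space) : Prop :=
  X.Embeds f ∧ ∀ i, ∀ x ∈ X.tri i, ∀ y ∈ X.tri i, dist (f i x) (f i y) = dist x y

/-- The union of the crease segments drawn in triangle `i`. -/
def creases (C : Fin (n + 1) → Set (Plane × Plane)) (i : Fin (n + 1)) : Set Plane :=
  ⋃ c ∈ C i, segment ℝ c.1 c.2

/-- `f` agrees on glued points and is isometric on every piece (connected component) into which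
the creases cut a triangle. -/
def HingedTree.Folded (X : HingedTree n) (C : Fin (n + 1) → Set (Plane × Plane))
    (f : Fin (n + 1) → Plane → Space) : Prop :=
  (∀ a b, X.Glue a b → f a.1 a.2 = f b.1 b.2) ∧
  ∀ i, ∀ x ∈ X.tri i \ creases C i, ∀ y ∈ connectedComponentIn (X.tri i \ creases C i) x,
    dist (f i x) (f i y) = dist x y

/-- `F` is a continuous path of maps, for times in [0,1], from `f` to `g`. -/
def HingedTree.Joins (X : HingedTree n) (F : ℝ → Fin (n + 1) → Plane → Space)
    (f g : Fin (n + 1) → Plane → Space) : Prop :=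
  (∀ i, ContinuousOn (fun p : ℝ × Plane => F p.1 i p.2) (Icc (0 : ℝ) 1 ×ˢ X.tri i)) ∧
  ∀ i, ∀ x ∈ X.tri i, F 0 i x = f i x ∧ F 1 i x = g i x

end Pool.Agent.H334
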