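import Pool.Agent.Helper22.FC.Model
import Pool.Agent.Helper334_Fold.Tree

set_option autoImplicit false

open Set

namespace Pool.Agent.H334

open Pool.Agent.Helper22.FC (SimplePolygon IsPaper)

/-- A hinged tree of k + 1 simple polygons (k hinges). Polygon `i` is drawn in the plane (the
complex plane) and has the vertices `vtx i 0`, ..., `vtx i (m i + 2)` in cyclic order; edge number
`a` of it joins `vtx i a` to `vtx i (a + 1)` (indices are cyclic); `region i` is the closed region
bounded by it. For each `j`, hinge number `j` glues the edge number `ev j` of polygon j + 1 to the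
edge number `eu j` of the earlier polygon `par j`, an edge of the same length, by the isometry
which keeps the direction of the numbering if `same j` is true and reverses it otherwise. So the
hinge graph is a tree. Every edge of every polygon belongs to at most one hinge. -/
structure PolyTree (k : ℕ) where
  m : Fin (k + 1) → ℕ
  vtx : ∀ i, Fin (m i + 3) → ℂ
  simple : ∀ i, SimplePolygon (vtx i)
  region : Fin (k + 1) → Set ℂ
  paper : ∀ i, IsPaper (vtx i) (region i)
  par : Fin k → Fin (k + 1)
  par_lt : ∀ j, par j < j.succ
  eu : ∀ j : Fin k, Fin (m (par j) + 3)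
  ev : ∀ j : Fin k, Fin (m j.succ + 3)
  same : Fin k → Bool
  len : ∀ j, dist (vtx (par j) (eu j)) (vtx (par j) (eu j + 1)) =
    dist (vtx j.succ (ev j)) (vtx j.succ (ev j + 1))
  once : ∀ j l, (⟨par j, eu j⟩ : Σ i, Fin (m i + 3)) = ⟨par l, eu l⟩ → j = l
  once' : ∀ j l : Fin k, (⟨par j, eu j⟩ : Σ i, Fin (m i + 3)) ≠ ⟨l.succ, ev l⟩

variable {k : ℕ}

/-- The point of the edge of `par j` to which the first end of the edge `ev j` is glued. -/
def PolyTree.p0 (X : PolyTree k) (j : Fin k) : ℂ :=
  if X.same j then X.vtx (X.par j) (X.eu j) else X.vtx (X.par j) (X.eu j + 1)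

/-- The point of the edge of `par j` to which the second end of the edge `ev j` is glued. -/
def PolyTree.p1 (X : PolyTree k) (j : Fin k) : ℂ :=
  if X.same j then X.vtx (X.par j) (X.eu j + 1) else X.vtx (X.par j) (X.eu j)

/-- The point at parameter `s` of the hinged edge of polygon j + 1 is glued to the point at
parameter `s` of the edge of `par j` to which it is hinged. -/
def PolyTree.Glue (X : PolyTree k) (a b : Fin (k + 1) × ℂ) : Prop :=
  ∃ (j : Fin k) (s : ℝ), s ∈ Icc (0 : ℝ) 1 ∧
    a = (j.succ, AffineMap.lineMap (X.vtx j.succ (X.ev j)) (X.vtx j.succ (X.ev j + 1)) s) ∧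
    b = (X.par j, AffineMap.lineMap (X.p0 j) (X.p1 j) s)

/-- `f` is a well defined injective continuous map from the glued space to 3-space: it agrees on
glued points, it is continuous on every polygon, and two points with the same image are the same
point of the glued space. (The glued space is compact, so such a map is an embedding.) -/
structure PolyTree.Embeds (X : PolyTree k) (f : Fin (k + 1) → ℂ → Space) : Prop where
  glued : ∀ a b, X.Glue a b → f a.1 a.2 = f b.1 b.2
  cont : ∀ i, ContinuousOn (f i) (X.region i)
  inj : ∀ i j, ∀ x ∈ X.region i, ∀ y ∈ X.region j, f i x = f j y →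
    Relation.EqvGen X.Glue (i, x) (j, y)

/-- A configuration: an injective map of the glued space to 3-space whose restriction to each
polygon is an isometry. -/
def PolyTree.IsConfig (X : PolyTree k) (f : Fin (k + 1) → ℂ → Space) : Prop :=
  X.Embeds f ∧ ∀ i, ∀ x ∈ X.region i, ∀ y ∈ X.region i, dist (f i x) (f i y) = dist x y

/-- The union of a set of segments. -/
def crs (C : Set (ℂ × ℂ)) : Set ℂ := ⋃ c ∈ C, segment ℝ c.1 c.2

/-- `f` agrees on glued points and is isometric on every piece (connected component) into which
the creases cut a polygon. -/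
def PolyTree.Folded (X : PolyTree k) (C : Fin (k + 1) → Set (ℂ × ℂ))
    (f : Fin (k + 1) → ℂ → Space) : Prop :=
  (∀ a b, X.Glue a b → f a.1 a.2 = f b.1 b.2) ∧
  ∀ i, ∀ x ∈ X.region i \ crs (C i), ∀ y ∈ connectedComponentIn (X.region i \ crs (C i)) x,
    dist (f i x) (f i y) = dist x y

/-- `F` is a continuous path of maps, for times in [0,1], from `f` to `g`. -/
def PolyTree.Joins (X : PolyTree k) (F : ℝ → Fin (k + 1) → ℂ → Space)
    (f g : Fin (k + 1) → ℂ → Space) : Prop :=
  (∀ i, ContinuousOn (fun p : ℝ × ℂ => F p.1 i p.2) (Icc (0 : ℝ) 1 ×ˢ X.region i)) ∧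
  ∀ i, ∀ x ∈ X.region i, F 0 i x = f i x ∧ F 1 i x = g i x

end Pool.Agent.H334
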