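import Pool.Agent.Helper22.FC.Base
import Pool.Agent.Helper334_Fold.PolyTree

set_option autoImplicit false

open Set

namespace Pool.Agent.H334

open Pool.Agent.Helper22.FC (SimplePolygon IsPaper cyc curve wnd side SimpleL)

/-- A tree of triangles in the complex plane, over an arbitrary index type: every triangle `i`
except the root is hinged along its edge 01 to the edge `u i`, `v i` of the triangle `par i`. -/
structure CTree (ι : Type) where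
  vtx : ι → Fin 3 → ℂ
  nondeg : ∀ i, AffineIndependent ℝ (vtx i)
  root : ι
  rank : ι → ℕ
  par : ι → ι
  par_lt : ∀ i, i ≠ root → rank (par i) < rank i
  u : ι → Fin 3
  v : ι → Fin 3
  ne : ∀ i, i ≠ root → u i ≠ v i
  len : ∀ i, i ≠ root → dist (vtx (par i) (u i)) (vtx (par i) (v i)) = dist (vtx i 0) (vtx i 1)
  once : ∀ i j, i ≠ root → j ≠ root → par i = par j →
    ({u i, v i} : Set (Fin 3)) = {u j, v j} → i = j
  base : ∀ i, i ≠ root → par i ≠ root → ({u i, v i} : Set (Fin 3)) ≠ {0, 1}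

variable {ι : Type}

/-- The closed triangle number `i`. -/
def CTree.tri (X : CTree ι) (i : ι) : Set ℂ := convexHull ℝ (Set.range (X.vtx i))

/-- Glued points. -/
def CTree.Glue (X : CTree ι) (a b : ι × ℂ) : Prop :=
  ∃ (i : ι) (s : ℝ), i ≠ X.root ∧ s ∈ Icc (0 : ℝ) 1 ∧
    a = (i, AffineMap.lineMap (X.vtx i 0) (X.vtx i 1) s) ∧
    b = (X.par i, AffineMap.lineMap (X.vtx (X.par i) (X.u i)) (X.vtx (X.par i) (X.v i)) s)

/-- Embeddings of the glued space. -/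
structure CTree.Embeds (X : CTree ι) (f : ι → ℂ → Space) : Prop where
  glued : ∀ a b, X.Glue a b → f a.1 a.2 = f b.1 b.2
  cont : ∀ i, ContinuousOn (f i) (X.tri i)
  inj : ∀ i j, ∀ x ∈ X.tri i, ∀ y ∈ X.tri j, f i x = f j y →
    Relation.EqvGen X.Glue (i, x) (j, y)

/-- Configurations. -/
def CTree.IsConfig (X : CTree ι) (f : ι → ℂ → Space) : Prop :=
  X.Embeds f ∧ ∀ i, ∀ x ∈ X.tri i, ∀ y ∈ X.tri i, dist (f i x) (f i y) = dist x y

/-- Folded maps. -/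
def CTree.Folded (X : CTree ι) (C : ι → Set (ℂ × ℂ)) (f : ι → ℂ → Space) : Prop :=
  (∀ a b, X.Glue a b → f a.1 a.2 = f b.1 b.2) ∧
  ∀ i, ∀ x ∈ X.tri i \ crs (C i), ∀ y ∈ connectedComponentIn (X.tri i \ crs (C i)) x,
    dist (f i x) (f i y) = dist x y

/-- Paths of maps. -/
def CTree.Joins (X : CTree ι) (F : ℝ → ι → ℂ → Space) (f g : ι → ℂ → Space) : Prop :=
  (∀ i, ContinuousOn (fun p : ℝ × ℂ => F p.1 i p.2) (Icc (0 : ℝ) 1 ×ˢ X.tri i)) ∧
  ∀ i, ∀ x ∈ X.tri i, F 0 i x = f i x ∧ F 1 i x = g i x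

/-- `x` and `y` are the ends of an edge of the closed polygon with vertex list `V`. -/
def Adj (V : List ℂ) (x y : ℂ) : Prop := (x, y) ∈ cyc V ∨ (y, x) ∈ cyc V

/-- Polygons `V` with region `P` that can be cut into triangles along diagonals. -/
inductive PG : List ℂ → Set ℂ → Prop
  | tri (a b c : ℂ) (h : AffineIndependent ℝ ![a, b, c]) : PG [a, b, c] (convexHull ℝ {a, b, c})
  | cut (x y : ℂ) (E B : List ℂ) (P Q : Set ℂ) (hE : E ≠ []) (hB : B ≠ [])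
      (h1 : PG ([x, y] ++ B) P) (h2 : PG ([x] ++ E ++ [y]) Q) (h : P ∩ Q = segment ℝ x y) :
      PG ([x] ++ E ++ [y] ++ B) (P ∪ Q)
  | rot (V : List ℂ) (P : Set ℂ) (k : ℕ) (h : PG V P) : PG (V.rotate k) P

/-- `T` is a triangulation of the region `P`, rooted at a triangle with edge p, q; every other
boundary edge (pair of points related by `A`) is an edge of a triangle not used by hinges. -/
structure CTree.Planar (T : CTree ι) (A : ℂ → ℂ → Prop) (P : Set ℂ) (p q : ℂ) : Prop where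
  e0 : T.vtx T.root 0 = p
  e1 : T.vtx T.root 1 = q
  g0 : ∀ i, i ≠ T.root → T.vtx i 0 = T.vtx (T.par i) (T.u i)
  g1 : ∀ i, i ≠ T.root → T.vtx i 1 = T.vtx (T.par i) (T.v i)
  rb : ∀ i, i ≠ T.root → ({T.u i, T.v i} : Set (Fin 3)) ≠ {0, 1}
  cover : ⋃ i, T.tri i = P
  planar : ∀ i j, ∀ x ∈ T.tri i, x ∈ T.tri j → Relation.EqvGen T.Glue (i, x) (j, x)
  edges : ∀ x y, A x y → ({x, y} : Set ℂ) ≠ {p, q} → ∃ (i : ι) (a b : Fin 3), a ≠ b ∧
    T.vtx i a = x ∧ T.vtx i b = y ∧ ({a, b} : Set (Fin 3)) ≠ {0, 1} ∧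
    ∀ c, c ≠ T.root → T.par c = i → ({T.u c, T.v c} : Set (Fin 3)) ≠ {a, b}

/-- The same for a polygon given by its vertex function, rooted at edge number `r`. -/
structure CTree.Tri {n : ℕ} (T : CTree ι) (w : Fin (n + 3) → ℂ) (P : Set ℂ) (r : Fin (n + 3)) :
    Prop where
  e0 : T.vtx T.root 0 = w r
  e1 : T.vtx T.root 1 = w (r + 1)
  g0 : ∀ i, i ≠ T.root → T.vtx i 0 = T.vtx (T.par i) (T.u i)
  g1 : ∀ i, i ≠ T.root → T.vtx i 1 = T.vtx (T.par i) (T.v i)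
  rb : ∀ i, i ≠ T.root → ({T.u i, T.v i} : Set (Fin 3)) ≠ {0, 1}
  cover : ⋃ i, T.tri i = P
  planar : ∀ i j, ∀ x ∈ T.tri i, x ∈ T.tri j → Relation.EqvGen T.Glue (i, x) (j, x)
  edges : ∀ e, e ≠ r → ∃ (i : ι) (a b : Fin 3), a ≠ b ∧
    T.vtx i a = w e ∧ T.vtx i b = w (e + 1) ∧ ({a, b} : Set (Fin 3)) ≠ {0, 1} ∧
    ∀ c, c ≠ T.root → T.par c = i → ({T.u c, T.v c} : Set (Fin 3)) ≠ {a, b}

/-- The tree of triangles `Y` refines the tree of polygons `X` by the triangulations `T`. -/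
structure Refines {k : ℕ} (X : PolyTree k) (ι : Fin (k + 1) → Type) (T : ∀ i, CTree (ι i))
    (Y : CTree (Σ i, ι i)) : Prop where
  vtx : ∀ i t, Y.vtx ⟨i, t⟩ = (T i).vtx t
  inner : ∀ i s t x y, (T i).Glue (s, x) (t, y) → Y.Glue (⟨i, s⟩, x) (⟨i, t⟩, y)
  down : ∀ i s x i' s' x', Y.Glue (⟨i, s⟩, x) (⟨i', s'⟩, x') →
    (i = i' ∧ x = x') ∨ X.Glue (i, x) (i', x')
  up : ∀ i x i' x', X.Glue (i, x) (i', x') →
    ∃ s s', x ∈ (T i).tri s ∧ x' ∈ (T i').tri s' ∧ Y.Glue (⟨i, s⟩, x) (⟨i', s'⟩, x')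

end Pool.Agent.H334
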