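import Mathlib

set_option autoImplicit false

open Set

namespace Pool.Agent.H334

/-- The model of Euclidean 3-space used here: a point is a pair (s, z), `s` real, `z` complex. -/
abbrev W := WithLp 2 (ℝ × ℂ)

/-- The point (s, z). -/
noncomputable def pt (s : ℝ) (z : ℂ) : W := WithLp.toLp 2 (s, z)

@[simp] theorem pt_fst (s : ℝ) (z : ℂ) : (pt s z).fst = s := rfl
@[simp] theorem pt_snd (s : ℝ) (z : ℂ) : (pt s z).snd = z := rfl
@[simp] theorem pt_eta (w : W) : pt w.fst w.snd = w := rfl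

theorem W_ext {w w' : W} (h1 : w.fst = w'.fst) (h2 : w.snd = w'.snd) : w = w' := by
  rw [← pt_eta w, ← pt_eta w', h1, h2]

theorem W_dist_sq (w w' : W) : dist w w' ^ 2 = (w.fst - w'.fst) ^ 2 + ‖w.snd - w'.snd‖ ^ 2 := by
  rw [WithLp.prod_dist_eq_of_L2, Real.sq_sqrt (by positivity), Real.dist_eq, sq_abs,
    Complex.dist_eq]

theorem W_dist_le (w w' : W) : dist w w' ≤ |w.fst - w'.fst| + ‖w.snd - w'.snd‖ := by
  refine abs_le_of_sq_le_sq' ?_ (by positivity) |>.2
  rw [W_dist_sq]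
  nlinarith [abs_nonneg (w.fst - w'.fst), norm_nonneg (w.snd - w'.snd), sq_abs (w.fst - w'.fst)]

theorem W_fst_le (w w' : W) : |w.fst - w'.fst| ≤ dist w w' := by
  refine abs_le_of_sq_le_sq' ?_ dist_nonneg |>.2
  rw [W_dist_sq, sq_abs]
  nlinarith [norm_nonneg (w.snd - w'.snd)]

theorem W_snd_le (w w' : W) : ‖w.snd - w'.snd‖ ≤ dist w w' := by
  refine abs_le_of_sq_le_sq' ?_ dist_nonneg |>.2
  rw [W_dist_sq]
  nlinarith [sq_nonneg (w.fst - w'.fst)]

theorem W_continuous_pt {X : Type*} [TopologicalSpace X] {a : X → ℝ} {b : X → ℂ}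
    (ha : Continuous a) (hb : Continuous b) : Continuous fun x => pt (a x) (b x) :=
  (WithLp.prod_continuous_toLp 2 ℝ ℂ).comp (ha.prodMk hb)

theorem W_continuous_fst : Continuous fun w : W => w.fst :=
  continuous_fst.comp (WithLp.prod_continuous_ofLp 2 ℝ ℂ)

theorem W_continuous_snd : Continuous fun w : W => w.snd :=
  continuous_snd.comp (WithLp.prod_continuous_ofLp 2 ℝ ℂ)

/-- Height over the base axis (for points of the plane im = 0). -/
noncomputable def hgt (w : W) : ℝ := w.snd.re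

/-- Projection to the plane im = 0. -/
noncomputable def proj (w : W) : W := pt w.fst (w.snd.re : ℂ)

/-- Rotation by the angle `θ` about the axis z = 0. -/
noncomputable def rotx (θ : ℝ) (w : W) : W := pt w.fst (Complex.exp (θ * Complex.I) * w.snd)

/-- Displacement functions on [-π, π]: Lipschitz with constant `M`, zero at both ends. -/
structure Disp (D : ℝ → ℝ) (M : ℝ) : Prop where
  left : D (-Real.pi) = 0
  right : D Real.pi = 0
  lip : ∀ a ∈ Icc (-Real.pi) Real.pi, ∀ b ∈ Icc (-Real.pi) Real.pi, |D a - D b| ≤ M * |a - b|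

/-- The cutoff factor, a function of the axis coordinate `s` and the distance `r` to the axis. -/
noncomputable def cut (ρ : ℝ → ℝ) (s r : ℝ) : ℝ := min 1 (max 0 (2 * ρ s - r) / r)

/-- The bending map: keeps `s` and |z| and turns arg z by t * cutoff * D (arg z). -/
noncomputable def bend (D ρ : ℝ → ℝ) (t : ℝ) (w : W) : W :=
  pt w.fst (w.snd * Complex.exp
    (((t * cut ρ w.fst ‖w.snd‖ * D (Complex.arg w.snd) : ℝ) : ℂ) * Complex.I))

/-- A line in the plane im = 0, with unit normal (n1, n2); `L > 0` is the flap side. -/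
structure Ln where
  n1 : ℝ
  n2 : ℝ
  a : ℝ
  unit : n1 ^ 2 + n2 ^ 2 = 1

/-- Signed distance to the line. -/
noncomputable def Ln.L (l : Ln) (w : W) : ℝ := l.n1 * w.fst + l.n2 * w.snd.re - l.a

/-- Reflection in the line. -/
noncomputable def Ln.refl (l : Ln) (w : W) : W :=
  pt (w.fst - 2 * l.L w * l.n1) (w.snd - ((2 * l.L w * l.n2 : ℝ) : ℂ))

/-- The complex coordinate (L, im) about the line as axis, turned by the angle `θ`. -/
noncomputable def Ln.zeta (l : Ln) (θ : ℝ) (w : W) : ℂ :=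
  Complex.exp (θ * Complex.I) * ((l.L w : ℂ) + (w.snd.im : ℂ) * Complex.I)

/-- Rotation by the angle `θ` about the line, as an axis in space. -/
noncomputable def Ln.rot (l : Ln) (θ : ℝ) (w : W) : W :=
  pt (w.fst + ((l.zeta θ w).re - l.L w) * l.n1)
    (((w.snd.re + ((l.zeta θ w).re - l.L w) * l.n2 : ℝ) : ℂ) +
      ((l.zeta θ w).im : ℂ) * Complex.I)

/-- `S` can be folded into `sl` by finitely many simple folds, each staying inside the set and
each moving only points whose distance to the fold line is at most `c` times the height. -/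
inductive Coll (c : ℝ) (sl : Set W) : Set W → Prop
  | done {S : Set W} (h : S ⊆ sl) : Coll c sl S
  | step {S : Set W} (l : Ln) (h : ∀ x ∈ S, 0 < l.L x → l.L x ≤ c * hgt x ∧ l.refl x ∈ S)
      (h' : Coll c sl {x ∈ S | l.L x ≤ 0}) : Coll c sl S

/-- The thin region over the base segment from (0,0) to (d,0). -/
def sliver (d τ : ℝ) : Set W :=
  {w | w.snd.im = 0 ∧ 0 ≤ w.snd.re ∧ w.snd.re ≤ τ * w.fst ∧ w.snd.re ≤ τ * (d - w.fst)}

/-- A triangle in normal position, with vertices (0,0), (d,0), (b1,b2), where d, b2 > 0. -/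
structure Tri where
  d : ℝ
  b1 : ℝ
  b2 : ℝ
  hd : 0 < d
  hb : 0 < b2

/-- Barycentric coordinate of the apex. -/
noncomputable def Tri.lB (T : Tri) (w : W) : ℝ := w.snd.re / T.b2

/-- Barycentric coordinate of the vertex (d,0). -/
noncomputable def Tri.lD (T : Tri) (w : W) : ℝ := (w.fst - T.b1 * (w.snd.re / T.b2)) / T.d

/-- Barycentric coordinate of the vertex (0,0). -/
noncomputable def Tri.lA (T : Tri) (w : W) : ℝ := 1 - T.lB w - T.lD w

/-- The least barycentric coordinate. -/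
noncomputable def Tri.m (T : Tri) (w : W) : ℝ := min (T.lA w) (min (T.lD w) (T.lB w))

/-- The closed triangle, as a subset of the plane im = 0. -/
def Tri.carrier (T : Tri) : Set W := {w | w.snd.im = 0 ∧ 0 ≤ T.m w}

/-- The bipyramid over the triangle, of slope `c`. -/
def Tri.lens (T : Tri) (c : ℝ) : Set W := {w | 0 ≤ T.m w ∧ |w.snd.im| ≤ c * T.m w}

/-- The three vertices. -/
noncomputable def Tri.vert (T : Tri) : Fin 3 → W := ![pt 0 0, pt T.d 0, pt T.b1 (T.b2 : ℂ)]

/-- `E` places the axis frame at an edge of length `d` of `P`: the plane im = 0 is kept, the edge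
lies on the axis between 0 and `d`, and `P` lies on the side re ≤ 0; (s₀, -h₀) is the third
vertex. -/
structure IsHinge (P : Tri) (d : ℝ) (E : W ≃ᵃⁱ[ℝ] W) : Prop where
  im : ∀ w, (E w).snd.im = w.snd.im
  third : ∃ s₀ h₀ : ℝ, 0 < h₀ ∧ ∀ w, P.m (E w) =
    min (-w.snd.re / h₀) (min ((w.fst + s₀ * (w.snd.re / h₀)) / d)
      (1 + w.snd.re / h₀ - (w.fst + s₀ * (w.snd.re / h₀)) / d))

/-- Two points have the same signs with respect to all functionals in `Ls`. -/
def SameCell (Ls : Set (W →ᵃ[ℝ] ℝ)) (x y : W) : Prop :=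
  ∀ Λ ∈ Ls, SignType.sign (Λ x) = SignType.sign (Λ y)

/-- `R` is piecewise an affine isometry on `S`, the pieces being cut out by finitely many planes. -/
def PA (S : Set W) (R : W → W) : Prop :=
  ∃ (Ls : Set (W →ᵃ[ℝ] ℝ)) (Is : Set (W ≃ᵃⁱ[ℝ] W)), Ls.Finite ∧ Is.Finite ∧
    ∀ x ∈ S, ∃ ι ∈ Is, ∀ y ∈ S, SameCell Ls x y → R y = ι y

/-- The family `q` is isometric on the pieces of `S` cut out by finitely many planes, for all
times in [0,1]. -/
def PAp (S : Set W) (q : ℝ → W → W) : Prop :=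
  ∃ Ls : Set (W →ᵃ[ℝ] ℝ), Ls.Finite ∧
    ∀ x ∈ S, ∀ y ∈ S, SameCell Ls x y → ∀ t ∈ Icc (0 : ℝ) 1, dist (q t x) (q t y) = dist x y

/-- A tree of triangles: triangle `k` (for k ≥ 1) is hinged along its base to an edge of triangle
`p k`, the edge being described by the placement `E k`. -/
structure Sys where
  T : ℕ → Tri
  p : ℕ → ℕ
  E : ℕ → (W ≃ᵃⁱ[ℝ] W)

/-- The first n + 1 triangles form a hinged tree. -/
def Sys.Ok (X : Sys) (n : ℕ) : Prop :=
  ∀ k, 1 ≤ k → k ≤ n → X.p k < k ∧ IsHinge (X.T (X.p k)) (X.T k).d (X.E k)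

/-- The frames of a configuration, and its dihedral angles. -/
structure Fr where
  J : ℕ → (W ≃ᵃⁱ[ℝ] W)
  b : ℕ → ℝ

/-- The configuration with frames `f` satisfies all clearance inequalities with constant `c`. -/
structure Clear (X : Sys) (n : ℕ) (c : ℝ) (f : Fr) : Prop where
  fr : ∀ k, 1 ≤ k → k ≤ n → ∀ w, f.J k w = f.J (X.p k) (X.E k (rotx (f.b k) w))
  ang : ∀ k, 1 ≤ k → k ≤ n → |f.b k| ≤ Real.pi - c
  base : ∀ k ≤ n, ∀ j < k, ∀ x ∈ (X.T k).carrier, ∀ u ∈ (X.T j).carrier,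
    c * hgt x ≤ dist (f.J k x) (f.J j u)
  mm : ∀ k ≤ n, ∀ j < k, ∀ x ∈ (X.T k).carrier, ∀ u ∈ (X.T j).carrier,
    c * (X.T j).m u ≤ dist (f.J k x) (f.J j u)
  seg : ∀ k ≤ n, ∀ j < k, j ≠ X.p k → ∀ s ∈ Icc 0 (X.T k).d, ∀ u ∈ (X.T j).carrier,
    c * min s ((X.T k).d - s) ≤ dist (f.J k (pt s 0)) (f.J j u)

end Pool.Agent.H334
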