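import Pool.Agent.Helper334_Fold.Defs
import Pool.Agent.Helper334_Fold.Tree

set_option autoImplicit false

open Set

namespace Pool.Agent.H334

/-- Polar coordinates in the plane im = 0. -/
noncomputable def pol (r φ : ℝ) : W := pt (r * Real.cos φ) ((r * Real.sin φ : ℝ) : ℂ)

/-- The line through the origin in direction `θ`; the flap side is that of larger angles. -/
noncomputable def ray (θ : ℝ) : Ln :=
  ⟨-Real.sin θ, Real.cos θ, 0, by rw [neg_sq]; exact Real.sin_sq_add_cos_sq θ⟩

/-- The mirror image in the line s = d / 2. -/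
noncomputable def mir (d : ℝ) (w : W) : W := pt (d - w.fst) w.snd

/-- The reflection in the plane im = 0. -/
noncomputable def flip (w : W) : W := pt w.fst (starRingEnd ℂ w.snd)

structure Model {n : ℕ} (X : HingedTree n) (S : Sys) (κ : Fin (n + 1) → (Plane →ᵃⁱ[ℝ] W)) :
    Prop where
  ok : S.Ok n
  vert : ∀ i : Fin (n + 1), ∀ j, κ i (X.vtx i j) = (S.T i).vert j
  im : ∀ i x, (κ i x).snd.im = 0
  tri : ∀ i : Fin (n + 1), κ i '' X.tri i = (S.T i).carrier
  par : ∀ k : Fin n, S.p (k.succ : Fin (n + 1)) = X.par k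
  edge : ∀ k : Fin n, ∀ s : ℝ,
    S.E (k.succ : Fin (n + 1)) (pt (s * (S.T (k.succ : Fin (n + 1))).d) 0) =
      κ (X.par k)
        (AffineMap.lineMap (X.vtx (X.par k) (X.u k)) (X.vtx (X.par k) (X.v k)) s)

end Pool.Agent.H334
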