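import Pool.Agent.Helper334_Fold.Defs2

set_option autoImplicit false

open Set


namespace Pool.Agent.H334
/- TARGET. Plain-words proof:
Ls, Is for R; Ls', Is' for R'. Take Ls'' = Ls ∪ {Λ.comp ι : Λ in Ls', ι in Is} (as affine maps; image2 of finite sets) and
Is'' = {ι.trans ι' : ι in Is, ι' in Is'}. For x in S pick ι with R y = ι y on the cell of x; pick ι' for R x in S';
for y in S in the Ls''-cell of x: R y = ι y, R x = ι x, and Λ (ι x), Λ (ι y) have the same sign for all Λ in Ls', so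
R' (R y) = ι' (R y) = ι' (ι y).
-/
theorem PA_comp {S S' : Set W} {R R' : W → W} (h : PA S R) (hm : ∀ x ∈ S, R x ∈ S')
    (h' : PA S' R') : PA S (fun x => R' (R x)) := by
  obtain ⟨Ls, Is, hL, hI, h1⟩ := h
  obtain ⟨Ls', Is', hL', hI', h2⟩ := h'
  refine ⟨Ls ∪ Set.image2 (fun (Λ : W →ᵃ[ℝ] ℝ) (ι : W ≃ᵃⁱ[ℝ] W) =>
      Λ.comp (ι.toAffineEquiv : W →ᵃ[ℝ] W)) Ls' Is,
    Set.image2 (fun (ι ι' : W ≃ᵃⁱ[ℝ] W) => ι.trans ι') Is Is',
    hL.union (hL'.image2 _ hI), hI.image2 _ hI', fun x hx => ?_⟩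
  obtain ⟨ι, hι, h3⟩ := h1 x hx
  obtain ⟨ι', hι', h4⟩ := h2 (R x) (hm x hx)
  refine ⟨ι.trans ι', ⟨ι, hι, ι', hι', rfl⟩, fun y hy hxy => ?_⟩
  have h5 : R y = ι y := h3 y hy fun Λ hΛ => hxy Λ (Or.inl hΛ)
  have h6 : R x = ι x := h3 x hx fun Λ _ => rfl
  have h7 : R' (R y) = ι' (R y) := by
    refine h4 (R y) (hm y hy) fun Λ hΛ => ?_
    rw [h5, h6]
    exact hxy _ (Or.inr ⟨Λ, hΛ, ι, hι, rfl⟩)
  change R' (R y) = ι' (ι y)
  rw [h7, h5]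

end Pool.Agent.H334
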