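import Pool.Agent.Helper334_Fold.Defs2

set_option autoImplicit false

open Set

namespace Pool.Agent.H334

theorem PA_isom (S : Set W) (J : W ≃ᵃⁱ[ℝ] W) : PA S J :=
  ⟨∅, {J}, Set.finite_empty, Set.finite_singleton _, fun _ _ => ⟨J, rfl, fun _ _ _ => rfl⟩⟩

end Pool.Agent.H334
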