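import Pool.Agent.Helper334_Fold.Defs2

set_option autoImplicit false

open Set


namespace Pool.Agent.H334
/- TARGET. Plain-words proof:
As for composition: Ls for R with isometries Is, Ls' for q. Take Ls'' = Ls ∪ {Λ.comp ι : Λ in Ls', ι in Is}. For x, y in S in
the same cell: R x = ι x, R y = ι y with the same ι in Is (x is in its own cell), the points ι x, ι y have the same signs for Ls', so
dist (q t (R x)) (q t (R y)) = dist (R x) (R y) = dist (ι x) (ι y) = dist x y.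
-/
theorem PAp_comp {S S' : Set W} {R : W → W} {q : ℝ → W → W} (h : PA S R)
    (hm : ∀ x ∈ S, R x ∈ S') (h' : PAp S' q) : PAp S (fun t x => q t (R x)) := by
  obtain ⟨Ls, Is, hL, hI, h1⟩ := h
  obtain ⟨Ls', hL', h2⟩ := h'
  refine ⟨Ls ∪ Set.image2 (fun (Λ : W →ᵃ[ℝ] ℝ) (ι : W ≃ᵃⁱ[ℝ] W) =>
    Λ.comp (ι.toAffineEquiv : W →ᵃ[ℝ] W)) Ls' Is, hL.union (hL'.image2 _ hI), ?_⟩
  intro x hx y hy hxy t ht
  obtain ⟨ι, hι, h3⟩ := h1 x hx
  have hc : SameCell Ls x y := fun Λ hΛ => hxy Λ (Or.inl hΛ)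
  have hRx : R x = ι x := h3 x hx fun _ _ => rfl
  have hRy : R y = ι y := h3 y hy hc
  have hc' : SameCell Ls' (R x) (R y) := by
    intro Λ hΛ
    rw [hRx, hRy]
    exact hxy (Λ.comp (ι.toAffineEquiv : W →ᵃ[ℝ] W)) (Or.inr ⟨Λ, hΛ, ι, hι, rfl⟩)
  have h4 := h2 (R x) (hm x hx) (R y) (hm y hy) hc' t ht
  show dist (q t (R x)) (q t (R y)) = dist x y
  rw [h4, hRx, hRy, ι.dist_map]

end Pool.Agent.H334
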