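import Pool.Agent.Helper334_Fold.Defs2

set_option autoImplicit false

open Set

namespace Pool.Agent.H334

theorem PAp_of_PA {S : Set W} {R : W → W} (h : PA S R) : PAp S (fun _ => R) := by
  obtain ⟨Ls, Is, hL, -, h⟩ := h
  refine ⟨Ls, hL, fun x hx y hy hxy t _ => ?_⟩
  obtain ⟨ι, -, hι⟩ := h x hx
  show dist (R x) (R y) = dist x y
  rw [hι y hy hxy, hι x hx (fun _ _ => rfl)]
  exact ι.isometry.dist_eq x y

end Pool.Agent.H334
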