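import Pool.Agent.Helper334_Fold.Defs2

set_option autoImplicit false

open Set


namespace Pool.Agent.H334
/- TARGET. Plain-words proof:
Take the union of the two finite sets of functionals: the same cell for the union implies the same cell for each.
-/
theorem PAp_of_two {S : Set W} {q q1 q2 : ℝ → W → W} (h1 : PAp S q1) (h2 : PAp S q2)
    (h : ∀ t ∈ Icc (0 : ℝ) 1, ∃ t' ∈ Icc (0 : ℝ) 1,
      (∀ x ∈ S, ∀ y ∈ S, dist (q t x) (q t y) = dist (q1 t' x) (q1 t' y)) ∨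
      (∀ x ∈ S, ∀ y ∈ S, dist (q t x) (q t y) = dist (q2 t' x) (q2 t' y))) : PAp S q := by
  obtain ⟨Ls1, hf1, hL1⟩ := h1
  obtain ⟨Ls2, hf2, hL2⟩ := h2
  refine ⟨Ls1 ∪ Ls2, hf1.union hf2, ?_⟩
  intro x hx y hy hc t ht
  have hc1 : SameCell Ls1 x y := fun Λ hΛ => hc Λ (Or.inl hΛ)
  have hc2 : SameCell Ls2 x y := fun Λ hΛ => hc Λ (Or.inr hΛ)
  obtain ⟨t', ht', h' | h'⟩ := h t ht
  · rw [h' x hx y hy]
    exact hL1 x hx y hy hc1 t' ht'
  · rw [h' x hx y hy]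
    exact hL2 x hx y hy hc2 t' ht'

end Pool.Agent.H334
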