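import Pool.Agent.Helper334_Fold.Defs2

set_option autoImplicit false

open Set


namespace Pool.Agent.H334
/- TARGET. Plain-words proof:
Let z, z' be nonzero (if one is 0 the left side is 0 and the right side is nonnegative), u = z/|z|,
u' = z'/|z'|, a = arg z, a' = arg z' in (-pi, pi]. Let A = InnerProductGeometry.angle z z'
(= angle u u'), which is in [0, pi] and equals |a - a'| if |a - a'| <= pi and 2 pi - |a - a'| otherwise
(Complex.angle_eq_abs_arg and Complex.arg_div_coe_angle / Real.Angle facts; or prove this by hand).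
Claim: |D a - D a'| <= M * A. If |a - a'| <= pi this is the Lipschitz condition. Otherwise say a < a';
then |D a - D a'| <= |D a - D (-pi)| + |D pi - D a'| <= M (a + pi) + M (pi - a') = M (2 pi - |a - a'|).
Mathlib has Complex.angle_le_mul_norm_sub : for unit vectors, angle x y <= pi/2 * ‖x - y‖
(Mathlib.Analysis.Complex.Angle). Finally min(|z|,|z'|) * |u - u'| <= |z - z'|: with r = |z|, r' = |z'|,
|z - z'|^2 = (r - r')^2 + r r' |u - u'|^2 >= min(r,r')^2 |u-u'|^2. And pi/2 <= 2.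
-/
theorem CRA1_cov {D : ℝ → ℝ} {M : ℝ} (hM : 0 ≤ M) (hD : Disp D M) {z z' : ℂ} (hz : z ≠ 0)
    (hz' : z' ≠ 0) : |D (Complex.arg z) - D (Complex.arg z')| ≤ M * |(z / z').arg| := by
  have h1 := Complex.arg_div_coe_angle hz hz'
  rw [← Real.Angle.coe_sub, Real.Angle.angle_eq_iff_two_pi_dvd_sub] at h1
  obtain ⟨k, hk⟩ := h1
  obtain ⟨a1, a2⟩ := Complex.arg_mem_Ioc z
  obtain ⟨b1, b2⟩ := Complex.arg_mem_Ioc z'
  obtain ⟨c1, c2⟩ := Complex.arg_mem_Ioc (z / z')
  set a := Complex.arg z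
  set b := Complex.arg z'
  set δ := (z / z').arg
  have hpi := Real.pi_pos
  have ha : a ∈ Icc (-Real.pi) Real.pi := ⟨a1.le, a2⟩
  have hb : b ∈ Icc (-Real.pi) Real.pi := ⟨b1.le, b2⟩
  have hl : (-Real.pi) ∈ Icc (-Real.pi) Real.pi := ⟨le_rfl, by linarith⟩
  have hr : Real.pi ∈ Icc (-Real.pi) Real.pi := ⟨by linarith, le_rfl⟩
  have hk1 : (k : ℝ) < 2 := by
    by_contra hc
    push Not at hc
    nlinarith
  have hk2 : (-2 : ℝ) < k := by
    by_contra hc
    push Not at hc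
    nlinarith
  have hk1' : k < 2 := by exact_mod_cast hk1
  have hk2' : -2 < k := by exact_mod_cast hk2
  have la := hD.lip a ha (-Real.pi) hl
  have lb := hD.lip Real.pi hr b hb
  have la' := hD.lip b hb (-Real.pi) hl
  have lb' := hD.lip Real.pi hr a ha
  rw [hD.left, sub_zero] at la la'
  rw [hD.right, zero_sub, abs_neg] at lb lb'
  have ea : |a - -Real.pi| = a + Real.pi := by rw [abs_of_nonneg (by linarith)]; ring
  have eb : |b - -Real.pi| = b + Real.pi := by rw [abs_of_nonneg (by linarith)]; ring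
  have ea' : |Real.pi - a| = Real.pi - a := abs_of_nonneg (by linarith)
  have eb' : |Real.pi - b| = Real.pi - b := abs_of_nonneg (by linarith)
  rw [ea] at la
  rw [eb] at la'
  rw [ea'] at lb'
  rw [eb'] at lb
  have htri : |D a - D b| ≤ |D a| + |D b| := abs_sub _ _
  obtain rfl | rfl | rfl : k = -1 ∨ k = 0 ∨ k = 1 := by omega
  · push_cast at hk
    have hneg : δ ≤ 0 := by linarith
    rw [abs_of_nonpos hneg]
    nlinarith
  · push_cast at hk
    have : δ = a - b := by linarith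
    rw [this]
    exact hD.lip a ha b hb
  · push_cast at hk
    have hpos : 0 ≤ δ := by linarith
    rw [abs_of_nonneg hpos]
    nlinarith

theorem CRA1_norm {z z' : ℂ} (hz : z ≠ 0) (hz' : z' ≠ 0) :
    min ‖z‖ ‖z'‖ * ‖(‖z‖⁻¹ : ℝ) • z - (‖z'‖⁻¹ : ℝ) • z'‖ ≤ ‖z - z'‖ := by
  have hr : 0 < ‖z‖ := norm_pos_iff.2 hz
  have hr' : 0 < ‖z'‖ := norm_pos_iff.2 hz'
  refine abs_le_of_sq_le_sq' ?_ (norm_nonneg _) |>.2
  rw [mul_pow, norm_sub_sq_real, norm_sub_sq_real, norm_smul, norm_smul, norm_inv, norm_inv,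
    norm_norm, norm_norm, inv_mul_cancel₀ hr.ne', inv_mul_cancel₀ hr'.ne', real_inner_smul_left,
    real_inner_smul_right]
  set r := ‖z‖
  set r' := ‖z'‖
  set c := inner ℝ z z'
  have hc : c ≤ r * r' := real_inner_le_norm z z'
  have h1 : (1 : ℝ) ^ 2 - 2 * (r⁻¹ * (r'⁻¹ * c)) + 1 ^ 2 = 2 * (r * r' - c) / (r * r') := by
    field_simp
    ring
  rw [h1]
  have hm0 : 0 ≤ min r r' := le_min hr.le hr'.le
  have hm : min r r' ^ 2 ≤ r * r' := by
    rw [pow_two]
    exact mul_le_mul (min_le_left _ _) (min_le_right _ _) hm0 hr.le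
  have h2 : min r r' ^ 2 * (2 * (r * r' - c) / (r * r')) ≤ 2 * (r * r' - c) := by
    rw [mul_div_assoc', div_le_iff₀ (mul_pos hr hr')]
    nlinarith
  nlinarith [sq_nonneg (r - r')]

theorem arg_lip {D : ℝ → ℝ} {M : ℝ} (hM : 0 ≤ M) (hD : Disp D M) (z z' : ℂ) :
    min ‖z‖ ‖z'‖ * |D (Complex.arg z) - D (Complex.arg z')| ≤ 2 * M * ‖z - z'‖ := by
  by_cases hz : z = 0
  · subst hz
    rw [norm_zero, min_eq_left (norm_nonneg _), zero_mul]
    positivity
  by_cases hz' : z' = 0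
  · subst hz'
    rw [norm_zero, min_eq_right (norm_nonneg _), zero_mul]
    positivity
  have hr : 0 < ‖z‖ := norm_pos_iff.2 hz
  have hr' : 0 < ‖z'‖ := norm_pos_iff.2 hz'
  have h1 := CRA1_cov hM hD hz hz'
  rw [← Complex.angle_eq_abs_arg hz hz'] at h1
  have h2 : InnerProductGeometry.angle z z' =
      InnerProductGeometry.angle ((‖z‖⁻¹ : ℝ) • z) ((‖z'‖⁻¹ : ℝ) • z') := by
    rw [InnerProductGeometry.angle_smul_left_of_pos _ _ (inv_pos.2 hr),
      InnerProductGeometry.angle_smul_right_of_pos _ _ (inv_pos.2 hr')]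
  have u1 : ‖(‖z‖⁻¹ : ℝ) • z‖ = 1 := by
    rw [norm_smul, norm_inv, norm_norm, inv_mul_cancel₀ hr.ne']
  have u2 : ‖(‖z'‖⁻¹ : ℝ) • z'‖ = 1 := by
    rw [norm_smul, norm_inv, norm_norm, inv_mul_cancel₀ hr'.ne']
  have h3 := Complex.angle_le_mul_norm_sub u1 u2
  rw [← h2] at h3
  have h4 := CRA1_norm hz hz'
  set A := InnerProductGeometry.angle z z'
  set N := ‖(‖z‖⁻¹ : ℝ) • z - (‖z'‖⁻¹ : ℝ) • z'‖
  have hN : 0 ≤ N := norm_nonneg _
  have h5 : A ≤ 2 * N := by
    have := Real.pi_le_four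
    nlinarith
  have hm0 : 0 ≤ min ‖z‖ ‖z'‖ := le_min hr.le hr'.le
  calc min ‖z‖ ‖z'‖ * |D (Complex.arg z) - D (Complex.arg z')|
      ≤ min ‖z‖ ‖z'‖ * (M * A) := mul_le_mul_of_nonneg_left h1 hm0
    _ ≤ min ‖z‖ ‖z'‖ * (M * (2 * N)) := by gcongr
    _ = 2 * M * (min ‖z‖ ‖z'‖ * N) := by ring
    _ ≤ 2 * M * ‖z - z'‖ := by gcongr

end Pool.Agent.H334
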