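import Pool.Agent.Helper334_Fold.Defs2

set_option autoImplicit false

open Set


namespace Pool.Agent.H334
/- TARGET. Plain-words proof:
Suppose bend t (s,z) = bend t (s',z'). First components: s = s'. The factor exp(i real) has modulus 1, so
|z| = |z'| =: r. If r = 0 both are 0. Otherwise put X = cut rho s r, in [0,1] (r > 0, max 0 _ / r >= 0), and
tau = t X in [0,t]. arg(z e^{i tau D(arg z)}): with a = arg z in (-pi, pi], z = r e^{ia}, the number is
r e^{i (a + tau D a)}. The function h(a) = a + tau D a is strictly increasing on [-pi, pi] with h(-pi) = -pi,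
h(pi) = pi (D vanishes there), so h(a) in (-pi, pi] for a in (-pi, pi]. Hence h(a) is the argument of the
image (Complex.arg_mul_cos_add_sin_mul_I or similar), so h(a) = h(a'), so a = a' by strict monotonicity, so z = z'.
-/
theorem bend_inj {D ρ : ℝ → ℝ} {M : ℝ} (hD : Disp D M) {t : ℝ} (ht : t ∈ Icc (0 : ℝ) 1)
    (hmono : ∀ τ ∈ Icc (0 : ℝ) t,
      StrictMonoOn (fun a => a + τ * D a) (Icc (-Real.pi) Real.pi)) :
    Function.Injective (bend D ρ t) := by
  intro w w' h
  have h1 : w.fst = w'.fst := by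
    have := congrArg (fun x : W => x.fst) h
    simpa [bend] using this
  have h2 : w.snd * Complex.exp
      (((t * cut ρ w.fst ‖w.snd‖ * D (Complex.arg w.snd) : ℝ) : ℂ) * Complex.I) =
      w'.snd * Complex.exp
      (((t * cut ρ w'.fst ‖w'.snd‖ * D (Complex.arg w'.snd) : ℝ) : ℂ) * Complex.I) :=
    congrArg (fun x : W => x.snd) h
  have hn : ‖w.snd‖ = ‖w'.snd‖ := by
    have := congrArg norm h2
    rw [norm_mul, norm_mul, Complex.norm_exp_ofReal_mul_I, Complex.norm_exp_ofReal_mul_I,
      mul_one, mul_one] at this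
    exact this
  rw [← h1, ← hn] at h2
  refine W_ext h1 ?_
  by_cases hz : w.snd = 0
  · rw [hz] at hn ⊢
    rw [norm_zero] at hn
    exact (norm_eq_zero.mp hn.symm).symm
  have hr : 0 < ‖w.snd‖ := norm_pos_iff.mpr hz
  set r := ‖w.snd‖ with hrdef
  set τ := t * cut ρ w.fst r with hτ
  have hc0 : 0 ≤ cut ρ w.fst r := by
    unfold cut
    exact le_min zero_le_one (div_nonneg (le_max_left _ _) hr.le)
  have hc1 : cut ρ w.fst r ≤ 1 := by
    unfold cut
    exact min_le_left _ _
  have hτm : τ ∈ Icc (0 : ℝ) t :=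
    ⟨mul_nonneg ht.1 hc0, mul_le_of_le_one_right ht.1 hc1⟩
  have hm := hmono τ hτm
  have hpi := Real.pi_pos
  have key : ∀ z : ℂ, ‖z‖ = r → Complex.arg (z * Complex.exp
      (((τ * D (Complex.arg z) : ℝ) : ℂ) * Complex.I)) = Complex.arg z + τ * D (Complex.arg z) := by
    intro z hzr
    have ha := Complex.arg_mem_Ioc z
    have hz' : z * Complex.exp (((τ * D (Complex.arg z) : ℝ) : ℂ) * Complex.I) =
        (r : ℂ) * (Complex.cos ((Complex.arg z + τ * D (Complex.arg z) : ℝ) : ℂ) +
          Complex.sin ((Complex.arg z + τ * D (Complex.arg z) : ℝ) : ℂ) * Complex.I) := by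
      rw [← Complex.exp_mul_I]
      have e1 : (r : ℂ) * Complex.exp ((Complex.arg z : ℂ) * Complex.I) = z := by
        rw [← hzr]; exact Complex.norm_mul_exp_arg_mul_I z
      have e2 : (((Complex.arg z + τ * D (Complex.arg z) : ℝ) : ℂ)) * Complex.I =
          (Complex.arg z : ℂ) * Complex.I + ((τ * D (Complex.arg z) : ℝ) : ℂ) * Complex.I := by
        push_cast
        ring
      rw [e2, Complex.exp_add, ← mul_assoc, e1]
    rw [hz']
    apply Complex.arg_mul_cos_add_sin_mul_I hr
    constructor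
    · have := hm (a := -Real.pi) (b := Complex.arg z) ⟨le_refl _, by linarith⟩
        ⟨ha.1.le, ha.2⟩ ha.1
      simp only [hD.left, mul_zero, add_zero] at this
      exact this
    · have := hm.monotoneOn (a := Complex.arg z) (b := Real.pi) ⟨ha.1.le, ha.2⟩
        ⟨by linarith, le_refl _⟩ ha.2
      simp only [hD.right, mul_zero, add_zero] at this
      exact this
  have k1 := key w.snd rfl
  have k2 := key w'.snd hn.symm
  have h3 := congrArg Complex.arg h2
  rw [k1, k2] at h3
  have ha := Complex.arg_mem_Ioc w.snd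
  have ha' := Complex.arg_mem_Ioc w'.snd
  have h4 : Complex.arg w.snd = Complex.arg w'.snd :=
    hm.injOn ⟨ha.1.le, ha.2⟩ ⟨ha'.1.le, ha'.2⟩ h3
  exact Complex.ext_norm_arg hn h4

end Pool.Agent.H334
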