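import Pool.Agent.Helper334_Fold.Defs2
import Pool.Agent.Helper334_Fold.P_arg_lip

set_option autoImplicit false

open Set


namespace Pool.Agent.H334

theorem bend_lip_exp (α β : ℝ) :
    ‖Complex.exp ((α : ℂ) * Complex.I) - Complex.exp ((β : ℂ) * Complex.I)‖ ≤ |α - β| := by
  have h : Complex.exp ((α : ℂ) * Complex.I) - Complex.exp ((β : ℂ) * Complex.I) =
      Complex.exp ((β : ℂ) * Complex.I) * (Complex.exp (Complex.I * ((α - β : ℝ) : ℂ)) - 1) := by
    rw [mul_sub, ← Complex.exp_add, mul_one]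
    congr 2
    push_cast
    ring
  rw [h, norm_mul, Complex.norm_exp_ofReal_mul_I, one_mul]
  exact Real.norm_exp_I_mul_ofReal_sub_one_le

theorem bend_lip_rot (z z' : ℂ) (α β : ℝ) :
    ‖z * Complex.exp ((α : ℂ) * Complex.I) - z' * Complex.exp ((β : ℂ) * Complex.I)‖ ≤
      ‖z - z'‖ + min ‖z‖ ‖z'‖ * |α - β| := by
  rcases le_total ‖z‖ ‖z'‖ with h | h
  · rw [min_eq_left h]
    have e : z * Complex.exp ((α : ℂ) * Complex.I) - z' * Complex.exp ((β : ℂ) * Complex.I) =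
        (z - z') * Complex.exp ((β : ℂ) * Complex.I) +
          z * (Complex.exp ((α : ℂ) * Complex.I) - Complex.exp ((β : ℂ) * Complex.I)) := by ring
    rw [e]
    refine (norm_add_le _ _).trans ?_
    rw [norm_mul, norm_mul, Complex.norm_exp_ofReal_mul_I, mul_one]
    gcongr
    exact bend_lip_exp α β
  · rw [min_eq_right h]
    have e : z * Complex.exp ((α : ℂ) * Complex.I) - z' * Complex.exp ((β : ℂ) * Complex.I) =
        (z - z') * Complex.exp ((α : ℂ) * Complex.I) +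
          z' * (Complex.exp ((α : ℂ) * Complex.I) - Complex.exp ((β : ℂ) * Complex.I)) := by ring
    rw [e]
    refine (norm_add_le _ _).trans ?_
    rw [norm_mul, norm_mul, Complex.norm_exp_ofReal_mul_I, mul_one]
    gcongr
    exact bend_lip_exp α β

theorem bend_lip_cut_nonneg (ρ : ℝ → ℝ) (s : ℝ) {r : ℝ} (hr : 0 ≤ r) : 0 ≤ cut ρ s r := by
  unfold cut
  exact le_min zero_le_one (div_nonneg (le_max_left _ _) hr)

theorem bend_lip_cut_le (ρ : ℝ → ℝ) (s r : ℝ) : cut ρ s r ≤ 1 := by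
  unfold cut
  exact min_le_left _ _

theorem bend_lip_cut_mul (ρ : ℝ → ℝ) (s : ℝ) {r : ℝ} (hr : 0 ≤ r) :
    cut ρ s r * r = min r (max 0 (2 * ρ s - r)) := by
  unfold cut
  rcases hr.eq_or_lt with rfl | hr
  · rw [mul_zero, min_eq_left (le_max_left _ _)]
  · rw [min_mul_of_nonneg _ _ hr.le, one_mul, div_mul_cancel₀ _ hr.ne']

theorem bend_lip_g {ρ : ℝ → ℝ} (hρ : LipschitzWith 1 ρ) (s s' r r' : ℝ) :
    |min r (max 0 (2 * ρ s - r)) - min r' (max 0 (2 * ρ s' - r'))| ≤ 2 * |s - s'| + |r - r'| := by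
  have h1 := abs_min_sub_min_le_max r (max 0 (2 * ρ s - r)) r' (max 0 (2 * ρ s' - r'))
  have h2 := abs_max_sub_max_le_max 0 (2 * ρ s - r) 0 (2 * ρ s' - r')
  rw [sub_zero, abs_zero, max_eq_right (abs_nonneg (2 * ρ s - r - (2 * ρ s' - r')))] at h2
  have h3 : |ρ s - ρ s'| ≤ |s - s'| := by
    have := hρ.dist_le_mul s s'
    rw [Real.dist_eq, Real.dist_eq] at this
    simpa using this
  have h4 : |2 * ρ s - r - (2 * ρ s' - r')| ≤ 2 * |s - s'| + |r - r'| := by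
    have e : 2 * ρ s - r - (2 * ρ s' - r') = 2 * (ρ s - ρ s') - (r - r') := by ring
    rw [e]
    refine (abs_sub _ _).trans ?_
    rw [abs_mul, abs_two]
    linarith
  refine h1.trans (max_le ?_ (h2.trans h4))
  have := abs_nonneg (s - s')
  linarith

theorem bend_lip_X {ρ : ℝ → ℝ} (hρ : LipschitzWith 1 ρ) (s s' : ℝ) {r r' : ℝ} (hr : 0 ≤ r) (hr' : 0 ≤ r') :
    min r r' * |cut ρ s r - cut ρ s' r'| ≤ 2 * |s - s'| + 2 * |r - r'| := by
  have hg := bend_lip_g hρ s s' r r'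
  rw [← bend_lip_cut_mul ρ s hr, ← bend_lip_cut_mul ρ s' hr'] at hg
  have hX0 := bend_lip_cut_nonneg ρ s hr
  have hX1 := bend_lip_cut_le ρ s r
  have hX0' := bend_lip_cut_nonneg ρ s' hr'
  have hX1' := bend_lip_cut_le ρ s' r'
  have habs := abs_nonneg (r - r')
  rcases le_total r r' with h | h
  · rw [min_eq_left h]
    have e : r * |cut ρ s r - cut ρ s' r'| = |(cut ρ s r * r - cut ρ s' r' * r') - cut ρ s' r' * (r - r')| := by
      rw [← abs_of_nonneg hr, ← abs_mul, abs_of_nonneg hr]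
      congr 1
      ring
    rw [e]
    refine (abs_sub _ _).trans ?_
    rw [abs_mul, abs_of_nonneg hX0']
    nlinarith
  · rw [min_eq_right h]
    have e : r' * |cut ρ s r - cut ρ s' r'| = |(cut ρ s r * r - cut ρ s' r' * r') - cut ρ s r * (r - r')| := by
      rw [← abs_of_nonneg hr', ← abs_mul, abs_of_nonneg hr']
      congr 1
      ring
    rw [e]
    refine (abs_sub _ _).trans ?_
    rw [abs_mul, abs_of_nonneg hX0]
    nlinarith

theorem bend_lip_prod {t t' X X' d d' P : ℝ} (ht' : t' ∈ Icc (0 : ℝ) 1) (hX : X ∈ Icc (0 : ℝ) 1)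
    (hX' : X' ∈ Icc (0 : ℝ) 1) (hd : |d| ≤ P) :
    |t * X * d - t' * X' * d'| ≤ P * |t - t'| + P * |X - X'| + |d - d'| := by
  have e : t * X * d - t' * X' * d' = (t - t') * X * d + t' * (X - X') * d + t' * X' * (d - d') := by ring
  rw [e]
  refine (abs_add_three _ _ _).trans ?_
  rw [abs_mul, abs_mul, abs_mul, abs_mul, abs_mul, abs_mul, abs_of_nonneg hX.1, abs_of_nonneg ht'.1,
    abs_of_nonneg hX'.1]
  have hP : 0 ≤ P := (abs_nonneg _).trans hd
  have h1 : |t - t'| * X * |d| ≤ P * |t - t'| := by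
    calc |t - t'| * X * |d| ≤ |t - t'| * 1 * P :=
          mul_le_mul (mul_le_mul_of_nonneg_left hX.2 (abs_nonneg _)) hd (abs_nonneg _) (by positivity)
      _ = P * |t - t'| := by ring
  have h2 : t' * |X - X'| * |d| ≤ P * |X - X'| := by
    calc t' * |X - X'| * |d| ≤ 1 * |X - X'| * P :=
          mul_le_mul (mul_le_mul_of_nonneg_right ht'.2 (abs_nonneg _)) hd (abs_nonneg _) (by positivity)
      _ = P * |X - X'| := by ring
  have h3 : t' * X' * |d - d'| ≤ |d - d'| := by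
    have h4 : t' * X' ≤ 1 := mul_le_one₀ ht'.2 hX'.1 hX'.2
    calc t' * X' * |d - d'| ≤ 1 * |d - d'| := mul_le_mul_of_nonneg_right h4 (abs_nonneg _)
      _ = |d - d'| := one_mul _
  linarith

/- TARGET. Plain-words proof:
Write z = w.snd, z' = w'.snd, r = |z|, r' = |z'|, s = w.fst, s' = w'.fst, X = cut rho s r, X' = cut rho s' r',
d = D (arg z), d' = D (arg z'). 0 <= X <= 1, 0 <= X' <= 1 and |d|, |d'| <= 2 pi (arg lies in [-pi, pi]).
Elementary: for real al, be, |z e^{i al} - z' e^{i be}| <= |z - z'| + min(r,r') |al - be|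
 (write the difference as (z - z') e^{i be} + z (e^{i al} - e^{i be}) or as (z - z') e^{i al} + z' (e^{i al} - e^{i be}),
 and |e^{i al} - e^{i be}| <= |al - be|).
So dist <= |s - s'| + |z - z'| + min(r,r') |t X d - t' X' d'| (W_dist_le), and
 |t X d - t' X' d'| <= |t - t'| X |d| + t' |X - X'| |d| + t' X' |d - d'| <= 2 pi |t - t'| + 2 pi |X - X'| + |d - d'|.
 * min(r,r') 2 pi |t-t'| <= 2 pi r |t-t'|.
 * min(r,r') |d - d'| <= 2 M |z - z'| by arg_lip.
 * min(r,r') |X - X'| <= 2|s-s'| + 2|r-r'|: let g = min r (max 0 (2 rho s - r)) = X r (also when r = 0), same g'.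
   |g - g'| <= 2|s - s'| + |r - r'| since rho is 1-Lipschitz (min and max are 1-Lipschitz). If r <= r' then
   r |X - X'| = |g - X' r| <= |g - g'| + X' |r' - r|; if r' < r symmetric.
Since |r - r'| <= |z - z'|: dist <= 2 pi r |t-t'| + (1 + 4 pi)|s-s'| + (1 + 4 pi + 2 M)|z - z'|, with
1 + 4 pi <= 14, and |s-s'| <= dist w w', |z-z'| <= dist w w' (W_fst_le, W_snd_le), so the constant is at most
28 + 2 M <= 28 + 4 M.
-/
theorem bend_lip {D ρ : ℝ → ℝ} {M : ℝ} (hM : 0 ≤ M) (hD : Disp D M)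
    (hB : ∀ a ∈ Icc (-Real.pi) Real.pi, |D a| ≤ 2 * Real.pi) (hρ : LipschitzWith 1 ρ)
    (hρ0 : ∀ s, 0 ≤ ρ s) {t t' : ℝ} (ht : t ∈ Icc (0 : ℝ) 1) (ht' : t' ∈ Icc (0 : ℝ) 1)
    (w w' : W) :
    dist (bend D ρ t w) (bend D ρ t' w') ≤
      2 * Real.pi * ‖w.snd‖ * |t - t'| + (28 + 4 * M) * dist w w' := by
  have h0 := W_dist_le (bend D ρ t w) (bend D ρ t' w')
  unfold bend at h0
  simp only [pt_fst, pt_snd] at h0
  have h1 := bend_lip_rot w.snd w'.snd (t * cut ρ w.fst ‖w.snd‖ * D (Complex.arg w.snd))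
    (t' * cut ρ w'.fst ‖w'.snd‖ * D (Complex.arg w'.snd))
  have harg : ∀ z : ℂ, Complex.arg z ∈ Icc (-Real.pi) Real.pi := fun z =>
    ⟨(Complex.neg_pi_lt_arg z).le, Complex.arg_le_pi z⟩
  have h2 := bend_lip_prod (t := t) (d' := D (Complex.arg w'.snd)) ht'
    ⟨bend_lip_cut_nonneg ρ w.fst (norm_nonneg w.snd), bend_lip_cut_le ρ w.fst ‖w.snd‖⟩
    ⟨bend_lip_cut_nonneg ρ w'.fst (norm_nonneg w'.snd), bend_lip_cut_le ρ w'.fst ‖w'.snd‖⟩
    (hB (Complex.arg w.snd) (harg _))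
  have h3 := arg_lip hM hD w.snd w'.snd
  have h4 := bend_lip_X hρ w.fst w'.fst (norm_nonneg w.snd) (norm_nonneg w'.snd)
  have h5 : |‖w.snd‖ - ‖w'.snd‖| ≤ ‖w.snd - w'.snd‖ := abs_norm_sub_norm_le _ _
  have h6 := W_fst_le w w'
  have h7 := W_snd_le w w'
  set m := min ‖w.snd‖ ‖w'.snd‖ with hm
  have hm0 : 0 ≤ m := le_min (norm_nonneg _) (norm_nonneg _)
  have hmr : m ≤ ‖w.snd‖ := min_le_left _ _
  have hpi : 0 < Real.pi := Real.pi_pos
  have hpi2 : Real.pi < 3.15 := Real.pi_lt_d2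
  have h8 := mul_le_mul_of_nonneg_left h2 hm0
  have h9 : m * |t - t'| ≤ ‖w.snd‖ * |t - t'| := mul_le_mul_of_nonneg_right hmr (abs_nonneg _)
  have h10 : 2 * Real.pi * (m * |t - t'|) ≤ 2 * Real.pi * (‖w.snd‖ * |t - t'|) :=
    mul_le_mul_of_nonneg_left h9 (by positivity)
  have h11 : 2 * Real.pi * (m * |cut ρ w.fst ‖w.snd‖ - cut ρ w'.fst ‖w'.snd‖|) ≤
      2 * Real.pi * (2 * |w.fst - w'.fst| + 2 * |‖w.snd‖ - ‖w'.snd‖|) :=
    mul_le_mul_of_nonneg_left h4 (by positivity)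
  have h12 : 2 * Real.pi * (2 * |w.fst - w'.fst| + 2 * |‖w.snd‖ - ‖w'.snd‖|) ≤
      2 * Real.pi * (2 * dist w w' + 2 * dist w w') :=
    mul_le_mul_of_nonneg_left (by linarith) (by positivity)
  have h13 : 2 * M * ‖w.snd - w'.snd‖ ≤ 2 * M * dist w w' := mul_le_mul_of_nonneg_left h7 (by positivity)
  have h14 : 8 * Real.pi * dist w w' ≤ 26 * dist w w' :=
    mul_le_mul_of_nonneg_right (by linarith) dist_nonneg
  have h15 : 0 ≤ M * dist w w' := mul_nonneg hM dist_nonneg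
  unfold bend
  refine h0.trans ?_
  linarith [h1, h8, h10, h11, h12, h13, h14, h15, h3, h6, h7]

end Pool.Agent.H334
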