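import Pool.Agent.Helper334_Fold.Defs2

set_option autoImplicit false

open Set


namespace Pool.Agent.H334
theorem carrier_hull_fst_add (x y : W) : (x + y).fst = x.fst + y.fst := rfl
theorem carrier_hull_snd_add (x y : W) : (x + y).snd = x.snd + y.snd := rfl
theorem carrier_hull_fst_smul (a : ℝ) (x : W) : (a • x).fst = a * x.fst := rfl
theorem carrier_hull_snd_smul (a : ℝ) (x : W) : (a • x).snd = (a : ℂ) * x.snd := by
  change a • x.snd = _
  rw [Complex.real_smul]

theorem carrier_hull_mem (T : Tri) (w : W) :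
    w ∈ T.carrier ↔ w.snd.im = 0 ∧ 0 ≤ T.lA w ∧ 0 ≤ T.lD w ∧ 0 ≤ T.lB w := by
  unfold Tri.carrier Tri.m
  rw [Set.mem_ofPred_eq, le_min_iff, le_min_iff]

theorem carrier_hull_lB (T : Tri) (a b : ℝ) (x y : W) :
    T.lB (a • x + b • y) = a * T.lB x + b * T.lB y := by
  unfold Tri.lB
  rw [carrier_hull_snd_add, carrier_hull_snd_smul, carrier_hull_snd_smul]
  simp only [Complex.add_re, Complex.re_ofReal_mul]
  ring

theorem carrier_hull_lD (T : Tri) (a b : ℝ) (x y : W) :
    T.lD (a • x + b • y) = a * T.lD x + b * T.lD y := by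
  unfold Tri.lD
  rw [carrier_hull_snd_add, carrier_hull_snd_smul, carrier_hull_snd_smul,
    carrier_hull_fst_add, carrier_hull_fst_smul, carrier_hull_fst_smul]
  simp only [Complex.add_re, Complex.re_ofReal_mul]
  ring

theorem carrier_hull_convex (T : Tri) : Convex ℝ T.carrier := by
  intro x hx y hy a b ha hb hab
  rw [carrier_hull_mem] at hx hy ⊢
  obtain ⟨hx1, hx2, hx3, hx4⟩ := hx
  obtain ⟨hy1, hy2, hy3, hy4⟩ := hy
  refine ⟨?_, ?_, ?_, ?_⟩
  · rw [carrier_hull_snd_add, carrier_hull_snd_smul, carrier_hull_snd_smul]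
    simp [hx1, hy1]
  · have h1 : T.lA (a • x + b • y) = a * T.lA x + b * T.lA y := by
      unfold Tri.lA
      rw [carrier_hull_lB, carrier_hull_lD]
      linear_combination (-1) * hab
    rw [h1]
    positivity
  · rw [carrier_hull_lD]
    positivity
  · rw [carrier_hull_lB]
    positivity

theorem carrier_hull (T : Tri) : T.carrier = convexHull ℝ (Set.range T.vert) := by
  have hd : T.d ≠ 0 := T.hd.ne'
  have hb : T.b2 ≠ 0 := T.hb.ne'
  apply Set.Subset.antisymm
  · intro w hw
    rw [carrier_hull_mem] at hw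
    obtain ⟨h1, h2, h3, h4⟩ := hw
    have hw : w = ∑ i : Fin 3, (![T.lA w, T.lD w, T.lB w] i) • T.vert i := by
      rw [Fin.sum_univ_three]
      simp only [Tri.vert, Matrix.cons_val_zero, Matrix.cons_val_one, Matrix.cons_val]
      apply W_ext
      · rw [carrier_hull_fst_add, carrier_hull_fst_add, carrier_hull_fst_smul,
          carrier_hull_fst_smul, carrier_hull_fst_smul, pt_fst, pt_fst, pt_fst]
        unfold Tri.lD Tri.lB
        field_simp
        ring
      · rw [carrier_hull_snd_add, carrier_hull_snd_add, carrier_hull_snd_smul,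
          carrier_hull_snd_smul, carrier_hull_snd_smul, pt_snd, pt_snd, pt_snd, mul_zero,
          mul_zero, zero_add, zero_add, ← Complex.ofReal_mul]
        apply Complex.ext
        · rw [Complex.ofReal_re]
          unfold Tri.lB
          field_simp
        · rw [Complex.ofReal_im, h1]
    rw [hw]
    refine (convex_convexHull ℝ _).sum_mem ?_ ?_ ?_
    · intro i _
      fin_cases i
      · exact h2
      · exact h3
      · exact h4
    · rw [Fin.sum_univ_three]
      simp only [Matrix.cons_val_zero, Matrix.cons_val_one, Matrix.cons_val]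
      unfold Tri.lA
      ring
    · intro i _
      exact subset_convexHull ℝ _ (Set.mem_range_self i)
  · refine convexHull_min ?_ (carrier_hull_convex T)
    rintro _ ⟨i, rfl⟩
    rw [carrier_hull_mem]
    unfold Tri.lA Tri.lB Tri.lD Tri.vert
    fin_cases i
    · simp
    · simp [hd]
    · simp [hb]

end Pool.Agent.H334
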