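import Pool.Agent.Helper334_Fold.Defs2
import Pool.Agent.Helper334_Fold.P_carrier_hull

set_option autoImplicit false

open Set


namespace Pool.Agent.H334



theorem W_norm_sq (w : W) : ‖w‖ ^ 2 = w.fst ^ 2 + ‖w.snd‖ ^ 2 := by
  have h := W_dist_sq w 0
  rw [dist_zero_right] at h
  simpa using h

/-- The linear isometry of the plane into space with first direction `(a, b)`. -/
noncomputable def chartL (a b σ : ℝ) (hab : a ^ 2 + b ^ 2 = 1) (hσ : σ ^ 2 = 1) : Plane →ₗᵢ[ℝ] W where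
  toFun x := pt (x 0 * a + x 1 * b) ((σ * (x 1 * a - x 0 * b) : ℝ) : ℂ)
  map_add' x y := by
    refine W_ext ?_ ?_
    · show (x + y) 0 * a + (x + y) 1 * b = (x 0 * a + x 1 * b) + (y 0 * a + y 1 * b)
      simp only [PiLp.add_apply]
      ring
    · show ((σ * ((x + y) 1 * a - (x + y) 0 * b) : ℝ) : ℂ) =
        ((σ * (x 1 * a - x 0 * b) : ℝ) : ℂ) + ((σ * (y 1 * a - y 0 * b) : ℝ) : ℂ)
      rw [← Complex.ofReal_add]
      congr 1
      simp only [PiLp.add_apply]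
      ring
  map_smul' c x := by
    refine W_ext ?_ ?_
    · show (c • x) 0 * a + (c • x) 1 * b = c * (x 0 * a + x 1 * b)
      simp only [PiLp.smul_apply, smul_eq_mul]
      ring
    · show ((σ * ((c • x) 1 * a - (c • x) 0 * b) : ℝ) : ℂ) =
        c • ((σ * (x 1 * a - x 0 * b) : ℝ) : ℂ)
      rw [Complex.real_smul, ← Complex.ofReal_mul]
      congr 1
      simp only [PiLp.smul_apply, smul_eq_mul]
      ring
  norm_map' x := by
    have h1 : ‖(pt (x 0 * a + x 1 * b) ((σ * (x 1 * a - x 0 * b) : ℝ) : ℂ) : W)‖ ^ 2 = ‖x‖ ^ 2 := by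
      rw [W_norm_sq, pt_fst, pt_snd, Complex.norm_real, Real.norm_eq_abs, sq_abs,
        EuclideanSpace.norm_sq_eq, Fin.sum_univ_two, Real.norm_eq_abs, Real.norm_eq_abs, sq_abs,
        sq_abs]
      have : (x 0 * a + x 1 * b) ^ 2 + (σ * (x 1 * a - x 0 * b)) ^ 2 =
          (x 0 * a + x 1 * b) ^ 2 + σ ^ 2 * (x 1 * a - x 0 * b) ^ 2 := by ring
      rw [this, hσ]
      have : (x 0 * a + x 1 * b) ^ 2 + 1 * (x 1 * a - x 0 * b) ^ 2 =
          (x 0 ^ 2 + x 1 ^ 2) * (a ^ 2 + b ^ 2) := by ring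
      rw [this, hab, mul_one]
    exact (sq_eq_sq₀ (norm_nonneg _) (norm_nonneg _)).1 h1

theorem chartL_apply (a b σ : ℝ) (hab : a ^ 2 + b ^ 2 = 1) (hσ : σ ^ 2 = 1) (x : Plane) :
    chartL a b σ hab hσ x = pt (x 0 * a + x 1 * b) ((σ * (x 1 * a - x 0 * b) : ℝ) : ℂ) := rfl

/-- The chart. -/
noncomputable def chartA (L : Plane →ₗᵢ[ℝ] W) (v0 : Plane) : Plane →ᵃⁱ[ℝ] W where
  toFun x := L (x - v0)
  linear := L.toLinearMap
  map_vadd' p v := by
    show L (v + p - v0) = L v + L (p - v0)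
    rw [← map_add, add_sub_assoc]
  norm_map x := L.norm_map x

theorem chartA_apply (L : Plane →ₗᵢ[ℝ] W) (v0 x : Plane) : chartA L v0 x = L (x - v0) := rfl

theorem cross_ne {v : Fin 3 → Plane} (hv : AffineIndependent ℝ v) :
    (v 1 - v 0) 0 * (v 2 - v 0) 1 - (v 1 - v 0) 1 * (v 2 - v 0) 0 ≠ 0 := by
  intro h0
  have h1 : ∀ i : Fin 2, (v 1 - v 0) i = 0 := by
    intro i
    rw [affineIndependent_iff] at hv
    have h2 := hv Finset.univ ![-(v 2 - v 0) i + (v 1 - v 0) i, (v 2 - v 0) i, -(v 1 - v 0) i]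
      (by
        rw [Fin.sum_univ_three]
        simp only [Matrix.cons_val_zero, Matrix.cons_val_one, Matrix.cons_val_two,
          Matrix.tail_cons, Matrix.head_cons]
        ring)
      (by
        rw [Fin.sum_univ_three]
        ext j
        simp only [PiLp.sub_apply] at h0
        fin_cases i <;> fin_cases j <;>
          simp [Matrix.cons_val_zero, Matrix.cons_val_one, Matrix.cons_val_two] <;> linarith)
      2 (Finset.mem_univ _)
    have h4 : -(v 1 - v 0) i = 0 := h2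
    exact neg_eq_zero.1 h4
  have h3 : v 1 = v 0 := by
    rw [← sub_eq_zero]
    ext i
    exact h1 i
  exact absurd (hv.injective h3) (by decide)

theorem chart (v : Fin 3 → Plane) (hv : AffineIndependent ℝ v) :
    ∃ (T : Tri) (κ : Plane →ᵃⁱ[ℝ] W), (∀ i, κ (v i) = T.vert i) ∧ (∀ x, (κ x).snd.im = 0) ∧
      κ '' (convexHull ℝ (Set.range v)) = T.carrier := by
  have hc := cross_ne hv
  set u := v 1 - v 0 with hu
  set w := v 2 - v 0 with hw
  have hd0 : 0 < u 0 ^ 2 + u 1 ^ 2 := by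
    by_contra h
    have h1 : u 0 ^ 2 + u 1 ^ 2 ≤ 0 := not_lt.1 h
    have h2 : u 0 = 0 := by nlinarith [sq_nonneg (u 0), sq_nonneg (u 1)]
    have h3 : u 1 = 0 := by nlinarith [sq_nonneg (u 0), sq_nonneg (u 1)]
    apply hc
    rw [h2, h3]
    ring
  set d := Real.sqrt (u 0 ^ 2 + u 1 ^ 2) with hdd
  have hd : 0 < d := Real.sqrt_pos.2 hd0
  have hd2 : d ^ 2 = u 0 ^ 2 + u 1 ^ 2 := Real.sq_sqrt hd0.le
  obtain ⟨σ, hσ, hσc⟩ : ∃ σ : ℝ, σ ^ 2 = 1 ∧ 0 < σ * (u 0 * w 1 - u 1 * w 0) := by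
    rcases lt_or_gt_of_ne hc with h | h
    · exact ⟨-1, by norm_num, by linarith⟩
    · exact ⟨1, by norm_num, by linarith⟩
  have hab : (u 0 / d) ^ 2 + (u 1 / d) ^ 2 = 1 := by
    field_simp
    linarith
  let T : Tri := ⟨d, (w 0 * u 0 + w 1 * u 1) / d, σ * (u 0 * w 1 - u 1 * w 0) / d, hd,
    div_pos hσc hd⟩
  let κ := chartA (chartL (u 0 / d) (u 1 / d) σ hab hσ) (v 0)
  have h1 : ∀ i, κ (v i) = T.vert i := by
    intro i
    show chartL (u 0 / d) (u 1 / d) σ hab hσ (v i - v 0) = T.vert i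
    rw [chartL_apply]
    fin_cases i
    · show pt _ _ = pt 0 0
      refine W_ext ?_ ?_
      · show (v 0 - v 0) 0 * _ + (v 0 - v 0) 1 * _ = (0 : ℝ)
        simp
      · show ((σ * ((v 0 - v 0) 1 * _ - (v 0 - v 0) 0 * _) : ℝ) : ℂ) = 0
        simp
    · show pt _ _ = pt d 0
      refine W_ext ?_ ?_
      · show u 0 * (u 0 / d) + u 1 * (u 1 / d) = d
        field_simp
        linarith
      · show ((σ * (u 1 * (u 0 / d) - u 0 * (u 1 / d)) : ℝ) : ℂ) = 0
        rw [Complex.ofReal_eq_zero]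
        ring
    · show pt _ _ = pt ((w 0 * u 0 + w 1 * u 1) / d) ((σ * (u 0 * w 1 - u 1 * w 0) / d : ℝ) : ℂ)
      refine W_ext ?_ ?_
      · show w 0 * (u 0 / d) + w 1 * (u 1 / d) = (w 0 * u 0 + w 1 * u 1) / d
        ring
      · show ((σ * (w 1 * (u 0 / d) - w 0 * (u 1 / d)) : ℝ) : ℂ) =
          ((σ * (u 0 * w 1 - u 1 * w 0) / d : ℝ) : ℂ)
        congr 1
        ring
  refine ⟨T, κ, h1, fun x => ?_, ?_⟩
  · exact Complex.ofReal_im _
  · have h2 := κ.toAffineMap.image_convexHull (Set.range v)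
    have h3 : κ.toAffineMap '' Set.range v = Set.range T.vert := by
      rw [← Set.range_comp]
      congr 1
      funext i
      exact h1 i
    rw [h3, ← carrier_hull] at h2
    exact h2

end Pool.Agent.H334
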