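import Pool.Agent.Helper334_Fold.Defs2
import Pool.Agent.H575R2.Farkas

set_option autoImplicit false

open Set


namespace Pool.Agent.H334
/- TARGET. Plain-words proof:
Work in V × ℝ. Let P be the finite set of vectors p_ij = (a_i - b_j, φ(a_i)). Claim: (0,1) is not in the convex cone generated by the p_ij. Otherwise Σ c_ij (a_i - b_j) = 0, Σ c_ij φ(a_i) = 1 with c_ij >= 0, so C = Σ c_ij > 0 and
x = Σ (c_ij/C) a_i = Σ (c_ij/C) b_j lies in both hulls, and φ(x) = Σ (c_ij/C) φ(a_i) = 1/C > 0, a contradiction. A finitely generated cone is closed (or use Farkas' lemma), so there is a linear functional (ℓ, α) with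
ℓ(a_i - b_j) + α φ(a_i) <= 0 for all i, j and α > 0 (value at (0,1)). So φ(a_i) <= -ℓ(a_i - b_j)/α for all i, j; for x = Σ s_i a_i, u = Σ t_j b_j in the hulls, φ(x) = Σ s_i t_j φ(a_i) <= -ℓ(x - u)/α <= (‖ℓ‖/α) |x - u|. Take C = ‖ℓ‖/α + 1.
The starting library has Farkas lemmas: Pool/Agent/H249R2/PM/Farkas.lean and Pool/Agent/H575R2/Farkas.lean (farkas_lin, farkas_affine) in the graded repository; or Mathlib's ProperCone.hyperplane_separation / closedness of finitely generated cones; or prove Farkas by
Fourier-Motzkin / Caratheodory. If the index set is empty one hull is empty and the claim is vacuous. (If you copy starting files, copy them to the same path and import them.)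
-/
theorem clearance {V : Type*} [NormedAddCommGroup V] [InnerProductSpace ℝ V]
    [FiniteDimensional ℝ V] {m n : ℕ} (a : Fin m → V) (b : Fin n → V) (φ : V →ᵃ[ℝ] ℝ)
    (h : ∀ x ∈ convexHull ℝ (Set.range a) ∩ convexHull ℝ (Set.range b), φ x ≤ 0) :
    ∃ C > (0 : ℝ), ∀ x ∈ convexHull ℝ (Set.range a), ∀ u ∈ convexHull ℝ (Set.range b),
      φ x ≤ C * dist x u := by
  classical
  obtain ⟨lam, al, hal, hcon⟩ : ∃ (lam : Module.Dual ℝ V) (al : ℝ), 0 < al ∧
      ∀ i j, lam (a i - b j) + al * φ (a i) ≤ 0 := by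
    by_contra hno
    push Not at hno
    let e := Fintype.equivFin (Fin m × Fin n)
    let ℓ : Fin (Fintype.card (Fin m × Fin n)) → ((Module.Dual ℝ V × ℝ) →ₗ[ℝ] ℝ) := fun k =>
      ((Module.Dual.eval ℝ V (a (e.symm k).1 - b (e.symm k).2)).comp
        (LinearMap.fst ℝ (Module.Dual ℝ V) ℝ)) +
        (φ (a (e.symm k).1)) • (LinearMap.snd ℝ (Module.Dual ℝ V) ℝ)
    have hℓ : ∀ k (y : Module.Dual ℝ V × ℝ), ℓ k y =
        y.1 (a (e.symm k).1 - b (e.symm k).2) + φ (a (e.symm k).1) * y.2 := fun k y => rfl
    obtain ⟨w, hw0, hw⟩ := H575R2.farkas_lin _ ℓ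
      (LinearMap.snd ℝ (Module.Dual ℝ V) ℝ) (by
        intro y hy
        by_contra hpos
        rw [not_le, LinearMap.snd_apply] at hpos
        obtain ⟨i, j, hij⟩ := hno y.1 y.2 hpos
        have h1 := hy (e (i, j))
        rw [hℓ, Equiv.symm_apply_apply] at h1
        simp only at h1
        nlinarith)
    have h1 : ∑ k, w k * φ (a (e.symm k).1) = 1 := by
      have h2 := hw (0, 1)
      simp only [hℓ, LinearMap.snd_apply, LinearMap.zero_apply, zero_add, mul_one] at h2
      exact h2.symm
    have h2 : ∑ k, w k • (a (e.symm k).1 - b (e.symm k).2) = 0 := by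
      rw [← Module.forall_dual_apply_eq_zero_iff ℝ]
      intro f
      have h3 := hw (f, 0)
      simp only [hℓ, LinearMap.snd_apply, mul_zero, add_zero] at h3
      rw [map_sum]
      simp only [map_smul, smul_eq_mul]
      exact h3.symm
    set C := ∑ k, w k with hC
    have hC0 : 0 < C := by
      rcases (Finset.sum_nonneg fun k _ => hw0 k).lt_or_eq with h3 | h3
      · exact h3
      · exfalso
        have h4 : ∀ k, w k = 0 := fun k =>
          (Finset.sum_eq_zero_iff_of_nonneg fun k _ => hw0 k).mp h3.symm k (Finset.mem_univ _)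
        simp [h4] at h1
    set x := ∑ k, (w k / C) • a (e.symm k).1 with hx
    have hxb : x = ∑ k, (w k / C) • b (e.symm k).2 := by
      rw [← sub_eq_zero, hx, ← Finset.sum_sub_distrib]
      have h3 : ∀ k, (w k / C) • a (e.symm k).1 - (w k / C) • b (e.symm k).2 =
          C⁻¹ • (w k • (a (e.symm k).1 - b (e.symm k).2)) := by
        intro k
        rw [smul_smul, smul_sub, div_eq_inv_mul]
      rw [Finset.sum_congr rfl fun k _ => h3 k, ← Finset.smul_sum, h2, smul_zero]
    have hsum : ∑ k, w k / C = 1 := by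
      rw [← Finset.sum_div, ← hC, div_self hC0.ne']
    have hxa : x ∈ convexHull ℝ (Set.range a) :=
      (convex_convexHull ℝ _).sum_mem (fun k _ => div_nonneg (hw0 k) hC0.le) hsum
        fun k _ => subset_convexHull ℝ _ ⟨_, rfl⟩
    have hxb' : x ∈ convexHull ℝ (Set.range b) := by
      rw [hxb]
      exact (convex_convexHull ℝ _).sum_mem (fun k _ => div_nonneg (hw0 k) hC0.le) hsum
        fun k _ => subset_convexHull ℝ _ ⟨_, rfl⟩
    have h3 := h x ⟨hxa, hxb'⟩
    have h4 : φ x = ∑ k, w k / C * φ (a (e.symm k).1) := by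
      have h5 : ∀ v, φ v = φ.linear v + φ 0 := fun v => by
        conv_lhs => rw [φ.decomp]
        rfl
      have h6 : ∑ k, w k / C * φ (a (e.symm k).1) =
          ∑ k, w k / C * φ.linear (a (e.symm k).1) + (∑ k, w k / C) * φ 0 := by
        rw [Finset.sum_mul, ← Finset.sum_add_distrib]
        refine Finset.sum_congr rfl fun k _ => ?_
        rw [h5 (a (e.symm k).1)]
        ring
      rw [h6, hsum, one_mul, h5 x, hx, map_sum]
      simp only [map_smul, smul_eq_mul]
    have h5 : φ x = 1 / C := by
      rw [h4, ← h1, Finset.sum_div]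
      refine Finset.sum_congr rfl fun k _ => ?_
      ring
    rw [h5] at h3
    have : 0 < 1 / C := by positivity
    linarith
  have hlin : ∀ v, φ v = φ.linear v + φ 0 := fun v => by
    conv_lhs => rw [φ.decomp]
    rfl
  have key1 : ∀ x ∈ convexHull ℝ (Set.range a), ∀ j, lam (x - b j) + al * φ x ≤ 0 := by
    intro x hx j
    have hconv : Convex ℝ {y : V | (lam + al • φ.linear) y ≤ lam (b j) - al * φ 0} :=
      convex_halfSpace_le (lam + al • φ.linear).isLinear _
    have hsub : Set.range a ⊆ {y : V | (lam + al • φ.linear) y ≤ lam (b j) - al * φ 0} := by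
      rintro _ ⟨i, rfl⟩
      have h1 := hcon i j
      rw [map_sub, hlin (a i)] at h1
      simp only [Set.mem_ofPred_eq, LinearMap.add_apply, LinearMap.smul_apply, smul_eq_mul]
      linarith
    have h1 := convexHull_min hsub hconv hx
    simp only [Set.mem_ofPred_eq, LinearMap.add_apply, LinearMap.smul_apply, smul_eq_mul] at h1
    rw [map_sub, hlin x]
    linarith
  have key2 : ∀ x ∈ convexHull ℝ (Set.range a), ∀ u ∈ convexHull ℝ (Set.range b),
      al * φ x ≤ lam (u - x) := by
    intro x hx u hu
    have hconv : Convex ℝ {y : V | lam x + al * φ x ≤ lam y} :=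
      convex_halfSpace_ge lam.isLinear _
    have hsub : Set.range b ⊆ {y : V | lam x + al * φ x ≤ lam y} := by
      rintro _ ⟨j, rfl⟩
      have h1 := key1 x hx j
      rw [map_sub] at h1
      simp only [Set.mem_ofPred_eq]
      linarith
    have h1 := convexHull_min hsub hconv hu
    simp only [Set.mem_ofPred_eq] at h1
    rw [map_sub]
    linarith
  let lam' : V →L[ℝ] ℝ := LinearMap.toContinuousLinearMap lam
  refine ⟨‖lam'‖ / al + 1, by positivity, fun x hx u hu => ?_⟩
  have h1 := key2 x hx u hu
  have h2 : lam (u - x) ≤ ‖lam'‖ * dist x u := by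
    have h3 : lam (u - x) = lam' (u - x) := rfl
    rw [h3, dist_comm, dist_eq_norm]
    exact (le_abs_self _).trans (lam'.le_opNorm _)
  have h3 : φ x ≤ ‖lam'‖ / al * dist x u := by
    rw [div_mul_eq_mul_div, le_div_iff₀ hal]
    linarith
  have h4 : (0 : ℝ) ≤ dist x u := dist_nonneg
  linarith

end Pool.Agent.H334
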