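import Pool.Agent.Helper334_Fold.Defs2
import Pool.Agent.Helper334_Fold.P_clearance
import Pool.Agent.Helper334_Fold.P_carrier_hull

set_option autoImplicit false

open Set


namespace Pool.Agent.H334



/-- Axis coordinate as an affine map. -/
noncomputable def clear_exists_fstA : W →ᵃ[ℝ] ℝ :=
  ({ toFun := fun w => w.fst
     map_add' := fun _ _ => rfl
     map_smul' := fun _ _ => rfl } : W →ₗ[ℝ] ℝ).toAffineMap

/-- Height as an affine map. -/
noncomputable def clear_exists_reA : W →ᵃ[ℝ] ℝ :=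
  ({ toFun := fun w => w.snd.re
     map_add' := fun _ _ => rfl
     map_smul' := fun a w => by
        change (a • w.snd).re = a * w.snd.re
        simp } : W →ₗ[ℝ] ℝ).toAffineMap

theorem clear_exists_fstA_apply (w : W) : clear_exists_fstA w = w.fst := rfl
theorem clear_exists_reA_apply (w : W) : clear_exists_reA w = w.snd.re := rfl

noncomputable def clear_exists_lBA (T : Tri) : W →ᵃ[ℝ] ℝ := (1 / T.b2) • clear_exists_reA
noncomputable def clear_exists_lDA (T : Tri) : W →ᵃ[ℝ] ℝ :=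
  (1 / T.d) • (clear_exists_fstA - (T.b1 / T.b2) • clear_exists_reA)
noncomputable def clear_exists_lAA (T : Tri) : W →ᵃ[ℝ] ℝ :=
  AffineMap.const ℝ W (1 : ℝ) - clear_exists_lBA T - clear_exists_lDA T

theorem clear_exists_lBA_apply (T : Tri) (w : W) : clear_exists_lBA T w = T.lB w := by
  change (1 / T.b2) * w.snd.re = w.snd.re / T.b2
  ring

theorem clear_exists_lDA_apply (T : Tri) (w : W) : clear_exists_lDA T w = T.lD w := by
  change (1 / T.d) * (w.fst - (T.b1 / T.b2) * w.snd.re) = (w.fst - T.b1 * (w.snd.re / T.b2)) / T.d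
  ring

theorem clear_exists_lAA_apply (T : Tri) (w : W) : clear_exists_lAA T w = T.lA w := by
  change (1 : ℝ) - clear_exists_lBA T w - clear_exists_lDA T w = 1 - T.lB w - T.lD w
  rw [clear_exists_lBA_apply, clear_exists_lDA_apply]

theorem clear_exists_hull (T : Tri) (J : W ≃ᵃⁱ[ℝ] W) :
    convexHull ℝ (Set.range (fun i => J (T.vert i))) = J '' T.carrier := by
  rw [carrier_hull]
  have h := AffineMap.image_convexHull (J.toAffineEquiv.toAffineMap) (Set.range T.vert)
  have h2 : (J.toAffineEquiv.toAffineMap : W → W) = J := rfl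
  rw [h2] at h
  rw [h, ← Set.range_comp]
  rfl

theorem clear_exists_carrier_nonneg (T : Tri) {x : W} (hx : x ∈ T.carrier) :
    0 ≤ T.lA x ∧ 0 ≤ T.lD x ∧ 0 ≤ T.lB x := by
  have h := hx.2
  unfold Tri.m at h
  simpa [le_min_iff] using h

theorem clear_exists_hgt_nonneg (T : Tri) {x : W} (hx : x ∈ T.carrier) : 0 ≤ hgt x := by
  have h := (clear_exists_carrier_nonneg T hx).2.2
  unfold Tri.lB at h
  unfold hgt
  by_contra hc
  push Not at hc
  have := div_neg_of_neg_of_pos hc T.hb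
  linarith

theorem clear_exists_convex (T : Tri) : Convex ℝ T.carrier := by
  rw [carrier_hull]; exact convex_convexHull ℝ _

/-- passing to eventually small constants -/
theorem clear_exists_ev {A B : Type*} (P : A → B → Prop) (g d : A → B → ℝ)
    (hg : ∀ x u, P x u → 0 ≤ g x u)
    (h : ∃ C > (0 : ℝ), ∀ x u, P x u → g x u ≤ C * d x u) :
    ∀ᶠ c in nhdsWithin (0 : ℝ) (Ioi 0), ∀ x u, P x u → c * g x u ≤ d x u := by
  obtain ⟨C, hC, h⟩ := h
  have h1 : ∀ᶠ c in nhdsWithin (0 : ℝ) (Ioi 0), c < 1 / C :=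
    (Filter.Tendsto.eventually_lt_const (by positivity) (nhdsWithin_le_nhds))
  filter_upwards [h1, self_mem_nhdsWithin] with c hc hc0 x u hP
  have h2 := h x u hP
  have h3 := hg x u hP
  calc c * g x u ≤ 1 / C * g x u := mul_le_mul_of_nonneg_right hc.le h3
    _ ≤ 1 / C * (C * d x u) := mul_le_mul_of_nonneg_left h2 (by positivity)
    _ = d x u := by field_simp

theorem clear_exists_base (T T' : Tri) (J J' : W ≃ᵃⁱ[ℝ] W)
    (h1 : ∀ x ∈ T.carrier, ∀ u ∈ T'.carrier, J x = J' u → hgt x = 0) :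
    ∃ C > (0 : ℝ), ∀ x ∈ T.carrier, ∀ u ∈ T'.carrier, hgt x ≤ C * dist (J x) (J' u) := by
  obtain ⟨C, hC, h⟩ := clearance (fun i => J (T.vert i)) (fun i => J' (T'.vert i))
    (clear_exists_reA.comp (J.symm.toAffineEquiv.toAffineMap)) (by
      rintro y ⟨hy1, hy2⟩
      rw [clear_exists_hull] at hy1 hy2
      obtain ⟨x, hx, rfl⟩ := hy1
      obtain ⟨u, hu, hux⟩ := hy2
      have h3 := h1 x hx u hu hux.symm
      change (J.symm (J x)).snd.re ≤ 0
      rw [AffineIsometryEquiv.symm_apply_apply]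
      exact h3.le)
  refine ⟨C, hC, fun x hx u hu => ?_⟩
  have h4 := h (J x) (by rw [clear_exists_hull]; exact ⟨x, hx, rfl⟩)
    (J' u) (by rw [clear_exists_hull]; exact ⟨u, hu, rfl⟩)
  change (J.symm (J x)).snd.re ≤ _ at h4
  rw [AffineIsometryEquiv.symm_apply_apply] at h4
  exact h4

theorem clear_exists_lam (T T' : Tri) (J J' : W ≃ᵃⁱ[ℝ] W)
    (h1 : ∀ x ∈ T.carrier, ∀ u ∈ T'.carrier, J x = J' u → T'.m u = 0) :
    ∃ Λ : W →ᵃ[ℝ] ℝ, (∀ u, T'.m u ≤ Λ u) ∧
      ∀ x ∈ T.carrier, ∀ u ∈ T'.carrier, J x = J' u → Λ u ≤ 0 := by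
  by_contra hcon
  push Not at hcon
  obtain ⟨x0, hx0, u0, hu0, e0, p0⟩ := hcon (clear_exists_lAA T') (fun u => by
    rw [clear_exists_lAA_apply]; exact min_le_left _ _)
  obtain ⟨x1, hx1, u1, hu1, e1, p1⟩ := hcon (clear_exists_lDA T') (fun u => by
    rw [clear_exists_lDA_apply]; exact (min_le_right _ _).trans (min_le_left _ _))
  obtain ⟨x2, hx2, u2, hu2, e2, p2⟩ := hcon (clear_exists_lBA T') (fun u => by
    rw [clear_exists_lBA_apply]; exact (min_le_right _ _).trans (min_le_right _ _))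
  rw [clear_exists_lAA_apply] at p0
  rw [clear_exists_lDA_apply] at p1
  rw [clear_exists_lBA_apply] at p2
  -- midpoints
  have hmid : ∀ (K : W ≃ᵃⁱ[ℝ] W) (x y : W), K (midpoint ℝ x y) = midpoint ℝ (K x) (K y) := by
    intro K x y
    exact K.toAffineEquiv.toAffineMap.map_midpoint x y
  have cmid : ∀ (T : Tri) (x y : W), x ∈ T.carrier → y ∈ T.carrier →
      midpoint ℝ x y ∈ T.carrier := by
    intro T x y hx hy
    exact (clear_exists_convex T).midpoint_mem hx hy
  have lmid : ∀ (L : W →ᵃ[ℝ] ℝ) (x y : W), L (midpoint ℝ x y) = (L x + L y) / 2 := by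
    intro L x y
    rw [L.map_midpoint, midpoint_eq_smul_add]
    simp only [invOf_eq_inv, smul_eq_mul]; ring
  set x' := midpoint ℝ (midpoint ℝ x0 x1) x2 with hx'
  set u' := midpoint ℝ (midpoint ℝ u0 u1) u2 with hu'
  have hx'm : x' ∈ T.carrier := cmid _ _ _ (cmid _ _ _ hx0 hx1) hx2
  have hu'm : u' ∈ T'.carrier := cmid _ _ _ (cmid _ _ _ hu0 hu1) hu2
  have he : J x' = J' u' := by
    rw [hx', hu', hmid, hmid, hmid, hmid, e0, e1, e2]
  have hm := h1 x' hx'm u' hu'm he
  have n0 := clear_exists_carrier_nonneg T' hu0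
  have n1 := clear_exists_carrier_nonneg T' hu1
  have n2 := clear_exists_carrier_nonneg T' hu2
  have kA : 0 < T'.lA u' := by
    rw [hu', ← clear_exists_lAA_apply, lmid, lmid]
    simp only [clear_exists_lAA_apply]
    linarith [n0.1, n1.1, n2.1]
  have kD : 0 < T'.lD u' := by
    rw [hu', ← clear_exists_lDA_apply, lmid, lmid]
    simp only [clear_exists_lDA_apply]
    linarith [n0.2.1, n1.2.1, n2.2.1]
  have kB : 0 < T'.lB u' := by
    rw [hu', ← clear_exists_lBA_apply, lmid, lmid]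
    simp only [clear_exists_lBA_apply]
    linarith [n0.2.2, n1.2.2, n2.2.2]
  have : 0 < T'.m u' := lt_min kA (lt_min kD kB)
  linarith

theorem clear_exists_mm (T T' : Tri) (J J' : W ≃ᵃⁱ[ℝ] W)
    (h1 : ∀ x ∈ T.carrier, ∀ u ∈ T'.carrier, J x = J' u → T'.m u = 0) :
    ∃ C > (0 : ℝ), ∀ x ∈ T.carrier, ∀ u ∈ T'.carrier, T'.m u ≤ C * dist (J x) (J' u) := by
  obtain ⟨Λ, hΛ, hΛ0⟩ := clear_exists_lam T T' J J' h1
  obtain ⟨C, hC, h⟩ := clearance (fun i => J' (T'.vert i)) (fun i => J (T.vert i))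
    (Λ.comp (J'.symm.toAffineEquiv.toAffineMap)) (by
      rintro y ⟨hy1, hy2⟩
      rw [clear_exists_hull] at hy1 hy2
      obtain ⟨u, hu, rfl⟩ := hy1
      obtain ⟨x, hx, hux⟩ := hy2
      change Λ (J'.symm (J' u)) ≤ 0
      rw [AffineIsometryEquiv.symm_apply_apply]
      exact hΛ0 x hx u hu hux)
  refine ⟨C, hC, fun x hx u hu => ?_⟩
  have h4 := h (J' u) (by rw [clear_exists_hull]; exact ⟨u, hu, rfl⟩)
    (J x) (by rw [clear_exists_hull]; exact ⟨x, hx, rfl⟩)
  change Λ (J'.symm (J' u)) ≤ _ at h4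
  rw [AffineIsometryEquiv.symm_apply_apply, dist_comm] at h4
  exact (hΛ u).trans h4

theorem clear_exists_seghull (d : ℝ) (hd : 0 < d) (J : W ≃ᵃⁱ[ℝ] W) :
    convexHull ℝ (Set.range (![J (pt 0 0), J (pt d 0)])) = {y | ∃ s ∈ Icc 0 d, y = J (pt s 0)} := by
  have e : Set.range (![J (pt 0 0), J (pt d 0)]) = {J (pt 0 0), J (pt d 0)} := by
    simp [Matrix.range_cons, Matrix.range_empty, Set.pair_comm]
  have key : ∀ t : ℝ, AffineMap.lineMap (J (pt 0 0)) (J (pt d 0)) t = J (pt (t * d) 0) := by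
    intro t
    have h2 : AffineMap.lineMap (J (pt 0 0)) (J (pt d 0)) t =
        J (AffineMap.lineMap (pt 0 0) (pt d 0) t) :=
      (J.toAffineEquiv.toAffineMap.apply_lineMap (pt 0 0) (pt d 0) t).symm
    rw [h2]
    congr 1
    rw [AffineMap.lineMap_apply_module]
    apply W_ext
    · change (1 - t) * 0 + t * d = t * d
      ring
    · change (1 - t) • (0 : ℂ) + t • (0 : ℂ) = 0
      simp
  rw [e, convexHull_pair, segment_eq_image_lineMap]
  ext y
  constructor
  · rintro ⟨t, ht, rfl⟩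
    refine ⟨t * d, ⟨mul_nonneg ht.1 hd.le, by nlinarith [ht.2]⟩, key t⟩
  · rintro ⟨s, hs, rfl⟩
    refine ⟨s / d, ⟨div_nonneg hs.1 hd.le, (div_le_one hd).mpr hs.2⟩, ?_⟩
    rw [key]
    congr 2
    field_simp

theorem clear_exists_seg (d : ℝ) (hd : 0 < d) (T' : Tri) (J J' : W ≃ᵃⁱ[ℝ] W)
    (h2 : ∀ s ∈ Ioo 0 d, ∀ u ∈ T'.carrier, J (pt s 0) ≠ J' u) :
    ∃ C > (0 : ℝ), ∀ s ∈ Icc 0 d, ∀ u ∈ T'.carrier, min s (d - s) ≤ C * dist (J (pt s 0)) (J' u) := by
  by_cases hA : ∃ u ∈ T'.carrier, J (pt 0 0) = J' u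
  · by_cases hB : ∃ u ∈ T'.carrier, J (pt d 0) = J' u
    · exfalso
      obtain ⟨u, hu, eu⟩ := hA
      obtain ⟨v, hv, ev⟩ := hB
      refine h2 (d / 2) ⟨by linarith, by linarith⟩ (midpoint ℝ u v)
        ((clear_exists_convex T').midpoint_mem hu hv) ?_
      have e1 : J' (midpoint ℝ u v) = midpoint ℝ (J' u) (J' v) :=
        J'.toAffineEquiv.toAffineMap.map_midpoint u v
      have e2 : J (midpoint ℝ (pt 0 0) (pt d 0)) = midpoint ℝ (J (pt 0 0)) (J (pt d 0)) :=
        J.toAffineEquiv.toAffineMap.map_midpoint _ _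
      rw [e1, ← eu, ← ev, ← e2]
      congr 1
      rw [midpoint_eq_smul_add]
      apply W_ext
      · change d / 2 = (⅟2 : ℝ) * (0 + d)
        simp; ring
      · change (0 : ℂ) = (⅟2 : ℝ) • ((0 : ℂ) + 0)
        simp
    · -- the point s = d is missed: use s
      push Not at hB
      obtain ⟨C, hC, h⟩ := clearance (![J (pt 0 0), J (pt d 0)]) (fun i => J' (T'.vert i))
        (clear_exists_fstA.comp (J.symm.toAffineEquiv.toAffineMap)) (by
          rintro y ⟨hy1, hy2⟩
          rw [clear_exists_hull] at hy2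
          rw [clear_exists_seghull d hd] at hy1
          obtain ⟨s, hs, rfl⟩ := hy1
          obtain ⟨u, hu, hux⟩ := hy2
          change (J.symm (J (pt s 0))).fst ≤ 0
          rw [AffineIsometryEquiv.symm_apply_apply]
          change s ≤ 0
          by_contra hs0
          push Not at hs0
          rcases hs.2.eq_or_lt with hsd | hsd
          · rw [hsd] at hux
            exact hB u hu hux.symm
          · exact h2 s ⟨hs0, hsd⟩ u hu hux.symm)
      refine ⟨C, hC, fun s hs u hu => ?_⟩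
      have h4 := h (J (pt s 0)) (by rw [clear_exists_seghull d hd]; exact ⟨s, hs, rfl⟩)
        (J' u) (by rw [clear_exists_hull]; exact ⟨u, hu, rfl⟩)
      change (J.symm (J (pt s 0))).fst ≤ _ at h4
      rw [AffineIsometryEquiv.symm_apply_apply] at h4
      exact (min_le_left _ _).trans h4
  · push Not at hA
    obtain ⟨C, hC, h⟩ := clearance (![J (pt 0 0), J (pt d 0)]) (fun i => J' (T'.vert i))
      ((AffineMap.const ℝ W d - clear_exists_fstA).comp (J.symm.toAffineEquiv.toAffineMap)) (by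
        rintro y ⟨hy1, hy2⟩
        rw [clear_exists_hull] at hy2
        rw [clear_exists_seghull d hd] at hy1
        obtain ⟨s, hs, rfl⟩ := hy1
        obtain ⟨u, hu, hux⟩ := hy2
        change d - (J.symm (J (pt s 0))).fst ≤ 0
        rw [AffineIsometryEquiv.symm_apply_apply]
        change d - s ≤ 0
        by_contra hs0
        push Not at hs0
        rcases hs.1.eq_or_lt with hsd | hsd
        · rw [← hsd] at hux
          exact hA u hu hux.symm
        · exact h2 s ⟨hsd, by linarith⟩ u hu hux.symm)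
    refine ⟨C, hC, fun s hs u hu => ?_⟩
    have h4 := h (J (pt s 0)) (by rw [clear_exists_seghull d hd]; exact ⟨s, hs, rfl⟩)
      (J' u) (by rw [clear_exists_hull]; exact ⟨u, hu, rfl⟩)
    change d - (J.symm (J (pt s 0))).fst ≤ _ at h4
    rw [AffineIsometryEquiv.symm_apply_apply] at h4
    exact (min_le_right _ _).trans h4

theorem clear_exists_ang (T P : Tri) (E J J' : W ≃ᵃⁱ[ℝ] W) (b : ℝ) (hE : IsHinge P T.d E)
    (hb : b ∈ Ioc (-Real.pi) Real.pi)
    (fr : ∀ w, J w = J' (E (rotx b w)))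
    (h1 : ∀ x ∈ T.carrier, ∀ u ∈ P.carrier, J x = J' u → hgt x = 0) :
    |b| < Real.pi := by
  rw [abs_lt]
  refine ⟨hb.1, lt_of_le_of_ne hb.2 ?_⟩
  intro hbp
  obtain ⟨s₀, h₀, hh₀, hm⟩ := hE.third
  have hd := T.hd
  have hb2 := T.hb
  have ev1 : ∀ᶠ h in nhdsWithin (0 : ℝ) (Ioi 0), 0 < (T.d / 2 - T.b1 * (h / T.b2)) / T.d := by
    have hc : Continuous fun h : ℝ => (T.d / 2 - T.b1 * (h / T.b2)) / T.d := by fun_prop
    have := hc.tendsto 0
    refine (this.eventually_const_lt ?_).filter_mono nhdsWithin_le_nhds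
    simp; positivity
  have ev2 : ∀ᶠ h in nhdsWithin (0 : ℝ) (Ioi 0),
      0 < 1 - h / T.b2 - (T.d / 2 - T.b1 * (h / T.b2)) / T.d := by
    have hc : Continuous fun h : ℝ => 1 - h / T.b2 - (T.d / 2 - T.b1 * (h / T.b2)) / T.d := by
      fun_prop
    have := hc.tendsto 0
    refine (this.eventually_const_lt ?_).filter_mono nhdsWithin_le_nhds
    have e : T.d / 2 / T.d = 1 / 2 := by field_simp
    simp only [zero_div, mul_zero, sub_zero, e]; norm_num
  have ev3 : ∀ᶠ h in nhdsWithin (0 : ℝ) (Ioi 0), 0 < (T.d / 2 + s₀ * (-h / h₀)) / T.d := by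
    have hc : Continuous fun h : ℝ => (T.d / 2 + s₀ * (-h / h₀)) / T.d := by fun_prop
    have := hc.tendsto 0
    refine (this.eventually_const_lt ?_).filter_mono nhdsWithin_le_nhds
    simp; positivity
  have ev4 : ∀ᶠ h in nhdsWithin (0 : ℝ) (Ioi 0),
      0 < 1 + -h / h₀ - (T.d / 2 + s₀ * (-h / h₀)) / T.d := by
    have hc : Continuous fun h : ℝ => 1 + -h / h₀ - (T.d / 2 + s₀ * (-h / h₀)) / T.d := by
      fun_prop
    have := hc.tendsto 0
    refine (this.eventually_const_lt ?_).filter_mono nhdsWithin_le_nhds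
    have e : T.d / 2 / T.d = 1 / 2 := by field_simp
    simp only [neg_zero, zero_div, mul_zero, add_zero, e]; norm_num
  obtain ⟨h, hh1, hh2, hh3, hh4, hh⟩ :=
    (ev1.and (ev2.and (ev3.and (ev4.and self_mem_nhdsWithin)))).exists
  have hh : 0 < h := hh
  have hx : pt (T.d / 2) (h : ℂ) ∈ T.carrier := by
    refine ⟨by simp, ?_⟩
    refine le_min ?_ (le_min ?_ ?_)
    · change 0 ≤ 1 - (h : ℂ).re / T.b2 - (T.d / 2 - T.b1 * ((h : ℂ).re / T.b2)) / T.d
      rw [Complex.ofReal_re]; exact hh2.le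
    · change 0 ≤ (T.d / 2 - T.b1 * ((h : ℂ).re / T.b2)) / T.d
      rw [Complex.ofReal_re]; exact hh1.le
    · change 0 ≤ (h : ℂ).re / T.b2
      rw [Complex.ofReal_re]; positivity
  have hr : rotx b (pt (T.d / 2) (h : ℂ)) = pt (T.d / 2) ((-h : ℝ) : ℂ) := by
    rw [hbp]
    apply W_ext
    · rfl
    · change Complex.exp (Real.pi * Complex.I) * (h : ℂ) = ((-h : ℝ) : ℂ)
      rw [Complex.exp_pi_mul_I]; push_cast; ring
  have hu : E (rotx b (pt (T.d / 2) (h : ℂ))) ∈ P.carrier := by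
    refine ⟨?_, ?_⟩
    · rw [hE.im, hr]; simp
    · rw [hm, hr]
      simp only [pt_fst, pt_snd, Complex.ofReal_re]
      refine le_min ?_ (le_min ?_ ?_)
      · rw [neg_neg]; positivity
      · exact hh3.le
      · exact hh4.le
  have hz := h1 _ hx _ hu (fr _)
  have hz2 : h = 0 := hz
  linarith

/- TARGET. Plain-words proof:
For each pair j < k <= n we find c > 0 for the three inequalities, and for each k in [1,n] a c for the angle; then take the min of all these (finitely many) and 1 (the inequalities persist for smaller c since hgt, m, min s (d-s) are >= 0 on the sets in question).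
J k '' carrier is the convex hull of the images of the vertices (carrier_hull).
base: clearance with φ = hgt ∘ (J k)⁻¹ (affine), a = J k vertices, b = J j vertices: on the intersection hgt = 0 by h1.
mm: Let I = intersection of the two image triangles, convex. For points J k x = J j u in I, m_j(u) = 0 by h1. Claim: one of the three barycentric functionals λ of T_j vanishes on all of I (seen in T_j coordinates). Otherwise there are u0, u1, u2 in I
with lA u0 > 0, lD u1 > 0, lB u2 > 0; the barycentre of u0,u1,u2 is in I (convex) and has all three functionals > 0, so m > 0, contradiction. clearance with φ = λ ∘ (J j)⁻¹ (roles of a and b exchanged, dist symmetric) gives λ(u) <= C dist, and m_j(u) <= λ(u).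
seg: for j ≠ p k (k >= 1; for k = 0 there is no j): the segment {J k (pt s 0) : s in [0,d]} = convex hull of J k (pt 0 0), J k (pt d 0), meets the triangle J j '' T_j at most in s = 0 or s = d by h2; not at both ends (then by convexity the whole segment would be in the
triangle, contradicting h2 at s = d/2). If it misses s = 0 or misses s = d: say it can only contain the point s = 0: clearance with φ = s-coordinate ∘ (J k)⁻¹: s <= C dist; similarly with d - s. min s (d-s) is <= both.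
ang: b k in (-pi, pi]; b k ≠ pi: otherwise take x = pt (d/2) (small h > 0): x in T_k.carrier and E (rotx pi x) = E (pt (d/2) (-h)) is in (X.T (p k)).carrier for small h by IsHinge (third: all three terms >= 0; im kept), with J k x = J (p k) (E (rotx pi x)) by fr,
and h1 gives hgt x = 0, contradiction. So |b k| < pi. (Is x in the carrier of T_k? need 0 <= m x: lB = h/b2 > 0, lD near 1/2, lA near 1/2 for small h.)
-/
theorem clear_exists (X : Sys) (n : ℕ) (hX : X.Ok n) (f : Fr)
    (fr : ∀ k, 1 ≤ k → k ≤ n → ∀ w, f.J k w = f.J (X.p k) (X.E k (rotx (f.b k) w)))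
    (hb : ∀ k, 1 ≤ k → k ≤ n → f.b k ∈ Ioc (-Real.pi) Real.pi)
    (h1 : ∀ k ≤ n, ∀ j < k, ∀ x ∈ (X.T k).carrier, ∀ u ∈ (X.T j).carrier,
      f.J k x = f.J j u → hgt x = 0 ∧ (X.T j).m u = 0)
    (h2 : ∀ k ≤ n, ∀ j < k, j ≠ X.p k → ∀ s ∈ Ioo 0 (X.T k).d, ∀ u ∈ (X.T j).carrier,
      f.J k (pt s 0) ≠ f.J j u) :
    ∃ c₁ > (0 : ℝ), c₁ ≤ 1 ∧ Clear X n c₁ f := by
  have E1 : ∀ᶠ c in nhdsWithin (0 : ℝ) (Ioi 0), ∀ k ∈ Finset.range (n + 1), ∀ j ∈ Finset.range k,
      ∀ x u, (x ∈ (X.T k).carrier ∧ u ∈ (X.T j).carrier) → c * hgt x ≤ dist (f.J k x) (f.J j u) := by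
    rw [Filter.eventually_all_finset]
    intro k hk
    rw [Filter.eventually_all_finset]
    intro j hj
    have hk' : k ≤ n := Nat.lt_succ_iff.mp (Finset.mem_range.mp hk)
    have hj' : j < k := Finset.mem_range.mp hj
    obtain ⟨C, hC, h⟩ := clear_exists_base (X.T k) (X.T j) (f.J k) (f.J j)
      (fun x hx u hu e => (h1 k hk' j hj' x hx u hu e).1)
    exact clear_exists_ev (fun x u => x ∈ (X.T k).carrier ∧ u ∈ (X.T j).carrier)
      (fun x _ => hgt x) (fun x u => dist (f.J k x) (f.J j u))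
      (fun x u hP => clear_exists_hgt_nonneg _ hP.1) ⟨C, hC, fun x u hP => h x hP.1 u hP.2⟩
  have E2 : ∀ᶠ c in nhdsWithin (0 : ℝ) (Ioi 0), ∀ k ∈ Finset.range (n + 1), ∀ j ∈ Finset.range k,
      ∀ x u, (x ∈ (X.T k).carrier ∧ u ∈ (X.T j).carrier) →
        c * (X.T j).m u ≤ dist (f.J k x) (f.J j u) := by
    rw [Filter.eventually_all_finset]
    intro k hk
    rw [Filter.eventually_all_finset]
    intro j hj
    have hk' : k ≤ n := Nat.lt_succ_iff.mp (Finset.mem_range.mp hk)
    have hj' : j < k := Finset.mem_range.mp hj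
    obtain ⟨C, hC, h⟩ := clear_exists_mm (X.T k) (X.T j) (f.J k) (f.J j)
      (fun x hx u hu e => (h1 k hk' j hj' x hx u hu e).2)
    exact clear_exists_ev (fun x u => x ∈ (X.T k).carrier ∧ u ∈ (X.T j).carrier)
      (fun _ u => (X.T j).m u) (fun x u => dist (f.J k x) (f.J j u))
      (fun x u hP => hP.2.2) ⟨C, hC, fun x u hP => h x hP.1 u hP.2⟩
  have E3 : ∀ᶠ c in nhdsWithin (0 : ℝ) (Ioi 0), ∀ k ∈ Finset.range (n + 1), ∀ j ∈ Finset.range k,
      j ≠ X.p k → ∀ (s : ℝ) (u : W), (s ∈ Icc 0 (X.T k).d ∧ u ∈ (X.T j).carrier) →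
        c * min s ((X.T k).d - s) ≤ dist (f.J k (pt s 0)) (f.J j u) := by
    rw [Filter.eventually_all_finset]
    intro k hk
    rw [Filter.eventually_all_finset]
    intro j hj
    have hk' : k ≤ n := Nat.lt_succ_iff.mp (Finset.mem_range.mp hk)
    have hj' : j < k := Finset.mem_range.mp hj
    by_cases hjp : j = X.p k
    · exact Filter.Eventually.of_forall (fun c h => absurd hjp h)
    obtain ⟨C, hC, h⟩ := clear_exists_seg (X.T k).d (X.T k).hd (X.T j) (f.J k) (f.J j)
      (fun s hs u hu => h2 k hk' j hj' hjp s hs u hu)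
    have := clear_exists_ev (fun s u => s ∈ Icc 0 (X.T k).d ∧ u ∈ (X.T j).carrier)
      (fun s _ => min s ((X.T k).d - s)) (fun s u => dist (f.J k (pt s 0)) (f.J j u))
      (fun s u hP => le_min hP.1.1 (sub_nonneg.mpr hP.1.2)) ⟨C, hC, fun x u hP => h x hP.1 u hP.2⟩
    exact this.mono (fun c hc _ => hc)
  have E4 : ∀ᶠ c in nhdsWithin (0 : ℝ) (Ioi 0), ∀ k ∈ Finset.range (n + 1), 1 ≤ k →
      |f.b k| ≤ Real.pi - c := by
    rw [Filter.eventually_all_finset]
    intro k hk
    have hk' : k ≤ n := Nat.lt_succ_iff.mp (Finset.mem_range.mp hk)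
    by_cases h1k : 1 ≤ k
    · obtain ⟨hpk, hE⟩ := hX k h1k hk'
      have hlt := clear_exists_ang (X.T k) (X.T (X.p k)) (X.E k) (f.J k) (f.J (X.p k)) (f.b k) hE
        (hb k h1k hk') (fr k h1k hk') (fun x hx u hu e => (h1 k hk' _ hpk x hx u hu e).1)
      have h5 : ∀ᶠ c in nhdsWithin (0 : ℝ) (Ioi 0), c < Real.pi - |f.b k| :=
        (Filter.Tendsto.eventually_lt_const (by linarith) (nhdsWithin_le_nhds))
      exact h5.mono (fun c hc _ => by linarith)
    · exact Filter.Eventually.of_forall (fun c h => absurd h h1k)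
  have E5 : ∀ᶠ c in nhdsWithin (0 : ℝ) (Ioi 0), c < 1 :=
    (Filter.Tendsto.eventually_lt_const (by norm_num) (nhdsWithin_le_nhds))
  obtain ⟨c, e1, e2, e3, e4, e5, e6⟩ :=
    (E1.and (E2.and (E3.and (E4.and (E5.and self_mem_nhdsWithin))))).exists
  refine ⟨c, e6, le_of_lt e5, ?_⟩
  refine ⟨fr, ?_, ?_, ?_, ?_⟩
  · intro k h1k hk
    exact e4 k (Finset.mem_range.mpr (Nat.lt_succ_of_le hk)) h1k
  · intro k hk j hj x hx u hu
    exact e1 k (Finset.mem_range.mpr (Nat.lt_succ_of_le hk)) j (Finset.mem_range.mpr hj) x u ⟨hx, hu⟩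
  · intro k hk j hj x hx u hu
    exact e2 k (Finset.mem_range.mpr (Nat.lt_succ_of_le hk)) j (Finset.mem_range.mpr hj) x u ⟨hx, hu⟩
  · intro k hk j hj hjp s hs u hu
    exact e3 k (Finset.mem_range.mpr (Nat.lt_succ_of_le hk)) j (Finset.mem_range.mpr hj) hjp s u
      ⟨hs, hu⟩

end Pool.Agent.H334
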