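import Pool.Agent.Helper334_Fold.Defs2

set_option autoImplicit false

open Set


namespace Pool.Agent.H334
/- TARGET. Plain-words proof:
fr unchanged; ang: |b| <= pi - c <= pi - c'. The other inequalities: hgt x >= 0 on the carrier (m >= 0 gives lB >= 0, so re >= 0), m u >= 0 on the carrier, min s (d-s) >= 0 for s in [0,d], so c' * a <= c * a <= dist.
-/
theorem clear_mono {S : Sys} {n : ℕ} {c c' : ℝ} {f : Fr} (hc' : 0 < c') (hcc : c' ≤ c)
    (h : Clear S n c f) : Clear S n c' f := by
  have hm : ∀ (T : Tri) (x : W), x ∈ T.carrier → 0 ≤ T.m x := fun T x hx => hx.2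
  have hh : ∀ (T : Tri) (x : W), x ∈ T.carrier → 0 ≤ hgt x := by
    intro T x hx
    have h1 : 0 ≤ T.lB x := (hx.2).trans ((min_le_right _ _).trans (min_le_right _ _))
    unfold Tri.lB at h1
    unfold hgt
    have h2 := mul_nonneg h1 T.hb.le
    rwa [div_mul_cancel₀ _ T.hb.ne'] at h2
  refine ⟨h.fr, ?_, ?_, ?_, ?_⟩
  · intro k h1 h2
    exact (h.ang k h1 h2).trans (by linarith)
  · intro k hk j hj x hx u hu
    exact (mul_le_mul_of_nonneg_right hcc (hh _ x hx)).trans (h.base k hk j hj x hx u hu)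
  · intro k hk j hj x hx u hu
    exact (mul_le_mul_of_nonneg_right hcc (hm _ u hu)).trans (h.mm k hk j hj x hx u hu)
  · intro k hk j hj hjp s hs u hu
    refine (mul_le_mul_of_nonneg_right hcc ?_).trans (h.seg k hk j hj hjp s hs u hu)
    exact le_min hs.1 (by linarith [hs.2])

end Pool.Agent.H334
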