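import Pool.Agent.Helper334_Fold.Defs2

set_option autoImplicit false

open Set


namespace Pool.Agent.H334


/- TARGET. Plain-words proof:
Induction on Coll. done: preimages respect inclusion. step with l = (n1,n2,a): use l' = (-n1, n2, a - n1 d);
l'.L w = l.L (mir d w) and mir d (l'.refl w) = l.refl (mir d w), hgt (mir d w) = hgt w; the remaining set
{x in mir^{-1} S | l'.L x <= 0} is mir^{-1} {x in S | l.L x <= 0}.
-/
theorem coll_mirror {c d : ℝ} {sl S : Set W} (h : Coll c sl S) :
    Coll c (mir d ⁻¹' sl) (mir d ⁻¹' S) := by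
  induction h with
  | done h => exact Coll.done (preimage_mono h)
  | @step S l h h' ih =>
    have hu : (-l.n1) ^ 2 + l.n2 ^ 2 = 1 := by
      rw [neg_sq]
      exact l.unit
    let l' : Ln := ⟨-l.n1, l.n2, l.a - l.n1 * d, hu⟩
    have hL : ∀ w : W, l'.L w = l.L (mir d w) := by
      intro w
      simp only [Ln.L, mir, pt_fst, pt_snd, l']
      ring
    have hrefl : ∀ w : W, mir d (l'.refl w) = l.refl (mir d w) := by
      intro w
      apply W_ext
      · have h1 := hL w
        simp only [Ln.refl, mir, pt_fst, pt_snd] at h1 ⊢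
        rw [h1]
        simp only [l']
        ring
      · have h1 := hL w
        simp only [Ln.refl, mir, pt_snd] at h1 ⊢
        rw [h1]
    refine Coll.step l' (fun x hx hpos => ?_) ?_
    · rw [hL] at hpos ⊢
      obtain ⟨h1, h2⟩ := h (mir d x) hx hpos
      refine ⟨h1, ?_⟩
      show mir d (l'.refl x) ∈ S
      rw [hrefl]
      exact h2
    · have e : {x ∈ mir d ⁻¹' S | l'.L x ≤ 0} = mir d ⁻¹' {x ∈ S | l.L x ≤ 0} := by
        ext x
        simp only [mem_preimage, Set.mem_ofPred_eq, hL]
      rw [e]
      exact ih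

end Pool.Agent.H334
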