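import Pool.Agent.Helper334_Fold.Defs2

set_option autoImplicit false

open Set


namespace Pool.Agent.H334





theorem ray_L_pol (θ r φ : ℝ) : (ray θ).L (pol r φ) = r * Real.sin (φ - θ) := by
  simp only [Ln.L, ray, pol, pt_fst, pt_snd, Complex.ofReal_re, Real.sin_sub]
  ring

theorem hgt_pol (r φ : ℝ) : hgt (pol r φ) = r * Real.sin φ := by
  simp only [hgt, pol, pt_snd, Complex.ofReal_re]

theorem ray_refl_pol (θ r φ : ℝ) : (ray θ).refl (pol r φ) = pol r (2 * θ - φ) := by
  have h1 := Real.sin_sq_add_cos_sq θ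
  apply W_ext
  · simp only [Ln.refl, ray_L_pol, pt_fst]
    simp only [ray, pol, pt_fst, Real.cos_sub, Real.sin_sub, Real.cos_two_mul, Real.sin_two_mul]
    have : Real.cos θ ^ 2 = 1 - Real.sin θ ^ 2 := by linarith
    rw [this]; ring
  · simp only [Ln.refl, ray_L_pol, pt_snd]
    simp only [ray, pol, pt_snd, Real.cos_sub, Real.sin_sub, Real.cos_two_mul, Real.sin_two_mul]
    rw [← Complex.ofReal_sub]
    congr 1
    ring

theorem pol_le_iff {α r φ φ₀ : ℝ} (hα : α < Real.pi) (hr : 0 ≤ r) (h0 : 0 ≤ φ) (h1 : φ ≤ α)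
    (h2 : 0 ≤ φ₀) (h3 : φ₀ ≤ α) : (ray φ₀).L (pol r φ) ≤ 0 ↔ r = 0 ∨ φ ≤ φ₀ := by
  rw [ray_L_pol]
  constructor
  · intro h
    by_contra hcon
    push Not at hcon
    have hr' : 0 < r := lt_of_le_of_ne hr (Ne.symm hcon.1)
    have : 0 < Real.sin (φ - φ₀) := Real.sin_pos_of_pos_of_lt_pi (by linarith) (by linarith)
    have := mul_pos hr' this
    linarith
  · rintro (h | h)
    · rw [h]; simp
    · have : Real.sin (φ - φ₀) ≤ 0 :=
        Real.sin_nonpos_of_nonpos_of_neg_pi_le (by linarith) (by linarith)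
      exact mul_nonpos_of_nonneg_of_nonpos hr this

/- TARGET. Plain-words proof:
(ray th).L (pol r ph) = r sin(ph - th). Put k = min (sin th) (sin alpha) > 0 (0 < th <= alpha < pi; sin is
concave on [0,pi], so sin ph >= k for ph in [th, alpha]); hgt (pol r ph) = r sin ph >= k r there.
For ph0 in [th, alpha] let S_{ph0} = {x in S | (ray ph0).L x <= 0}. If x = pol r ph in S with 0 <= ph <= alpha, r >= 0
then (ray ph0).L x = r sin(ph - ph0), and ph - ph0 in (-pi, pi), so L <= 0 iff r = 0 or ph <= ph0; L > 0 iff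
r > 0 and ph > ph0. In particular S_alpha = S.
Step: th <= ph0, ph0 + sg <= alpha, 0 < sg <= min (th - omega) (c k), sg < pi: Coll (S_{ph0}) implies
Coll (S_{ph0+sg}). Use Coll.step with ray ph0: for x = pol r ph in S_{ph0+sg} with L > 0: r > 0,
ph0 < ph <= ph0 + sg, L = r sin(ph - ph0) <= r sg <= c k r <= c hgt x. The reflection of pol r ph in ray ph0 is
pol r (2 ph0 - ph), and omega <= th - sg <= 2 ph0 - ph <= ph0 <= ph, so it is in S by hdown, and
it is in S_{ph0+sg} because its angle is <= ph0 (sin of an angle in (-pi,0] is <= 0). The remaining set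
{x in S_{ph0+sg} | (ray ph0).L x <= 0} equals S_{ph0} (if (ray ph0).L x <= 0 then r = 0 or ph <= ph0 <= ph0+sg).
Finitely many steps lead from S_th to S_alpha = S (last step shorter: e.g. induction on j for the statement
that Coll (S_{ph0}) holds for all ph0 in [th, min alpha (th + j sg)]).
-/
theorem fan {c ω θ α : ℝ} (hc : 0 < c) (hω : 0 ≤ ω) (hωθ : ω < θ) (hθα : θ ≤ α)
    (hα : α < Real.pi) (sl S : Set W)
    (hpol : ∀ x ∈ S, ∃ r φ, 0 ≤ r ∧ 0 ≤ φ ∧ φ ≤ α ∧ x = pol r φ)
    (hdown : ∀ r φ, 0 ≤ r → θ ≤ φ → φ ≤ α → pol r φ ∈ S →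
      ∀ φ', ω ≤ φ' → φ' ≤ φ → pol r φ' ∈ S)
    (hC : Coll c sl {x ∈ S | (ray θ).L x ≤ 0}) : Coll c sl S := by
  have hθ0 : 0 < θ := by linarith
  have hα0 : 0 < α := by linarith
  set k : ℝ := min (Real.sin θ) (Real.sin α) with hk
  have hk0 : 0 < k := lt_min (Real.sin_pos_of_pos_of_lt_pi hθ0 (by linarith))
    (Real.sin_pos_of_pos_of_lt_pi hα0 hα)
  have hkφ : ∀ φ, θ ≤ φ → φ ≤ α → k ≤ Real.sin φ := by
    intro φ h1 h2
    exact strictConcaveOn_sin_Icc.concaveOn.min_le_of_mem_Icc ⟨hθ0.le, by linarith⟩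
      ⟨hα0.le, hα.le⟩ ⟨h1, h2⟩
  set δ : ℝ := min (θ - ω) (c * k) with hδ
  have hδ0 : 0 < δ := lt_min (by linarith) (mul_pos hc hk0)
  have key : ∀ j : ℕ, ∀ φ₀, θ ≤ φ₀ → φ₀ ≤ α → φ₀ ≤ θ + j * δ →
      Coll c sl {x ∈ S | (ray φ₀).L x ≤ 0} := by
    intro j
    induction j with
    | zero =>
      intro φ₀ h1 h2 h3
      have : φ₀ = θ := by
        apply le_antisymm _ h1
        simpa using h3
      rw [this]; exact hC
    | succ j ih =>
      intro φ₁ h1 h2 h3
      by_cases hle : φ₁ ≤ θ + j * δ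
      · exact ih φ₁ h1 h2 hle
      push Not at hle
      set φ₀ : ℝ := θ + j * δ with hφ₀
      have hj0 : 0 ≤ (j : ℝ) * δ := by positivity
      have g1 : θ ≤ φ₀ := by linarith
      have g2 : φ₀ ≤ α := by linarith
      have g3 : φ₁ - φ₀ ≤ δ := by
        push_cast at h3
        linarith
      have g4 : δ ≤ θ - ω := min_le_left _ _
      have g5 : δ ≤ c * k := min_le_right _ _
      have hC0 := ih φ₀ g1 g2 le_rfl
      refine Coll.step (ray φ₀) ?_ ?_
      · rintro x ⟨hxS, hx1⟩ hx0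
        obtain ⟨r, φ, hr, hφ0, hφα, rfl⟩ := hpol x hxS
        rw [pol_le_iff hα hr hφ0 hφα (by linarith) h2] at hx1
        have hnot : ¬ (r = 0 ∨ φ ≤ φ₀) := by
          rw [← pol_le_iff hα hr hφ0 hφα (by linarith) g2]
          exact not_le.mpr hx0
        push Not at hnot
        obtain ⟨hr0, hφφ⟩ := hnot
        have hφ1 : φ ≤ φ₁ := by
          rcases hx1 with h | h
          · exact absurd h hr0
          · exact h
        constructor
        · rw [ray_L_pol, hgt_pol]
          have e1 : Real.sin (φ - φ₀) ≤ φ - φ₀ := Real.sin_le (by linarith)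
          have e2 : k ≤ Real.sin φ := hkφ φ (by linarith) hφα
          have e3 : Real.sin (φ - φ₀) ≤ c * Real.sin φ := by
            have : c * k ≤ c * Real.sin φ := mul_le_mul_of_nonneg_left e2 hc.le
            linarith
          have := mul_le_mul_of_nonneg_left e3 hr
          linarith
        · rw [ray_refl_pol]
          refine ⟨hdown r φ hr (by linarith) hφα hxS _ (by linarith) (by linarith), ?_⟩
          rw [pol_le_iff hα hr (by linarith) (by linarith) (by linarith) h2]
          right; linarith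
      · have hset : {x ∈ {x ∈ S | (ray φ₁).L x ≤ 0} | (ray φ₀).L x ≤ 0} =
            {x ∈ S | (ray φ₀).L x ≤ 0} := by
          ext x
          constructor
          · rintro ⟨⟨a1, -⟩, a3⟩
            exact ⟨a1, a3⟩
          · rintro ⟨a1, a3⟩
            refine ⟨⟨a1, ?_⟩, a3⟩
            obtain ⟨r, φ, hr, hφ0, hφα, rfl⟩ := hpol x a1
            rw [pol_le_iff hα hr hφ0 hφα (by linarith) g2] at a3
            rw [pol_le_iff hα hr hφ0 hφα (by linarith) h2]
            rcases a3 with h | h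
            · left; exact h
            · right; linarith
        rw [hset]
        exact hC0
  obtain ⟨j, hj⟩ := exists_nat_gt ((α - θ) / δ)
  have hfin := key j α hθα le_rfl (by
    rw [div_lt_iff₀ hδ0] at hj
    linarith)
  have hSS : {x ∈ S | (ray α).L x ≤ 0} = S := by
    ext x
    constructor
    · exact fun h => h.1
    · intro hx
      refine ⟨hx, ?_⟩
      obtain ⟨r, φ, hr, hφ0, hφα, rfl⟩ := hpol x hx
      rw [pol_le_iff hα hr hφ0 hφα hα0.le le_rfl]
      right; exact hφα
  rw [hSS] at hfin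
  exact hfin

end Pool.Agent.H334
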