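import Pool.Agent.Helper334_Fold.Defs2

set_option autoImplicit false

open Set


namespace Pool.Agent.H334
theorem slide_L (l : Ln) (x : W) (u : ℝ) :
    l.L (pt (x.fst - u * l.n1) (x.snd - ((u * l.n2 : ℝ) : ℂ))) = l.L x - u := by
  unfold Ln.L
  simp only [pt_fst, pt_snd, Complex.sub_re, Complex.ofReal_re]
  have := l.unit
  linear_combination (-u) * this

theorem slide_step {c k h h' sg : ℝ} (_ : 0 < h) (hc : 0 < c) (hh' : h ≤ h') (hsg0 : 0 ≤ sg)
    (hsg1 : sg ≤ h) (hsg2 : sg ≤ c * k) (l : Ln) (sl S : Set W)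
    (hkS : ∀ x ∈ S, h ≤ l.L x → k ≤ hgt x)
    (hdown : ∀ x ∈ S, ∀ u : ℝ, 0 ≤ u → u ≤ l.L x →
      pt (x.fst - u * l.n1) (x.snd - ((u * l.n2 : ℝ) : ℂ)) ∈ S)
    (hC : Coll c sl {x ∈ S | l.L x ≤ h'}) : Coll c sl {x ∈ S | l.L x ≤ h' + sg} := by
  set l' : Ln := ⟨l.n1, l.n2, l.a + h', l.unit⟩ with hl'
  have hL : ∀ x, l'.L x = l.L x - h' := by
    intro x
    simp only [hl', Ln.L]
    ring
  apply Coll.step l'
  · rintro x ⟨hxS, hx⟩ hpos
    rw [hL] at hpos
    constructor
    · rw [hL]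
      have h1 := hkS x hxS (by linarith)
      have h2 : c * k ≤ c * hgt x := mul_le_mul_of_nonneg_left h1 hc.le
      linarith
    · have e : l'.refl x = pt (x.fst - (2 * (l.L x - h')) * l.n1)
          (x.snd - (((2 * (l.L x - h')) * l.n2 : ℝ) : ℂ)) := by
        unfold Ln.refl
        rw [hL]
      rw [e]
      refine ⟨hdown x hxS _ (by linarith) (by linarith), ?_⟩
      rw [slide_L]
      linarith
  · have e : {x ∈ {x ∈ S | l.L x ≤ h' + sg} | l'.L x ≤ 0} = {x ∈ S | l.L x ≤ h'} := by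
      ext x
      simp only [mem_ofPred_eq, hL]
      constructor
      · rintro ⟨⟨h1, h2⟩, h3⟩
        exact ⟨h1, by linarith⟩
      · rintro ⟨h1, h2⟩
        exact ⟨⟨h1, by linarith⟩, by linarith⟩
    rw [e]
    exact hC

/- TARGET. Plain-words proof:
For h' >= h let S_{h'} = {x in S | L x <= h'} and let l' = line with offset l.a + h' (same normal), so
l'.L x = l.L x - h'. Step: if h' >= h and 0 <= sg <= min h (c k) then Coll (S_{h'}) implies Coll (S_{h'+sg}):
use Coll.step with l'. For x in S_{h'+sg} with l'.L x > 0: l'.L x <= sg <= c k <= c * hgt x (as L x >= h' >= h);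
l'.refl x = pt (x.fst - u n1) (x.snd - u n2) with u = 2 (L x - h'), 0 <= u <= L x because L x <= h' + sg <= 2 h';
so it is in S, and its L value is 2 h' - L x <= h' (n1^2+n2^2=1), so it is in S_{h'+sg}. The remaining set
{x in S_{h'+sg} | l'.L x <= 0} is S_{h'}. Starting from S_h, after finitely many steps of size
sg = min h (c k) > 0 we reach h' >= Q, and then S_{h'} = S. (Induction on j: Coll (S_{h + j sg}).)
-/
theorem slide {c k h Q : ℝ} (hc : 0 < c) (hk : 0 < k) (hh : 0 < h) (l : Ln) (sl S : Set W)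
    (hQ : ∀ x ∈ S, l.L x ≤ Q) (hkS : ∀ x ∈ S, h ≤ l.L x → k ≤ hgt x)
    (hdown : ∀ x ∈ S, ∀ u : ℝ, 0 ≤ u → u ≤ l.L x →
      pt (x.fst - u * l.n1) (x.snd - ((u * l.n2 : ℝ) : ℂ)) ∈ S)
    (hC : Coll c sl {x ∈ S | l.L x ≤ h}) : Coll c sl S := by
  have hsg : 0 < min h (c * k) := lt_min hh (mul_pos hc hk)
  have key : ∀ j : ℕ, Coll c sl {x ∈ S | l.L x ≤ h + j * min h (c * k)} := by
    intro j
    induction j with
    | zero => simpa using hC
    | succ j ih =>
      have hj : 0 ≤ (j : ℝ) * min h (c * k) := mul_nonneg (Nat.cast_nonneg j) hsg.le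
      have h1 := slide_step hh hc (h' := h + j * min h (c * k)) (by linarith) hsg.le
        (min_le_left _ _) (min_le_right _ _) l sl S hkS hdown ih
      have e : h + ((j + 1 : ℕ) : ℝ) * min h (c * k) =
          h + j * min h (c * k) + min h (c * k) := by push_cast; ring
      rw [e]
      exact h1
  obtain ⟨j, hj⟩ := exists_nat_ge ((Q - h) / min h (c * k))
  have hj2 : Q ≤ h + j * min h (c * k) := by
    rw [div_le_iff₀ hsg] at hj
    linarith
  have e : {x ∈ S | l.L x ≤ h + j * min h (c * k)} = S := by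
    ext x
    simp only [mem_ofPred_eq]
    exact ⟨fun hx => hx.1, fun hx => ⟨hx, (hQ x hx).trans hj2⟩⟩
  have h1 := key j
  rwa [e] at h1

end Pool.Agent.H334
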