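import Pool.Agent.Helper334_Fold.Defs2
import Pool.Agent.Helper334_Fold.P_slide
import Pool.Agent.Helper334_Fold.P_fan
import Pool.Agent.Helper334_Fold.P_coll_mirror

set_option autoImplicit false

open Set


namespace Pool.Agent.H334









theorem mem_carrier_iff (T : Tri) (w : W) : w ∈ T.carrier ↔ w.snd.im = 0 ∧ 0 ≤ w.snd.re ∧
    T.b1 * w.snd.re ≤ T.b2 * w.fst ∧
    T.b2 * w.fst + (T.d - T.b1) * w.snd.re ≤ T.d * T.b2 := by
  have hd := T.hd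
  have hb := T.hb
  have e1 : 0 ≤ T.lB w ↔ 0 ≤ w.snd.re := by
    unfold Tri.lB
    rw [le_div_iff₀ hb, zero_mul]
  have e2 : 0 ≤ T.lD w ↔ T.b1 * w.snd.re ≤ T.b2 * w.fst := by
    unfold Tri.lD
    rw [le_div_iff₀ hd, zero_mul, sub_nonneg, ← mul_div_assoc, div_le_iff₀ hb, mul_comm w.fst]
  have e3 : 0 ≤ T.lA w ↔ T.b2 * w.fst + (T.d - T.b1) * w.snd.re ≤ T.d * T.b2 := by
    have h : T.lA w = (T.d * T.b2 - (T.b2 * w.fst + (T.d - T.b1) * w.snd.re)) /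
        (T.d * T.b2) := by
      unfold Tri.lA Tri.lD Tri.lB
      field_simp
      ring
    rw [h, le_div_iff₀ (mul_pos hd hb), zero_mul, sub_nonneg]
  constructor
  · rintro ⟨h1, h2⟩
    unfold Tri.m at h2
    rw [le_min_iff, le_min_iff, e1, e2, e3] at h2
    exact ⟨h1, h2.2.2, h2.2.1, h2.1⟩
  · rintro ⟨h1, h2, h3, h4⟩
    refine ⟨h1, ?_⟩
    unfold Tri.m
    rw [le_min_iff, le_min_iff, e1, e2, e3]
    exact ⟨h4, h3, h2⟩

theorem pol_fst (r φ : ℝ) : (pol r φ).fst = r * Real.cos φ := rfl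

theorem pol_re (r φ : ℝ) : (pol r φ).snd.re = r * Real.sin φ := by
  simp [pol, -Complex.ofReal_mul, -Complex.ofReal_sin]

theorem pol_im (r φ : ℝ) : (pol r φ).snd.im = 0 := by
  simp [pol, -Complex.ofReal_mul, -Complex.ofReal_sin]

theorem exists_pol (w : W) (h : w.snd.im = 0) (h1 : 0 ≤ w.snd.re) (h2 : 0 ≤ w.fst) :
    ∃ r φ, 0 ≤ r ∧ 0 ≤ φ ∧ φ ≤ Real.pi / 2 ∧ w = pol r φ := by
  let z : ℂ := ⟨w.fst, w.snd.re⟩
  refine ⟨‖z‖, Complex.arg z, norm_nonneg _, Complex.arg_nonneg_iff.2 h1, ?_, ?_⟩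
  · have h3 := Complex.abs_arg_le_pi_div_two_iff.2 (show 0 ≤ z.re from h2)
    exact (abs_le.1 h3).2
  · refine W_ext ?_ (Complex.ext ?_ ?_)
    · rw [pol_fst, Complex.norm_mul_cos_arg]
    · rw [pol_re, Complex.norm_mul_sin_arg]
    · rw [pol_im, h]

theorem ray_L (θ : ℝ) (w : W) : (ray θ).L w = Real.cos θ * w.snd.re - Real.sin θ * w.fst := by
  simp only [Ln.L, ray]
  ring

theorem coll_acute {c τ : ℝ} (hc : 0 < c) (hτ : 0 < τ) (T : Tri) (h0 : 0 ≤ T.b1)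
    (h1 : T.b1 ≤ T.d) : Coll c (sliver T.d τ) T.carrier := by
  have hd := T.hd
  have hb := T.hb
  have hpi := Real.pi_pos
  -- the angle
  obtain ⟨θ, hθ0, hθ2, htan⟩ : ∃ θ : ℝ, 0 < θ ∧ θ < Real.pi / 2 ∧ Real.tan θ ≤ τ :=
    ⟨Real.arctan τ, Real.arctan_pos.2 hτ, Real.arctan_lt_pi_div_two τ, (Real.tan_arctan τ).le⟩
  have hcos : 0 < Real.cos θ := Real.cos_pos_of_mem_Ioo ⟨by linarith, hθ2⟩
  have hcos1 : Real.cos θ ≤ 1 := Real.cos_le_one θ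
  have hsin : 0 < Real.sin θ := Real.sin_pos_of_pos_of_lt_pi hθ0 (by linarith)
  have hsc : Real.sin θ ≤ τ * Real.cos θ := by
    rw [Real.tan_eq_sin_div_cos, div_le_iff₀ hcos] at htan
    exact htan
  obtain ⟨y0, hy0, hy1, hy2⟩ : ∃ y0 : ℝ, 0 < y0 ∧ y0 ≤ T.d * Real.sin θ / 2 ∧ y0 ≤ T.b2 / 2 :=
    ⟨min (T.d * Real.sin θ / 2) (T.b2 / 2), lt_min (by positivity) (by positivity),
      min_le_left _ _, min_le_right _ _⟩
  -- the fan of directions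
  have hsinmono : ∀ {a b : ℝ}, 0 ≤ a → a ≤ b → b ≤ Real.pi / 2 → Real.sin a ≤ Real.sin b :=
    fun ha hab hb => Real.sin_le_sin_of_le_of_le_pi_div_two (by linarith) hb hab
  have hcosmono : ∀ {a b : ℝ}, 0 ≤ a → a ≤ b → b ≤ Real.pi / 2 → Real.cos b ≤ Real.cos a :=
    fun ha hab hb => Real.cos_le_cos_of_nonneg_of_le_pi ha (by linarith) hab
  have key : ∀ r φ φ' : ℝ, 0 ≤ r → θ ≤ φ → φ ≤ Real.pi / 2 → 0 ≤ φ' → φ' ≤ φ →
      r * Real.sin φ ≤ y0 → r ≤ T.d / 2 ∧ 0 ≤ r * Real.sin φ' ∧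
      r * Real.sin φ' ≤ r * Real.sin φ ∧ r * Real.cos φ ≤ r * Real.cos φ' ∧
      r * Real.cos φ' ≤ T.d / 2 ∧ 0 ≤ r * Real.cos φ := by
    intro r φ φ' hr hφ1 hφ2 hφ'0 hφ' h
    have e1 := hsinmono hθ0.le hφ1 hφ2
    have e2 := hsinmono hφ'0 hφ' hφ2
    have e3 := hcosmono hφ'0 hφ' hφ2
    have e4 : 0 ≤ Real.sin φ' := Real.sin_nonneg_of_nonneg_of_le_pi hφ'0 (by linarith)
    have e5 : 0 ≤ Real.cos φ := Real.cos_nonneg_of_mem_Icc ⟨by linarith, hφ2⟩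
    have e6 : r ≤ T.d / 2 := by
      have h3 : r * Real.sin θ ≤ T.d / 2 * Real.sin θ := by
        calc r * Real.sin θ ≤ r * Real.sin φ := mul_le_mul_of_nonneg_left e1 hr
          _ ≤ y0 := h
          _ ≤ T.d / 2 * Real.sin θ := by linarith
      exact le_of_mul_le_mul_right h3 hsin
    refine ⟨e6, mul_nonneg hr e4, mul_le_mul_of_nonneg_left e2 hr,
      mul_le_mul_of_nonneg_left e3 hr, ?_, mul_nonneg hr e5⟩
    calc r * Real.cos φ' ≤ r * 1 := mul_le_mul_of_nonneg_left (Real.cos_le_one _) hr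
      _ ≤ T.d / 2 := by linarith
  -- cut off the top
  refine slide (h := y0) (k := y0) (Q := T.b2) hc hy0 hy0 ⟨0, 1, 0, by norm_num⟩ _ _ ?_ ?_ ?_ ?_
  · intro x hx
    obtain ⟨-, hx1, hx2, hx3⟩ := (mem_carrier_iff T x).1 hx
    have e : (⟨0, 1, 0, by norm_num⟩ : Ln).L x = x.snd.re := by simp [Ln.L]
    rw [e]
    have h2 : T.d * x.snd.re ≤ T.d * T.b2 := by nlinarith
    exact le_of_mul_le_mul_left h2 hd
  · intro x hx h
    have e : (⟨0, 1, 0, by norm_num⟩ : Ln).L x = x.snd.re := by simp [Ln.L]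
    rw [e] at h
    exact h
  · intro x hx u hu0 hu1
    have e : (⟨0, 1, 0, by norm_num⟩ : Ln).L x = x.snd.re := by simp [Ln.L]
    rw [e] at hu1
    obtain ⟨hx0, hx1, hx2, hx3⟩ := (mem_carrier_iff T x).1 hx
    rw [mem_carrier_iff]
    simp only [pt_fst, pt_snd, mul_zero, sub_zero, mul_one, Complex.sub_im, Complex.sub_re,
      Complex.ofReal_re, Complex.ofReal_im]
    refine ⟨hx0, by linarith, ?_, ?_⟩
    · nlinarith [mul_nonneg h0 hu0]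
    · nlinarith [mul_nonneg (sub_nonneg.2 h1) hu0]
  -- the first fan
  have eL : ∀ x : W, (⟨0, 1, 0, by norm_num⟩ : Ln).L x = x.snd.re := fun x => by simp [Ln.L]
  have hS1 : ∀ x : W, x ∈ {x ∈ T.carrier | (⟨0, 1, 0, by norm_num⟩ : Ln).L x ≤ y0} ↔
      (x.snd.im = 0 ∧ 0 ≤ x.snd.re ∧ T.b1 * x.snd.re ≤ T.b2 * x.fst ∧
        T.b2 * x.fst + (T.d - T.b1) * x.snd.re ≤ T.d * T.b2) ∧ x.snd.re ≤ y0 := by
    intro x
    rw [Set.mem_ofPred_eq, mem_carrier_iff, eL]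
  refine fan (ω := 0) (θ := θ) (α := Real.pi / 2) hc le_rfl hθ0 hθ2.le (by linarith) _ _ ?_ ?_ ?_
  · intro x hx
    rw [hS1] at hx
    obtain ⟨⟨hx0, hx1, hx2, hx3⟩, hx4⟩ := hx
    refine exists_pol x hx0 hx1 ?_
    have h2 : 0 ≤ T.b2 * x.fst := (mul_nonneg h0 hx1).trans hx2
    exact nonneg_of_mul_nonneg_right h2 hb
  · intro r φ hr hφ1 hφ2 hx φ' hφ'0 hφ'
    rw [hS1] at hx ⊢
    rw [pol_im, pol_re, pol_fst] at *
    obtain ⟨⟨-, hx1, hx2, hx3⟩, hx4⟩ := hx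
    obtain ⟨k1, k2, k3, k4, k5, k6⟩ := key r φ φ' hr hφ1 hφ2 hφ'0 hφ' hx4
    refine ⟨⟨rfl, k2, ?_, ?_⟩, k3.trans hx4⟩
    · calc T.b1 * (r * Real.sin φ') ≤ T.b1 * (r * Real.sin φ) := mul_le_mul_of_nonneg_left k3 h0
        _ ≤ T.b2 * (r * Real.cos φ) := hx2
        _ ≤ T.b2 * (r * Real.cos φ') := mul_le_mul_of_nonneg_left k4 hb.le
    · have h2 : T.b2 * (r * Real.cos φ') ≤ T.b2 * (T.d / 2) := mul_le_mul_of_nonneg_left k5 hb.le
      have h3 : (T.d - T.b1) * (r * Real.sin φ') ≤ T.d * (T.b2 / 2) :=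
        mul_le_mul (by linarith) (by linarith) k2 hd.le
      nlinarith
  -- the second fan
  set S1 : Set W := {x ∈ T.carrier | (⟨0, 1, 0, by norm_num⟩ : Ln).L x ≤ y0} with hS1def
  have hmir : ∀ S : Set W, mir T.d ⁻¹' (mir T.d ⁻¹' S) = S := by
    intro S
    ext w
    simp only [Set.mem_preimage]
    have h2 : mir T.d (mir T.d w) = w := W_ext (by simp [mir]) rfl
    rw [h2]
  rw [← hmir {x ∈ S1 | (ray θ).L x ≤ 0}, ← hmir (sliver T.d τ)]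
  refine coll_mirror ?_
  have hS3 : ∀ x : W, x ∈ mir T.d ⁻¹' {x ∈ S1 | (ray θ).L x ≤ 0} ↔
      ((x.snd.im = 0 ∧ 0 ≤ x.snd.re ∧ T.b1 * x.snd.re ≤ T.b2 * (T.d - x.fst) ∧
        T.b2 * (T.d - x.fst) + (T.d - T.b1) * x.snd.re ≤ T.d * T.b2) ∧ x.snd.re ≤ y0) ∧
        Real.cos θ * x.snd.re ≤ Real.sin θ * (T.d - x.fst) := by
    intro x
    rw [Set.mem_preimage, Set.mem_ofPred_eq, hS1, ray_L, sub_nonpos]
    rfl
  refine fan (ω := 0) (θ := θ) (α := Real.pi / 2) hc le_rfl hθ0 hθ2.le (by linarith) _ _ ?_ ?_ ?_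
  · intro x hx
    rw [hS3] at hx
    obtain ⟨⟨⟨hx0, hx1, hx2, hx3⟩, hx4⟩, hx5⟩ := hx
    refine exists_pol x hx0 hx1 ?_
    have h2 : 0 ≤ T.b2 * x.fst := by
      have h3 := mul_nonneg (sub_nonneg.2 h1) hx1
      nlinarith
    exact nonneg_of_mul_nonneg_right h2 hb
  · intro r φ hr hφ1 hφ2 hx φ' hφ'0 hφ'
    rw [hS3] at hx ⊢
    rw [pol_im, pol_re, pol_fst] at *
    obtain ⟨⟨⟨-, hx1, hx2, hx3⟩, hx4⟩, hx5⟩ := hx
    obtain ⟨k1, k2, k3, k4, k5, k6⟩ := key r φ φ' hr hφ1 hφ2 hφ'0 hφ' hx4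
    have k7 : T.d / 2 ≤ T.d - r * Real.cos φ' := by linarith
    refine ⟨⟨⟨rfl, k2, ?_, ?_⟩, k3.trans hx4⟩, ?_⟩
    · calc T.b1 * (r * Real.sin φ') ≤ T.d * (T.b2 / 2) := mul_le_mul h1 (by linarith) k2 hd.le
        _ = T.b2 * (T.d / 2) := by ring
        _ ≤ T.b2 * (T.d - r * Real.cos φ') := mul_le_mul_of_nonneg_left k7 hb.le
    · have h2 : (T.d - T.b1) * (r * Real.sin φ') ≤ (T.d - T.b1) * (r * Real.sin φ) :=
        mul_le_mul_of_nonneg_left k3 (sub_nonneg.2 h1)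
      have h3 : T.b2 * (r * Real.cos φ) ≤ T.b2 * (r * Real.cos φ') :=
        mul_le_mul_of_nonneg_left k4 hb.le
      nlinarith
    · calc Real.cos θ * (r * Real.sin φ') ≤ 1 * (r * Real.sin φ') :=
            mul_le_mul_of_nonneg_right hcos1 k2
        _ ≤ Real.sin θ * (T.d / 2) := by nlinarith
        _ ≤ Real.sin θ * (T.d - r * Real.cos φ') := mul_le_mul_of_nonneg_left k7 hsin.le
  -- what remains
  refine Coll.done ?_
  intro x hx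
  rw [Set.mem_ofPred_eq, hS3, ray_L, sub_nonpos] at hx
  obtain ⟨⟨⟨⟨hx0, hx1, hx2, hx3⟩, hx4⟩, hx5⟩, hx6⟩ := hx
  have g1 : 0 ≤ T.d - x.fst := by
    have h2 : 0 ≤ T.b2 * (T.d - x.fst) := (mul_nonneg h0 hx1).trans hx2
    exact nonneg_of_mul_nonneg_right h2 hb
  have g2 : 0 ≤ x.fst := by
    have h2 : 0 ≤ T.b2 * x.fst := by
      have h3 := mul_nonneg (sub_nonneg.2 h1) hx1
      nlinarith
    exact nonneg_of_mul_nonneg_right h2 hb
  refine ⟨hx0, hx1, ?_, ?_⟩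
  · change x.snd.re ≤ τ * (T.d - x.fst)
    have h2 : Real.cos θ * x.snd.re ≤ Real.cos θ * (τ * (T.d - x.fst)) := by
      refine hx5.trans ((mul_le_mul_of_nonneg_right hsc g1).trans (le_of_eq ?_))
      ring
    exact le_of_mul_le_mul_left h2 hcos
  · change x.snd.re ≤ τ * (T.d - (T.d - x.fst))
    have h2 : Real.cos θ * x.snd.re ≤ Real.cos θ * (τ * (T.d - (T.d - x.fst))) := by
      refine hx6.trans ((mul_le_mul_of_nonneg_right hsc g2).trans (le_of_eq ?_))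
      ring
    exact le_of_mul_le_mul_left h2 hcos

end Pool.Agent.H334
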