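import Pool.Agent.Helper334_Fold.Defs2
import Pool.Agent.Helper334_Fold.P_slide
import Pool.Agent.Helper334_Fold.P_fan
import Pool.Agent.Helper334_Fold.P_coll_acute

set_option autoImplicit false

open Set


namespace Pool.Agent.H334







theorem div_nonneg_iff_of_pos_right' {a b : ℝ} (hb : 0 < b) : 0 ≤ a / b ↔ 0 ≤ a := by
  constructor
  · intro h
    have := mul_nonneg h hb.le
    rwa [div_mul_cancel₀ a hb.ne'] at this
  · intro h
    exact div_nonneg h hb.le

theorem mem_carrier_iff_coll_obtuse (T : Tri) (x : W) : x ∈ T.carrier ↔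
    x.snd.im = 0 ∧ 0 ≤ x.snd.re ∧ 0 ≤ T.b2 * x.fst - T.b1 * x.snd.re ∧
      T.b2 * x.fst + (T.d - T.b1) * x.snd.re ≤ T.d * T.b2 := by
  have hd := T.hd
  have hb := T.hb
  have e1 : T.lB x = x.snd.re / T.b2 := rfl
  have e2 : T.lD x = (T.b2 * x.fst - T.b1 * x.snd.re) / (T.d * T.b2) := by
    unfold Tri.lD; field_simp
  have e3 : T.lA x = (T.d * T.b2 - (T.b2 * x.fst + (T.d - T.b1) * x.snd.re)) / (T.d * T.b2) := by
    unfold Tri.lA Tri.lD Tri.lB; field_simp; ring
  have hdb : 0 < T.d * T.b2 := by positivity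
  unfold Tri.carrier Tri.m
  rw [Set.mem_ofPred_eq, le_min_iff, le_min_iff, e1, e2, e3, div_nonneg_iff_of_pos_right' hdb,
    div_nonneg_iff_of_pos_right' hdb, div_nonneg_iff_of_pos_right' hb]
  constructor
  · rintro ⟨h1, h2, h3, h4⟩
    exact ⟨h1, h4, h3, by linarith⟩
  · rintro ⟨h1, h2, h3, h4⟩
    exact ⟨h1, by linarith, h3, h2⟩

theorem ray_L_coll_obtuse (θ : ℝ) (x : W) :
    (ray θ).L x = Real.cos θ * x.snd.re - Real.sin θ * x.fst := by
  show -Real.sin θ * x.fst + Real.cos θ * x.snd.re - 0 = _
  ring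

theorem exists_polar (a b : ℝ) : ∃ r φ : ℝ, 0 ≤ r ∧ -Real.pi < φ ∧ φ ≤ Real.pi ∧
    a = r * Real.cos φ ∧ b = r * Real.sin φ ∧ r ^ 2 = a ^ 2 + b ^ 2 := by
  refine ⟨‖(⟨a, b⟩ : ℂ)‖, Complex.arg ⟨a, b⟩, norm_nonneg _, Complex.neg_pi_lt_arg _,
    Complex.arg_le_pi _, ?_, ?_, ?_⟩
  · rw [Complex.norm_mul_cos_arg]
  · rw [Complex.norm_mul_sin_arg]
  · rw [Complex.sq_norm, Complex.normSq_mk]; ring

set_option maxHeartbeats 2000000 in
theorem coll_obtuse {c τ : ℝ} (hc : 0 < c) (hτ : 0 < τ) (T : Tri) (h0 : T.b1 < 0) :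
    Coll c (sliver T.d τ) T.carrier := by
  have hd := T.hd
  have hb := T.hb
  have hpi := Real.pi_pos
  -- the angle w
  obtain ⟨N, w, hN0, hw1, hw2, hNc, hNs, hN2⟩ := exists_polar T.b2 (T.d - T.b1)
  have hdb1 : 0 < T.d - T.b1 := by linarith
  have hN : 0 < N := by
    rcases hN0.lt_or_eq with h | h
    · exact h
    · rw [← h] at hNc; linarith
  have hcw : 0 < Real.cos w := by
    by_contra hneg; push Not at hneg
    have := mul_nonpos_of_nonneg_of_nonpos hN.le hneg
    linarith
  have hsw : 0 < Real.sin w := by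
    by_contra hneg; push Not at hneg
    have := mul_nonpos_of_nonneg_of_nonpos hN.le hneg
    linarith
  have hw0 : 0 < w := by
    by_contra hneg; push Not at hneg
    have := Real.sin_nonpos_of_nonpos_of_neg_pi_le hneg hw1.le
    linarith
  have hwpi2 : w < Real.pi / 2 := by
    by_contra hneg; push Not at hneg
    have := Real.cos_nonpos_of_pi_div_two_le_of_le hneg (by linarith)
    linarith
  -- the angle α
  obtain ⟨R, α, hR0, hα1, hα2, hRc, hRs, hR2⟩ := exists_polar T.b1 T.b2
  have hR : 0 < R := by
    rcases hR0.lt_or_eq with h | h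
    · exact h
    · rw [← h] at hRs; linarith
  have hsα : 0 < Real.sin α := by
    by_contra hneg; push Not at hneg
    have := mul_nonpos_of_nonneg_of_nonpos hR.le hneg
    linarith
  have hα0 : 0 < α := by
    by_contra hneg; push Not at hneg
    have := Real.sin_nonpos_of_nonpos_of_neg_pi_le hneg hα1.le
    linarith
  have hαpi : α < Real.pi := by
    rcases hα2.lt_or_eq with h | h
    · exact h
    · rw [h, Real.sin_pi] at hsα; linarith
  have hscw := Real.sin_sq_add_cos_sq w
  -- cos (α - w) > 0 and sin (α - w) > 0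
  have hA : 0 < T.b2 * Real.cos w - T.b1 * Real.sin w := by
    have := mul_pos hb hcw
    have := mul_pos (neg_pos.mpr h0) hsw
    linarith
  have hB : 0 < T.b2 * Real.sin w + T.b1 * Real.cos w := by
    have e : N * (T.b2 * Real.sin w + T.b1 * Real.cos w) = T.b2 * T.d := by
      calc N * (T.b2 * Real.sin w + T.b1 * Real.cos w)
          = T.b2 * (N * Real.sin w) + T.b1 * (N * Real.cos w) := by ring
        _ = T.b2 * (T.d - T.b1) + T.b1 * T.b2 := by rw [← hNs, ← hNc]
        _ = T.b2 * T.d := by ring
    have h1 : 0 < N * (T.b2 * Real.sin w + T.b1 * Real.cos w) := by rw [e]; positivity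
    exact (pos_iff_pos_of_mul_pos h1).mp hN
  have hcαw : 0 < Real.cos (α - w) := by
    have e : R * Real.cos (α - w) = T.b2 * Real.sin w + T.b1 * Real.cos w := by
      rw [Real.cos_sub]
      calc R * (Real.cos α * Real.cos w + Real.sin α * Real.sin w)
          = (R * Real.sin α) * Real.sin w + (R * Real.cos α) * Real.cos w := by ring
        _ = _ := by rw [← hRc, ← hRs]
    have h1 : 0 < R * Real.cos (α - w) := by rw [e]; exact hB
    exact (pos_iff_pos_of_mul_pos h1).mp hR
  have hsαw : 0 < Real.sin (α - w) := by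
    have e : R * Real.sin (α - w) = T.b2 * Real.cos w - T.b1 * Real.sin w := by
      rw [Real.sin_sub]
      calc R * (Real.sin α * Real.cos w - Real.cos α * Real.sin w)
          = (R * Real.sin α) * Real.cos w - (R * Real.cos α) * Real.sin w := by ring
        _ = _ := by rw [← hRc, ← hRs]
    have h1 : 0 < R * Real.sin (α - w) := by rw [e]; exact hA
    exact (pos_iff_pos_of_mul_pos h1).mp hR
  have hwα : w < α := by
    by_contra hneg; push Not at hneg
    have := Real.sin_nonpos_of_nonpos_of_neg_pi_le (x := α - w) (by linarith) (by linarith)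
    linarith
  have hαw2 : α - w < Real.pi / 2 := by
    by_contra hneg; push Not at hneg
    have := Real.cos_nonpos_of_pi_div_two_le_of_le hneg (by linarith)
    linarith
  -- the distance g
  set g : ℝ := T.d * Real.cos w with hg
  have hgpos : 0 < g := by positivity
  -- coordinates
  have memT : ∀ x : W, x ∈ T.carrier ↔ x.snd.im = 0 ∧ 0 ≤ x.snd.re ∧
      0 ≤ T.b2 * x.fst - T.b1 * x.snd.re ∧
      Real.cos w * x.fst + Real.sin w * x.snd.re ≤ g := by
    intro x
    rw [mem_carrier_iff_coll_obtuse]
    have e : T.b2 * x.fst + (T.d - T.b1) * x.snd.re =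
        N * (Real.cos w * x.fst + Real.sin w * x.snd.re) := by
      rw [hNs]; nth_rewrite 1 [hNc]; ring
    have e' : T.d * T.b2 = N * g := by rw [hg]; nth_rewrite 1 [hNc]; ring
    rw [e, e', mul_le_mul_iff_right₀ hN]
  -- the small angle
  obtain ⟨t, ht0, htw, htα, htc⟩ : ∃ t : ℝ, 0 < t ∧ t ≤ w ∧ t ≤ α - w ∧
      Real.sin t ≤ c * Real.sin w * Real.cos t := by
    refine ⟨min (min w (α - w)) (min (c * Real.sin w / 2) (Real.pi / 3)), ?_, ?_, ?_, ?_⟩
    · refine lt_min (lt_min hw0 (by linarith)) (lt_min (by positivity) (by positivity))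
    · exact (min_le_left _ _).trans (min_le_left _ _)
    · exact (min_le_left _ _).trans (min_le_right _ _)
    · set t := min (min w (α - w)) (min (c * Real.sin w / 2) (Real.pi / 3)) with ht
      have h1 : t ≤ c * Real.sin w / 2 := (min_le_right _ _).trans (min_le_left _ _)
      have h2 : t ≤ Real.pi / 3 := (min_le_right _ _).trans (min_le_right _ _)
      have h3 : 0 < t :=
        lt_min (lt_min hw0 (by linarith)) (lt_min (by positivity) (by positivity))
      have h4 := Real.sin_le h3.le
      have h5 : Real.cos (Real.pi / 3) ≤ Real.cos t :=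
        Real.cos_le_cos_of_nonneg_of_le_pi h3.le (by linarith) h2
      rw [Real.cos_pi_div_three] at h5
      have h6 : 0 < c * Real.sin w := by positivity
      have h7 := mul_le_mul_of_nonneg_left h5 h6.le
      linarith
  have htpi : t < Real.pi / 2 := by linarith
  have hct : 0 < Real.cos t := Real.cos_pos_of_mem_Ioo ⟨by linarith, htpi⟩
  have hst : 0 < Real.sin t := Real.sin_pos_of_pos_of_lt_pi ht0 (by linarith)
  -- p ≥ 0 on T
  have hp0 : ∀ s y : ℝ, 0 ≤ y → 0 ≤ T.b2 * s - T.b1 * y →
      0 ≤ Real.cos w * s + Real.sin w * y := by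
    intro s y hy hs
    have h1 : T.b2 * (Real.cos w * s + Real.sin w * y) =
        Real.cos w * (T.b2 * s - T.b1 * y) + (T.b2 * Real.sin w + T.b1 * Real.cos w) * y := by
      ring
    have h2 : 0 ≤ T.b2 * (Real.cos w * s + Real.sin w * y) := by
      rw [h1]; positivity
    exact nonneg_of_mul_nonneg_right h2 hb
  have hcoord1 : ∀ s y : ℝ, Real.cos w * (Real.cos w * s + Real.sin w * y) -
      Real.sin w * (Real.cos w * y - Real.sin w * s) = s := by
    intro s y; linear_combination s * hscw
  have hcoord2 : ∀ s y : ℝ, Real.sin w * (Real.cos w * s + Real.sin w * y) +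
      Real.cos w * (Real.cos w * y - Real.sin w * s) = y := by
    intro s y; linear_combination y * hscw
  -- upper side
  have hup : ∀ s y : ℝ, T.b2 * s - T.b1 * y =
      (T.b2 * Real.cos w - T.b1 * Real.sin w) * (Real.cos w * s + Real.sin w * y) -
      (T.b2 * Real.sin w + T.b1 * Real.cos w) * (Real.cos w * y - Real.sin w * s) := by
    intro s y; linear_combination (-(T.b2 * s) + T.b1 * y) * hscw
  -- polar representation on T
  have hpolT : ∀ x ∈ T.carrier, ∃ r φ, 0 ≤ r ∧ 0 ≤ φ ∧ φ ≤ α ∧ x = pol r φ := by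
    intro x hx
    rw [memT] at hx
    obtain ⟨him, hy, hup', -⟩ := hx
    obtain ⟨r, φ, hr, hφ1, hφ2, hxc, hxs, -⟩ := exists_polar x.fst x.snd.re
    have hxp : x = pol r φ := by
      apply W_ext
      · exact hxc
      · apply Complex.ext
        · simp only [pol, pt_snd, Complex.ofReal_re]; exact hxs
        · simp only [pol, pt_snd, Complex.ofReal_im]; exact him
    rcases hr.lt_or_eq with hr | hr
    · have hsφ : 0 ≤ Real.sin φ := by
        rw [hxs] at hy
        exact nonneg_of_mul_nonneg_right hy hr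
      refine ⟨r, φ, hr.le, ?_, ?_, hxp⟩
      · by_contra hneg; push Not at hneg
        have := Real.sin_neg_of_neg_of_neg_pi_lt hneg hφ1
        linarith
      · by_contra hneg; push Not at hneg
        have h1 : T.b2 * x.fst - T.b1 * x.snd.re = R * r * Real.sin (α - φ) := by
          rw [hxc, hxs, Real.sin_sub]
          nth_rewrite 1 [hRs]
          nth_rewrite 1 [hRc]
          ring
        have h2 : Real.sin (α - φ) < 0 :=
          Real.sin_neg_of_neg_of_neg_pi_lt (by linarith) (by linarith)
        rw [h1] at hup'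
        have h3 : 0 < R * r := by positivity
        have h4 := mul_neg_of_pos_of_neg h3 h2
        linarith
    · refine ⟨0, 0, le_rfl, le_rfl, hα0.le, ?_⟩
      rw [hxp, ← hr]
      simp [pol]
  -- step (a)
  set h : ℝ := g * Real.sin t with hh
  have hhpos : 0 < h := by positivity
  refine slide (c := c) (k := (T.b2 * Real.sin w + T.b1 * Real.cos w) * h * Real.sin w /
    (T.b2 * Real.cos w - T.b1 * Real.sin w)) (h := h)
    (Q := (T.b2 * Real.cos w - T.b1 * Real.sin w) * g /
      (T.b2 * Real.sin w + T.b1 * Real.cos w)) hc (by positivity) hhpos (ray w) _ _ ?_ ?_ ?_ ?_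
  · intro x hx
    rw [memT] at hx
    obtain ⟨him, hy, hu, hpg⟩ := hx
    rw [ray_L_coll_obtuse, le_div_iff₀ hB]
    rw [hup] at hu
    have h3 := mul_le_mul_of_nonneg_left hpg hA.le
    linarith
  · intro x hx hLx
    rw [memT] at hx
    obtain ⟨him, hy, hu, hpg⟩ := hx
    rw [ray_L_coll_obtuse] at hLx
    unfold hgt
    rw [div_le_iff₀ hA]
    rw [hup] at hu
    have h2 := hcoord2 x.fst x.snd.re
    set p := Real.cos w * x.fst + Real.sin w * x.snd.re with hp
    set q := Real.cos w * x.snd.re - Real.sin w * x.fst with hq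
    have hq0 : 0 ≤ q := by linarith
    rw [← h2]
    have h3 : (T.b2 * Real.sin w + T.b1 * Real.cos w) * h ≤
        (T.b2 * Real.sin w + T.b1 * Real.cos w) * q := by
      exact mul_le_mul_of_nonneg_left hLx hB.le
    have h4 : (T.b2 * Real.sin w + T.b1 * Real.cos w) * h * Real.sin w ≤
        (T.b2 * Real.cos w - T.b1 * Real.sin w) * p * Real.sin w := by
      apply mul_le_mul_of_nonneg_right _ hsw.le
      linarith
    have h5 : 0 ≤ Real.cos w * q * (T.b2 * Real.cos w - T.b1 * Real.sin w) := by positivity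
    have e : (Real.sin w * p + Real.cos w * q) * (T.b2 * Real.cos w - T.b1 * Real.sin w) =
        (T.b2 * Real.cos w - T.b1 * Real.sin w) * p * Real.sin w +
          Real.cos w * q * (T.b2 * Real.cos w - T.b1 * Real.sin w) := by ring
    rw [e]
    linarith
  · intro x hx u hu0 huL
    rw [memT] at hx ⊢
    obtain ⟨him, hy, hu, hpg⟩ := hx
    rw [ray_L_coll_obtuse] at huL
    have en1 : (ray w).n1 = -Real.sin w := rfl
    have en2 : (ray w).n2 = Real.cos w := rfl
    rw [en1, en2]
    simp only [pt_fst, pt_snd, Complex.sub_re, Complex.sub_im, Complex.ofReal_re,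
      Complex.ofReal_im, sub_zero]
    have hp := hp0 x.fst x.snd.re hy hu
    have h2 := hcoord2 x.fst x.snd.re
    rw [hup] at hu
    have ep : Real.cos w * (x.fst - u * -Real.sin w) + Real.sin w * (x.snd.re - u * Real.cos w) =
        Real.cos w * x.fst + Real.sin w * x.snd.re := by ring
    have eq' : Real.cos w * (x.snd.re - u * Real.cos w) - Real.sin w * (x.fst - u * -Real.sin w) =
        (Real.cos w * x.snd.re - Real.sin w * x.fst) - u := by
      linear_combination (-u) * hscw
    set p := Real.cos w * x.fst + Real.sin w * x.snd.re with hp'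
    set q := Real.cos w * x.snd.re - Real.sin w * x.fst with hq'
    refine ⟨him, ?_, ?_, ?_⟩
    · rw [← h2]
      have h3 : 0 ≤ Real.cos w * (q - u) := mul_nonneg hcw.le (by linarith)
      have h4 : 0 ≤ Real.sin w * p := mul_nonneg hsw.le hp
      linarith
    · rw [hup, ep, eq', mul_sub]
      have := mul_nonneg hB.le hu0
      linarith
    · rw [ep]; exact hpg
  -- step (b)
  refine fan (c := c) (ω := w) (θ := w + t) (α := α) hc hw0.le (by linarith) (by linarith) hαpi
    _ _ ?_ ?_ ?_
  · rintro x ⟨hx, -⟩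
    exact hpolT x hx
  · rintro r φ hr hφ1 hφ2 ⟨hT, hL⟩ φ' hφ'1 hφ'2
    rw [ray_L_coll_obtuse] at hL
    simp only [pol, pt_fst, pt_snd, Complex.ofReal_re] at hL
    have hL' : r * Real.sin (φ - w) ≤ h := by
      rw [Real.sin_sub]; linarith
    have h1 : Real.sin t ≤ Real.sin (φ - w) :=
      Real.sin_le_sin_of_le_of_le_pi_div_two (by linarith) (by linarith) (by linarith)
    have h2 : r ≤ g := by
      have h3 : r * Real.sin t ≤ g * Real.sin t :=
        (mul_le_mul_of_nonneg_left h1 hr).trans hL'
      exact le_of_mul_le_mul_right h3 hst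
    refine ⟨?_, ?_⟩
    · rw [memT]
      simp only [pol, pt_fst, pt_snd, Complex.ofReal_re, Complex.ofReal_im, true_and]
      refine ⟨?_, ?_, ?_⟩
      · exact mul_nonneg hr (Real.sin_nonneg_of_nonneg_of_le_pi (by linarith) (by linarith))
      · have e : T.b2 * (r * Real.cos φ') - T.b1 * (r * Real.sin φ') =
            R * r * Real.sin (α - φ') := by
          rw [Real.sin_sub]
          nth_rewrite 1 [hRs]
          nth_rewrite 1 [hRc]
          ring
        rw [e]
        exact mul_nonneg (mul_nonneg hR.le hr)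
          (Real.sin_nonneg_of_nonneg_of_le_pi (by linarith) (by linarith))
      · have e : Real.cos w * (r * Real.cos φ') + Real.sin w * (r * Real.sin φ') =
            r * Real.cos (φ' - w) := by
          rw [Real.cos_sub]; ring
        rw [e]
        exact (mul_le_of_le_one_right hr (Real.cos_le_one (φ' - w))).trans h2
    · rw [ray_L_coll_obtuse]
      simp only [pol, pt_fst, pt_snd, Complex.ofReal_re]
      have e : Real.cos w * (r * Real.sin φ') - Real.sin w * (r * Real.cos φ') =
          r * Real.sin (φ' - w) := by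
        rw [Real.sin_sub]; ring
      rw [e]
      have h3 : Real.sin (φ' - w) ≤ Real.sin (φ - w) :=
        Real.sin_le_sin_of_le_of_le_pi_div_two (by linarith) (by linarith) (by linarith)
      exact (mul_le_mul_of_nonneg_left h3 hr).trans hL'
  -- step (c)
  have hray2 : ∀ s y : ℝ, Real.cos (w + t) * y - Real.sin (w + t) * s =
      Real.cos t * (Real.cos w * y - Real.sin w * s) -
        Real.sin t * (Real.cos w * s + Real.sin w * y) := by
    intro s y
    rw [Real.cos_add, Real.sin_add]; ring
  refine Coll.step (ray w) ?_ ?_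
  · rintro x ⟨⟨hxT, hxh⟩, hxr⟩ hLx
    rw [memT] at hxT
    obtain ⟨him, hy, hu, hpg⟩ := hxT
    rw [ray_L_coll_obtuse] at hxr hLx hxh
    rw [ray_L_coll_obtuse]
    rw [hray2] at hxr
    have hp := hp0 x.fst x.snd.re hy hu
    have h2 := hcoord2 x.fst x.snd.re
    have h1 := hcoord1 x.fst x.snd.re
    rw [hup] at hu
    have hrefl : (ray w).refl x = pt (x.fst + 2 * (Real.cos w * x.snd.re - Real.sin w * x.fst) *
        Real.sin w) (x.snd - ((2 * (Real.cos w * x.snd.re - Real.sin w * x.fst) *
          Real.cos w : ℝ) : ℂ)) := by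
      unfold Ln.refl
      rw [ray_L_coll_obtuse]
      apply W_ext
      · simp only [pt_fst]
        show x.fst - 2 * _ * (-Real.sin w) = _
        ring
      · rfl
    have ep : Real.cos w * (x.fst + 2 * (Real.cos w * x.snd.re - Real.sin w * x.fst) *
        Real.sin w) + Real.sin w * (x.snd.re - 2 * (Real.cos w * x.snd.re -
          Real.sin w * x.fst) * Real.cos w) =
        Real.cos w * x.fst + Real.sin w * x.snd.re := by ring
    have eq' : Real.cos w * (x.snd.re - 2 * (Real.cos w * x.snd.re -
          Real.sin w * x.fst) * Real.cos w) - Real.sin w * (x.fst + 2 *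
          (Real.cos w * x.snd.re - Real.sin w * x.fst) * Real.sin w) =
        - (Real.cos w * x.snd.re - Real.sin w * x.fst) := by
      linear_combination (-2 * (Real.cos w * x.snd.re - Real.sin w * x.fst)) * hscw
    rw [hrefl]
    set p := Real.cos w * x.fst + Real.sin w * x.snd.re with hp'
    set q := Real.cos w * x.snd.re - Real.sin w * x.fst with hq'
    have hqp : Real.cos t * q ≤ Real.sin t * p := by linarith
    refine ⟨?_, ⟨?_, ?_⟩, ?_⟩
    · unfold hgt
      have h3 : Real.cos t * q ≤ Real.cos t * (c * Real.sin w * p) := by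
        have h4 : Real.sin t * p ≤ c * Real.sin w * Real.cos t * p :=
          mul_le_mul_of_nonneg_right htc hp
        linarith
      have h5 : q ≤ c * Real.sin w * p := le_of_mul_le_mul_left h3 hct
      rw [← h2]
      have h6 : 0 ≤ c * (Real.cos w * q) := by positivity
      linarith
    · rw [memT]
      simp only [pt_fst, pt_snd, Complex.sub_re, Complex.sub_im, Complex.ofReal_re,
        Complex.ofReal_im, sub_zero]
      refine ⟨him, ?_, ?_, ?_⟩
      · have e : x.snd.re - 2 * q * Real.cos w = Real.sin w * p - Real.cos w * q := by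
          linear_combination -h2
        rw [e]
        have h3 : 0 ≤ Real.sin (w - t) :=
          Real.sin_nonneg_of_nonneg_of_le_pi (by linarith) (by linarith)
        rw [Real.sin_sub] at h3
        have h4 : 0 ≤ Real.cos t * (Real.sin w * p - Real.cos w * q) := by
          have h5 : Real.cos w * (Real.cos t * q) ≤ Real.cos w * (Real.sin t * p) :=
            mul_le_mul_of_nonneg_left hqp hcw.le
          have h6 : 0 ≤ (Real.sin w * Real.cos t - Real.cos w * Real.sin t) * p :=
            mul_nonneg h3 hp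
          linarith
        exact nonneg_of_mul_nonneg_right h4 hct
      · rw [hup, ep, eq', mul_neg, sub_neg_eq_add]
        exact add_nonneg (mul_nonneg hA.le hp) (mul_nonneg hB.le hLx.le)
      · rw [ep]; exact hpg
    · show (ray w).L _ ≤ h
      rw [ray_L_coll_obtuse]
      simp only [pt_fst, pt_snd, Complex.sub_re, Complex.ofReal_re]
      rw [eq']
      linarith
    · show (ray (w + t)).L _ ≤ 0
      rw [ray_L_coll_obtuse, hray2]
      simp only [pt_fst, pt_snd, Complex.sub_re, Complex.ofReal_re]
      rw [eq', ep]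
      have h3 := mul_nonneg hst.le hp
      have h4 := mul_nonneg hct.le hLx.le
      linarith
  -- step (d)
  have hset : {x ∈ {x ∈ {x ∈ T.carrier | (ray w).L x ≤ h} | (ray (w + t)).L x ≤ 0} |
      (ray w).L x ≤ 0} = (⟨T.d, T.d * Real.cos w ^ 2, T.d * Real.cos w * Real.sin w, hd,
        by positivity⟩ : Tri).carrier := by
    ext x
    rw [mem_carrier_iff_coll_obtuse]
    simp only [Set.mem_ofPred_eq]
    rw [memT, ray_L_coll_obtuse, ray_L_coll_obtuse, hray2]
    have e1 : T.d * Real.cos w * Real.sin w * x.fst - T.d * Real.cos w ^ 2 * x.snd.re =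
        (T.d * Real.cos w) * (-(Real.cos w * x.snd.re - Real.sin w * x.fst)) := by ring
    have e2 : T.d * Real.cos w * Real.sin w * x.fst +
        (T.d - T.d * Real.cos w ^ 2) * x.snd.re =
        (T.d * Real.sin w) * (Real.cos w * x.fst + Real.sin w * x.snd.re) := by
      linear_combination (-(T.d * x.snd.re)) * hscw
    have e3 : T.d * (T.d * Real.cos w * Real.sin w) = (T.d * Real.sin w) * g := by
      rw [hg]; ring
    rw [e1, e2, e3, mul_le_mul_iff_right₀ (by positivity), mul_nonneg_iff_of_pos_left (by positivity)]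
    constructor
    · rintro ⟨⟨⟨⟨him, hy, hu, hpg⟩, -⟩, -⟩, hq⟩
      exact ⟨him, hy, by linarith, hpg⟩
    · rintro ⟨him, hy, hq, hpg⟩
      have h2 := hcoord2 x.fst x.snd.re
      have hp : 0 ≤ Real.cos w * x.fst + Real.sin w * x.snd.re := by
        have h3 : 0 ≤ Real.cos w * (-(Real.cos w * x.snd.re - Real.sin w * x.fst)) :=
          mul_nonneg hcw.le hq
        have h4 : 0 ≤ Real.sin w * (Real.cos w * x.fst + Real.sin w * x.snd.re) := by
          linarith
        exact nonneg_of_mul_nonneg_right h4 hsw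
      refine ⟨⟨⟨⟨him, hy, ?_, hpg⟩, by linarith⟩, ?_⟩, by linarith⟩
      · rw [hup]
        have h3 := mul_nonneg hA.le hp
        have h4 := mul_nonneg hB.le hq
        linarith
      · have h3 := mul_nonneg hst.le hp
        have h4 := mul_nonneg hct.le hq
        linarith
  rw [hset]
  refine coll_acute hc hτ (⟨T.d, T.d * Real.cos w ^ 2, T.d * Real.cos w * Real.sin w, hd,
        by positivity⟩ : Tri) ?_ ?_
  · show 0 ≤ T.d * Real.cos w ^ 2
    positivity
  · show T.d * Real.cos w ^ 2 ≤ T.d
    have h3 := mul_nonneg hd.le (sq_nonneg (Real.sin w))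
    have h4 : T.d * Real.sin w ^ 2 + T.d * Real.cos w ^ 2 = T.d := by
      rw [← mul_add, hscw, mul_one]
    linarith

end Pool.Agent.H334
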