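import Pool.Agent.Helper334_Fold.Defs2
import Pool.Agent.Helper334_Fold.P_coll_mirror
import Pool.Agent.Helper334_Fold.P_coll_acute
import Pool.Agent.Helper334_Fold.P_coll_obtuse

set_option autoImplicit false

open Set


namespace Pool.Agent.H334





/- TARGET. Plain-words proof:
If 0 <= b1 <= d: coll_acute. If b1 < 0: coll_obtuse. If b1 > d: let T' = ⟨d, d - b1, b2, _, _⟩, obtuse at the origin;
mir d ⁻¹' T'.carrier = T.carrier and mir d ⁻¹' sliver d tau = sliver d tau; apply coll_mirror to coll_obtuse T'.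
-/
theorem coll_tri {c τ : ℝ} (hc : 0 < c) (hτ : 0 < τ) (T : Tri) :
    Coll c (sliver T.d τ) T.carrier := by
  rcases lt_or_ge T.b1 0 with h0 | h0
  · exact coll_obtuse hc hτ T h0
  rcases le_or_gt T.b1 T.d with h1 | h1
  · exact coll_acute hc hτ T h0 h1
  have hd := T.hd
  have hb := T.hb
  have h := coll_mirror (d := T.d) (coll_obtuse hc hτ ⟨T.d, T.d - T.b1, T.b2, hd, hb⟩ (by simpa using h1))
  have e1 : mir T.d ⁻¹' sliver T.d τ = sliver T.d τ := by
    ext w
    simp only [sliver, mir, mem_preimage, mem_setOf_eq, pt_fst, pt_snd, sub_sub_cancel]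
    tauto
  have eA : ∀ w : W, (Tri.mk T.d (T.d - T.b1) T.b2 hd hb).lA (mir T.d w) = T.lD w := by
    intro w
    simp only [Tri.lA, Tri.lB, Tri.lD, mir, pt_fst, pt_snd]
    field_simp
    ring
  have eD : ∀ w : W, (Tri.mk T.d (T.d - T.b1) T.b2 hd hb).lD (mir T.d w) = T.lA w := by
    intro w
    simp only [Tri.lA, Tri.lB, Tri.lD, mir, pt_fst, pt_snd]
    field_simp
    ring
  have eB : ∀ w : W, (Tri.mk T.d (T.d - T.b1) T.b2 hd hb).lB (mir T.d w) = T.lB w := by
    intro w
    simp only [Tri.lB, mir, pt_snd]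
  have e2 : mir T.d ⁻¹' (Tri.mk T.d (T.d - T.b1) T.b2 hd hb).carrier = T.carrier := by
    ext w
    simp only [Tri.carrier, mem_preimage, mem_setOf_eq, Tri.m, eA, eD, eB, le_min_iff]
    simp only [mir, pt_snd]
    tauto
  simp only at h
  rw [e1, e2] at h
  exact h

end Pool.Agent.H334
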