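import Pool.Agent.Helper334_Fold.Defs2
import Pool.Agent.Helper334_Fold.P_carrier_hull

set_option autoImplicit false

open Set


namespace Pool.Agent.H334


theorem vert0_mem (T : Tri) : pt 0 0 ∈ T.carrier := by
  have h1 := T.hd
  have h2 := T.hb
  refine ⟨by simp, ?_⟩
  simp [Tri.m, Tri.lA, Tri.lB, Tri.lD]

theorem vert1_mem (T : Tri) : pt T.d 0 ∈ T.carrier := by
  have h1 := T.hd
  have h2 := T.hb
  refine ⟨by simp, ?_⟩
  simp [Tri.m, Tri.lA, Tri.lB, Tri.lD, div_self h1.ne']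

theorem vert2_mem (T : Tri) : pt T.b1 (T.b2 : ℂ) ∈ T.carrier := by
  have h1 := T.hd
  have h2 := T.hb
  refine ⟨by simp, ?_⟩
  simp [Tri.m, Tri.lA, Tri.lB, Tri.lD, div_self h2.ne']

theorem W_dist_sq' (w w' : W) : dist w w' ^ 2 = (w.fst - w'.fst) ^ 2 +
    ((w.snd.re - w'.snd.re) ^ 2 + (w.snd.im - w'.snd.im) ^ 2) := by
  rw [W_dist_sq, Complex.sq_norm, Complex.normSq_apply]
  simp only [Complex.sub_re, Complex.sub_im]
  ring

theorem finrank_W : Module.finrank ℝ W = Fintype.card (Fin 3) := by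
  have e : Module.finrank ℝ W = Module.finrank ℝ (ℝ × ℂ) :=
    (WithLp.linearEquiv 2 ℝ (ℝ × ℂ)).finrank_eq
  rw [e, Module.finrank_prod]
  simp [Complex.finrank_real_complex]

/-- two orthonormal pairs are related by a linear isometry -/
theorem exists_isom (e0 e1 w0 w1 : W) (h00 : inner ℝ e0 e0 = (1:ℝ)) (h01 : inner ℝ e0 e1 = (0:ℝ))
    (h11 : inner ℝ e1 e1 = (1:ℝ)) (k00 : inner ℝ w0 w0 = (1:ℝ)) (k01 : inner ℝ w0 w1 = (0:ℝ))
    (k11 : inner ℝ w1 w1 = (1:ℝ)) : ∃ A : W ≃ₗᵢ[ℝ] W, A e0 = w0 ∧ A e1 = w1 := by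
  have key : ∀ a b : W, inner ℝ a a = (1:ℝ) → inner ℝ a b = (0:ℝ) → inner ℝ b b = (1:ℝ) →
      ∃ B : OrthonormalBasis (Fin 3) ℝ W, B 0 = a ∧ B 1 = b := by
    intro a b haa hab hbb
    have hba : inner ℝ b a = (0:ℝ) := by rw [real_inner_comm]; exact hab
    have hv : Orthonormal ℝ (Set.domRestrict ({0, 1} : Set (Fin 3)) (![a, b, 0] : Fin 3 → W)) := by
      rw [orthonormal_iff_ite]
      rintro ⟨i, hi⟩ ⟨j, hj⟩
      rcases hi with rfl | hi <;> rcases hj with rfl | hj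
      · rw [if_pos rfl]; exact haa
      · rw [Set.mem_singleton_iff] at hj; subst hj
        rw [if_neg (fun h => (show (0 : Fin 3) ≠ 1 by decide) (congrArg Subtype.val h))]
        exact hab
      · rw [Set.mem_singleton_iff] at hi; subst hi
        rw [if_neg (fun h => (show (1 : Fin 3) ≠ 0 by decide) (congrArg Subtype.val h))]
        exact hba
      · rw [Set.mem_singleton_iff] at hi hj; subst hi; subst hj
        rw [if_pos rfl]; exact hbb
    obtain ⟨B, hB⟩ := hv.exists_orthonormalBasis_extension_of_card_eq finrank_W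
    exact ⟨B, by simpa using hB 0 (by simp), by simpa using hB 1 (by simp)⟩
  obtain ⟨B, hB0, hB1⟩ := key e0 e1 h00 h01 h11
  obtain ⟨B', hB0', hB1'⟩ := key w0 w1 k00 k01 k11
  refine ⟨B.equiv B' (Equiv.refl _), ?_, ?_⟩
  · rw [← hB0, ← hB0']; simp
  · rw [← hB1, ← hB1']; simp

theorem W_inner (w w' : W) : inner ℝ w w' = w.fst * w'.fst +
    (w.snd.re * w'.snd.re + w.snd.im * w'.snd.im) := by
  rw [WithLp.prod_inner_apply]
  simp [Complex.inner]
  ring

/-- linear algebra in a pair of vectors -/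
theorem two_vec (d b1 b2 : ℝ) (hd : 0 < d) (hb : 0 < b2) (u1 u2 : W)
    (n1 : inner ℝ u1 u1 = d ^ 2) (n2 : inner ℝ u2 u2 = b1 ^ 2 + b2 ^ 2)
    (n12 : inner ℝ u1 u2 = d * b1) : ∃ w0 w1 : W, inner ℝ w0 w0 = (1:ℝ) ∧ inner ℝ w0 w1 = (0:ℝ) ∧
      inner ℝ w1 w1 = (1:ℝ) ∧ d • w0 = u1 ∧ b1 • w0 + b2 • w1 = u2 := by
  obtain ⟨w0, hw0⟩ : ∃ w0 : W, w0 = (1 / d) • u1 := ⟨_, rfl⟩
  obtain ⟨w1, hw1⟩ : ∃ w1 : W, w1 = (1 / b2) • (u2 - b1 • w0) := ⟨_, rfl⟩
  have k00 : inner ℝ w0 w0 = (1:ℝ) := by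
    rw [hw0, real_inner_smul_left, real_inner_smul_right, n1]
    field_simp
  have k02 : inner ℝ w0 u2 = b1 := by
    rw [hw0, real_inner_smul_left, n12]
    field_simp
  have k20 : inner ℝ u2 w0 = b1 := by rw [real_inner_comm]; exact k02
  have k01 : inner ℝ w0 w1 = (0:ℝ) := by
    rw [hw1, real_inner_smul_right, inner_sub_right, real_inner_smul_right, k00, k02]
    ring
  have k11 : inner ℝ w1 w1 = (1:ℝ) := by
    rw [hw1, real_inner_smul_left, real_inner_smul_right, inner_sub_left, inner_sub_right,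
      real_inner_smul_right, real_inner_smul_left, inner_sub_right, real_inner_smul_right,
      k20, k02, k00, n2]
    field_simp
    ring
  refine ⟨w0, w1, k00, k01, k11, ?_, ?_⟩
  · rw [hw0, smul_smul]
    have : d * (1 / d) = 1 := by field_simp
    rw [this, one_smul]
  · rw [hw1, smul_smul]
    have : b2 * (1 / b2) = 1 := by field_simp
    rw [this, one_smul]
    abel

/-- trilateration -/
theorem trilat (d b1 b2 s h r i t : ℝ) (hd : 0 < d) (hb : 0 < b2)
    (q0 : s ^ 2 + (r ^ 2 + i ^ 2) = t ^ 2 + (h ^ 2 + 0 ^ 2))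
    (q1 : (s - d) ^ 2 + (r ^ 2 + i ^ 2) = (t - d) ^ 2 + (h ^ 2 + 0 ^ 2))
    (q2 : (s - b1) ^ 2 + ((r - b2) ^ 2 + i ^ 2) = (t - b1) ^ 2 + ((h - b2) ^ 2 + 0 ^ 2)) :
    s = t ∧ r = h ∧ i = 0 := by
  have es : s = t := by
    have h : d * (s - t) = 0 := by nlinarith
    have := (mul_eq_zero.1 h).resolve_left hd.ne'
    linarith
  subst es
  have er : r = h := by
    have h : b2 * (r - h) = 0 := by nlinarith
    have := (mul_eq_zero.1 h).resolve_left hb.ne'
    linarith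
  subst er
  refine ⟨rfl, rfl, ?_⟩
  have h : i ^ 2 = 0 := by nlinarith
  exact pow_eq_zero_iff (two_ne_zero) |>.1 h

/- TARGET. Plain-words proof:
f preserves distances on the triangle T.carrier with vertices V0=(0,0), V1=(d,0), V2=(b1,b2). Let u1 = f V1 - f V0, u2 = f V2 - f V0; the Gram matrix of (u1,u2) equals that of (V1-V0, V2-V0) (polarisation of distances). So there is a linear
isometry from the 2-dim span (the plane im = 0) to W taking V1-V0, V2-V0 to u1, u2, and it extends to a linear isometry equivalence of W (LinearIsometry.extend for finite dimension). J x = f V0 + A (x - V0). Then g = J⁻¹ ∘ f preserves distances on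
the carrier and fixes V0, V1, V2 (the vertices are in the carrier), hence fixes every x in the carrier: from the three distances of g x = (s',z') to (0,0), (d,0), (b1,b2) being those of x = (s, h real):
s' = s, |z'| = |h|, re z' = h (since b2 ≠ 0), so im z' = 0 and z' = h.
-/
theorem extend_isom (T : Tri) (f : W → W)
    (hf : ∀ x ∈ T.carrier, ∀ y ∈ T.carrier, dist (f x) (f y) = dist x y) :
    ∃ J : W ≃ᵃⁱ[ℝ] W, ∀ x ∈ T.carrier, f x = J x := by
  have hd := T.hd
  have hb := T.hb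
  have m0 := vert0_mem T
  have m1 := vert1_mem T
  have m2 := vert2_mem T
  set V0 : W := pt 0 0 with hV0
  set V1 : W := pt T.d 0 with hV1
  set V2 : W := pt T.b1 (T.b2 : ℂ) with hV2
  set u1 := f V1 - f V0 with hu1
  set u2 := f V2 - f V0 with hu2
  have n1 : inner ℝ u1 u1 = T.d ^ 2 := by
    rw [real_inner_self_eq_norm_sq, hu1, ← dist_eq_norm, hf _ m1 _ m0, W_dist_sq']
    simp [hV0, hV1]
  have n2 : inner ℝ u2 u2 = T.b1 ^ 2 + T.b2 ^ 2 := by
    rw [real_inner_self_eq_norm_sq, hu2, ← dist_eq_norm, hf _ m2 _ m0, W_dist_sq']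
    simp [hV0, hV2]
  have n3 : inner ℝ (u1 - u2) (u1 - u2) = (T.d - T.b1) ^ 2 + T.b2 ^ 2 := by
    have e : u1 - u2 = f V1 - f V2 := by rw [hu1, hu2]; abel
    rw [real_inner_self_eq_norm_sq, e, ← dist_eq_norm, hf _ m1 _ m2, W_dist_sq']
    simp [hV1, hV2]
  have n12 : inner ℝ u1 u2 = T.d * T.b1 := by
    rw [inner_sub_sub_self, real_inner_comm u1 u2, n1, n2] at n3
    have n3' : T.d ^ 2 - inner ℝ u1 u2 - inner ℝ u1 u2 + (T.b1 ^ 2 + T.b2 ^ 2) =
      (T.d - T.b1) ^ 2 + T.b2 ^ 2 := by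
      simpa using n3
    linarith
  obtain ⟨w0, w1, k00, k01, k11, hw1, hw2⟩ := two_vec T.d T.b1 T.b2 hd hb u1 u2 n1 n2 n12
  obtain ⟨A, hA0, hA1⟩ := exists_isom (pt 1 0) (pt 0 1) w0 w1
    (by rw [W_inner]; simp) (by rw [W_inner]; simp) (by rw [W_inner]; simp) k00 k01 k11
  have hAV1 : A V1 = u1 := by
    have e : V1 = T.d • pt 1 0 := W_ext (by simp [hV1]) (by simp [hV1])
    rw [e, map_smul, hA0, hw1]
  have hAV2 : A V2 = u2 := by
    have e : V2 = T.b1 • pt 1 0 + T.b2 • pt 0 1 := W_ext (by simp [hV2]) (by simp [hV2])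
    rw [e, map_add, map_smul, map_smul, hA0, hA1, hw2]
  have hAV0 : A V0 = 0 := by
    have e : V0 = 0 := W_ext (by simp [hV0]) (by simp [hV0])
    rw [e, map_zero]
  let J : W ≃ᵃⁱ[ℝ] W := A.toAffineIsometryEquiv.trans (AffineIsometryEquiv.constVAdd ℝ W (f V0))
  have hJ : ∀ x, J x = f V0 + A x := fun x => by
    simp [J]
  have hJ0 : J V0 = f V0 := by rw [hJ, hAV0, add_zero]
  have hJ1 : J V1 = f V1 := by rw [hJ, hAV1, hu1]; abel
  have hJ2 : J V2 = f V2 := by rw [hJ, hAV2, hu2]; abel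
  refine ⟨J, fun x hx => ?_⟩
  set y := J.symm (f x) with hy
  have hJy : J y = f x := by simp [hy]
  have d0 : dist y V0 = dist x V0 := by
    rw [← J.dist_map, hJy, hJ0, hf x hx _ m0]
  have d1 : dist y V1 = dist x V1 := by
    rw [← J.dist_map, hJy, hJ1, hf x hx _ m1]
  have d2 : dist y V2 = dist x V2 := by
    rw [← J.dist_map, hJy, hJ2, hf x hx _ m2]
  have q0 := congrArg (fun r : ℝ => r ^ 2) d0
  have q1 := congrArg (fun r : ℝ => r ^ 2) d1
  have q2 := congrArg (fun r : ℝ => r ^ 2) d2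
  simp only [W_dist_sq'] at q0 q1 q2
  have hx0 : x.snd.im = 0 := hx.1
  simp only [hV0, hV1, hV2, pt_fst, pt_snd, Complex.zero_re, Complex.zero_im, Complex.ofReal_re,
    Complex.ofReal_im, sub_zero, hx0] at q0 q1 q2
  obtain ⟨es, er, ei⟩ := trilat T.d T.b1 T.b2 y.fst x.snd.re y.snd.re y.snd.im x.fst hd hb q0 q1 q2
  have hyx : y = x := W_ext es (Complex.ext er (ei.trans hx0.symm))
  rw [← hJy, hyx]

end Pool.Agent.H334
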