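import Pool.Agent.Helper334_Fold.Defs2
import Pool.Agent.Helper334_Fold.P_extend_isom

set_option autoImplicit false

open Set


namespace Pool.Agent.H334

/- TARGET. Plain-words proof:
Put g = J⁻¹ ∘ f, isometric on T.carrier, fixing (0,0) and (d,0). Let g(V2) = (s*, z*), V2 = (b1, b2). Distances to (0,0) and (d,0) give s* = b1, |z*| = b2. Let b = arg z* in (-pi, pi]; then rotx b V2 = (b1, e^{ib} b2) = (b1, z*). The map rotx (-b) ∘ g
preserves distances on T.carrier and fixes the three vertices, so it fixes every x = (s, h) of the carrier: if (s',z') has the same distances as (s,h) to (0,0), (d,0), (b1,b2) (h real, b2 > 0, d > 0) then s' = s, |z'|^2 = h^2 and re z' = h, so z' = h.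
-/
theorem dihedral (T : Tri) (f : W → W)
    (hf : ∀ x ∈ T.carrier, ∀ y ∈ T.carrier, dist (f x) (f y) = dist x y)
    (J : W ≃ᵃⁱ[ℝ] W) (h0 : f (pt 0 0) = J (pt 0 0)) (h1 : f (pt T.d 0) = J (pt T.d 0)) :
    ∃ b ∈ Ioc (-Real.pi) Real.pi, ∀ x ∈ T.carrier, f x = J (rotx b x) := by
  have hd := T.hd
  have hb := T.hb
  have m0 : pt 0 0 ∈ T.carrier := by
    simp [Tri.carrier, Tri.m, Tri.lA, Tri.lD, Tri.lB]
  have m1 : pt T.d 0 ∈ T.carrier := by
    simp [Tri.carrier, Tri.m, Tri.lA, Tri.lD, Tri.lB, hd.ne']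
  have m2 : pt T.b1 (T.b2 : ℂ) ∈ T.carrier := by
    simp [Tri.carrier, Tri.m, Tri.lA, Tri.lD, Tri.lB, hb.ne']
  set g : W → W := fun x => J.symm (f x) with hg
  have hgf : ∀ x, f x = J (g x) := fun x => by simp [hg]
  have hgd : ∀ x ∈ T.carrier, ∀ y ∈ T.carrier, dist (g x) (g y) = dist x y := by
    intro x hx y hy
    rw [hg]
    simp only [AffineIsometryEquiv.dist_map]
    exact hf x hx y hy
  have g0 : g (pt 0 0) = pt 0 0 := by simp [hg, h0]
  have g1 : g (pt T.d 0) = pt T.d 0 := by simp [hg, h1]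
  have nsq : ∀ z : ℂ, ‖z‖ ^ 2 = z.re ^ 2 + z.im ^ 2 := by
    intro z; rw [← Complex.normSq_eq_norm_sq, Complex.normSq_apply]; ring
  -- two distances
  have two : ∀ x ∈ T.carrier, (g x).fst = x.fst ∧
      (g x).snd.re ^ 2 + (g x).snd.im ^ 2 = x.snd.re ^ 2 := by
    intro x hx
    have him : x.snd.im = 0 := hx.1
    have e0 := congrArg (fun r => r ^ 2) (hgd x hx _ m0)
    have e1 := congrArg (fun r => r ^ 2) (hgd x hx _ m1)
    simp only [g0, g1, W_dist_sq, pt_fst, pt_snd, sub_zero, nsq] at e0 e1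
    rw [him] at e0 e1
    have e2 : T.d * ((g x).fst - x.fst) = 0 := by linarith
    have e3 : (g x).fst = x.fst := by
      rcases mul_eq_zero.1 e2 with h | h
      · exact absurd h hd.ne'
      · linarith
    refine ⟨e3, ?_⟩
    rw [e3] at e0
    linarith
  obtain ⟨t1, t2⟩ := two _ m2
  simp only [pt_fst, pt_snd, Complex.ofReal_re] at t1 t2
  set zs : ℂ := (g (pt T.b1 (T.b2 : ℂ))).snd with hzs
  set b : ℝ := Complex.arg zs with hbdef
  have hnorm : ‖zs‖ = T.b2 := by
    have h2 : ‖zs‖ ^ 2 = T.b2 ^ 2 := by rw [nsq]; exact t2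
    exact (pow_left_inj₀ (norm_nonneg _) hb.le two_ne_zero).1 h2
  have hzre : zs.re = T.b2 * Real.cos b := by
    have := Complex.norm_mul_cos_arg zs
    rw [hnorm] at this; exact this.symm
  have hzim : zs.im = T.b2 * Real.sin b := by
    have := Complex.norm_mul_sin_arg zs
    rw [hnorm] at this; exact this.symm
  refine ⟨b, ⟨Complex.neg_pi_lt_arg _, Complex.arg_le_pi _⟩, ?_⟩
  intro x hx
  rw [hgf x]
  congr 1
  obtain ⟨s1, s2⟩ := two x hx
  have him : x.snd.im = 0 := hx.1
  have e0 := congrArg (fun r => r ^ 2) (hgd x hx _ m2)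
  simp only [W_dist_sq, pt_fst, pt_snd, nsq, t1, s1, ← hzs, Complex.sub_re, Complex.sub_im,
    Complex.ofReal_re, Complex.ofReal_im, him, hzre, hzim, sub_zero] at e0
  have hcs := Real.sin_sq_add_cos_sq b
  set c := Real.cos b with hc
  set s := Real.sin b with hs
  set p := (g x).snd.re with hp
  set q := (g x).snd.im with hq
  set h := x.snd.re with hh
  have e1 : T.b2 * (p * c + q * s - h) = 0 := by
    nlinarith [mul_comm (T.b2 ^ 2) (s ^ 2 + c ^ 2)]
  have e2 : p * c + q * s = h := by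
    rcases mul_eq_zero.1 e1 with h' | h'
    · exact absurd h' hb.ne'
    · linarith
  have e3 : (p - h * c) ^ 2 + (q - h * s) ^ 2 = 0 := by
    have : (p - h * c) ^ 2 + (q - h * s) ^ 2
      = (p ^ 2 + q ^ 2) - 2 * h * (p * c + q * s) + h ^ 2 * (s ^ 2 + c ^ 2) := by ring
    rw [this, s2, e2, hcs]; ring
  have e4 : p = h * c := by nlinarith [sq_nonneg (p - h * c), sq_nonneg (q - h * s)]
  have e5 : q = h * s := by nlinarith [sq_nonneg (p - h * c), sq_nonneg (q - h * s)]
  have hx2 : x.snd = (h : ℂ) := by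
    apply Complex.ext
    · simp [hh]
    · simp [him]
  apply W_ext
  · simp only [rotx, pt_fst]; exact s1
  · simp only [rotx, pt_snd]
    rw [hx2, Complex.exp_mul_I]
    apply Complex.ext
    · rw [Complex.mul_re, Complex.add_re, Complex.add_im]
      simp only [Complex.mul_re, Complex.mul_im, Complex.I_re, Complex.I_im, Complex.ofReal_re,
        Complex.ofReal_im, mul_zero, mul_one, ← Complex.ofReal_cos, ← Complex.ofReal_sin]
      rw [← hp, e4]; ring
    · rw [Complex.mul_im, Complex.add_re, Complex.add_im]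
      simp only [Complex.mul_re, Complex.mul_im, Complex.I_re, Complex.I_im, Complex.ofReal_re,
        Complex.ofReal_im, mul_zero, mul_one, ← Complex.ofReal_cos, ← Complex.ofReal_sin]
      rw [← hq, e5]; ring

end Pool.Agent.H334
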