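import Pool.Agent.Helper334_Fold.Defs2
import Pool.Agent.Helper334_Fold.P_dihedral

set_option autoImplicit false

open Set


namespace Pool.Agent.H334

theorem rotx_rotx (a b : ℝ) (w : W) : rotx a (rotx b w) = rotx (a + b) w := by
  unfold rotx
  refine W_ext rfl ?_
  simp only [pt_snd]
  rw [← mul_assoc, ← Complex.exp_add]
  congr 2
  push_cast
  ring

theorem rotx_zero (w : W) : rotx 0 w = w := by
  unfold rotx
  refine W_ext rfl ?_
  simp only [pt_snd]
  simp

/-- Rotation about the axis, as an isometry equivalence. -/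
noncomputable def rotL (b : ℝ) : W ≃ₗᵢ[ℝ] W where
  toFun := rotx b
  invFun := rotx (-b)
  left_inv w := by rw [rotx_rotx, neg_add_cancel, rotx_zero]
  right_inv w := by rw [rotx_rotx, add_neg_cancel, rotx_zero]
  map_add' w w' := by
    unfold rotx
    refine W_ext rfl ?_
    simp only [pt_snd, WithLp.add_snd]
    ring
  map_smul' c w := by
    unfold rotx
    refine W_ext rfl ?_
    simp only [pt_snd, WithLp.smul_snd, RingHom.id_apply]
    rw [mul_smul_comm]
  norm_map' w := by
    change ‖rotx b w‖ = ‖w‖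
    rw [WithLp.prod_norm_eq_of_L2, WithLp.prod_norm_eq_of_L2]
    unfold rotx
    simp only [pt_fst, pt_snd]
    rw [norm_mul, Complex.norm_exp_ofReal_mul_I, one_mul]

/-- Rotation about the axis, as an affine isometry equivalence. -/
noncomputable def rotA (b : ℝ) : W ≃ᵃⁱ[ℝ] W := (rotL b).toAffineIsometryEquiv

theorem rotA_apply (b : ℝ) (w : W) : rotA b w = rotx b w := rfl

theorem frames_aux (S : Sys) (n : ℕ) (hS : S.Ok n) (φ : ℕ → W → W)
    (hφ : ∀ k ≤ n, ∀ x ∈ (S.T k).carrier, ∀ y ∈ (S.T k).carrier,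
      dist (φ k x) (φ k y) = dist x y)
    (hg : ∀ k, 1 ≤ k → k ≤ n → ∀ s ∈ Icc 0 (S.T k).d,
      φ k (pt s 0) = φ (S.p k) (S.E k (pt s 0)))
    (J₀ : W ≃ᵃⁱ[ℝ] W) (hJ : ∀ x ∈ (S.T 0).carrier, φ 0 x = J₀ x) (m : ℕ) (hmn : m ≤ n) :
    ∃ f : Fr, (∀ w, f.J 0 w = J₀ w) ∧
      (∀ k, 1 ≤ k → k ≤ m → f.b k ∈ Ioc (-Real.pi) Real.pi ∧
        ∀ w, f.J k w = f.J (S.p k) (S.E k (rotx (f.b k) w))) ∧
      ∀ k ≤ m, ∀ x ∈ (S.T k).carrier, φ k x = f.J k x := by
  induction m with
  | zero =>
    refine ⟨⟨fun _ => J₀, fun _ => 0⟩, fun _ => rfl, ?_, ?_⟩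
    · intro k h1 h2; omega
    · intro k hk x hx
      obtain rfl : k = 0 := by omega
      exact hJ x hx
  | succ m ih =>
    obtain ⟨f, f0, f1, f2⟩ := ih (by omega)
    obtain ⟨hp, hE⟩ := hS (m + 1) (by omega) hmn
    have hd := (S.T (m + 1)).hd
    have hmem : ∀ s ∈ Icc 0 (S.T (m + 1)).d,
        S.E (m + 1) (pt s 0) ∈ (S.T (S.p (m + 1))).carrier := by
      intro s hs
      refine ⟨?_, ?_⟩
      · rw [hE.im]; simp
      · obtain ⟨s₀, h₀, hh, h3⟩ := hE.third
        rw [h3]
        simp only [pt_fst, pt_snd, Complex.zero_re, neg_zero, zero_div, mul_zero, add_zero]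
        refine le_min le_rfl (le_min (div_nonneg hs.1 hd.le) ?_)
        rw [sub_nonneg, div_le_one hd]
        exact hs.2
    have hend : ∀ s ∈ Icc 0 (S.T (m + 1)).d,
        φ (m + 1) (pt s 0) = ((S.E (m + 1)).trans (f.J (S.p (m + 1)))) (pt s 0) := by
      intro s hs
      rw [hg (m + 1) (by omega) hmn s hs, f2 (S.p (m + 1)) (by omega) _ (hmem s hs)]
      rfl
    obtain ⟨b, hb, hbx⟩ := dihedral (S.T (m + 1)) (φ (m + 1)) (hφ (m + 1) hmn)
      ((S.E (m + 1)).trans (f.J (S.p (m + 1))))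
      (hend 0 ⟨le_rfl, hd.le⟩) (hend _ ⟨hd.le, le_rfl⟩)
    refine ⟨⟨Function.update f.J (m + 1)
      ((rotA b).trans ((S.E (m + 1)).trans (f.J (S.p (m + 1))))),
      Function.update f.b (m + 1) b⟩, ?_, ?_, ?_⟩
    · intro w
      rw [show (0 : ℕ) = 0 from rfl]
      simp only
      rw [Function.update_of_ne (by omega)]
      exact f0 w
    · intro k h1 h2
      simp only
      rcases Nat.lt_or_ge k (m + 1) with hk | hk
      · rw [Function.update_of_ne (by omega), Function.update_of_ne (by omega),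
          Function.update_of_ne (by have := (hS k h1 (by omega)).1; omega)]
        exact f1 k h1 (by omega)
      · obtain rfl : k = m + 1 := by omega
        rw [Function.update_self, Function.update_self, Function.update_of_ne (by omega)]
        exact ⟨hb, fun w => rfl⟩
    · intro k hk x hx
      simp only
      rcases Nat.lt_or_ge k (m + 1) with hk' | hk'
      · rw [Function.update_of_ne (by omega)]
        exact f2 k (by omega) x hx
      · obtain rfl : k = m + 1 := by omega
        rw [Function.update_self, hbx x hx]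
        rfl

/- TARGET. Plain-words proof:
Construct J k and b k by strong recursion; equivalently prove by induction on m <= n that there is f : Fr with the first property, the second one for k <= m and the third one for k <= m (changing the values at m+1 only).
Step: k = m+1, p = S.p k < k. E k (pt s 0), for s in [0,d], is in the carrier of S.T p: im is kept, and m (E (pt s 0)) = min 0 (min (s/d) (1 - s/d)) >= 0 by IsHinge.third. So φ k (pt s 0) = φ p (E k (pt s 0)) = J p (E k (pt s 0)) at s = 0 and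
s = d. dihedral with T = S.T k, f = φ k, J = (S.E k).trans (J p) gives b; put J k = (rotx b as an isometry equivalence).trans ((S.E k).trans (J p)), b k = b. (rotx b is a linear isometry equivalence of W with inverse rotx (-b).)
-/
theorem frames (S : Sys) (n : ℕ) (hS : S.Ok n) (φ : ℕ → W → W)
    (hφ : ∀ k ≤ n, ∀ x ∈ (S.T k).carrier, ∀ y ∈ (S.T k).carrier,
      dist (φ k x) (φ k y) = dist x y)
    (hg : ∀ k, 1 ≤ k → k ≤ n → ∀ s ∈ Icc 0 (S.T k).d,
      φ k (pt s 0) = φ (S.p k) (S.E k (pt s 0)))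
    (J₀ : W ≃ᵃⁱ[ℝ] W) (hJ : ∀ x ∈ (S.T 0).carrier, φ 0 x = J₀ x) :
    ∃ f : Fr, (∀ w, f.J 0 w = J₀ w) ∧
      (∀ k, 1 ≤ k → k ≤ n → f.b k ∈ Ioc (-Real.pi) Real.pi ∧
        ∀ w, f.J k w = f.J (S.p k) (S.E k (rotx (f.b k) w))) ∧
      ∀ k ≤ n, ∀ x ∈ (S.T k).carrier, φ k x = f.J k x := by
  exact frames_aux S n hS φ hφ hg J₀ hJ n le_rfl

end Pool.Agent.H334
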