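import Pool.Agent.Helper334_Fold.Defs2

set_option autoImplicit false

open Set


namespace Pool.Agent.H334
/- TARGET. Plain-words proof:
Suppose x is not on the base {lineMap (vtx k 0) (vtx k 1) s : s in [0,1]} of triangle k. Let A be the smallest set of pairs containing (k,x) and such that
(i,y) in A and Glue (i',y') (i,y) imply (i',y') in A (i' is then a child triangle: i' = m.succ, i = par m). All indices in A are >= k (par m < m.succ).
A is closed under Glue in both directions: suppose (i,y) in A and Glue (i,y) (p,y'). If (i,y) = (k,x) this says that x is on the base of k, excluded. Otherwise (i,y) was added because of some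
Glue (i,y) (p1,y1) with (p1,y1) in A; but the second argument of Glue is determined by the first (i = m.succ determines m; the parameter s is determined since vtx i 0 ≠ vtx i 1 by affine
independence and lineMap is injective), so (p,y') = (p1,y1) in A. Hence the EqvGen class of (k,x) is inside A, and j >= k: contradiction.
-/
theorem glue_det {n : ℕ} (X : HingedTree n) {a b b' : Fin (n + 1) × Plane} (h : X.Glue a b)
    (h' : X.Glue a b') : b = b' := by
  obtain ⟨m, s, _, ha, hb⟩ := h
  obtain ⟨m', s', _, ha', hb'⟩ := h'
  have h1 : m.succ = m'.succ := by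
    have := congrArg Prod.fst (ha.symm.trans ha')
    exact this
  have h2 : m = m' := Fin.succ_injective _ h1
  subst h2
  have h3 : (AffineMap.lineMap (X.vtx m.succ 0) (X.vtx m.succ 1) s : Plane) =
      AffineMap.lineMap (X.vtx m.succ 0) (X.vtx m.succ 1) s' := congrArg Prod.snd (ha.symm.trans ha')
  have hne : X.vtx m.succ 0 ≠ X.vtx m.succ 1 := by
    intro h0
    have := (X.nondeg m.succ).injective h0
    exact absurd this (by decide)
  have h4 : s = s' := AffineMap.lineMap_injective ℝ hne h3
  subst h4
  rw [hb, hb']

theorem glue_base {n : ℕ} (X : HingedTree n) {k j : Fin (n + 1)} {x u : Plane} (hjk : j < k)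
    (h : Relation.EqvGen X.Glue (k, x) (j, u)) :
    ∃ s ∈ Icc (0 : ℝ) 1, x = AffineMap.lineMap (X.vtx k 0) (X.vtx k 1) s := by
  by_contra hcon
  set A : Fin (n + 1) × Plane → Prop := fun p =>
    Relation.ReflTransGen (fun a b => X.Glue b a) (k, x) p with hA
  have hge : ∀ p, A p → k ≤ p.1 := by
    intro p hp
    induction hp with
    | refl => exact le_rfl
    | tail _ hbc ih =>
      obtain ⟨m, s, _, ha, hb⟩ := hbc
      rw [hb] at ih
      rw [ha]
      exact ih.trans (X.par_lt m).le
  have hup : ∀ p p', A p → X.Glue p p' → A p' := by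
    intro p p' hp hg
    rcases Relation.ReflTransGen.cases_tail hp with hp0 | ⟨p1, hp1, hg1⟩
    · exfalso
      obtain ⟨m, s, hs, ha, _⟩ := hg
      rw [hp0] at ha
      have h1 : k = m.succ := congrArg Prod.fst ha
      subst h1
      exact hcon ⟨s, hs, congrArg Prod.snd ha⟩
    · rw [glue_det X hg hg1]
      exact hp1
  have hdown : ∀ p p', A p → X.Glue p' p → A p' := fun p p' hp hg => hp.tail hg
  have key : ∀ a b, Relation.EqvGen X.Glue a b → (A a ↔ A b) := by
    intro a b hab
    induction hab with
    | rel a b h => exact ⟨fun ha => hup a b ha h, fun hb => hdown b a hb h⟩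
    | refl a => exact Iff.rfl
    | symm a b _ ih => exact ih.symm
    | trans a b c _ _ ih1 ih2 => exact ih1.trans ih2
  have h1 : A (j, u) := (key _ _ h).1 Relation.ReflTransGen.refl
  exact absurd (hge _ h1) (not_le.2 hjk)

end Pool.Agent.H334
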