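import Pool.Agent.Helper334_Fold.Defs2

set_option autoImplicit false

open Set


namespace Pool.Agent.H334
/- TARGET. Plain-words proof:
Every pair occurring in Glue (as first or second argument) lies on an edge: first argument on the edge 0,1; second on the edge (u k, v k), u k ≠ v k; lineMap with parameter in [0,1] is in the segment
(segment_eq_image_lineMap). Show by induction on EqvGen: a = b or (both a and b lie on edges).
-/
theorem glue_edge {n : ℕ} (X : HingedTree n) {k j : Fin (n + 1)} {x u : Plane}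
    (h : Relation.EqvGen X.Glue (k, x) (j, u)) (hne : (k, x) ≠ (j, u)) :
    ∃ a b : Fin 3, a ≠ b ∧ u ∈ segment ℝ (X.vtx j a) (X.vtx j b) := by
  have key : ∀ a b : Fin (n + 1) × Plane, Relation.EqvGen X.Glue a b → a = b ∨
      ((∃ α β : Fin 3, α ≠ β ∧ a.2 ∈ segment ℝ (X.vtx a.1 α) (X.vtx a.1 β)) ∧
       (∃ α β : Fin 3, α ≠ β ∧ b.2 ∈ segment ℝ (X.vtx b.1 α) (X.vtx b.1 β))) := by
    intro a b hab
    induction hab with
    | rel a b hab =>
      right
      obtain ⟨k, s, hs, rfl, rfl⟩ := hab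
      refine ⟨⟨0, 1, by decide, ?_⟩, ⟨X.u k, X.v k, X.ne k, ?_⟩⟩
      · rw [segment_eq_image_lineMap]
        exact ⟨s, hs, rfl⟩
      · rw [segment_eq_image_lineMap]
        exact ⟨s, hs, rfl⟩
    | refl a => exact Or.inl rfl
    | symm a b _ ih =>
      rcases ih with h | ⟨h1, h2⟩
      · exact Or.inl h.symm
      · exact Or.inr ⟨h2, h1⟩
    | trans a b c _ _ ih1 ih2 =>
      rcases ih1 with h | ⟨h1, h2⟩
      · rw [h]; exact ih2
      · rcases ih2 with h | ⟨h3, h4⟩
        · rw [← h]; exact Or.inr ⟨h1, h2⟩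
        · exact Or.inr ⟨h1, h4⟩
  rcases key _ _ h with h1 | ⟨-, h2⟩
  · exact absurd h1 hne
  · exact h2

end Pool.Agent.H334
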