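import Pool.Agent.Helper334_Fold.Defs2

set_option autoImplicit false

open Set


namespace Pool.Agent.H334
theorem H334_line_fact {w : Fin 3 → Plane} (hw : AffineIndependent ℝ w) {p q p' q' : Fin 3}
    (hpq : p ≠ q) {s s' : ℝ} (hs : s ∈ Ioo (0 : ℝ) 1)
    (h : AffineMap.lineMap (w p) (w q) s = AffineMap.lineMap (w p') (w q') s') :
    (p = p' ∧ q = q') ∨ (p = q' ∧ q = p') := by
  have h1 : ∀ (a b : Fin 3) (t : ℝ), ∑ i, ((if i = a then 1 - t else 0) + (if i = b then t else 0)) • w i =
      AffineMap.lineMap (w a) (w b) t := by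
    intro a b t
    rw [AffineMap.lineMap_apply_module]
    simp only [add_smul, ite_smul, zero_smul, Finset.sum_add_distrib, Finset.sum_ite_eq',
      Finset.mem_univ, if_true]
  have h2 := (affineIndependent_iff.1 hw) Finset.univ
    (fun i => ((if i = p then 1 - s else 0) + (if i = q then s else 0)) -
      ((if i = p' then 1 - s' else 0) + (if i = q' then s' else 0)))
    (by
      simp [Finset.sum_sub_distrib, Finset.sum_add_distrib])
    (by
      simp only [sub_smul, Finset.sum_sub_distrib]
      rw [h1, h1, h, sub_self])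
  have hp := h2 p (Finset.mem_univ _)
  have hq := h2 q (Finset.mem_univ _)
  simp only [if_true, if_neg hpq, if_neg hpq.symm] at hp hq
  have hp1 : p = p' ∨ p = q' := by
    by_contra hcon
    rw [not_or] at hcon
    rw [if_neg hcon.1, if_neg hcon.2] at hp
    linarith [hs.2]
  have hq1 : q = p' ∨ q = q' := by
    by_contra hcon
    rw [not_or] at hcon
    rw [if_neg hcon.1, if_neg hcon.2] at hq
    linarith [hs.1]
  rcases hp1 with h3 | h3 <;> rcases hq1 with h4 | h4
  · exact absurd (h3.trans h4.symm) hpq
  · exact Or.inl ⟨h3, h4⟩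
  · exact Or.inr ⟨h3, h4⟩
  · exact absurd (h3.trans h4.symm) hpq

theorem H334_line_inj {w : Fin 3 → Plane} (hw : AffineIndependent ℝ w) {p q : Fin 3}
    (hpq : p ≠ q) {s s' : ℝ}
    (h : AffineMap.lineMap (w p) (w q) s = AffineMap.lineMap (w p) (w q) s') : s = s' := by
  have h1 : w p ≠ w q := fun hc => hpq (hw.injective hc)
  exact AffineMap.lineMap_injective ℝ h1 h

theorem glue_open {n : ℕ} (X : HingedTree n) {l : Fin n} {j : Fin (n + 1)} {s : ℝ}
    (hs : s ∈ Ioo (0 : ℝ) 1) {u : Plane}
    (h : Relation.EqvGen X.Glue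
      (l.succ, AffineMap.lineMap (X.vtx l.succ 0) (X.vtx l.succ 1) s) (j, u)) :
    j = l.succ ∨ j = X.par l := by
  have key : ∀ c d : Fin (n + 1) × Plane, Relation.EqvGen X.Glue c d →
      ((c = (l.succ, AffineMap.lineMap (X.vtx l.succ 0) (X.vtx l.succ 1) s) ∨
        c = (X.par l, AffineMap.lineMap (X.vtx (X.par l) (X.u l)) (X.vtx (X.par l) (X.v l)) s)) ↔
      (d = (l.succ, AffineMap.lineMap (X.vtx l.succ 0) (X.vtx l.succ 1) s) ∨
        d = (X.par l, AffineMap.lineMap (X.vtx (X.par l) (X.u l)) (X.vtx (X.par l) (X.v l)) s))) := by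
    intro c d hcd
    induction hcd with
    | rel c d hg =>
      obtain ⟨k, s', hs', hc, hd⟩ := hg
      constructor
      · rintro (h1 | h1)
        · rw [hc, Prod.mk.injEq] at h1
          have hkl : k = l := Fin.succ_injective _ h1.1
          subst hkl
          have h2 : s' = s := H334_line_inj (X.nondeg k.succ) (by decide) h1.2
          subst h2
          exact Or.inr hd
        · exfalso
          rw [hc, Prod.mk.injEq] at h1
          obtain ⟨e1, e2⟩ := h1
          rw [e1] at e2
          have h2 := H334_line_fact (X.nondeg (X.par l)) (X.ne l) hs e2.symm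
          apply X.base l k e1.symm
          rcases h2 with ⟨h3, h4⟩ | ⟨h3, h4⟩
          · rw [h3, h4]
          · rw [h3, h4, Set.pair_comm]
      · rintro (h1 | h1)
        · exfalso
          rw [hd, Prod.mk.injEq] at h1
          obtain ⟨e1, e2⟩ := h1
          rw [e1] at e2
          have h2 := H334_line_fact (X.nondeg l.succ) (by decide) hs e2.symm
          apply X.base k l e1
          rcases h2 with ⟨h3, h4⟩ | ⟨h3, h4⟩
          · rw [← h3, ← h4]
          · rw [← h3, ← h4, Set.pair_comm]
        · rw [hd, Prod.mk.injEq] at h1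
          obtain ⟨e1, e2⟩ := h1
          rw [e1] at e2
          have h2 := H334_line_fact (X.nondeg (X.par l)) (X.ne l) hs e2.symm
          have hkl : k = l := by
            apply X.once k l e1
            rcases h2 with ⟨h3, h4⟩ | ⟨h3, h4⟩
            · rw [h3, h4]
            · rw [h3, h4, Set.pair_comm]
          subst hkl
          have h2 : s' = s := H334_line_inj (X.nondeg (X.par k)) (X.ne k) e2
          subst h2
          exact Or.inl hc
    | refl c => exact Iff.rfl
    | symm c d _ ih => exact ih.symm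
    | trans c d e _ _ ih1 ih2 => exact ih1.trans ih2
  rcases (key _ _ h).1 (Or.inl rfl) with h1 | h1
  · left; exact (Prod.mk.injEq _ _ _ _ ▸ h1).1
  · right; exact (Prod.mk.injEq _ _ _ _ ▸ h1).1

end Pool.Agent.H334
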