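import Pool.Agent.Helper334_Fold.Defs2
import Pool.Agent.Helper334_Fold.P_glue_base
import Pool.Agent.Helper334_Fold.P_glue_edge
import Pool.Agent.Helper334_Fold.P_glue_open
import Pool.Agent.Helper334_Fold.P_frames
import Pool.Agent.Helper334_Fold.P_clear_exists

set_option autoImplicit false

open Set


namespace Pool.Agent.H334







theorem config_frames_line (a b : W) (s : ℝ) :
    (AffineMap.lineMap a b s : W).fst = s * (b.fst - a.fst) + a.fst ∧
    (AffineMap.lineMap a b s : W).snd = (s : ℂ) * (b.snd - a.snd) + a.snd := by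
  rw [AffineMap.lineMap_apply]
  constructor
  · simp
  · simp

theorem config_frames_base {n : ℕ} (X : HingedTree n) (S : Sys)
    (κ : Fin (n + 1) → (Plane →ᵃⁱ[ℝ] W)) (hM : Model X S κ) (i : Fin (n + 1)) (s : ℝ) :
    κ i (AffineMap.lineMap (X.vtx i 0) (X.vtx i 1) s) = pt (s * (S.T i).d) 0 := by
  have h0 : κ i (AffineMap.lineMap (X.vtx i 0) (X.vtx i 1) s) =
      AffineMap.lineMap (κ i (X.vtx i 0)) (κ i (X.vtx i 1)) s :=
    (κ i).toAffineMap.apply_lineMap _ _ _
  have v0 : (S.T i).vert 0 = pt 0 0 := rfl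
  have v1 : (S.T i).vert 1 = pt (S.T i).d 0 := rfl
  rw [h0, hM.vert, hM.vert, v0, v1]
  obtain ⟨h1, h2⟩ := config_frames_line (pt 0 0) (pt (S.T i).d 0) s
  apply W_ext
  · rw [h1]; simp
  · rw [h2]; simp

theorem config_frames_m {n : ℕ} (X : HingedTree n) (S : Sys)
    (κ : Fin (n + 1) → (Plane →ᵃⁱ[ℝ] W)) (hM : Model X S κ) (j : Fin (n + 1)) (u : Plane)
    (a b : Fin 3) (hab : a ≠ b) (hu : u ∈ segment ℝ (X.vtx j a) (X.vtx j b)) :
    (S.T j).m (κ j u) ≤ 0 := by
  rw [segment_eq_image_lineMap] at hu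
  obtain ⟨θ, hθ, rfl⟩ := hu
  have h0 : κ j (AffineMap.lineMap (X.vtx j a) (X.vtx j b) θ) =
      AffineMap.lineMap (κ j (X.vtx j a)) (κ j (X.vtx j b)) θ :=
    (κ j).toAffineMap.apply_lineMap _ _ _
  rw [h0, hM.vert, hM.vert]
  obtain ⟨h1, h2⟩ := config_frames_line ((S.T j).vert a) ((S.T j).vert b) θ
  have hb := (S.T j).hb.ne'
  have hd := (S.T j).hd.ne'
  have v0 : (S.T j).vert 0 = pt 0 0 := rfl
  have v1 : (S.T j).vert 1 = pt (S.T j).d 0 := rfl
  have v2 : (S.T j).vert 2 = pt (S.T j).b1 ((S.T j).b2 : ℂ) := rfl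
  have key : (S.T j).lB (AffineMap.lineMap ((S.T j).vert a) ((S.T j).vert b) θ) = 0 ∨
      (S.T j).lD (AffineMap.lineMap ((S.T j).vert a) ((S.T j).vert b) θ) = 0 ∨
      (S.T j).lA (AffineMap.lineMap ((S.T j).vert a) ((S.T j).vert b) θ) = 0 := by
    unfold Tri.lA Tri.lD Tri.lB
    rw [h1, h2]
    clear h0 h1 h2
    fin_cases a <;> fin_cases b
    · exact absurd rfl hab
    · left; simp [v0, v1]
    · right; left
      simp only [Fin.zero_eta, Fin.reduceFinMk, v0, v2, pt_fst, pt_snd]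
      simp
      field_simp
      ring_nf
      simp
    · left; simp [v0, v1]
    · exact absurd rfl hab
    · right; right
      simp [v1, v2]
      field_simp
      ring_nf
    · right; left
      simp [v0, v2]
      field_simp
      ring_nf
      simp
    · right; right
      simp [v1, v2]
      field_simp
      ring_nf
    · exact absurd rfl hab
  unfold Tri.m
  rcases key with h | h | h
  · exact le_trans (min_le_right _ _) (le_trans (min_le_right _ _) h.le)
  · exact le_trans (min_le_right _ _) (le_trans (min_le_left _ _) h.le)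
  · exact le_trans (min_le_left _ _) h.le

/- TARGET. Plain-words proof:
Let φ k w = ι (f k (κ_k⁻¹ w)) for k <= n (κ_k is injective; use Function.invFun or an inverse on the image), so φ i (κ i x) = ι (f i x). hφ of frames: κ and ι isometric, f isometric on tri i, κ i '' tri i = carrier. hg: k = l.succ; pt s 0 with s = s' d, s' in [0,1]:
pt (s' d) 0 = κ k (lineMap (vtx k 0) (vtx k 1) s') by Model.vert (vert 0 = pt 0 0, vert 1 = pt d 0) and affinity, and S.E k (pt (s' d) 0) = κ (par l) (lineMap ... s') by Model.edge; f agrees on glued points (Embeds.glued). frames gives φ' : Fr with J 0 = J₀ and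
ι (f i x) = J i (κ i x).
h1 of clear_exists: if J k x' = J j u' with j < k, x' = κ k x, u' = κ j u then f k x = f j u, so EqvGen Glue (k,x) (j,u) by Embeds.inj; glue_base gives x on the base, so hgt x' = 0 (κ (lineMap ..) = pt (s d) 0); (k,x) ≠ (j,u), and glue_edge gives u in a segment between two different
vertices, so one barycentric coordinate of u' vanishes (u' is a convex combination of two of the three vertices): m u' <= 0, and m u' >= 0 as u' is in the carrier, so m u' = 0.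
h2: k = l.succ (k ≠ 0 since j < k), s = s' d with s' in (0,1); if J k (pt s 0) = J j u' then EqvGen Glue (k, lineMap .. s') (j,u), so glue_open gives j = k or j = par l, excluded by j < k and j ≠ S.p k (= par l by Model.par).
Then clear_exists.
-/
theorem config_frames {n : ℕ} (X : HingedTree n) (S : Sys)
    (κ : Fin (n + 1) → (Plane →ᵃⁱ[ℝ] W)) (hM : Model X S κ) (ι : Space ≃ₗᵢ[ℝ] W)
    (f : Fin (n + 1) → Plane → Space) (hf : X.IsConfig f) (J₀ : W ≃ᵃⁱ[ℝ] W)
    (hJ : ∀ x ∈ X.tri 0, ι (f 0 x) = J₀ (κ 0 x)) :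
    ∃ φ : Fr, (∀ w, φ.J 0 w = J₀ w) ∧
      (∀ i : Fin (n + 1), ∀ x ∈ X.tri i, ι (f i x) = φ.J i (κ i x)) ∧
      ∃ c₁ > (0 : ℝ), c₁ ≤ 1 ∧ Clear S n c₁ φ := by
  classical
  obtain ⟨⟨hglued, hcont, hinj⟩, hiso⟩ := hf
  obtain ⟨φ, hφdef⟩ : ∃ φ : ℕ → W → W, φ = fun k w =>
      if h : k < n + 1 then ι (f ⟨k, h⟩ (Function.invFun (κ ⟨k, h⟩) w)) else 0 := ⟨_, rfl⟩
  have hφ : ∀ (i : Fin (n + 1)) (x : Plane), φ (i : ℕ) (κ i x) = ι (f i x) := by
    intro i x
    rw [hφdef]
    simp only [i.isLt, dif_pos, Fin.eta]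
    rw [Function.leftInverse_invFun (κ i).injective x]
  have hcar : ∀ (k : ℕ) (hk : k ≤ n) (x : W), x ∈ (S.T k).carrier →
      ∃ x' ∈ X.tri ⟨k, Nat.lt_succ_of_le hk⟩, κ ⟨k, Nat.lt_succ_of_le hk⟩ x' = x := by
    intro k hk x hx
    have h := hM.tri ⟨k, Nat.lt_succ_of_le hk⟩
    have h' : x ∈ κ ⟨k, Nat.lt_succ_of_le hk⟩ '' X.tri ⟨k, Nat.lt_succ_of_le hk⟩ := by
      rw [h]; exact hx
    obtain ⟨x', h1, h2⟩ := h'
    exact ⟨x', h1, h2⟩
  have hsucc : ∀ k : ℕ, 1 ≤ k → k ≤ n → ∃ l : Fin n, ((l.succ : Fin (n + 1)) : ℕ) = k := by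
    intro k h1 h2
    refine ⟨⟨k - 1, by omega⟩, ?_⟩
    simp
    omega
  have hA1 : ∀ k ≤ n, ∀ x ∈ (S.T k).carrier, ∀ y ∈ (S.T k).carrier,
      dist (φ k x) (φ k y) = dist x y := by
    intro k hk x hx y hy
    obtain ⟨x', hx', rfl⟩ := hcar k hk x hx
    obtain ⟨y', hy', rfl⟩ := hcar k hk y hy
    have e1 := hφ ⟨k, Nat.lt_succ_of_le hk⟩ x'
    have e2 := hφ ⟨k, Nat.lt_succ_of_le hk⟩ y'
    simp only at e1 e2
    rw [e1, e2, ι.dist_map, hiso _ x' hx' y' hy', (κ _).dist_map]
  have hA2 : ∀ k, 1 ≤ k → k ≤ n → ∀ s ∈ Icc 0 (S.T k).d,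
      φ k (pt s 0) = φ (S.p k) (S.E k (pt s 0)) := by
    intro k h1 h2 s hs
    obtain ⟨l, hl⟩ := hsucc k h1 h2
    have hd := (S.T k).hd
    have hx : pt s 0 = κ l.succ
        (AffineMap.lineMap (X.vtx l.succ 0) (X.vtx l.succ 1) (s / (S.T k).d)) := by
      rw [config_frames_base X S κ hM, hl, div_mul_cancel₀ _ hd.ne']
    have hE := hM.edge l (s / (S.T k).d)
    have hp := hM.par l
    rw [hl] at hE hp
    rw [div_mul_cancel₀ _ hd.ne'] at hE
    rw [hE, hp, hφ, hx]
    have e1 := hφ l.succ (AffineMap.lineMap (X.vtx l.succ 0) (X.vtx l.succ 1) (s / (S.T k).d))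
    rw [hl] at e1
    rw [e1]
    congr 1
    apply hglued (l.succ, _) (X.par l, _)
    exact ⟨l, s / (S.T k).d, ⟨div_nonneg hs.1 hd.le, (div_le_one hd).mpr hs.2⟩, rfl, rfl⟩
  have hA3 : ∀ x ∈ (S.T 0).carrier, φ 0 x = J₀ x := by
    intro x hx
    obtain ⟨x', hx', rfl⟩ := hcar 0 (Nat.zero_le _) x hx
    have e1 := hφ ⟨0, Nat.lt_succ_of_le (Nat.zero_le _)⟩ x'
    simp only at e1
    rw [e1]
    exact hJ x' hx'
  obtain ⟨F, hF0, hF1, hF2⟩ := frames S n hM.ok φ hA1 hA2 J₀ hA3
  · have hFf : ∀ i : Fin (n + 1), ∀ x ∈ X.tri i, ι (f i x) = F.J i (κ i x) := by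
      intro i x hx
      rw [← hφ i x]
      apply hF2 i (Nat.le_of_lt_succ i.isLt)
      rw [← hM.tri i]
      exact ⟨x, hx, rfl⟩
    refine ⟨F, hF0, hFf, ?_⟩
    have hback : ∀ (i j : Fin (n + 1)) (x u : Plane), x ∈ X.tri i → u ∈ X.tri j →
        F.J i (κ i x) = F.J j (κ j u) → Relation.EqvGen X.Glue (i, x) (j, u) := by
      intro i j x u hx hu h
      rw [← hFf i x hx, ← hFf j u hu] at h
      exact hinj i j x hx u hu (ι.injective h)
    apply clear_exists S n hM.ok F (fun k h1 h2 => (hF1 k h1 h2).2)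
      (fun k h1 h2 => (hF1 k h1 h2).1)
    · intro k hk j hjk x hx u hu h
      have hj : j ≤ n := by omega
      obtain ⟨x', hx', rfl⟩ := hcar k hk x hx
      obtain ⟨u', hu', rfl⟩ := hcar j hj u hu
      have hE := hback _ _ x' u' hx' hu' h
      constructor
      · obtain ⟨s, hs, hxs⟩ := glue_base X (by exact hjk) hE
        rw [hxs, config_frames_base X S κ hM]
        simp [hgt]
      · obtain ⟨a, b, hab, hseg⟩ := glue_edge X hE (by
          intro h'
          have h'' := congrArg (fun p => ((p.1 : Fin (n + 1)) : ℕ)) h'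
          simp at h''
          omega)
        apply le_antisymm (config_frames_m X S κ hM _ u' a b hab hseg)
        exact hu.2
    · intro k hk j hjk hjp s hs u hu h
      have hj : j ≤ n := by omega
      obtain ⟨l, hl⟩ := hsucc k (by omega) hk
      obtain ⟨u', hu', rfl⟩ := hcar j hj u hu
      have hd := (S.T k).hd
      have hx : pt s 0 = κ l.succ
          (AffineMap.lineMap (X.vtx l.succ 0) (X.vtx l.succ 1) (s / (S.T k).d)) := by
        rw [config_frames_base X S κ hM, hl, div_mul_cancel₀ _ hd.ne']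
      have hs' : s / (S.T k).d ∈ Ioo (0 : ℝ) 1 :=
        ⟨div_pos hs.1 hd, (div_lt_one hd).mpr hs.2⟩
      have hmem : AffineMap.lineMap (X.vtx l.succ 0) (X.vtx l.succ 1) (s / (S.T k).d) ∈
          X.tri l.succ := by
        apply segment_subset_convexHull (mem_range_self 0) (mem_range_self 1)
        rw [segment_eq_image_lineMap]
        exact ⟨_, ⟨hs'.1.le, hs'.2.le⟩, rfl⟩
      rw [hx, ← hl] at h
      have hE := hback _ _ _ u' hmem hu' (by rw [hl] at h ⊢; exact h)
      rcases glue_open X hs' hE with h1 | h1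
      · have h2 := congrArg (fun p : Fin (n + 1) => (p : ℕ)) h1
        simp only [hl] at h2
        omega
      · have h2 := congrArg (fun p : Fin (n + 1) => (p : ℕ)) h1
        have h3 := hM.par l
        rw [hl] at h3
        simp only at h2
        omega

end Pool.Agent.H334
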