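import Pool.Agent.Helper334_Fold.Defs2

set_option autoImplicit false

open Set


namespace Pool.Agent.H334
theorem crease_segments_aux (lam : Plane →ᵃ[ℝ] ℝ) (hlam : lam.linear ≠ 0) (K : Set Plane) (hK : IsCompact K)
    (hne : K.Nonempty) (hz : ∀ x ∈ K, lam x = 0) :
    ∃ p ∈ K, ∃ q ∈ K, K ⊆ segment ℝ p q := by
  obtain ⟨p0, hp0⟩ := hne
  have hker : Module.finrank ℝ (LinearMap.ker lam.linear) = 1 := by
    have h1 := Module.Dual.finrank_ker_add_one_of_ne_zero (f := lam.linear) hlam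
    rw [finrank_euclideanSpace_fin] at h1
    omega
  obtain ⟨e, he0, he⟩ := (finrank_eq_one_iff' (K := ℝ)).1 hker
  have hpar : ∀ x ∈ K, ∃ t : ℝ, x = AffineMap.lineMap p0 (p0 + (e : Plane)) t := by
    intro x hx
    have hmem : x - p0 ∈ LinearMap.ker lam.linear := by
      rw [LinearMap.mem_ker]
      have := lam.linearMap_vsub x p0
      rw [vsub_eq_sub, vsub_eq_sub] at this
      rw [this, hz x hx, hz p0 hp0, sub_zero]
    obtain ⟨t, ht⟩ := he ⟨x - p0, hmem⟩
    refine ⟨t, ?_⟩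
    have ht' : t • (e : Plane) = x - p0 := congrArg Subtype.val ht
    rw [AffineMap.lineMap_apply, vsub_eq_sub, vadd_eq_add, add_sub_cancel_left, ht', sub_add_cancel]
  have he0' : (e : Plane) ≠ 0 := fun h => he0 (Subtype.ext h)
  have hpos : 0 < ‖(e : Plane)‖ ^ 2 := by
    have := norm_pos_iff.2 he0'
    positivity
  have hcont : ContinuousOn (fun x : Plane => inner ℝ (e : Plane) (x - p0)) K := by
    apply Continuous.continuousOn
    fun_prop
  have hval : ∀ t : ℝ, inner ℝ (e : Plane) (AffineMap.lineMap p0 (p0 + (e : Plane)) t - p0) =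
      t * ‖(e : Plane)‖ ^ 2 := by
    intro t
    rw [AffineMap.lineMap_apply, vsub_eq_sub, vadd_eq_add, add_sub_cancel_left, add_sub_cancel_right,
      inner_smul_right, real_inner_self_eq_norm_sq]
  obtain ⟨p, hp, hpmin⟩ := hK.exists_isMinOn ⟨p0, hp0⟩ hcont
  obtain ⟨q, hq, hqmax⟩ := hK.exists_isMaxOn ⟨p0, hp0⟩ hcont
  refine ⟨p, hp, q, hq, ?_⟩
  obtain ⟨a, ha⟩ := hpar p hp
  obtain ⟨b, hb⟩ := hpar q hq
  intro x hx
  obtain ⟨t, ht⟩ := hpar x hx
  have h1 : a ≤ t := by
    have := isMinOn_iff.1 hpmin x hx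
    rw [ha, ht, hval, hval] at this
    exact le_of_mul_le_mul_right this hpos
  have h2 : t ≤ b := by
    have := isMaxOn_iff.1 hqmax x hx
    rw [hb, ht, hval, hval] at this
    exact le_of_mul_le_mul_right this hpos
  rw [ha, hb, ht, ← image_segment]
  refine ⟨t, ?_, rfl⟩
  rw [segment_eq_Icc (h1.trans h2)]
  exact ⟨h1, h2⟩

/- TARGET. Plain-words proof:
Let H be the convex hull (compact, convex) and Ls the finite set of functionals from PAp. For Λ in Ls let λ = Λ ∘ κ, an affine function on the plane. If λ is not constant, then {x in H | λ x = 0} is a compact convex subset of the line {λ = 0} (the kernel of the linear part is one-dimensional), so it is empty or a segment [p,q] with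
p, q in H (parametrise the line by t -> p0 + t e; compact convex subset of ℝ = Icc). Let C be the finite set of these pairs (p,q). Let x in H \ ⋃ segments and y in the connected component of x in H \ ⋃ segments: a preconnected set Z containing x, y on which each nonconstant λ has no zero
(a zero in H lies on a segment), so by the intermediate value theorem (IsPreconnected.intermediate_value) λ x and λ y have the same sign; constant λ too. So κ x, κ y are in the same cell, and dist (q t (κ x)) (q t (κ y)) = dist (κ x) (κ y) = dist x y. (y in H because connectedComponentIn is a subset.)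
-/
theorem crease_segments (v : Fin 3 → Plane) (κ : Plane →ᵃⁱ[ℝ] W) (q : ℝ → W → W)
    (h : PAp (κ '' convexHull ℝ (Set.range v)) q) :
    ∃ C : Set (Plane × Plane), C.Finite ∧
      (∀ c ∈ C, c.1 ∈ convexHull ℝ (Set.range v) ∧ c.2 ∈ convexHull ℝ (Set.range v)) ∧
      ∀ x ∈ convexHull ℝ (Set.range v) \ ⋃ c ∈ C, segment ℝ c.1 c.2,
        ∀ y ∈ connectedComponentIn
          (convexHull ℝ (Set.range v) \ ⋃ c ∈ C, segment ℝ c.1 c.2) x,
          ∀ t ∈ Icc (0 : ℝ) 1, dist (q t (κ x)) (q t (κ y)) = dist x y := by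
  classical
  obtain ⟨Ls, hfin, hLs⟩ := h
  set H : Set Plane := convexHull ℝ (Set.range v) with hH
  have hHc : IsCompact H := (Set.finite_range v).isCompact_convexHull ℝ
  have hcontg : ∀ Λ : W →ᵃ[ℝ] ℝ, Continuous (fun x : Plane => Λ (κ x)) := fun Λ =>
    (AffineMap.continuous_of_finiteDimensional Λ).comp κ.continuous
  let good : (W →ᵃ[ℝ] ℝ) → Prop := fun Λ => (Λ.comp κ.toAffineMap).linear ≠ 0 ∧ ∃ x ∈ H, Λ (κ x) = 0
  have hex : ∀ Λ : W →ᵃ[ℝ] ℝ, ∃ c : Plane × Plane, good Λ →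
      (c.1 ∈ H ∧ c.2 ∈ H ∧ ∀ x ∈ H, Λ (κ x) = 0 → x ∈ segment ℝ c.1 c.2) := by
    intro Λ
    by_cases hg : good Λ
    · obtain ⟨hlin, x0, hx0, hx0'⟩ := hg
      have hKc : IsCompact (H ∩ {x | Λ (κ x) = 0}) :=
        hHc.inter_right (isClosed_eq (hcontg Λ) continuous_const)
      obtain ⟨p, hp, q', hq', hsub⟩ := crease_segments_aux (Λ.comp κ.toAffineMap) hlin
        (H ∩ {x | Λ (κ x) = 0}) hKc ⟨x0, hx0, hx0'⟩ (fun x hx => hx.2)
      exact ⟨(p, q'), fun _ => ⟨hp.1, hq'.1, fun x hx hx' => hsub ⟨hx, hx'⟩⟩⟩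
    · exact ⟨(0, 0), fun h => absurd h hg⟩
  choose pr hpr using hex
  refine ⟨pr '' {Λ ∈ Ls | good Λ}, (hfin.subset (Set.sep_subset _ _)).image _, ?_, ?_⟩
  · rintro c ⟨Λ, ⟨_, hg⟩, rfl⟩
    exact ⟨(hpr Λ hg).1, (hpr Λ hg).2.1⟩
  · intro x hx y hy t ht
    set Z := connectedComponentIn (H \ ⋃ c ∈ pr '' {Λ ∈ Ls | good Λ}, segment ℝ c.1 c.2) x with hZ
    have hZpre : IsPreconnected Z := isPreconnected_connectedComponentIn
    have hxZ : x ∈ Z := mem_connectedComponentIn hx
    have hZsub : Z ⊆ H \ ⋃ c ∈ pr '' {Λ ∈ Ls | good Λ}, segment ℝ c.1 c.2 := connectedComponentIn_subset _ _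
    have hcell : SameCell Ls (κ x) (κ y) := by
      intro Λ hΛ
      by_cases hlin : (Λ.comp κ.toAffineMap).linear = 0
      · have h1 : Λ (κ x) = Λ (κ y) := by
          have h2 := (Λ.comp κ.toAffineMap).linearMap_vsub x y
          rw [hlin, LinearMap.zero_apply, vsub_eq_sub] at h2
          exact (sub_eq_zero.1 h2.symm)
        rw [h1]
      · have hnz : ∀ z ∈ Z, Λ (κ z) ≠ 0 := by
          intro z hz hz0
          have hzH := hZsub hz
          have hg : good Λ := ⟨hlin, z, hzH.1, hz0⟩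
          apply hzH.2
          rw [Set.mem_iUnion₂]
          exact ⟨pr Λ, ⟨Λ, ⟨hΛ, hg⟩, rfl⟩, (hpr Λ hg).2.2 z hzH.1 hz0⟩
        have hx0 := hnz x hxZ
        have hy0 := hnz y hy
        rcases lt_or_gt_of_ne hx0 with hx1 | hx1 <;> rcases lt_or_gt_of_ne hy0 with hy1 | hy1
        · rw [sign_neg hx1, sign_neg hy1]
        · exfalso
          obtain ⟨z, hz, hz0⟩ := hZpre.intermediate_value hxZ hy (hcontg Λ).continuousOn ⟨hx1.le, hy1.le⟩
          exact hnz z hz hz0
        · exfalso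
          obtain ⟨z, hz, hz0⟩ := hZpre.intermediate_value hy hxZ (hcontg Λ).continuousOn ⟨hy1.le, hx1.le⟩
          exact hnz z hz hz0
        · rw [sign_pos hx1, sign_pos hy1]
    rw [hLs (κ x) ⟨x, hx.1, rfl⟩ (κ y) ⟨y, (hZsub hy).1, rfl⟩ hcell t ht, κ.dist_map]

end Pool.Agent.H334
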