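import Pool.Agent.Helper334_Fold.Defs2
import Pool.Agent.Helper334_Fold.P_bend_lip
import Pool.Agent.Helper334_Fold.P_bend_inj

set_option autoImplicit false

open Set


namespace Pool.Agent.H334


/- TARGET. Plain-words proof:
Coordinates about the line: Th(w) = pt (-n2 s + n1 re z) ((n1 s + n2 re z - a) + i im z), an isometry W -> W
with inverse Th'(sg, zeta): put q = re zeta + a; Th'(pt sg zeta) = pt (-n2 sg + n1 q) ((n1 sg + n2 q) + i im zeta).
Take D(x) = pi - |x|; Disp D 1, |D| <= 2 pi on [-pi,pi]. rho(sg) = (1/2) * Metric.infDist (Th' (pt sg 0)) Y: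
nonnegative and 1-Lipschitz (even 1/2). H t = Th' o bend D rho (max 0 (min t 1)) o Th.
Continuity in (t,w) jointly and the constant 32 = 28 + 4*1: from bend_lip and Th, Th' isometries.
H 0 = id: exponent 0. Injective for t < 1: bend_inj; for tau < 1 the function x + tau (pi - |x|) is strictly
increasing on [-pi, pi].
Points y in Y: with Th y = pt sg zeta, |zeta| = dist y (Th' (pt sg 0)) >= infDist = 2 rho(sg), so
max 0 (2 rho - |zeta|) = 0, cut = 0, y is fixed.
Planar x with L x <= 0: zeta = L x is real <= 0: if zeta = 0 the product is 0; else arg = pi and D pi = 0.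
x in S with r = L x > 0: zeta = r, arg = 0, D 0 = pi. For y in Y, dist (Th' (pt sg 0)) y >= dist x y - r >= 2 r, so
rho >= r (Y nonempty), (2 rho - r)/r >= 1, cut = 1. So H t x = Th' (pt sg (r e^{i pi t})) = l.rot (pi t) x.
(For Ln.rot: l.zeta th x = e^{i th} (L x + i * 0), and Th' (pt sg (r e^{i th})) = x + (re - r)(n1,n2) in the plane,
imaginary part r sin th; use n1^2 + n2^2 = 1.)
-/
namespace FoldMove

/-- coordinates about the line -/
noncomputable def TH (l : Ln) (w : W) : W :=
  pt (-l.n2 * w.fst + l.n1 * w.snd.re) ⟨l.n1 * w.fst + l.n2 * w.snd.re - l.a, w.snd.im⟩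

/-- inverse of `TH` -/
noncomputable def TI (l : Ln) (w : W) : W :=
  pt (-l.n2 * w.fst + l.n1 * (w.snd.re + l.a))
    ⟨l.n1 * w.fst + l.n2 * (w.snd.re + l.a), w.snd.im⟩

theorem TI_TH (l : Ln) (w : W) : TI l (TH l w) = w := by
  have hu := l.unit
  apply W_ext
  · simp only [TI, TH, pt_fst, pt_snd]
    linear_combination w.fst * hu
  · apply Complex.ext
    · simp only [TI, TH, pt_fst, pt_snd]
      linear_combination w.snd.re * hu
    · simp only [TI, TH, pt_snd]

theorem TH_TI (l : Ln) (w : W) : TH l (TI l w) = w := by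
  have hu := l.unit
  apply W_ext
  · simp only [TI, TH, pt_fst, pt_snd]
    linear_combination w.fst * hu
  · apply Complex.ext
    · simp only [TI, TH, pt_fst, pt_snd]
      linear_combination (w.snd.re + l.a) * hu
    · simp only [TI, TH, pt_snd]

theorem dist_TH (l : Ln) (w w' : W) : dist (TH l w) (TH l w') = dist w w' := by
  have hu := l.unit
  have h1 : dist (TH l w) (TH l w') ^ 2 = dist w w' ^ 2 := by
    rw [W_dist_sq, W_dist_sq, ← Complex.normSq_eq_norm_sq, ← Complex.normSq_eq_norm_sq,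
      Complex.normSq_apply, Complex.normSq_apply]
    simp only [TH, pt_fst, pt_snd, Complex.sub_re, Complex.sub_im]
    linear_combination ((w.fst - w'.fst) ^ 2 + (w.snd.re - w'.snd.re) ^ 2) * hu
  exact (sq_eq_sq₀ dist_nonneg dist_nonneg).1 h1

theorem dist_TI (l : Ln) (w w' : W) : dist (TI l w) (TI l w') = dist w w' := by
  rw [← dist_TH l, TH_TI, TH_TI]

/-- the displacement -/
noncomputable def DD (x : ℝ) : ℝ := Real.pi - |x|

theorem disp_DD : Disp DD 1 where
  left := by simp [DD, abs_of_pos Real.pi_pos]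
  right := by simp [DD, abs_of_pos Real.pi_pos]
  lip := by
    intro a _ b _
    have : DD a - DD b = |b| - |a| := by unfold DD; ring
    rw [this, one_mul, abs_sub_comm a b]
    exact abs_abs_sub_abs_le b a

theorem DD_le : ∀ a ∈ Icc (-Real.pi) Real.pi, |DD a| ≤ 2 * Real.pi := by
  intro a ha
  have h1 : |a| ≤ Real.pi := abs_le.2 ha
  have h2 := abs_nonneg a
  have h3 := Real.pi_pos
  rw [abs_le]
  unfold DD
  constructor <;> linarith

/-- the cutoff radius -/
noncomputable def rr (l : Ln) (Y : Set W) (s : ℝ) : ℝ := Metric.infDist (TI l (pt s 0)) Y / 2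

theorem rr_nonneg (l : Ln) (Y : Set W) (s : ℝ) : 0 ≤ rr l Y s :=
  div_nonneg Metric.infDist_nonneg (by norm_num)

theorem dist_pt (s s' : ℝ) (z : ℂ) : dist (pt s z) (pt s' z) = |s - s'| := by
  have h1 : dist (pt s z) (pt s' z) ^ 2 = |s - s'| ^ 2 := by
    rw [W_dist_sq]
    simp [sq_abs]
  exact (sq_eq_sq₀ dist_nonneg (abs_nonneg _)).1 h1

theorem dist_pt' (s : ℝ) (z : ℂ) : dist (pt s z) (pt s 0) = ‖z‖ := by
  have h1 : dist (pt s z) (pt s 0) ^ 2 = ‖z‖ ^ 2 := by
    rw [W_dist_sq]
    simp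
  exact (sq_eq_sq₀ dist_nonneg (norm_nonneg _)).1 h1

theorem rr_lip (l : Ln) (Y : Set W) : LipschitzWith 1 (rr l Y) := by
  apply LipschitzWith.of_dist_le_mul
  intro s s'
  have h1 : Metric.infDist (TI l (pt s 0)) Y ≤
      Metric.infDist (TI l (pt s' 0)) Y + dist (TI l (pt s 0)) (TI l (pt s' 0)) :=
    Metric.infDist_le_infDist_add_dist
  have h2 : Metric.infDist (TI l (pt s' 0)) Y ≤
      Metric.infDist (TI l (pt s 0)) Y + dist (TI l (pt s' 0)) (TI l (pt s 0)) :=
    Metric.infDist_le_infDist_add_dist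
  rw [dist_TI, dist_pt] at h1 h2
  rw [abs_sub_comm s' s] at h2
  rw [Real.dist_eq, Real.dist_eq, NNReal.coe_one, one_mul, abs_le]
  have h3 := abs_nonneg (s - s')
  unfold rr
  constructor <;> linarith

/-- clamping to [0,1] -/
noncomputable def cl (t : ℝ) : ℝ := max 0 (min t 1)

theorem cl_mem (t : ℝ) : cl t ∈ Icc (0 : ℝ) 1 :=
  ⟨le_max_left _ _, max_le zero_le_one (min_le_right _ _)⟩

theorem cl_eq {t : ℝ} (ht : t ∈ Icc (0 : ℝ) 1) : cl t = t := by
  unfold cl
  rw [min_eq_left ht.2, max_eq_right ht.1]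

theorem cl_cont : Continuous cl := by
  unfold cl
  fun_prop

/-- the move -/
noncomputable def HH (l : Ln) (Y : Set W) (t : ℝ) (w : W) : W :=
  TI l (bend DD (rr l Y) (cl t) (TH l w))

theorem bend_cont (l : Ln) (Y : Set W) :
    Continuous (fun p : ℝ × W => bend DD (rr l Y) (cl p.1) p.2) := by
  rw [continuous_iff_continuousAt]
  rintro ⟨t0, w0⟩
  unfold ContinuousAt
  rw [tendsto_iff_dist_tendsto_zero]
  have hc : Continuous (fun p : ℝ × W => 2 * Real.pi * ‖p.2.snd‖ * |cl p.1 - cl t0| +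
      (28 + 4 * 1) * dist p.2 w0) := by
    have h1 : Continuous (fun p : ℝ × W => p.2.snd) := W_continuous_snd.comp continuous_snd
    have h2 : Continuous (fun p : ℝ × W => cl p.1) := cl_cont.comp continuous_fst
    fun_prop
  have h0 := hc.tendsto (t0, w0)
  simp only [sub_self, abs_zero, mul_zero, dist_self, add_zero] at h0
  refine squeeze_zero (fun _ => dist_nonneg) (fun p => ?_) h0
  exact bend_lip zero_le_one disp_DD DD_le (rr_lip l Y) (rr_nonneg l Y) (cl_mem _) (cl_mem _) _ _

theorem TI_cont (l : Ln) : Continuous (TI l) :=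
  (Isometry.of_dist_eq (dist_TI l)).continuous

theorem TH_cont (l : Ln) : Continuous (TH l) :=
  (Isometry.of_dist_eq (dist_TH l)).continuous

theorem strict (τ : ℝ) (h0 : 0 ≤ τ) (h1 : τ < 1) :
    StrictMonoOn (fun a => a + τ * DD a) (Icc (-Real.pi) Real.pi) := by
  intro a _ b _ hab
  have h2 : |b| - |a| ≤ b - a := by
    have := abs_sub_abs_le_abs_sub b a
    rwa [abs_of_pos (sub_pos.2 hab)] at this
  simp only [DD]
  nlinarith [mul_le_mul_of_nonneg_left h2 h0]

theorem bend_fix (D ρ : ℝ → ℝ) (t : ℝ) (w : W)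
    (h : w.snd = 0 ∨ t * cut ρ w.fst ‖w.snd‖ * D (Complex.arg w.snd) = 0) :
    bend D ρ t w = w := by
  apply W_ext
  · simp [bend]
  · rcases h with h | h
    · simp [bend, h]
    · simp only [bend, pt_snd]
      rw [h]
      simp

end FoldMove

open FoldMove in
theorem fold_move (l : Ln) (S Y : Set W) (hS : ∀ x ∈ S, x.snd.im = 0) (hY : Y.Nonempty)
    (h : ∀ x ∈ S, 0 < l.L x → ∀ y ∈ Y, 3 * l.L x ≤ dist x y) :
    ∃ H : ℝ → W → W, Continuous (fun p : ℝ × W => H p.1 p.2) ∧
      (∀ t ∈ Icc (0 : ℝ) 1, ∀ w w', dist (H t w) (H t w') ≤ 32 * dist w w') ∧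
      (∀ w, H 0 w = w) ∧ (∀ t ∈ Ico (0 : ℝ) 1, Function.Injective (H t)) ∧
      (∀ t ∈ Icc (0 : ℝ) 1, ∀ y ∈ Y, H t y = y) ∧
      (∀ t ∈ Icc (0 : ℝ) 1, ∀ x : W, x.snd.im = 0 → l.L x ≤ 0 → H t x = x) ∧
      (∀ t ∈ Icc (0 : ℝ) 1, ∀ x ∈ S, 0 < l.L x → H t x = l.rot (Real.pi * t) x) := by
  have hTHs : ∀ x : W, x.snd.im = 0 → (TH l x).snd = ((l.L x : ℝ) : ℂ) := by
    intro x hx
    apply Complex.ext
    · simp [TH, Ln.L]
    · simp [TH, hx]
  refine ⟨HH l Y, ?_, ?_, ?_, ?_, ?_, ?_, ?_⟩
  · have h1 : Continuous (fun p : ℝ × W => (p.1, TH l p.2)) :=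
      continuous_fst.prodMk ((TH_cont l).comp continuous_snd)
    exact (TI_cont l).comp ((bend_cont l Y).comp h1)
  · intro t _ w w'
    unfold HH
    rw [dist_TI]
    have h1 := bend_lip zero_le_one disp_DD DD_le (rr_lip l Y) (rr_nonneg l Y) (cl_mem t)
      (cl_mem t) (TH l w) (TH l w')
    rw [sub_self, abs_zero, mul_zero, zero_add, dist_TH] at h1
    linarith
  · intro w
    unfold HH
    rw [bend_fix, TI_TH]
    right
    simp [cl]
  · intro t ht
    unfold HH
    intro w w' hww
    have h1 := (Isometry.of_dist_eq (dist_TI l)).injective hww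
    rw [cl_eq ⟨ht.1, ht.2.le⟩] at h1
    have h2 := bend_inj (ρ := rr l Y) disp_DD (t := t) ⟨ht.1, ht.2.le⟩
      (fun τ hτ => strict τ hτ.1 (lt_of_le_of_lt hτ.2 ht.2)) h1
    exact (Isometry.of_dist_eq (dist_TH l)).injective h2
  · intro t _ y hy
    unfold HH
    rw [bend_fix, TI_TH]
    right
    have h1 : Metric.infDist (TI l (pt (TH l y).fst 0)) Y ≤ ‖(TH l y).snd‖ := by
      refine (Metric.infDist_le_dist_of_mem hy).trans ?_
      rw [← dist_TH l, TH_TI, dist_comm, ← dist_pt' (TH l y).fst, pt_eta]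
    have h2 : cut (rr l Y) (TH l y).fst ‖(TH l y).snd‖ = 0 := by
      unfold cut rr
      rw [max_eq_left (by linarith), zero_div, min_eq_right zero_le_one]
    rw [h2, mul_zero, zero_mul]
  · intro t _ x hx hL
    unfold HH
    rw [bend_fix, TI_TH]
    rw [hTHs x hx]
    rcases eq_or_lt_of_le hL with hL | hL
    · left
      rw [hL, Complex.ofReal_zero]
    · right
      rw [Complex.arg_ofReal_of_neg hL]
      rw [disp_DD.right, mul_zero]
  · intro t ht x hxS hL
    have hx := hS x hxS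
    have hr : ‖(TH l x).snd‖ = l.L x := by
      rw [hTHs x hx, Complex.norm_real, Real.norm_of_nonneg hL.le]
    have h1 : 2 * l.L x ≤ Metric.infDist (TI l (pt (TH l x).fst 0)) Y := by
      rw [Metric.le_infDist hY]
      intro y hy
      have e1 := h x hxS hL y hy
      have e2 : dist x (TI l (pt (TH l x).fst 0)) = l.L x := by
        rw [← dist_TH l, TH_TI, ← hr, ← dist_pt' (TH l x).fst, pt_eta]
      have e3 := dist_triangle x (TI l (pt (TH l x).fst 0)) y
      linarith
    have h2 : cut (rr l Y) (TH l x).fst ‖(TH l x).snd‖ = 1 := by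
      unfold cut rr
      rw [hr]
      apply min_eq_left
      rw [le_div_iff₀ hL]
      exact (by linarith : 1 * l.L x ≤ 2 * (Metric.infDist (TI l (pt (TH l x).fst 0)) Y / 2)
        - l.L x).trans (le_max_right _ _)
    have h3 : DD (Complex.arg (TH l x).snd) = Real.pi := by
      rw [hTHs x hx, Complex.arg_ofReal_of_nonneg hL.le]
      simp [DD]
    have hz : (TH l x).snd * Complex.exp (((cl t * cut (rr l Y) (TH l x).fst ‖(TH l x).snd‖ *
        DD (Complex.arg (TH l x).snd) : ℝ) : ℂ) * Complex.I) = l.zeta (Real.pi * t) x := by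
      rw [h2, h3, cl_eq ht, hTHs x hx, Ln.zeta, hx]
      simp only [mul_one, Complex.ofReal_zero, zero_mul, add_zero]
      rw [mul_comm]
      congr 3
      push_cast
      ring
    have hu := l.unit
    unfold HH bend
    rw [hz]
    unfold Ln.rot TI
    simp only [pt_fst, pt_snd]
    have hL' : l.L x = l.n1 * x.fst + l.n2 * x.snd.re - l.a := rfl
    apply W_ext
    · simp only [pt_fst, TH, hL']
      linear_combination x.fst * hu
    · apply Complex.ext
      · simp only [pt_snd, TH, hL', pt_fst, Complex.add_re, Complex.ofReal_re, Complex.mul_re,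
          Complex.I_re, Complex.I_im, Complex.ofReal_im]
        linear_combination x.snd.re * hu
      · simp

end Pool.Agent.H334
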