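import Pool.Agent.Helper334_Fold.Defs2
import Pool.Agent.Helper334_Fold.P_fold_move
import Pool.Agent.Helper334_Fold.P_PA_comp
import Pool.Agent.Helper334_Fold.P_PAp_comp
import Pool.Agent.Helper334_Fold.P_PA_isom
import Pool.Agent.Helper334_Fold.P_PAp_of_PA
import Pool.Agent.Helper334_Fold.P_PAp_of_two

set_option autoImplicit false

open Set


namespace Pool.Agent.H334






theorem fp_zeta_re (l : Ln) (θ : ℝ) (w : W) :
    (l.zeta θ w).re = Real.cos θ * l.L w - Real.sin θ * w.snd.im := by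
  unfold Ln.zeta
  simp [Complex.exp_ofReal_mul_I_re, Complex.exp_ofReal_mul_I_im]

theorem fp_zeta_im (l : Ln) (θ : ℝ) (w : W) :
    (l.zeta θ w).im = Real.sin θ * l.L w + Real.cos θ * w.snd.im := by
  unfold Ln.zeta
  simp [Complex.exp_ofReal_mul_I_re, Complex.exp_ofReal_mul_I_im]
  ring

theorem fp_dsq (w w' : W) : dist w w' ^ 2 = (w.fst - w'.fst) ^ 2 + (w.snd.re - w'.snd.re) ^ 2 +
    (w.snd.im - w'.snd.im) ^ 2 := by
  rw [W_dist_sq, Complex.sq_norm, Complex.normSq_apply, Complex.sub_re, Complex.sub_im]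
  ring

theorem fp_rot_fst (l : Ln) (θ : ℝ) (w : W) :
    (l.rot θ w).fst = w.fst + ((l.zeta θ w).re - l.L w) * l.n1 := rfl

theorem fp_rot_re (l : Ln) (θ : ℝ) (w : W) :
    (l.rot θ w).snd.re = w.snd.re + ((l.zeta θ w).re - l.L w) * l.n2 := by
  unfold Ln.rot
  simp

theorem fp_rot_im (l : Ln) (θ : ℝ) (w : W) :
    (l.rot θ w).snd.im = (l.zeta θ w).im := by
  unfold Ln.rot
  simp

theorem fp_rot_dist (l : Ln) (θ : ℝ) (x y : W) : dist (l.rot θ x) (l.rot θ y) = dist x y := by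
  have h : dist (l.rot θ x) (l.rot θ y) ^ 2 = dist x y ^ 2 := by
    rw [fp_dsq, fp_dsq, fp_rot_fst, fp_rot_fst, fp_rot_re, fp_rot_re, fp_rot_im, fp_rot_im,
      fp_zeta_re, fp_zeta_re, fp_zeta_im, fp_zeta_im]
    have h1 := l.unit
    have h2 := Real.sin_sq_add_cos_sq θ
    have hx : l.L x - l.L y = l.n1 * (x.fst - y.fst) + l.n2 * (x.snd.re - y.snd.re) := by
      unfold Ln.L
      ring
    have e1 : (Real.cos θ * (l.L x - l.L y) - Real.sin θ * (x.snd.im - y.snd.im)) ^ 2 +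
        (Real.sin θ * (l.L x - l.L y) + Real.cos θ * (x.snd.im - y.snd.im)) ^ 2 =
        (l.L x - l.L y) ^ 2 + (x.snd.im - y.snd.im) ^ 2 := by
      linear_combination ((l.L x - l.L y) ^ 2 + (x.snd.im - y.snd.im) ^ 2) * h2
    have e2 : (x.fst + (Real.cos θ * l.L x - Real.sin θ * x.snd.im - l.L x) * l.n1 -
        (y.fst + (Real.cos θ * l.L y - Real.sin θ * y.snd.im - l.L y) * l.n1)) =
        (x.fst - y.fst) + ((Real.cos θ * (l.L x - l.L y) - Real.sin θ * (x.snd.im - y.snd.im)) -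
          (l.L x - l.L y)) * l.n1 := by ring
    have e3 : (x.snd.re + (Real.cos θ * l.L x - Real.sin θ * x.snd.im - l.L x) * l.n2 -
        (y.snd.re + (Real.cos θ * l.L y - Real.sin θ * y.snd.im - l.L y) * l.n2)) =
        (x.snd.re - y.snd.re) + ((Real.cos θ * (l.L x - l.L y) - Real.sin θ * (x.snd.im - y.snd.im)) -
          (l.L x - l.L y)) * l.n2 := by ring
    have e4 : (Real.sin θ * l.L x + Real.cos θ * x.snd.im -
        (Real.sin θ * l.L y + Real.cos θ * y.snd.im)) =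
        Real.sin θ * (l.L x - l.L y) + Real.cos θ * (x.snd.im - y.snd.im) := by ring
    rw [e2, e3, e4]
    generalize l.L x - l.L y = D at *
    generalize Real.cos θ * D - Real.sin θ * (x.snd.im - y.snd.im) = P at *
    generalize Real.sin θ * D + Real.cos θ * (x.snd.im - y.snd.im) = Q at *
    generalize x.fst - y.fst = A at *
    generalize x.snd.re - y.snd.re = B at *
    generalize x.snd.im - y.snd.im = C at *
    linear_combination (P - D) ^ 2 * h1 + e1 - 2 * (P - D) * hx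
  exact (sq_eq_sq₀ dist_nonneg dist_nonneg).1 h

theorem fp_rot_dist_angle (l : Ln) (θ₁ θ₂ : ℝ) (x : W) (hx : x.snd.im = 0) :
    dist (l.rot θ₁ x) (l.rot θ₂ x) ≤ |θ₁ - θ₂| * |l.L x| := by
  refine abs_le_of_sq_le_sq' ?_ (by positivity) |>.2
  rw [fp_dsq, fp_rot_fst, fp_rot_fst, fp_rot_re, fp_rot_re, fp_rot_im, fp_rot_im,
      fp_zeta_re, fp_zeta_re, fp_zeta_im, fp_zeta_im, hx, mul_pow, sq_abs, sq_abs]
  have h1 := l.unit
  have e1 : (x.fst + (Real.cos θ₁ * l.L x - Real.sin θ₁ * 0 - l.L x) * l.n1 -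
        (x.fst + (Real.cos θ₂ * l.L x - Real.sin θ₂ * 0 - l.L x) * l.n1)) ^ 2 +
        (x.snd.re + (Real.cos θ₁ * l.L x - Real.sin θ₁ * 0 - l.L x) * l.n2 -
        (x.snd.re + (Real.cos θ₂ * l.L x - Real.sin θ₂ * 0 - l.L x) * l.n2)) ^ 2 +
        (Real.sin θ₁ * l.L x + Real.cos θ₁ * 0 - (Real.sin θ₂ * l.L x + Real.cos θ₂ * 0)) ^ 2 =
        (2 - 2 * Real.cos (θ₁ - θ₂)) * (l.L x) ^ 2 := by
    rw [Real.cos_sub]
    have h2 := Real.sin_sq_add_cos_sq θ₁
    have h3 := Real.sin_sq_add_cos_sq θ₂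
    linear_combination (Real.cos θ₁ - Real.cos θ₂) ^ 2 * (l.L x) ^ 2 * h1 + (l.L x) ^ 2 * h2 +
      (l.L x) ^ 2 * h3
  rw [e1]
  have h4 := Real.one_sub_sq_div_two_le_cos (x := θ₁ - θ₂)
  exact mul_le_mul_of_nonneg_right (by linarith) (sq_nonneg _)

theorem fp_rot_pi (l : Ln) (x : W) (hx : x.snd.im = 0) : l.rot Real.pi x = l.refl x := by
  apply W_ext
  · rw [fp_rot_fst, fp_zeta_re, hx, Real.cos_pi, Real.sin_pi]
    unfold Ln.refl
    rw [pt_fst]
    ring
  · apply Complex.ext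
    · rw [fp_rot_re, fp_zeta_re, hx, Real.cos_pi, Real.sin_pi]
      unfold Ln.refl
      rw [pt_snd, Complex.sub_re, Complex.ofReal_re]
      ring
    · rw [fp_rot_im, fp_zeta_im, hx, Real.cos_pi, Real.sin_pi]
      unfold Ln.refl
      rw [pt_snd, Complex.sub_im, Complex.ofReal_im, hx]
      ring

theorem fp_refl_fst (l : Ln) (w : W) : (l.refl w).fst = w.fst - 2 * l.L w * l.n1 := rfl

theorem fp_refl_re (l : Ln) (w : W) : (l.refl w).snd.re = w.snd.re - 2 * l.L w * l.n2 := by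
  unfold Ln.refl
  rw [pt_snd, Complex.sub_re, Complex.ofReal_re]

theorem fp_refl_im (l : Ln) (w : W) : (l.refl w).snd.im = w.snd.im := by
  unfold Ln.refl
  rw [pt_snd, Complex.sub_im, Complex.ofReal_im, sub_zero]

theorem fp_L_refl (l : Ln) (w : W) : l.L (l.refl w) = - l.L w := by
  have h1 := l.unit
  have h : l.L (l.refl w) = l.n1 * (l.refl w).fst + l.n2 * (l.refl w).snd.re - l.a := rfl
  rw [h, fp_refl_fst, fp_refl_re]
  have h2 : l.L w = l.n1 * w.fst + l.n2 * w.snd.re - l.a := rfl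
  linear_combination - 2 * l.L w * h1 - h2

theorem fp_refl_refl (l : Ln) (w : W) : l.refl (l.refl w) = w := by
  apply W_ext
  · rw [fp_refl_fst, fp_L_refl, fp_refl_fst]
    ring
  · apply Complex.ext
    · rw [fp_refl_re, fp_L_refl, fp_refl_re]
      ring
    · rw [fp_refl_im, fp_refl_im]

theorem fp_refl_dist (l : Ln) (x y : W) : dist (l.refl x) (l.refl y) = dist x y := by
  have h : dist (l.refl x) (l.refl y) ^ 2 = dist x y ^ 2 := by
    rw [fp_dsq, fp_dsq, fp_refl_fst, fp_refl_fst, fp_refl_re, fp_refl_re, fp_refl_im, fp_refl_im]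
    have h1 := l.unit
    have hx : l.L x - l.L y = l.n1 * (x.fst - y.fst) + l.n2 * (x.snd.re - y.snd.re) := by
      unfold Ln.L
      ring
    linear_combination 4 * (l.L x - l.L y) ^ 2 * h1 + 4 * (l.L x - l.L y) * hx
  exact (sq_eq_sq₀ dist_nonneg dist_nonneg).1 h

/-- the reflection as an affine isometry -/
noncomputable def fpRefl (l : Ln) : W ≃ᵃⁱ[ℝ] W :=
  IsometryEquiv.toRealAffineIsometryEquiv
    (IsometryEquiv.mk ⟨l.refl, l.refl, fp_refl_refl l, fp_refl_refl l⟩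
      (Isometry.of_dist_eq (fp_refl_dist l)))

theorem fpRefl_apply (l : Ln) (w : W) : fpRefl l w = l.refl w := rfl

/-- the signed distance as an affine map -/
noncomputable def fpL (l : Ln) : W →ᵃ[ℝ] ℝ where
  toFun := l.L
  linear :=
    { toFun := fun w => l.n1 * w.fst + l.n2 * w.snd.re
      map_add' := by
        intro x y
        simp
        ring
      map_smul' := by
        intro c x
        simp
        ring }
  map_vadd' := by
    intro p v
    simp [Ln.L]
    ring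

theorem fpL_apply (l : Ln) (w : W) : fpL l w = l.L w := rfl

theorem fp_sign (a b : ℝ) (h : SignType.sign a = SignType.sign b) : (0 < a ↔ 0 < b) := by
  rw [← sign_eq_one_iff, ← sign_eq_one_iff, h]

theorem fp_cl_mem (u : ℝ) : max 0 (min u 1) ∈ Icc (0 : ℝ) 1 :=
  ⟨le_max_left _ _, max_le zero_le_one (min_le_right _ _)⟩

theorem fp_step (l : Ln) (S : Set W) (c : ℝ) (hpl : ∀ x ∈ S, x.snd.im = 0 ∧ 0 ≤ hgt x)
    (h : ∀ x ∈ S, 0 < l.L x → l.L x ≤ c * hgt x ∧ l.refl x ∈ S) (H : ℝ → W → W)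
    (hH0 : ∀ w, H 0 w = w)
    (hH6 : ∀ t ∈ Icc (0 : ℝ) 1, ∀ x : W, x.snd.im = 0 → l.L x ≤ 0 → H t x = x)
    (hH7 : ∀ t ∈ Icc (0 : ℝ) 1, ∀ x ∈ S, 0 < l.L x → H t x = l.rot (Real.pi * t) x) :
    (∀ x ∈ S, H 1 x ∈ {x ∈ S | l.L x ≤ 0}) ∧ PA S (H 1) ∧ PAp S H := by
  have m1 : (1 : ℝ) ∈ Icc (0 : ℝ) 1 := ⟨zero_le_one, le_rfl⟩
  have hf : ∀ x ∈ S, 0 < l.L x → H 1 x = l.refl x := by
    intro x hx hL
    rw [hH7 1 m1 x hx hL, mul_one, fp_rot_pi l x (hpl x hx).1]
  refine ⟨?_, ?_, ?_⟩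
  · intro x hx
    by_cases hL : 0 < l.L x
    · rw [hf x hx hL]
      refine ⟨(h x hx hL).2, ?_⟩
      rw [fp_L_refl]
      linarith
    · rw [hH6 1 m1 x (hpl x hx).1 (not_lt.1 hL)]
      exact ⟨hx, not_lt.1 hL⟩
  · refine ⟨{fpL l}, {AffineIsometryEquiv.refl ℝ W, fpRefl l}, Set.finite_singleton _,
      Set.toFinite _, fun x hx => ?_⟩
    by_cases hL : 0 < l.L x
    · refine ⟨fpRefl l, by simp, fun y hy hs => ?_⟩
      have h1 := hs (fpL l) rfl
      rw [fpL_apply, fpL_apply] at h1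
      have h2 := (fp_sign _ _ h1).1 hL
      rw [hf y hy h2, fpRefl_apply]
    · refine ⟨AffineIsometryEquiv.refl ℝ W, by simp, fun y hy hs => ?_⟩
      have h1 := hs (fpL l) rfl
      rw [fpL_apply, fpL_apply] at h1
      have h2 : ¬ 0 < l.L y := fun h3 => hL ((fp_sign _ _ h1).2 h3)
      rw [hH6 1 m1 y (hpl y hy).1 (not_lt.1 h2)]
      rfl
  · refine ⟨{fpL l}, Set.finite_singleton _, fun x hx y hy hs t ht => ?_⟩
    have h1 := hs (fpL l) rfl
    rw [fpL_apply, fpL_apply] at h1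
    have h2 := fp_sign _ _ h1
    by_cases hL : 0 < l.L x
    · rw [hH7 t ht x hx hL, hH7 t ht y hy (h2.1 hL), fp_rot_dist]
    · have h3 : ¬ 0 < l.L y := fun h3 => hL (h2.2 h3)
      rw [hH6 t ht x (hpl x hx).1 (not_lt.1 hL), hH6 t ht y (hpl y hy).1 (not_lt.1 h3)]

theorem fp_unit_abs (l : Ln) : |l.n2| ≤ 1 := by
  have h1 := l.unit
  rw [abs_le]
  constructor <;> nlinarith [sq_nonneg l.n1, sq_nonneg l.n2]

theorem fp_hgt_refl (l : Ln) (x : W) (hL : 0 < l.L x) :
    hgt x - 2 * l.L x ≤ hgt (l.refl x) ∧ hgt (l.refl x) ≤ hgt x + 2 * l.L x := by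
  have h1 : hgt (l.refl x) = hgt x - 2 * l.L x * l.n2 := fp_refl_re l x
  have h2 := abs_le.1 (fp_unit_abs l)
  rw [h1]
  constructor <;> nlinarith [h2.1, h2.2]

/- TARGET. Plain-words proof:
Induction on Coll (generalising the hypotheses hpl, hfar which pass to subsets). Let c = c₂/4 <= 1/4.
done: q t = id, Q t = id, κ = min ε κ'. (PA_isom with the identity, PAp_of_PA.)
step with the line l, S' = {x in S | L x <= 0}: for x in S with L x > 0: 3 L x <= 3 c hgt x <= c₂ hgt x <= dist x y, so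
fold_move applies: H. Let fold x = H 1 x: for x in S it is x if L x <= 0 and l.rot pi x = l.refl x if L x > 0 (x.snd.im = 0),
so fold maps S to S' (l.refl x in S by hypothesis, and L (l.refl x) = - L x <= 0); PA S (H 1) (functional L as an
affine map, isometries: identity and reflection in the plane L = 0); PAp S H (functional L; l.rot th is an isometry).
IH for S': q', with its ε-part. With cl u = max 0 (min u 1) define q t = q' (cl (2t-1)) ∘ H (cl (2t)); jointly continuous, q 0 = id. PA S (q 1) = PA_comp, PAp S q by PAp_of_two from PAp S H and PAp_comp.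
q 1 x = q' 1 (fold x), in sl and in S' ⊆ S.
ε-part: given ε, κ' apply IH with ε/2 and κ': κ₁, Q'. Choose δ in (0,1) and κ > 0 with
 32 κ + 2 pi δ c <= ε and 2 (32 κ + 2 pi δ c) <= κ₁. Put Q t = Q' (cl (2t-1)) ∘ H ((1-δ) cl (2t)). Injective (H s injective for
s < 1), continuous, Q 0 = id, fixes Y. Let x in S, dist w x <= κ hgt x. For s in [0,1]:
dist (H ((1-δ)s) w) (H s x) <= 32 κ hgt x + dist (H ((1-δ)s) x) (H s x); the last is 0 if L x <= 0, else
dist (l.rot (pi(1-δ)s) x) (l.rot (pi s) x) <= pi δ s L x <= 2 pi δ c hgt x (rotation of a point at distance L x from the axis).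
Let x1 = H 1 x in S'. hgt x1 >= hgt x - 2 L x >= (1 - 2c) hgt x >= hgt x / 2 and hgt x1 <= hgt x + 2 L x <= 2 hgt x when L x > 0 (|n2| <= 1),
and x1 = x otherwise. So w1 = H (1-δ) w satisfies dist w1 x1 <= (32 κ + 2 pi δ c) hgt x <= κ₁ hgt x1. For t >= 1/2 use IH:
dist (Q' s w1) (q' s x1) <= (ε/2) hgt x1 <= ε hgt x, and dist (Q' 1 w1) (q' 1 x1) <= κ' hgt (q' 1 x1).
-/
theorem fold_prop {c₂ : ℝ} {sl S Y : Set W} (hc₂ : 0 < c₂) (hc₂1 : c₂ ≤ 1)
    (hS : Coll (c₂ / 4) sl S) (hpl : ∀ x ∈ S, x.snd.im = 0 ∧ 0 ≤ hgt x) (hY : Y.Nonempty)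
    (hfar : ∀ x ∈ S, ∀ y ∈ Y, c₂ * hgt x ≤ dist x y) :
    ∃ q : ℝ → W → W, Continuous (fun p : ℝ × W => q p.1 p.2) ∧ (∀ w, q 0 w = w) ∧
      (∀ x ∈ S, q 1 x ∈ sl ∧ q 1 x ∈ S) ∧ PA S (q 1) ∧ PAp S q ∧
      ∀ ε > (0 : ℝ), ∀ κ' > (0 : ℝ), ∃ κ > (0 : ℝ), ∃ Q : ℝ → W → W,
        Continuous (fun p : ℝ × W => Q p.1 p.2) ∧
        (∀ t ∈ Icc (0 : ℝ) 1, Function.Injective (Q t)) ∧ (∀ w, Q 0 w = w) ∧
        (∀ t ∈ Icc (0 : ℝ) 1, ∀ y ∈ Y, Q t y = y) ∧
        ∀ x ∈ S, ∀ w, dist w x ≤ κ * hgt x →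
          (∀ t ∈ Icc (0 : ℝ) 1, dist (Q t w) (q t x) ≤ ε * hgt x) ∧
          dist (Q 1 w) (q 1 x) ≤ κ' * hgt (q 1 x) := by
  have hc4 : 0 < c₂ / 4 := by linarith
  induction hS with
  | done hsl =>
    rename_i S
    refine ⟨fun _ w => w, continuous_snd, fun _ => rfl, fun x hx => ⟨hsl hx, hx⟩,
      PA_isom S (AffineIsometryEquiv.refl ℝ W), PAp_of_PA (PA_isom S (AffineIsometryEquiv.refl ℝ W)),
      ?_⟩
    intro ε hε κ' hκ'
    refine ⟨min ε κ', lt_min hε hκ', fun _ w => w, continuous_snd,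
      fun _ _ => Function.injective_id, fun _ => rfl, fun _ _ _ _ => rfl, ?_⟩
    intro x hx w hw
    have h0 := (hpl x hx).2
    exact ⟨fun _ _ => hw.trans (mul_le_mul_of_nonneg_right (min_le_left _ _) h0),
      hw.trans (mul_le_mul_of_nonneg_right (min_le_right _ _) h0)⟩
  | step l h _ ih =>
    rename_i S _
    have h3 : ∀ x ∈ S, 0 < l.L x → ∀ y ∈ Y, 3 * l.L x ≤ dist x y := by
      intro x hx hL y hy
      have h4 := (h x hx hL).1
      have h5 := hfar x hx y hy
      have h6 : 0 ≤ c₂ * hgt x := mul_nonneg hc₂.le (hpl x hx).2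
      linarith
    obtain ⟨H, hHc, hHlip, hH0, hHinj, hHY, hH6, hH7⟩ :=
      fold_move l S Y (fun x hx => (hpl x hx).1) hY h3
    obtain ⟨hfold, hPA, hPAp⟩ := fp_step l S (c₂ / 4) hpl h H hH0 hH6 hH7
    obtain ⟨q', hq'c, hq'0, hq'1, hq'PA, hq'PAp, hq'ε⟩ :=
      ih (fun x hx => hpl x hx.1) (fun x hx y hy => hfar x hx.1 y hy)
    have m0 : (0 : ℝ) ∈ Icc (0 : ℝ) 1 := ⟨le_rfl, zero_le_one⟩
    have m1 : (1 : ℝ) ∈ Icc (0 : ℝ) 1 := ⟨zero_le_one, le_rfl⟩
    have cl0 : ∀ u : ℝ, u ≤ 0 → max 0 (min u 1) = 0 := by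
      intro u hu
      rw [min_eq_left (by linarith), max_eq_left hu]
    have cl1 : ∀ u : ℝ, 1 ≤ u → max 0 (min u 1) = 1 := by
      intro u hu
      rw [min_eq_right hu, max_eq_right zero_le_one]
    have clid : ∀ u : ℝ, 0 ≤ u → u ≤ 1 → max 0 (min u 1) = u := by
      intro u hu hu'
      rw [min_eq_left hu', max_eq_right hu]
    have hfoldh : ∀ x ∈ S, hgt x / 2 ≤ hgt (H 1 x) ∧ hgt (H 1 x) ≤ 2 * hgt x := by
      intro x hx
      have h0 := (hpl x hx).2
      by_cases hL : 0 < l.L x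
      · have e : H 1 x = l.refl x := by
          rw [hH7 1 m1 x hx hL, mul_one, fp_rot_pi l x (hpl x hx).1]
        rw [e]
        have h4 := (h x hx hL).1
        have h5 := fp_hgt_refl l x hL
        have h6 : c₂ / 4 * hgt x ≤ 1 / 4 * hgt x := mul_le_mul_of_nonneg_right (by linarith) h0
        constructor <;> linarith [h5.1, h5.2]
      · rw [hH6 1 m1 x (hpl x hx).1 (not_lt.1 hL)]
        constructor <;> linarith
    refine ⟨fun t w => q' (max 0 (min (2 * t - 1) 1)) (H (max 0 (min (2 * t) 1)) w),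
      ?_, ?_, ?_, ?_, ?_, ?_⟩
    · exact hq'c.comp (((continuous_const.max (((continuous_const.mul continuous_fst).sub
        continuous_const).min continuous_const))).prodMk (hHc.comp
        ((continuous_const.max ((continuous_const.mul continuous_fst).min
          continuous_const)).prodMk continuous_snd)))
    · intro w
      show q' (max 0 (min (2 * 0 - 1) 1)) (H (max 0 (min (2 * 0) 1)) w) = w
      rw [cl0 _ (by norm_num), cl0 _ (by norm_num), hH0, hq'0]
    · intro x hx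
      show q' (max 0 (min (2 * 1 - 1) 1)) (H (max 0 (min (2 * 1) 1)) x) ∈ sl ∧
        q' (max 0 (min (2 * 1 - 1) 1)) (H (max 0 (min (2 * 1) 1)) x) ∈ S
      rw [cl1 _ (by norm_num), cl1 _ (by norm_num)]
      exact ⟨(hq'1 _ (hfold x hx)).1, (hq'1 _ (hfold x hx)).2.1⟩
    · show PA S (fun w => q' (max 0 (min (2 * 1 - 1) 1)) (H (max 0 (min (2 * 1) 1)) w))
      rw [cl1 _ (by norm_num), cl1 _ (by norm_num)]
      exact PA_comp hPA hfold hq'PA
    · refine PAp_of_two hPAp (PAp_comp hPA hfold hq'PAp) ?_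
      intro t ht
      rcases le_total t (1 / 2) with h4 | h4
      · refine ⟨max 0 (min (2 * t) 1), fp_cl_mem _, Or.inl fun x _ y _ => ?_⟩
        rw [cl0 (2 * t - 1) (by linarith), hq'0, hq'0]
      · refine ⟨max 0 (min (2 * t - 1) 1), fp_cl_mem _, Or.inr fun x _ y _ => ?_⟩
        rw [cl1 (2 * t) (by linarith)]
    · intro ε hε κ' hκ'
      obtain ⟨κ₁, hκ₁, Q', hQ'c, hQ'inj, hQ'0, hQ'Y, hQ'e⟩ := hq'ε (ε / 2) (by linarith) κ' hκ'
      obtain ⟨η, hη, hηε, hηκ⟩ : ∃ η : ℝ, 0 < η ∧ η ≤ ε ∧ 2 * η ≤ κ₁ :=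
        ⟨min ε (κ₁ / 2), lt_min hε (by linarith), min_le_left _ _, by
          have := min_le_right ε (κ₁ / 2)
          linarith⟩
      obtain ⟨δ, hδ0, hδ1, hδη⟩ : ∃ δ : ℝ, 0 < δ ∧ δ < 1 ∧ δ ≤ η / 4 :=
        ⟨min (1 / 2) (η / 4), lt_min (by norm_num) (by linarith),
          lt_of_le_of_lt (min_le_left _ _) (by norm_num), min_le_right _ _⟩
      have hpar : ∀ s ∈ Icc (0 : ℝ) 1, (1 - δ) * s ∈ Ico (0 : ℝ) 1 := by
        intro s hs
        refine ⟨mul_nonneg (by linarith) hs.1, ?_⟩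
        nlinarith [hs.1, hs.2]
      -- the basic estimate for the first half
      have hbase : ∀ x ∈ S, ∀ w, dist w x ≤ η / 64 * hgt x → ∀ s ∈ Icc (0 : ℝ) 1,
          dist (H ((1 - δ) * s) w) (H s x) ≤ η * hgt x := by
        intro x hx w hw s hs
        have h0 := (hpl x hx).2
        have hp := hpar s hs
        have hp' : (1 - δ) * s ∈ Icc (0 : ℝ) 1 := ⟨hp.1, hp.2.le⟩
        have e1 : dist (H ((1 - δ) * s) w) (H ((1 - δ) * s) x) ≤ η / 2 * hgt x := by
          refine (hHlip _ hp' w x).trans ?_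
          linarith
        have e2 : dist (H ((1 - δ) * s) x) (H s x) ≤ η / 2 * hgt x := by
          by_cases hL : 0 < l.L x
          · rw [hH7 _ hp' x hx hL, hH7 s hs x hx hL]
            refine (fp_rot_dist_angle l _ _ x (hpl x hx).1).trans ?_
            have e3 : |Real.pi * ((1 - δ) * s) - Real.pi * s| = Real.pi * δ * s := by
              rw [show Real.pi * ((1 - δ) * s) - Real.pi * s = -(Real.pi * δ * s) by ring, abs_neg,
                abs_of_nonneg]
              have := hs.1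
              have := Real.pi_pos
              positivity
            rw [e3, abs_of_pos hL]
            have h4 := (h x hx hL).1
            have h6 : l.L x ≤ 1 / 4 * hgt x :=
              h4.trans (mul_le_mul_of_nonneg_right (by linarith) h0)
            have h7 : Real.pi * δ * s ≤ 4 * (η / 4) := by
              have h8 := Real.pi_le_four
              have h9 := Real.pi_pos
              calc Real.pi * δ * s ≤ Real.pi * δ * 1 :=
                    mul_le_mul_of_nonneg_left hs.2 (by positivity)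
                _ = Real.pi * δ := mul_one _
                _ ≤ 4 * (η / 4) := mul_le_mul h8 hδη hδ0.le (by norm_num)
            calc Real.pi * δ * s * l.L x ≤ 4 * (η / 4) * (1 / 4 * hgt x) :=
                  mul_le_mul h7 h6 hL.le (by positivity)
              _ ≤ η / 2 * hgt x := by nlinarith [mul_nonneg hη.le h0]
          · rw [hH6 _ hp' x (hpl x hx).1 (not_lt.1 hL), hH6 s hs x (hpl x hx).1 (not_lt.1 hL),
              dist_self]
            positivity
        have e4 := dist_triangle (H ((1 - δ) * s) w) (H ((1 - δ) * s) x) (H s x)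
        linarith
      refine ⟨η / 64, by linarith,
        fun t w => Q' (max 0 (min (2 * t - 1) 1)) (H ((1 - δ) * max 0 (min (2 * t) 1)) w),
        ?_, ?_, ?_, ?_, ?_⟩
      · exact hQ'c.comp (((continuous_const.max (((continuous_const.mul continuous_fst).sub
          continuous_const).min continuous_const))).prodMk (hHc.comp
          ((continuous_const.mul (continuous_const.max ((continuous_const.mul continuous_fst).min
            continuous_const))).prodMk continuous_snd)))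
      · intro t _
        exact (hQ'inj _ (fp_cl_mem _)).comp (hHinj _ (hpar _ (fp_cl_mem _)))
      · intro w
        show Q' (max 0 (min (2 * 0 - 1) 1)) (H ((1 - δ) * max 0 (min (2 * 0) 1)) w) = w
        rw [cl0 _ (by norm_num), cl0 _ (by norm_num), mul_zero, hH0, hQ'0]
      · intro t _ y hy
        show Q' (max 0 (min (2 * t - 1) 1)) (H ((1 - δ) * max 0 (min (2 * t) 1)) y) = y
        have hp := hpar _ (fp_cl_mem (2 * t))
        rw [hHY _ ⟨hp.1, hp.2.le⟩ y hy, hQ'Y _ (fp_cl_mem _) y hy]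
      · intro x hx w hw
        have h0 := (hpl x hx).2
        have hx1 := hfold x hx
        have hh := hfoldh x hx
        have hb1 : dist (H (1 - δ) w) (H 1 x) ≤ η * hgt x := by
          have := hbase x hx w hw 1 m1
          rwa [mul_one] at this
        have hb2 : dist (H (1 - δ) w) (H 1 x) ≤ κ₁ * hgt (H 1 x) := by
          refine hb1.trans ?_
          calc η * hgt x ≤ η * (2 * hgt (H 1 x)) :=
                mul_le_mul_of_nonneg_left (by linarith [hh.1]) hη.le
            _ = 2 * η * hgt (H 1 x) := by ring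
            _ ≤ κ₁ * hgt (H 1 x) := mul_le_mul_of_nonneg_right hηκ (by linarith [hh.1])
        obtain ⟨g1, g2⟩ := hQ'e (H 1 x) hx1 (H (1 - δ) w) hb2
        constructor
        · intro t ht
          show dist (Q' (max 0 (min (2 * t - 1) 1)) (H ((1 - δ) * max 0 (min (2 * t) 1)) w))
            (q' (max 0 (min (2 * t - 1) 1)) (H (max 0 (min (2 * t) 1)) x)) ≤ ε * hgt x
          rcases le_total t (1 / 2) with h4 | h4
          · rw [cl0 (2 * t - 1) (by linarith), hq'0, hQ'0]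
            exact (hbase x hx w hw _ (fp_cl_mem _)).trans (mul_le_mul_of_nonneg_right hηε h0)
          · rw [cl1 (2 * t) (by linarith), mul_one]
            refine (g1 _ (fp_cl_mem _)).trans ?_
            nlinarith [hh.2, hε]
        · show dist (Q' (max 0 (min (2 * 1 - 1) 1)) (H ((1 - δ) * max 0 (min (2 * 1) 1)) w))
            (q' (max 0 (min (2 * 1 - 1) 1)) (H (max 0 (min (2 * 1) 1)) x)) ≤
            κ' * hgt (q' (max 0 (min (2 * 1 - 1) 1)) (H (max 0 (min (2 * 1) 1)) x))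
          rw [cl1 _ (by norm_num), cl1 _ (by norm_num), mul_one]
          exact g2

end Pool.Agent.H334
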