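import Pool.Agent.Helper334_Fold.Defs2

set_option autoImplicit false

open Set


namespace Pool.Agent.H334
namespace HingeAux

theorem norm_sq_W (w : W) : ‖w‖ ^ 2 = w.fst ^ 2 + w.snd.re ^ 2 + w.snd.im ^ 2 := by
  rw [WithLp.prod_norm_sq_eq_of_L2, Real.norm_eq_abs, sq_abs, ← Complex.normSq_eq_norm_sq,
    Complex.normSq_apply]
  ring

/-- The linear part. -/
noncomputable def lin (a b σ : ℝ) (h : a ^ 2 + b ^ 2 = 1) (hσ : σ ^ 2 = 1) : W ≃ₗᵢ[ℝ] W where
  toFun w := pt (a * w.fst - σ * b * w.snd.re) ⟨b * w.fst + σ * a * w.snd.re, w.snd.im⟩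
  invFun w := pt (a * w.fst + b * w.snd.re) ⟨σ * (-b * w.fst + a * w.snd.re), w.snd.im⟩
  map_add' x y := by
    apply W_ext
    · simp [pt]; ring
    · apply Complex.ext
      · simp [pt]; ring
      · simp [pt]
  map_smul' r x := by
    apply W_ext
    · simp [pt]; ring
    · apply Complex.ext
      · simp [pt]; ring
      · simp [pt]
  left_inv w := by
    apply W_ext
    · simp [pt]
      linear_combination (w.fst) * h
    · apply Complex.ext
      · simp [pt]
        linear_combination (w.snd.re * σ ^ 2) * h + w.snd.re * hσ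
      · simp [pt]
  right_inv w := by
    apply W_ext
    · simp [pt]
      linear_combination (w.fst) * h - (b * (-b * w.fst + a * w.snd.re)) * hσ
    · apply Complex.ext
      · simp [pt]
        linear_combination (w.snd.re) * h + (a * (-b * w.fst + a * w.snd.re)) * hσ
      · simp [pt]
  norm_map' w := by
    have h0 := norm_nonneg w
    refine (sq_eq_sq₀ (norm_nonneg _) (norm_nonneg _)).1 ?_
    rw [norm_sq_W, norm_sq_W]
    simp [pt]
    linear_combination (w.fst ^ 2 + σ ^ 2 * w.snd.re ^ 2) * h + w.snd.re ^ 2 * hσ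

theorem lin_apply (a b σ : ℝ) (h : a ^ 2 + b ^ 2 = 1) (hσ : σ ^ 2 = 1) (w : W) :
    lin a b σ h hσ w =
      pt (a * w.fst - σ * b * w.snd.re) ⟨b * w.fst + σ * a * w.snd.re, w.snd.im⟩ := rfl

theorem core (P : Tri) (xi yi xj yj xl yl ε : ℝ) (hε : ε ^ 2 = 1) (ll lj li : W → ℝ)
    (hD : ε * (P.d * P.b2) = (xj - xi) * (yl - yi) - (yj - yi) * (xl - xi))
    (Hl : ∀ w : W, ε * (P.d * P.b2) * ll w =
      (xj - xi) * (w.snd.re - yi) - (yj - yi) * (w.fst - xi))
    (Hj : ∀ w : W, ε * (P.d * P.b2) * lj w =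
      (w.fst - xi) * (yl - yi) - (w.snd.re - yi) * (xl - xi))
    (Hi : ∀ w, li w = 1 - ll w - lj w)
    (Hm : ∀ w, P.m w = min (ll w) (min (lj w) (li w))) :
    ∃ E : W ≃ᵃⁱ[ℝ] W, IsHinge P (dist (pt xi (yi : ℂ)) (pt xj (yj : ℂ))) E ∧
      E (pt 0 0) = pt xi (yi : ℂ) ∧
      E (pt (dist (pt xi (yi : ℂ)) (pt xj (yj : ℂ))) 0) = pt xj (yj : ℂ) := by
  have hD0 : 0 < P.d * P.b2 := mul_pos P.hd P.hb
  have hPd : P.d ≠ 0 := P.hd.ne'
  have hPb : P.b2 ≠ 0 := P.hb.ne'
  have hε0 : ε ≠ 0 := by
    rintro rfl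
    norm_num at hε
  have hlsq : (dist (pt xi (yi : ℂ)) (pt xj (yj : ℂ))) ^ 2 = (xj - xi) ^ 2 + (yj - yi) ^ 2 := by
    rw [W_dist_sq]
    simp only [pt_fst, pt_snd]
    rw [← Complex.ofReal_sub, Complex.norm_real, Real.norm_eq_abs, sq_abs]
    ring
  generalize hlen : dist (pt xi (yi : ℂ)) (pt xj (yj : ℂ)) = len at *
  have hlen0 : 0 ≤ len := hlen ▸ dist_nonneg
  have hlenpos : 0 < len := by
    rcases hlen0.lt_or_eq with h | h
    · exact h
    · exfalso
      rw [← h] at hlsq
      have h1 : xj - xi = 0 := by nlinarith [sq_nonneg (xj - xi), sq_nonneg (yj - yi)]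
      have h2 : yj - yi = 0 := by nlinarith [sq_nonneg (xj - xi), sq_nonneg (yj - yi)]
      rw [h1, h2] at hD
      have : ε * (P.d * P.b2) = 0 := by rw [hD]; ring
      exact (mul_ne_zero hε0 hD0.ne') this
  obtain ⟨a, ha⟩ : ∃ a, a = (xj - xi) / len := ⟨_, rfl⟩
  obtain ⟨b, hb⟩ : ∃ b, b = (yj - yi) / len := ⟨_, rfl⟩
  have ha' : xj - xi = len * a := by rw [ha]; field_simp
  have hb' : yj - yi = len * b := by rw [hb]; field_simp
  have hab : a ^ 2 + b ^ 2 = 1 := by
    rw [ha', hb'] at hlsq
    have : len ^ 2 * (a ^ 2 + b ^ 2 - 1) = 0 := by linear_combination -hlsq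
    rcases mul_eq_zero.1 this with h | h
    · exact absurd h (by positivity)
    · linarith
  have hσ : (-ε) ^ 2 = 1 := by rw [neg_sq, hε]
  let E : W ≃ᵃⁱ[ℝ] W := (lin a b (-ε) hab hσ).toAffineIsometryEquiv.trans
    (AffineIsometryEquiv.constVAdd ℝ W (pt xi (yi : ℂ)))
  have hE : ∀ w, E w = pt xi (yi : ℂ) + lin a b (-ε) hab hσ w := by
    intro w
    simp [E]
  have hEf : ∀ w, (E w).fst = xi + (a * w.fst + ε * b * w.snd.re) := by
    intro w
    rw [hE, lin_apply]
    simp [pt]
  have hEr : ∀ w, (E w).snd.re = yi + (b * w.fst - ε * a * w.snd.re) := by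
    intro w
    rw [hE, lin_apply]
    simp [pt]
    ring
  have hEi : ∀ w, (E w).snd.im = w.snd.im := by
    intro w
    rw [hE, lin_apply]
    simp [pt]
  refine ⟨E, ⟨hEi, ?_⟩, ?_, ?_⟩
  · refine ⟨a * (xl - xi) + b * (yl - yi), (P.d * P.b2) / len, by positivity, ?_⟩
    intro w
    have e1 : ll (E w) = -w.snd.re / (P.d * P.b2 / len) := by
      have h1 := Hl (E w)
      rw [hEf, hEr, ha', hb'] at h1
      have h2 : ε * (P.d * P.b2) ≠ 0 := mul_ne_zero hε0 hD0.ne'
      apply mul_left_cancel₀ h2
      rw [h1]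
      field_simp
      linear_combination (-w.snd.re * ε) * hab
    have e2 : lj (E w) = (w.fst + (a * (xl - xi) + b * (yl - yi)) *
        (w.snd.re / (P.d * P.b2 / len))) / len := by
      have h1 := Hj (E w)
      rw [hEf, hEr] at h1
      rw [ha', hb'] at hD
      have h2 : ε * (P.d * P.b2) ≠ 0 := mul_ne_zero hε0 hD0.ne'
      apply mul_left_cancel₀ h2
      rw [h1]
      field_simp
      linear_combination (-w.fst) * hD
    rw [Hm, Hi, e1, e2]
    congr 2
    ring
  · apply W_ext
    · rw [hEf]; simp [pt]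
    · apply Complex.ext
      · rw [hEr]; simp [pt]
      · rw [hEi]; simp [pt]
  · apply W_ext
    · rw [hEf]
      simp [pt]
      linarith
    · apply Complex.ext
      · rw [hEr]
        simp [pt]
        linarith
      · rw [hEi]; simp [pt]

end HingeAux

/- TARGET. Plain-words proof:
Identify the plane im = 0 with ℂ via (s,re) -> s + i re. Let Vi, Vj, Vl be the three vertices of P (all distinct, not collinear) and len = |Vj - Vi| > 0. Let ζ = (Vj - Vi)/len, |ζ| = 1. The planar map e(s + i h) = Vi + ζ (s + i h) or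
Vi + ζ (s - i h), with the sign chosen such that the preimage of Vl has negative height: e⁻¹(Vl) = s₀ - i h₀, h₀ > 0 (it is nonzero since not collinear). E (pt s z) = pt (re e(s + i re z)) (im e(s + i re z) + i im z): an affine isometry
equivalence of W keeping im. The three barycentric functionals lA, lD, lB of P composed with E (restricted to planar coordinates; they do not depend on im) are affine functions of (s, re), equal to 1 at
one of the points (0,0), (len,0), (s₀,-h₀) and 0 at the two others; such functions are unique: they are, for the point (s₀,-h₀): -re/h₀; for (len,0): (s + s₀ (re/h₀))/len; for (0,0): 1 + re/h₀ - (s + s₀ (re/h₀))/len.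
P.m (E w) is the min of the three, in some order. (Six cases for (i,j), or a uniform argument with a permutation of Fin 3.)
-/
theorem hinge_exists (P : Tri) (i j : Fin 3) (hij : i ≠ j) :
    ∃ E : W ≃ᵃⁱ[ℝ] W, IsHinge P (dist (P.vert i) (P.vert j)) E ∧ E (pt 0 0) = P.vert i ∧
      E (pt (dist (P.vert i) (P.vert j)) 0) = P.vert j := by
  have hd := P.hd
  have hb := P.hb
  have v0 : P.vert 0 = pt 0 ((0 : ℝ) : ℂ) := by simp [Tri.vert]
  have v1 : P.vert 1 = pt P.d ((0 : ℝ) : ℂ) := by simp [Tri.vert]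
  have v2 : P.vert 2 = pt P.b1 (P.b2 : ℂ) := by simp [Tri.vert]
  fin_cases i <;> fin_cases j
  · exact absurd rfl hij
  · have := HingeAux.core P 0 0 P.d 0 P.b1 P.b2 1 (by norm_num) P.lB P.lD P.lA (by ring)
      (by intro w; simp only [Tri.lB]; field_simp; ring)
      (by intro w; simp only [Tri.lD]; field_simp; ring)
      (by intro w; simp only [Tri.lA])
      (by intro w; simp only [Tri.m]; rw [min_comm, min_comm (P.lD w), min_assoc])
    simpa [v0, v1, v2] using this
  · have := HingeAux.core P 0 0 P.b1 P.b2 P.d 0 (-1) (by norm_num) P.lD P.lB P.lA (by ring)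
      (by intro w; simp only [Tri.lD]; field_simp; ring)
      (by intro w; simp only [Tri.lB]; field_simp; ring)
      (by intro w; simp only [Tri.lA]; ring)
      (by intro w; simp only [Tri.m]; rw [min_comm, min_assoc])
    simpa [v0, v1, v2] using this
  · have := HingeAux.core P P.d 0 0 0 P.b1 P.b2 (-1) (by norm_num) P.lB P.lA P.lD (by ring)
      (by intro w; simp only [Tri.lB]; field_simp; ring)
      (by intro w; simp only [Tri.lA, Tri.lB, Tri.lD]; field_simp; ring)
      (by intro w; simp only [Tri.lA]; ring)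
      (by intro w; simp only [Tri.m]; rw [← min_assoc, min_comm])
    simpa [v0, v1, v2] using this
  · exact absurd rfl hij
  · have := HingeAux.core P P.d 0 P.b1 P.b2 0 0 1 (by norm_num) P.lA P.lB P.lD (by ring)
      (by intro w; simp only [Tri.lA, Tri.lB, Tri.lD]; field_simp; ring)
      (by intro w; simp only [Tri.lB]; field_simp; ring)
      (by intro w; simp only [Tri.lA]; ring)
      (by intro w; simp only [Tri.m]; rw [min_comm (P.lD w)])
    simpa [v0, v1, v2] using this
  · have := HingeAux.core P P.b1 P.b2 0 0 P.d 0 1 (by norm_num) P.lD P.lA P.lB (by ring)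
      (by intro w; simp only [Tri.lD]; field_simp; ring)
      (by intro w; simp only [Tri.lA, Tri.lB, Tri.lD]; field_simp; ring)
      (by intro w; simp only [Tri.lA]; ring)
      (by intro w; simp only [Tri.m]; rw [min_left_comm])
    simpa [v0, v1, v2] using this
  · have := HingeAux.core P P.b1 P.b2 P.d 0 0 0 (-1) (by norm_num) P.lA P.lD P.lB (by ring)
      (by intro w; simp only [Tri.lA, Tri.lB, Tri.lD]; field_simp; ring)
      (by intro w; simp only [Tri.lD]; field_simp; ring)
      (by intro w; simp only [Tri.lA]; ring)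
      (by intro w; simp only [Tri.m])
    simpa [v0, v1, v2] using this
  · exact absurd rfl hij

end Pool.Agent.H334
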