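import Pool.Agent.Helper334_Fold.Defs2
import Pool.Agent.Helper334_Fold.P_bend_lip
import Pool.Agent.Helper334_Fold.P_bend_inj

set_option autoImplicit false

open Set


namespace Pool.Agent.H334



/-- the displacement function used below -/
noncomputable def rmD (K A1 A2 u v : ℝ) (a : ℝ) : ℝ :=
  max 0 (min K (min (K * (a - u) / A1) (K * (v - a) / A2)))

lemma rmD_nonneg (K A1 A2 u v a : ℝ) : 0 ≤ rmD K A1 A2 u v a := le_max_left _ _

lemma rmD_le {K A1 A2 u v a : ℝ} (hK : 0 ≤ K) : rmD K A1 A2 u v a ≤ K :=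
  max_le hK (min_le_left _ _)

lemma rmD_zero_left {K A1 A2 u v a : ℝ} (hK : 0 ≤ K) (hA1 : 0 < A1) (ha : a ≤ u) :
    rmD K A1 A2 u v a = 0 := by
  unfold rmD
  apply max_eq_left
  apply (min_le_right _ _).trans
  apply (min_le_left _ _).trans
  apply div_nonpos_of_nonpos_of_nonneg _ hA1.le
  exact mul_nonpos_of_nonneg_of_nonpos hK (by linarith)

lemma rmD_zero_right {K A1 A2 u v a : ℝ} (hK : 0 ≤ K) (hA2 : 0 < A2) (ha : v ≤ a) :
    rmD K A1 A2 u v a = 0 := by
  unfold rmD
  apply max_eq_left
  apply (min_le_right _ _).trans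
  apply (min_le_right _ _).trans
  apply div_nonpos_of_nonpos_of_nonneg _ hA2.le
  exact mul_nonpos_of_nonneg_of_nonpos hK (by linarith)

lemma rmD_eq {K A1 A2 u v a : ℝ} (hK : 0 < K) (hA1 : 0 < A1) (hA2 : 0 < A2)
    (h1 : A1 ≤ a - u) (h2 : A2 ≤ v - a) : rmD K A1 A2 u v a = K := by
  unfold rmD
  have e1 : K ≤ K * (a - u) / A1 := by
    rw [le_div_iff₀ hA1]
    exact mul_le_mul_of_nonneg_left h1 hK.le
  have e2 : K ≤ K * (v - a) / A2 := by
    rw [le_div_iff₀ hA2]
    exact mul_le_mul_of_nonneg_left h2 hK.le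
  rw [min_eq_left (le_min e1 e2), max_eq_right hK.le]

lemma rmD_sub_le {K A1 A2 u v a a' : ℝ} (hK : 0 ≤ K) (hA1 : 0 < A1) (hA2 : 0 < A2)
    (h : a ≤ a') : rmD K A1 A2 u v a - rmD K A1 A2 u v a' ≤ K / A2 * (a' - a) := by
  have hs : 0 ≤ K / A2 * (a' - a) := mul_nonneg (by positivity) (by linarith)
  rw [sub_le_iff_le_add']
  unfold rmD
  apply max_le
  · have := le_max_left 0 (min K (min (K * (a' - u) / A1) (K * (v - a') / A2)))
    linarith
  · refine le_trans ?_ (add_le_add_left (le_max_right _ _) _)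
    rw [← sub_le_iff_le_add]
    refine le_min ?_ (le_min ?_ ?_)
    · have := min_le_left K (min (K * (a - u) / A1) (K * (v - a) / A2))
      linarith
    · have h1 := (min_le_right K (min (K * (a - u) / A1) (K * (v - a) / A2))).trans (min_le_left _ _)
      have h2 : K * (a - u) / A1 ≤ K * (a' - u) / A1 := by
        apply div_le_div_of_nonneg_right _ hA1.le
        exact mul_le_mul_of_nonneg_left (by linarith) hK
      linarith
    · have h1 := (min_le_right K (min (K * (a - u) / A1) (K * (v - a) / A2))).trans (min_le_right _ _)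
      have h2 : K * (v - a) / A2 = K * (v - a') / A2 + K / A2 * (a' - a) := by
        field_simp; ring
      linarith

lemma rmD_lip {K A1 A2 u v : ℝ} (hK : 0 ≤ K) (hA1 : 0 < A1) (hA2 : 0 < A2) (a b : ℝ) :
    |rmD K A1 A2 u v a - rmD K A1 A2 u v b| ≤ (K / A1 + K / A2) * |a - b| := by
  unfold rmD
  have h1 := abs_max_sub_max_le_max 0 (min K (min (K * (a - u) / A1) (K * (v - a) / A2)))
    0 (min K (min (K * (b - u) / A1) (K * (v - b) / A2)))
  have h2 := abs_min_sub_min_le_max K (min (K * (a - u) / A1) (K * (v - a) / A2))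
    K (min (K * (b - u) / A1) (K * (v - b) / A2))
  have h3 := abs_min_sub_min_le_max (K * (a - u) / A1) (K * (v - a) / A2)
    (K * (b - u) / A1) (K * (v - b) / A2)
  have p1 : 0 ≤ K / A1 * |a - b| := by positivity
  have p2 : 0 ≤ K / A2 * |a - b| := by positivity
  have h4 : |K * (a - u) / A1 - K * (b - u) / A1| = K / A1 * |a - b| := by
    have : K * (a - u) / A1 - K * (b - u) / A1 = K / A1 * (a - b) := by field_simp; ring
    rw [this, abs_mul, abs_of_nonneg (by positivity : 0 ≤ K / A1)]
  have h5 : |K * (v - a) / A2 - K * (v - b) / A2| = K / A2 * |a - b| := by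
    have : K * (v - a) / A2 - K * (v - b) / A2 = -(K / A2 * (a - b)) := by field_simp; ring
    rw [this, abs_neg, abs_mul, abs_of_nonneg (by positivity : 0 ≤ K / A2)]
  rw [h4, h5] at h3
  have h6 : max (K / A1 * |a - b|) (K / A2 * |a - b|) ≤ (K / A1 + K / A2) * |a - b| := by
    apply max_le <;> nlinarith
  have p3 : 0 ≤ (K / A1 + K / A2) * |a - b| := by positivity
  refine h1.trans (max_le (by simpa using p3) (h2.trans (max_le (by simpa using p3) (h3.trans h6))))

/- TARGET. Plain-words proof: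
Let K = pi - 3δ - b > 0 (since b <= pi - c₁, 3δ < c₁) and
D(a) = max 0 (min K (min (K (a + pi - δ)/(b + pi - 2δ)) (K (pi - δ - a)/(pi - 2δ - b)))).
Here b + pi - 2δ >= c₁ - 2δ > 0 and pi - 2δ - b > K > 0. So D = 0 on [-pi, -pi+δ] and on [pi-δ, pi], D = K on [b-δ, b+δ], D linear in
between; |D| <= 2 pi; Lipschitz with some constant M; a + tau D(a) is strictly increasing on [-pi,pi] for tau in [0,1]: the
only decreasing slope is -K/(pi - 2δ - b) > -1. (E.g. show: for a < a', D a' - D a > -(a' - a): D is a max/min of functions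
each with that property.) rho(s) = κ₀ * max 0 (min s (d - s)), 1-Lipschitz as κ₀ <= 1, nonnegative.
H t = bend D rho (max 0 (min t 1)). Joint continuity from bend_lip. Injective: bend_inj. H 0 = id.
If 2 rho(w.fst) <= |w.snd| then cut = 0. If |arg w.snd| >= pi - δ then D (arg) = 0 (arg = pi or in the two end intervals).
If |w.snd| <= rho(w.fst), w.snd ≠ 0, |arg w.snd| <= δ: arg (e^{ib} w.snd) = b + arg w.snd (in (-pi,pi]), modulus r = |w.snd| with
(2 rho - r)/r >= 1, so cut = 1, D = K: H t (rotx b w) = pt s (e^{ib} z e^{i t K}) = rotx (b + t K) w. If w.snd = 0 both sides are w.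
-/
theorem rot_move {d b c₁ δ κ₀ : ℝ} (hd : 0 < d) (hc₁ : 0 < c₁) (hc₁1 : c₁ ≤ 1)
    (hb : |b| ≤ Real.pi - c₁) (hδ : 0 < δ) (hδc : δ ≤ c₁ / 8) (hκ : 0 < κ₀) (hκ1 : κ₀ ≤ 1) :
    ∃ H : ℝ → W → W, Continuous (fun p : ℝ × W => H p.1 p.2) ∧
      (∀ t ∈ Icc (0 : ℝ) 1, Function.Injective (H t)) ∧ (∀ w, H 0 w = w) ∧
      (∀ w : W, 2 * κ₀ * max 0 (min w.fst (d - w.fst)) ≤ ‖w.snd‖ →
        ∀ t ∈ Icc (0 : ℝ) 1, H t w = w) ∧
      (∀ w : W, w.snd = 0 ∨ Real.pi - δ ≤ |Complex.arg w.snd| →
        ∀ t ∈ Icc (0 : ℝ) 1, H t w = w) ∧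
      (∀ w : W, ‖w.snd‖ ≤ κ₀ * max 0 (min w.fst (d - w.fst)) → |Complex.arg w.snd| ≤ δ →
        ∀ t ∈ Icc (0 : ℝ) 1, H t (rotx b w) = rotx (b + t * (Real.pi - 3 * δ - b)) w) := by
  obtain ⟨hb1, hb2⟩ := abs_le.mp hb
  have hpi := Real.pi_pos
  set K : ℝ := Real.pi - 3 * δ - b with hKdef
  have hK : 0 < K := by rw [hKdef]; linarith
  set A1 : ℝ := b + Real.pi - 2 * δ with hA1def
  have hA1 : 0 < A1 := by rw [hA1def]; linarith
  set A2 : ℝ := Real.pi - 2 * δ - b with hA2def
  have hA2 : 0 < A2 := by rw [hA2def]; linarith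
  have hKA2 : K < A2 := by rw [hKdef, hA2def]; linarith
  set D : ℝ → ℝ := rmD K A1 A2 (-(Real.pi - δ)) (Real.pi - δ) with hD
  set ρ : ℝ → ℝ := fun s => κ₀ * max 0 (min s (d - s)) with hρdef
  have hM : 0 ≤ K / A1 + K / A2 := by positivity
  have hDisp : Disp D (K / A1 + K / A2) := by
    refine ⟨?_, ?_, ?_⟩
    · exact rmD_zero_left hK.le hA1 (by linarith)
    · exact rmD_zero_right hK.le hA2 (by linarith)
    · intro a _ b' _
      exact rmD_lip hK.le hA1 hA2 a b'
  have hB : ∀ a ∈ Icc (-Real.pi) Real.pi, |D a| ≤ 2 * Real.pi := by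
    intro a _
    rw [abs_of_nonneg (rmD_nonneg _ _ _ _ _ _)]
    refine (rmD_le hK.le).trans ?_
    rw [hKdef]; linarith
  have hρ : LipschitzWith 1 ρ := by
    apply LipschitzWith.of_dist_le_mul
    intro s s'
    rw [Real.dist_eq, Real.dist_eq, hρdef]
    have h1 := abs_max_sub_max_le_max 0 (min s (d - s)) 0 (min s' (d - s'))
    have h2 := abs_min_sub_min_le_max s (d - s) s' (d - s')
    have h3 : |d - s - (d - s')| = |s - s'| := by
      rw [← abs_neg (s - s')]; congr 1; ring
    rw [h3, max_self] at h2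
    rw [sub_self, abs_zero] at h1
    have h4 : |max 0 (min s (d - s)) - max 0 (min s' (d - s'))| ≤ |s - s'| :=
      h1.trans (max_le (abs_nonneg _) h2)
    calc |κ₀ * max 0 (min s (d - s)) - κ₀ * max 0 (min s' (d - s'))|
        = κ₀ * |max 0 (min s (d - s)) - max 0 (min s' (d - s'))| := by
          rw [← mul_sub, abs_mul, abs_of_pos hκ]
      _ ≤ 1 * |s - s'| := mul_le_mul hκ1 h4 (abs_nonneg _) zero_le_one
      _ = _ := by simp
  have hρ0 : ∀ s, 0 ≤ ρ s := fun s => mul_nonneg hκ.le (le_max_left _ _)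
  have hclamp : ∀ t : ℝ, max 0 (min t 1) ∈ Icc (0 : ℝ) 1 := fun t =>
    ⟨le_max_left _ _, max_le zero_le_one (min_le_right _ _)⟩
  have hcl : ∀ t ∈ Icc (0 : ℝ) 1, max 0 (min t 1) = t := by
    intro t ht
    rw [min_eq_left ht.2, max_eq_right ht.1]
  have hclc : Continuous fun t : ℝ => max 0 (min t 1) :=
    continuous_const.max (continuous_id.min continuous_const)
  refine ⟨fun t w => bend D ρ (max 0 (min t 1)) w, ?_, ?_, ?_, ?_, ?_, ?_⟩
  · rw [continuous_iff_continuousAt]
    rintro ⟨t0, w0⟩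
    rw [ContinuousAt, tendsto_iff_dist_tendsto_zero]
    have hlim : Filter.Tendsto (fun p : ℝ × W =>
        2 * Real.pi * ‖w0.snd‖ * |max 0 (min t0 1) - max 0 (min p.1 1)| +
          (28 + 4 * (K / A1 + K / A2)) * dist w0 p.2) (nhds (t0, w0)) (nhds 0) := by
      have hc : Continuous (fun p : ℝ × W =>
        2 * Real.pi * ‖w0.snd‖ * |max 0 (min t0 1) - max 0 (min p.1 1)| +
          (28 + 4 * (K / A1 + K / A2)) * dist w0 p.2) := by
        refine Continuous.add (continuous_const.mul ?_) (continuous_const.mul ?_)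
        · exact (continuous_const.sub (hclc.comp continuous_fst)).abs
        · exact continuous_const.dist continuous_snd
      have := hc.tendsto (t0, w0)
      simpa using this
    refine squeeze_zero (fun _ => dist_nonneg) ?_ hlim
    intro p
    rw [dist_comm]
    exact bend_lip hM hDisp hB hρ hρ0 (hclamp t0) (hclamp p.1) w0 p.2
  · intro t ht
    simp only
    rw [hcl t ht]
    apply bend_inj hDisp ht
    intro τ hτ a _ a' _ haa
    have h1 := rmD_sub_le (u := -(Real.pi - δ)) (v := Real.pi - δ) hK.le hA1 hA2 haa.le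
    have h2 : K / A2 < 1 := (div_lt_one hA2).mpr hKA2
    have h3 : τ * (D a - D a') ≤ K / A2 * (a' - a) := by
      by_cases hs : 0 ≤ D a - D a'
      · calc τ * (D a - D a') ≤ 1 * (D a - D a') :=
              mul_le_mul_of_nonneg_right (hτ.2.trans ht.2) hs
          _ ≤ _ := by rw [one_mul]; exact h1
      · push Not at hs
        have h4 : τ * (D a - D a') ≤ 0 := mul_nonpos_of_nonneg_of_nonpos hτ.1 hs.le
        have h5 : 0 ≤ K / A2 * (a' - a) := mul_nonneg (by positivity) (by linarith)
        linarith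
    have h4 : K / A2 * (a' - a) < 1 * (a' - a) := mul_lt_mul_of_pos_right h2 (by linarith)
    change a + τ * D a < a' + τ * D a'
    linarith [mul_sub τ (D a) (D a')]
  · intro w
    simp only [bend]
    have : max (0:ℝ) (min 0 1) = 0 := by simp
    rw [this]
    simp
  · intro w hw t ht
    simp only
    rw [hcl t ht]
    have hc0 : cut ρ w.fst ‖w.snd‖ = 0 := by
      unfold cut
      have : max 0 (2 * ρ w.fst - ‖w.snd‖) = 0 := by
        apply max_eq_left
        rw [hρdef]
        simp only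
        linarith
      rw [this, zero_div]
      exact min_eq_right zero_le_one
    simp only [bend, hc0]
    simp
  · intro w hw t ht
    simp only
    rw [hcl t ht]
    rcases hw with hw | hw
    · simp only [bend, hw]
      simp only [zero_mul]
      exact W_ext rfl hw.symm
    · have hD0 : D (Complex.arg w.snd) = 0 := by
        rcases le_abs.mp hw with h | h
        · exact rmD_zero_right hK.le hA2 h
        · exact rmD_zero_left hK.le hA1 (by linarith)
      simp only [bend, hD0]
      simp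
  · intro w hw harg t ht
    simp only
    rw [hcl t ht]
    by_cases hz : w.snd = 0
    · apply W_ext
      · rfl
      · simp [bend, rotx, hz]
    · have hr : 0 < ‖w.snd‖ := norm_pos_iff.mpr hz
      have hsnd : (rotx b w).snd = Complex.exp (b * Complex.I) * w.snd := rfl
      have hfst : (rotx b w).fst = w.fst := rfl
      have hnorm : ‖(rotx b w).snd‖ = ‖w.snd‖ := by
        rw [hsnd, norm_mul, Complex.norm_exp_ofReal_mul_I, one_mul]
      obtain ⟨hg1, hg2⟩ := abs_le.mp harg
      have hargb : Complex.arg (rotx b w).snd = b + Complex.arg w.snd := by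
        have h1 : (rotx b w).snd = (‖w.snd‖ : ℂ) *
            (Complex.cos ((b + Complex.arg w.snd : ℝ) : ℂ) +
              Complex.sin ((b + Complex.arg w.snd : ℝ) : ℂ) * Complex.I) := by
          rw [← Complex.exp_mul_I, hsnd]
          conv_lhs => rw [← Complex.norm_mul_exp_arg_mul_I w.snd]
          rw [mul_left_comm, ← Complex.exp_add]
          congr 2
          push_cast
          ring
        rw [h1]
        exact Complex.arg_mul_cos_add_sin_mul_I hr ⟨by linarith, by linarith⟩
      have hDK : D (Complex.arg (rotx b w).snd) = K := by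
        rw [hargb]
        apply rmD_eq hK hA1 hA2
        · rw [hA1def]; linarith
        · rw [hA2def]; linarith
      have hcut : cut ρ (rotx b w).fst ‖(rotx b w).snd‖ = 1 := by
        rw [hfst, hnorm]
        unfold cut
        apply min_eq_left
        rw [le_div_iff₀ hr, one_mul]
        refine le_trans ?_ (le_max_right _ _)
        rw [hρdef]
        simp only
        linarith
      unfold bend
      rw [hDK, hcut, hsnd, hfst]
      unfold rotx
      apply W_ext
      · rfl
      · simp only [pt_snd]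
        rw [mul_right_comm, ← Complex.exp_add]
        congr 2
        push_cast
        ring

end Pool.Agent.H334
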