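import Pool.Agent.Helper334_Fold.Defs2
import Pool.Agent.Helper334_Fold.P_fold_prop
import Pool.Agent.Helper334_Fold.P_rot_move
import Pool.Agent.Helper334_Fold.P_coll_tri
import Pool.Agent.Helper334_Fold.P_PA_comp
import Pool.Agent.Helper334_Fold.P_PAp_comp
import Pool.Agent.Helper334_Fold.P_PA_isom
import Pool.Agent.Helper334_Fold.P_PAp_of_PA
import Pool.Agent.Helper334_Fold.P_PAp_of_two

set_option autoImplicit false

open Set


namespace Pool.Agent.H334








theorem J1737_rotx_dist (θ : ℝ) (w w' : W) : dist (rotx θ w) (rotx θ w') = dist w w' := by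
  have h : dist (rotx θ w) (rotx θ w') ^ 2 = dist w w' ^ 2 := by
    rw [W_dist_sq, W_dist_sq]
    simp only [rotx, pt_fst, pt_snd]
    rw [← mul_sub, norm_mul, Complex.norm_exp_ofReal_mul_I, one_mul]
  exact (sq_eq_sq₀ dist_nonneg dist_nonneg).1 h

theorem J1737_rotx_rotx (a b : ℝ) (w : W) : rotx a (rotx b w) = rotx (a + b) w := by
  apply W_ext
  · simp [rotx]
  · simp only [rotx, pt_snd]
    rw [← mul_assoc, ← Complex.exp_add]
    congr 2
    push_cast
    ring

theorem J1737_rotx_zero (w : W) : rotx 0 w = w := by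
  apply W_ext
  · simp [rotx]
  · simp [rotx]

theorem J1737_rotx_neg (a : ℝ) (w : W) : rotx a (rotx (-a) w) = w := by
  rw [J1737_rotx_rotx, add_neg_cancel, J1737_rotx_zero]

theorem J1737_rotx_neg' (a : ℝ) (w : W) : rotx (-a) (rotx a w) = w := by
  rw [J1737_rotx_rotx, neg_add_cancel, J1737_rotx_zero]

theorem J1737_rotx_inj (a : ℝ) : Function.Injective (rotx a) := fun x y h => by
  rw [← J1737_rotx_neg' a x, h, J1737_rotx_neg']

theorem J1737_rotx_cont {X : Type*} [TopologicalSpace X] {a : X → ℝ} {f : X → W}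
    (ha : Continuous a) (hf : Continuous f) : Continuous fun x => rotx (a x) (f x) := by
  unfold rotx
  apply W_continuous_pt
  · exact W_continuous_fst.comp hf
  · have h1 : Continuous fun x => (f x).snd := W_continuous_snd.comp hf
    exact (Complex.continuous_exp.comp ((Complex.continuous_ofReal.comp ha).mul
      continuous_const)).mul h1

theorem J1737_add_fst (w w' : W) : (w + w').fst = w.fst + w'.fst := rfl
theorem J1737_add_snd (w w' : W) : (w + w').snd = w.snd + w'.snd := rfl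
theorem J1737_smul_fst (a : ℝ) (w : W) : (a • w).fst = a * w.fst := rfl
theorem J1737_smul_snd (a : ℝ) (w : W) : (a • w).snd = a • w.snd := rfl

noncomputable def J1737_rotL (θ : ℝ) : W ≃ₗ[ℝ] W where
  toFun := rotx θ
  invFun := rotx (-θ)
  left_inv w := J1737_rotx_neg' θ w
  right_inv w := J1737_rotx_neg θ w
  map_add' x y := by
    apply W_ext
    · simp [rotx]
    · simp only [rotx, pt_snd, J1737_add_snd]
      ring
  map_smul' a x := by
    apply W_ext
    · simp [rotx]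
    · simp only [rotx, pt_snd, J1737_smul_snd, RingHom.id_apply, Complex.real_smul]
      ring

noncomputable def J1737_rotI (θ : ℝ) : W ≃ₗᵢ[ℝ] W where
  toLinearEquiv := J1737_rotL θ
  norm_map' w := by
    have h := J1737_rotx_dist θ w 0
    have h0 : rotx θ 0 = 0 := (J1737_rotL θ).map_zero
    rw [h0, dist_zero_right, dist_zero_right] at h
    exact h

noncomputable def J1737_rotE (θ : ℝ) : W ≃ᵃⁱ[ℝ] W := (J1737_rotI θ).toAffineIsometryEquiv

theorem J1737_rotE_apply (θ : ℝ) (w : W) : J1737_rotE θ w = rotx θ w := rfl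

/-- The clamp to `[0,1]`. -/
noncomputable def J1737_cl (u : ℝ) : ℝ := max 0 (min u 1)

theorem J1737_cl_mem (u : ℝ) : J1737_cl u ∈ Icc (0 : ℝ) 1 := by
  unfold J1737_cl
  constructor
  · exact le_max_left _ _
  · exact max_le (by norm_num) (min_le_right _ _)

theorem J1737_cl_cont {X : Type*} [TopologicalSpace X] {a : X → ℝ} (ha : Continuous a) :
    Continuous fun x => J1737_cl (a x) := by
  unfold J1737_cl
  exact continuous_const.max (ha.min continuous_const)

theorem J1737_cl_le {u : ℝ} (h : u ≤ 0) : J1737_cl u = 0 := by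
  unfold J1737_cl
  rw [max_eq_left]
  exact (min_le_left _ _).trans h

theorem J1737_cl_ge {u : ℝ} (h : 1 ≤ u) : J1737_cl u = 1 := by
  unfold J1737_cl
  rw [min_eq_right h, max_eq_right]
  norm_num

theorem J1737_cl_eq {u : ℝ} (h : 0 ≤ u) (h' : u ≤ 1) : J1737_cl u = u := by
  unfold J1737_cl
  rw [min_eq_left h', max_eq_right h]

/-- Cosine bound used for arguments. -/
theorem J1737_norm_cos {z : ℂ} {δ : ℝ} (h : |z.im| ≤ Real.sin δ * |z.re|) :
    ‖z‖ * Real.cos δ ≤ |z.re| := by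
  refine abs_le_of_sq_le_sq' ?_ (abs_nonneg _) |>.2
  have h1 : ‖z‖ ^ 2 = z.re ^ 2 + z.im ^ 2 := by
    rw [← Complex.normSq_eq_norm_sq, Complex.normSq_apply]; ring
  have h2 : z.im ^ 2 ≤ (Real.sin δ) ^ 2 * z.re ^ 2 := by
    have := mul_self_le_mul_self (abs_nonneg _) h
    rw [abs_mul_abs_self] at this
    nlinarith [abs_mul_abs_self z.re]
  have h3 := Real.sin_sq_add_cos_sq δ
  rw [sq_abs, mul_pow, h1]
  have h4 : 0 ≤ Real.cos δ ^ 2 := sq_nonneg _
  have h5 : (z.re ^ 2 + z.im ^ 2) * Real.cos δ ^ 2 ≤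
      (z.re ^ 2 + Real.sin δ ^ 2 * z.re ^ 2) * Real.cos δ ^ 2 :=
    mul_le_mul_of_nonneg_right (by linarith) h4
  have h6 : (z.re ^ 2 + Real.sin δ ^ 2 * z.re ^ 2) * Real.cos δ ^ 2 =
      z.re ^ 2 * (1 - (Real.sin δ ^ 2) ^ 2) := by
    have : Real.cos δ ^ 2 = 1 - Real.sin δ ^ 2 := by linarith
    rw [this]; ring
  have h7 : 0 ≤ z.re ^ 2 * (Real.sin δ ^ 2) ^ 2 := by positivity
  nlinarith

theorem J1737_arg_small {z : ℂ} {δ : ℝ} (hδ : 0 ≤ δ)
    (hre : 0 ≤ z.re) (h : |z.im| ≤ Real.sin δ * z.re) : |Complex.arg z| ≤ δ := by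
  by_cases hz : z = 0
  · rw [hz, Complex.arg_zero, abs_zero]; exact hδ
  by_contra hlt
  push Not at hlt
  have h1 := J1737_norm_cos (z := z) (by rwa [abs_of_nonneg hre])
  rw [abs_of_nonneg hre] at h1
  have h2 : Real.cos |Complex.arg z| < Real.cos δ :=
    Real.cos_lt_cos_of_nonneg_of_le_pi hδ (Complex.abs_arg_le_pi z) hlt
  rw [Real.cos_abs, Complex.cos_arg hz] at h2
  have hn : 0 < ‖z‖ := norm_pos_iff.2 hz
  rw [div_lt_iff₀ hn] at h2
  linarith

theorem J1737_arg_big {z : ℂ} {δ : ℝ} (hδ : 0 ≤ δ)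
    (hre : z.re ≤ 0) (h : |z.im| ≤ Real.sin δ * -z.re) :
    z = 0 ∨ Real.pi - δ ≤ |Complex.arg z| := by
  by_cases hz : z = 0
  · exact Or.inl hz
  right
  by_contra hlt
  push Not at hlt
  have h1 := J1737_norm_cos (z := z) (by rwa [abs_of_nonpos hre])
  rw [abs_of_nonpos hre] at h1
  have h2 : Real.cos (Real.pi - δ) < Real.cos |Complex.arg z| :=
    Real.cos_lt_cos_of_nonneg_of_le_pi (abs_nonneg _) (by linarith) hlt
  rw [Real.cos_abs, Complex.cos_arg hz, Real.cos_pi_sub] at h2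
  have hn : 0 < ‖z‖ := norm_pos_iff.2 hz
  rw [lt_div_iff₀ hn] at h2
  linarith

theorem J1737_re (a b : ℝ) : ((a : ℂ) + (b : ℂ) * Complex.I).re = a := by simp
theorem J1737_im (a b : ℝ) : ((a : ℂ) + (b : ℂ) * Complex.I).im = b := by simp

theorem J1737_lens {P : Tri} {d : ℝ} (hd : 0 < d) {E : W ≃ᵃⁱ[ℝ] W} {s₀ h₀ : ℝ} (hh : 0 < h₀)
    (him : ∀ w, (E w).snd.im = w.snd.im)
    (hm : ∀ w, P.m (E w) =
      min (-w.snd.re / h₀) (min ((w.fst + s₀ * (w.snd.re / h₀)) / d)
        (1 + w.snd.re / h₀ - (w.fst + s₀ * (w.snd.re / h₀)) / d)))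
    {κ₀ δ c' : ℝ} (hκ2 : κ₀ * (d + |s₀|) ≤ h₀ / 2)
    (hδ : 0 < δ) (hδ1 : 4 * δ ≤ 1) (hc' : 0 < c')
    (h1 : 8 * δ * h₀ ≤ c') (h2 : 8 * δ * (2 * d * κ₀) ≤ c')
    {w : W} (hw : ‖w.snd‖ ≤ κ₀ * min w.fst (d - w.fst)) (hμ : 0 ≤ min w.fst (d - w.fst))
    (harg : |Complex.arg w.snd| ≤ δ) :
    E (rotx (Real.pi - 3 * δ) w) ∈ P.lens c' := by
  obtain ⟨ρ, hρ⟩ : ∃ ρ, ρ = ‖w.snd‖ := ⟨_, rfl⟩
  obtain ⟨φ, hφ⟩ : ∃ φ, φ = Complex.arg w.snd := ⟨_, rfl⟩
  obtain ⟨μ, hμe⟩ : ∃ μ, μ = min w.fst (d - w.fst) := ⟨_, rfl⟩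
  rw [← hφ] at harg
  rw [← hρ, ← hμe] at hw
  rw [← hμe] at hμ
  have hρ0 : 0 ≤ ρ := hρ ▸ norm_nonneg _
  have hs : (rotx (Real.pi - 3 * δ) w).snd =
      ((-(ρ * Real.cos (3 * δ - φ)) : ℝ) : ℂ) + ((ρ * Real.sin (3 * δ - φ) : ℝ) : ℂ) * Complex.I := by
    simp only [rotx, pt_snd]
    conv_lhs => rw [← Complex.norm_mul_exp_arg_mul_I w.snd, ← hρ, ← hφ]
    rw [mul_left_comm, ← Complex.exp_add,
      show (((Real.pi - 3 * δ : ℝ) : ℂ) * Complex.I + (φ : ℂ) * Complex.I) =
        ((Real.pi - (3 * δ - φ) : ℝ) : ℂ) * Complex.I by push_cast; ring,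
      Complex.exp_mul_I, ← Complex.ofReal_cos, ← Complex.ofReal_sin, Real.cos_pi_sub,
      Real.sin_pi_sub]
    push_cast
    ring
  have hre : (rotx (Real.pi - 3 * δ) w).snd.re = -(ρ * Real.cos (3 * δ - φ)) := by
    rw [hs]; exact J1737_re _ _
  have him' : (rotx (Real.pi - 3 * δ) w).snd.im = ρ * Real.sin (3 * δ - φ) := by
    rw [hs]; exact J1737_im _ _
  have hfst : (rotx (Real.pi - 3 * δ) w).fst = w.fst := rfl
  obtain ⟨ha1, ha2⟩ := abs_le.1 harg
  have hx0 : 0 ≤ 3 * δ - φ := by linarith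
  have hx4 : 3 * δ - φ ≤ 4 * δ := by linarith
  have hsin0 : 0 ≤ Real.sin (3 * δ - φ) :=
    Real.sin_nonneg_of_nonneg_of_le_pi hx0 (by linarith [Real.pi_gt_three])
  have hsin : Real.sin (3 * δ - φ) ≤ 4 * δ := (Real.sin_le hx0).trans hx4
  have hcos : 1 / 2 ≤ Real.cos (3 * δ - φ) := by
    have := Real.one_sub_sq_div_two_le_cos (x := 3 * δ - φ)
    have h3 : (3 * δ - φ) ^ 2 ≤ 1 := by nlinarith
    linarith
  have hcos1 := Real.cos_le_one (3 * δ - φ)
  obtain ⟨r, hr⟩ : ∃ r, r = ρ * Real.cos (3 * δ - φ) := ⟨_, rfl⟩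
  have hr0 : 0 ≤ r := by rw [hr]; positivity
  have hrρ : r ≤ ρ := by rw [hr]; nlinarith
  have hρr : ρ ≤ 2 * r := by rw [hr]; nlinarith
  have hi : |ρ * Real.sin (3 * δ - φ)| ≤ 8 * δ * r := by
    rw [abs_of_nonneg (by positivity)]
    have : ρ * Real.sin (3 * δ - φ) ≤ ρ * (4 * δ) := mul_le_mul_of_nonneg_left hsin hρ0
    nlinarith
  have hL : 8 * δ * r / c' ≤ P.m (E (rotx (Real.pi - 3 * δ) w)) := by
    rw [hm, hre, hfst, ← hr]
    have hμ1 : μ ≤ w.fst := hμe ▸ min_le_left _ _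
    have hμ2 : μ ≤ d - w.fst := hμe ▸ min_le_right _ _
    have hrμ : r ≤ κ₀ * μ := hrρ.trans hw
    have habs := neg_abs_le s₀
    have habs' := le_abs_self s₀
    have hkey : (d + |s₀|) * (r / h₀) ≤ μ / 2 := by
      rw [mul_div_assoc', div_le_iff₀ hh]
      have e1 : (d + |s₀|) * r ≤ (d + |s₀|) * (κ₀ * μ) :=
        mul_le_mul_of_nonneg_left hrμ (by positivity)
      have e2 : κ₀ * (d + |s₀|) * μ ≤ h₀ / 2 * μ := mul_le_mul_of_nonneg_right hκ2 hμ
      nlinarith
    have hrh : 0 ≤ r / h₀ := by positivity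
    have hhalf : 8 * δ * r / c' ≤ μ / 2 / d := by
      rw [div_le_div_iff₀ hc' hd]
      have e1 : 8 * δ * (2 * d * κ₀) * μ ≤ c' * μ := mul_le_mul_of_nonneg_right h2 hμ
      have e2 : 8 * δ * d * r ≤ 8 * δ * d * (κ₀ * μ) :=
        mul_le_mul_of_nonneg_left hrμ (by positivity)
      nlinarith
    refine le_min ?_ (le_min ?_ ?_)
    · rw [neg_neg, div_le_div_iff₀ hc' hh]
      nlinarith [mul_le_mul_of_nonneg_right h1 hr0]
    · refine hhalf.trans ?_
      rw [div_le_div_iff_of_pos_right hd, neg_div]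
      have e1 : s₀ * (r / h₀) ≤ |s₀| * (r / h₀) := mul_le_mul_of_nonneg_right habs' hrh
      have e2 : 0 ≤ d * (r / h₀) := by positivity
      rw [add_mul] at hkey
      rw [mul_neg]
      linarith
    · refine hhalf.trans ?_
      rw [div_le_iff₀ hd, sub_mul, div_mul_cancel₀ _ hd.ne', neg_div, mul_neg, add_mul, one_mul,
        neg_mul, mul_comm (r / h₀) d]
      have e1 : -|s₀| * (r / h₀) ≤ s₀ * (r / h₀) := mul_le_mul_of_nonneg_right habs hrh
      rw [add_mul] at hkey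
      linarith
  have hL0 : 0 ≤ 8 * δ * r / c' := by positivity
  refine ⟨hL0.trans hL, ?_⟩
  rw [him, him']
  refine hi.trans ?_
  have := mul_le_mul_of_nonneg_left hL hc'.le
  rwa [mul_div_cancel₀ _ hc'.ne'] at this

theorem J1737_near {d κ₀ κ' δ : ℝ} (hκ : 0 < κ₀) (hκ1 : κ₀ ≤ 1) (hκ' : 0 < κ')
    (hκ'1 : κ' ≤ 1 / 2) (hδ : 0 ≤ δ) (hs : κ' ≤ Real.sin δ / 2)
    {x1 w1 : W} (hx1 : x1 ∈ sliver d (κ₀ / 4)) (h : dist w1 x1 ≤ κ' * hgt x1) :
    0 ≤ min w1.fst (d - w1.fst) ∧ ‖w1.snd‖ ≤ κ₀ * min w1.fst (d - w1.fst) ∧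
      |Complex.arg w1.snd| ≤ δ := by
  obtain ⟨hi, h0, ha, hb⟩ := hx1
  unfold hgt at h
  obtain ⟨h', hh'⟩ : ∃ h', h' = x1.snd.re := ⟨_, rfl⟩
  rw [← hh'] at h0 ha hb h
  have h1 := (W_fst_le w1 x1).trans h
  have h2 := (W_snd_le w1 x1).trans h
  have hre := (Complex.abs_re_le_norm (w1.snd - x1.snd)).trans h2
  have him := (Complex.abs_im_le_norm (w1.snd - x1.snd)).trans h2
  rw [Complex.sub_re, ← hh'] at hre
  rw [Complex.sub_im, hi, sub_zero] at him
  have hxn : ‖x1.snd‖ = h' := by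
    have : x1.snd = (h' : ℂ) := by
      apply Complex.ext
      · simp [hh']
      · simp [hi]
    rw [this, Complex.norm_real, Real.norm_of_nonneg h0]
  have hn : ‖w1.snd‖ ≤ h' + κ' * h' := by
    calc ‖w1.snd‖ = ‖x1.snd + (w1.snd - x1.snd)‖ := by congr 1; ring
      _ ≤ ‖x1.snd‖ + ‖w1.snd - x1.snd‖ := norm_add_le _ _
      _ ≤ h' + κ' * h' := by rw [hxn]; linarith
  obtain ⟨hr1, hr2⟩ := abs_le.1 hre
  obtain ⟨hf1, hf2⟩ := abs_le.1 h1
  have hkh : κ' * h' ≤ 1 / 2 * h' := mul_le_mul_of_nonneg_right hκ'1 h0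
  have hre' : h' / 2 ≤ w1.snd.re := by linarith
  have q1 : κ₀ * κ' * x1.fst ≤ 1 / 2 * x1.fst ∨ x1.fst < 0 := by
    by_cases hx : 0 ≤ x1.fst
    · left
      exact mul_le_mul_of_nonneg_right (by nlinarith) hx
    · right; exact not_le.1 hx
  have hx0 : 0 ≤ x1.fst := by
    by_contra hx
    push Not at hx
    nlinarith [mul_neg_of_pos_of_neg (by positivity : 0 < κ₀ / 4) hx]
  have hdx0 : 0 ≤ d - x1.fst := by
    by_contra hx
    push Not at hx
    nlinarith [mul_neg_of_pos_of_neg (by positivity : 0 < κ₀ / 4) hx]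
  have m1 : x1.fst / 2 ≤ w1.fst := by
    have : κ₀ * x1.fst ≤ 1 * x1.fst := mul_le_mul_of_nonneg_right hκ1 hx0
    nlinarith
  have m2 : (d - x1.fst) / 2 ≤ d - w1.fst := by
    have : κ₀ * (d - x1.fst) ≤ 1 * (d - x1.fst) := mul_le_mul_of_nonneg_right hκ1 hdx0
    nlinarith
  refine ⟨le_min (by linarith) (by linarith), ?_, ?_⟩
  · rcases min_choice w1.fst (d - w1.fst) with hmin | hmin
    · rw [hmin]
      have : κ₀ * (x1.fst / 2) ≤ κ₀ * w1.fst := mul_le_mul_of_nonneg_left m1 hκ.le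
      nlinarith
    · rw [hmin]
      have : κ₀ * ((d - x1.fst) / 2) ≤ κ₀ * (d - w1.fst) := mul_le_mul_of_nonneg_left m2 hκ.le
      nlinarith
  · refine J1737_arg_small hδ (by linarith) ?_
    have hs0 : 0 ≤ Real.sin δ := by linarith
    have e1 : κ' * h' ≤ Real.sin δ / 2 * h' := mul_le_mul_of_nonneg_right hs h0
    have e2 : Real.sin δ * (h' / 2) ≤ Real.sin δ * w1.snd.re := mul_le_mul_of_nonneg_left hre' hs0
    linarith

theorem J1737_carrier {P : Tri} {d : ℝ} (hd : 0 < d) {E : W ≃ᵃⁱ[ℝ] W} {s₀ h₀ : ℝ} (hh : 0 < h₀)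
    (him : ∀ w, (E w).snd.im = w.snd.im)
    (hm : ∀ w, P.m (E w) =
      min (-w.snd.re / h₀) (min ((w.fst + s₀ * (w.snd.re / h₀)) / d)
        (1 + w.snd.re / h₀ - (w.fst + s₀ * (w.snd.re / h₀)) / d)))
    {κ₀ : ℝ} (hκ : 0 < κ₀) (hκ2 : κ₀ * (d + |s₀|) ≤ h₀ / 2)
    {x : W} (hx : x ∈ sliver d (κ₀ / 4)) :
    E (rotx Real.pi x) ∈ P.carrier := by
  obtain ⟨hi, h0, ha, hb⟩ := hx
  obtain ⟨r, hr⟩ : ∃ r, r = x.snd.re := ⟨_, rfl⟩
  rw [← hr] at h0 ha hb
  have hs : (rotx Real.pi x).snd = ((-r : ℝ) : ℂ) := by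
    simp only [rotx, pt_snd]
    rw [Complex.exp_pi_mul_I]
    apply Complex.ext
    · simp [hr]
    · simp [hi]
  have hre : (rotx Real.pi x).snd.re = -r := by rw [hs]; simp
  have him' : (rotx Real.pi x).snd.im = 0 := by rw [hs]; simp
  have hfst : (rotx Real.pi x).fst = x.fst := rfl
  refine ⟨by rw [him, him'], ?_⟩
  rw [hm, hre, hfst]
  have hx0 : 0 ≤ x.fst := by
    by_contra hx
    push Not at hx
    nlinarith [mul_neg_of_pos_of_neg (by positivity : 0 < κ₀ / 4) hx]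
  have hdx0 : 0 ≤ d - x.fst := by
    by_contra hx
    push Not at hx
    nlinarith [mul_neg_of_pos_of_neg (by positivity : 0 < κ₀ / 4) hx]
  have habs := neg_abs_le s₀
  have habs' := le_abs_self s₀
  have hrh : 0 ≤ r / h₀ := by positivity
  have key : ∀ u, 0 ≤ u → r ≤ κ₀ / 4 * u → (d + |s₀|) * (r / h₀) ≤ u := by
    intro u hu hru
    rw [mul_div_assoc', div_le_iff₀ hh]
    have e1 : (d + |s₀|) * r ≤ (d + |s₀|) * (κ₀ / 4 * u) :=
      mul_le_mul_of_nonneg_left hru (by positivity)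
    have e2 : κ₀ * (d + |s₀|) * u ≤ h₀ / 2 * u := mul_le_mul_of_nonneg_right hκ2 hu
    nlinarith [mul_nonneg hh.le hu]
  have k1 := key _ hx0 ha
  have k2 := key _ hdx0 hb
  have e2 : 0 ≤ d * (r / h₀) := by positivity
  refine le_min ?_ (le_min ?_ ?_)
  · rw [neg_neg]; exact hrh
  · apply div_nonneg _ hd.le
    have e1 : s₀ * (r / h₀) ≤ |s₀| * (r / h₀) := mul_le_mul_of_nonneg_right habs' hrh
    rw [add_mul] at k1
    rw [neg_div, mul_neg]
    linarith
  · have e1 : -|s₀| * (r / h₀) ≤ s₀ * (r / h₀) := mul_le_mul_of_nonneg_right habs hrh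
    have : 0 ≤ (1 + -r / h₀ - (x.fst + s₀ * (-r / h₀)) / d) * d := by
      rw [sub_mul, div_mul_cancel₀ _ hd.ne', neg_div, mul_neg, add_mul, one_mul,
        neg_mul, mul_comm (r / h₀) d]
      rw [add_mul] at k2
      linarith
    exact nonneg_of_mul_nonneg_left this hd

theorem J1737_proj_m (T : Tri) (w : W) : T.m (proj w) = T.m w := by
  simp [Tri.m, Tri.lA, Tri.lB, Tri.lD, proj]

theorem J1737_m_le_hgt (T : Tri) (w : W) : T.m w ≤ hgt w / T.b2 :=
  (min_le_right _ _).trans (min_le_right _ _)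

theorem J1737_hgt_nonneg {T : Tri} {w : W} (h : 0 ≤ T.m w) : 0 ≤ hgt w := by
  have := h.trans (J1737_m_le_hgt T w)
  have h2 := mul_nonneg this T.hb.le
  rwa [div_mul_cancel₀ _ T.hb.ne'] at h2

theorem J1737_hgt_le {T : Tri} {w : W} (h : 0 ≤ T.m w) : hgt w ≤ T.b2 := by
  have hA : 0 ≤ T.lA w := h.trans (min_le_left _ _)
  have hD : 0 ≤ T.lD w := h.trans ((min_le_right _ _).trans (min_le_left _ _))
  unfold Tri.lA at hA
  have : T.lB w ≤ 1 := by linarith
  unfold Tri.lB at this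
  rw [div_le_one T.hb] at this
  exact this

theorem J1737_hgt_le_dist (x y : W) : hgt x ≤ dist x y + ‖y.snd‖ := by
  have h1 := W_snd_le x y
  have h2 : hgt x ≤ ‖x.snd‖ := (le_abs_self _).trans (Complex.abs_re_le_norm _)
  have h3 : ‖x.snd‖ ≤ ‖x.snd - y.snd‖ + ‖y.snd‖ := by
    simpa using norm_add_le (x.snd - y.snd) y.snd
  linarith

theorem J1737_dist_proj (w : W) : dist w (proj w) = |w.snd.im| := by
  have h : dist w (proj w) ^ 2 = |w.snd.im| ^ 2 := by
    rw [W_dist_sq, sq_abs]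
    have h1 : w.snd - (proj w).snd = (w.snd.im : ℂ) * Complex.I := by
      apply Complex.ext <;> simp [proj]
    rw [h1, norm_mul, Complex.norm_I, mul_one, Complex.norm_real, Real.norm_eq_abs, sq_abs]
    simp [proj]
  exact (sq_eq_sq₀ dist_nonneg (abs_nonneg _)).1 h

theorem J1737_hgt_proj (w : W) : hgt (proj w) = hgt w := by
  simp [hgt, proj]

/-- Rotations by different angles. -/
theorem J1737_rotx_dist_angle (a b : ℝ) (w : W) :
    dist (rotx a w) (rotx b w) ≤ |a - b| * ‖w.snd‖ := by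
  refine (W_dist_le _ _).trans ?_
  simp only [rotx, pt_fst, pt_snd, sub_self, abs_zero, zero_add]
  rw [← sub_mul, norm_mul]
  refine mul_le_mul_of_nonneg_right ?_ (norm_nonneg _)
  have h1 : Complex.exp ((a : ℂ) * Complex.I) - Complex.exp ((b : ℂ) * Complex.I) =
      Complex.exp ((b : ℂ) * Complex.I) * (Complex.exp (Complex.I * ((a - b : ℝ) : ℂ)) - 1) := by
    rw [mul_sub, ← Complex.exp_add, mul_one]
    congr 2
    push_cast
    ring
  rw [h1, norm_mul, Complex.norm_exp_ofReal_mul_I, one_mul]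
  have := Real.norm_exp_I_mul_ofReal_sub_one_le (x := a - b)
  rwa [Real.norm_eq_abs] at this

theorem stage (T P : Tri) (E : W ≃ᵃⁱ[ℝ] W) (hE : IsHinge P T.d E) {c₁ : ℝ} (hc₁ : 0 < c₁)
    (hc₁1 : c₁ ≤ 1) :
    ∃ (R : W → W) (K : ℝ → ℝ → W → W),
      (∀ x ∈ T.carrier, R x ∈ P.carrier) ∧ PA T.carrier R ∧
      (∀ b, |b| ≤ Real.pi - c₁ → Continuous (fun p : ℝ × W => K b p.1 p.2) ∧
        (∀ x ∈ T.carrier, K b 0 x = E (rotx b x) ∧ K b 1 x = R x) ∧
        PAp T.carrier (K b)) ∧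
      ∀ ε > (0 : ℝ), ∀ c' > (0 : ℝ), ∃ c > (0 : ℝ), ∃ Ω : W → W,
        (∀ w ∈ T.lens c, Ω w ∈ P.lens c') ∧
        ∀ b, |b| ≤ Real.pi - c₁ → ∃ H : ℝ → W → W,
          Continuous (fun p : ℝ × W => H p.1 p.2) ∧
          (∀ t ∈ Icc (0 : ℝ) 1, Function.Injective (H t)) ∧ (∀ w, H 0 w = w) ∧
          (∀ w ∈ T.lens c,
            (∀ t ∈ Icc (0 : ℝ) 1, dist (H t (E (rotx b w))) (K b t (proj w)) ≤ ε) ∧
            H 1 (E (rotx b w)) = Ω w) ∧
          (∀ y, (∀ x ∈ T.carrier, c₁ / 2 * hgt x ≤ dist (E (rotx b x)) y) →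
            (y ∈ P.lens c ∨
              ∀ s ∈ Icc 0 T.d, c₁ / 2 * min s (T.d - s) ≤ dist (E (pt s 0)) y) →
            ∀ t ∈ Icc (0 : ℝ) 1, H t y = y) := by
  obtain ⟨s₀, h₀, hh, hm⟩ := hE.third
  have him := hE.im
  have hd := T.hd
  have hb2 := T.hb
  obtain ⟨κ₀, hκ, hκ1, hκc, hκ2⟩ : ∃ κ₀ : ℝ, 0 < κ₀ ∧ κ₀ ≤ 1 ∧ κ₀ ≤ c₁ / 8 ∧
      κ₀ * (T.d + |s₀|) ≤ h₀ / 2 := by
    have hp : 0 < T.d + |s₀| := by positivity
    refine ⟨min 1 (min (c₁ / 8) (h₀ / 2 / (T.d + |s₀|))), by positivity, min_le_left _ _,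
      (min_le_right _ _).trans (min_le_left _ _), ?_⟩
    rw [← le_div_iff₀ hp]
    exact (min_le_right _ _).trans (min_le_right _ _)
  have hpl : ∀ x ∈ T.carrier, x.snd.im = 0 ∧ 0 ≤ hgt x :=
    fun x hx => ⟨hx.1, J1737_hgt_nonneg hx.2⟩
  have hne : ({y | ∀ x ∈ T.carrier, c₁ / 2 * hgt x ≤ dist x y} : Set W).Nonempty := by
    refine ⟨pt 0 0, fun x hx => ?_⟩
    have h1 := J1737_hgt_le_dist x (pt 0 0)
    rw [pt_snd, norm_zero, add_zero] at h1
    have h2 := (hpl x hx).2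
    nlinarith
  obtain ⟨q, hqc, hq0, hq1, hqPA, hqPAp, hqε⟩ := fold_prop (c₂ := c₁ / 2)
    (sl := sliver T.d (κ₀ / 4)) (S := T.carrier)
    (Y := {y | ∀ x ∈ T.carrier, c₁ / 2 * hgt x ≤ dist x y}) (by positivity) (by linarith)
    (coll_tri (by positivity) (by positivity) T) hpl hne (fun x hx y hy => hy x hx)
  refine ⟨fun x => E (rotx Real.pi (q 1 x)),
    fun b t x => E (rotx (b + (Real.pi - b) * J1737_cl (2 * t - 1)) (q (J1737_cl (2 * t)) x)),
    ?_, ?_, ?_, ?_⟩
  · intro x hx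
    exact J1737_carrier hd hh him hm hκ hκ2 (hq1 x hx).1
  · exact PA_comp (R' := fun w => E (rotx Real.pi w)) hqPA (S' := univ) (fun _ _ => mem_univ _)
      (PA_isom univ ((J1737_rotE Real.pi).trans E))
  · intro b hb
    refine ⟨?_, ?_, ?_⟩
    · refine E.continuous.comp (J1737_rotx_cont ?_ ?_)
      · exact continuous_const.add (continuous_const.mul (J1737_cl_cont (by fun_prop)))
      · exact hqc.comp ((J1737_cl_cont (by fun_prop)).prodMk continuous_snd)
    · intro x hx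
      constructor
      · simp only
        rw [J1737_cl_le (by norm_num), J1737_cl_le (by norm_num), hq0, mul_zero, add_zero]
      · simp only
        rw [J1737_cl_ge (by norm_num), J1737_cl_ge (by norm_num), mul_one, add_sub_cancel]
    · obtain ⟨Ls, hLs, hL⟩ := hqPAp
      refine ⟨Ls, hLs, fun x hx y hy hc t ht => ?_⟩
      simp only
      rw [E.dist_map, J1737_rotx_dist]
      exact hL x hx y hy hc _ (J1737_cl_mem _)
  · intro ε hε c' hc'
    obtain ⟨δ, hδ, hδc, hδ1, h1, h2, h3⟩ : ∃ δ : ℝ, 0 < δ ∧ δ ≤ c₁ / 8 ∧ 4 * δ ≤ 1 ∧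
        8 * δ * h₀ ≤ c' ∧ 8 * δ * (2 * T.d * κ₀) ≤ c' ∧ 3 * δ * T.b2 ≤ ε / 2 := by
      obtain ⟨δ, hδe⟩ : ∃ δ, δ = min (c₁ / 8) (min (1 / 4) (min (c' / (8 * h₀))
        (min (c' / (16 * T.d * κ₀)) (ε / (6 * T.b2))))) := ⟨_, rfl⟩
      have e0 : 0 < δ := by rw [hδe]; positivity
      have e1 : δ ≤ c₁ / 8 := by rw [hδe]; exact min_le_left _ _
      have e2 : δ ≤ 1 / 4 := by rw [hδe]; exact (min_le_right _ _).trans (min_le_left _ _)
      have e3 : δ ≤ c' / (8 * h₀) := by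
        rw [hδe]
        exact (min_le_right _ _).trans ((min_le_right _ _).trans (min_le_left _ _))
      have e4 : δ ≤ c' / (16 * T.d * κ₀) := by
        rw [hδe]
        exact (min_le_right _ _).trans ((min_le_right _ _).trans
          ((min_le_right _ _).trans (min_le_left _ _)))
      have e5 : δ ≤ ε / (6 * T.b2) := by
        rw [hδe]
        exact (min_le_right _ _).trans ((min_le_right _ _).trans
          ((min_le_right _ _).trans (min_le_right _ _)))
      rw [le_div_iff₀ (by positivity)] at e3 e4 e5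
      exact ⟨δ, e0, e1, by linarith, by linarith, by linarith, by linarith⟩
    have hsin : 0 < Real.sin δ :=
      Real.sin_pos_of_pos_of_lt_pi hδ (by linarith [Real.pi_gt_three])
    obtain ⟨κ', hκ', hk1, hk2, hk3⟩ : ∃ κ' : ℝ, 0 < κ' ∧ κ' ≤ 1 / 2 ∧ κ' ≤ Real.sin δ / 2 ∧
        κ' * T.b2 ≤ ε / 2 := by
      refine ⟨min (1 / 2) (min (Real.sin δ / 2) (ε / 2 / T.b2)), by positivity, min_le_left _ _,
        (min_le_right _ _).trans (min_le_left _ _), ?_⟩
      rw [← le_div_iff₀ hb2]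
      exact (min_le_right _ _).trans (min_le_right _ _)
    obtain ⟨κ, hκp, Q, hQc, hQi, hQ0, hQY, hQn⟩ := hqε (ε / T.b2) (by positivity) κ' hκ'
    obtain ⟨c, hc, hcκ, hcs⟩ : ∃ c : ℝ, 0 < c ∧ c ≤ κ * T.b2 ∧ c ≤ h₀ * Real.sin δ :=
      ⟨min (κ * T.b2) (h₀ * Real.sin δ), by positivity, min_le_left _ _, min_le_right _ _⟩
    have hQw : ∀ w ∈ T.lens c, proj w ∈ T.carrier ∧
        (∀ t ∈ Icc (0 : ℝ) 1, dist (Q t w) (q t (proj w)) ≤ ε / T.b2 * hgt (proj w)) ∧
          dist (Q 1 w) (q 1 (proj w)) ≤ κ' * hgt (q 1 (proj w)) := by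
      intro w hw
      have hx : proj w ∈ T.carrier := ⟨by simp [proj], by rw [J1737_proj_m]; exact hw.1⟩
      refine ⟨hx, hQn _ hx w ?_⟩
      rw [J1737_dist_proj, J1737_hgt_proj]
      have e1 : c * T.m w ≤ κ * T.b2 * T.m w := mul_le_mul_of_nonneg_right hcκ hw.1
      have e2 : κ * T.b2 * T.m w ≤ κ * T.b2 * (hgt w / T.b2) :=
        mul_le_mul_of_nonneg_left (J1737_m_le_hgt T w) (by positivity)
      have e3 : κ * T.b2 * (hgt w / T.b2) = κ * hgt w := by field_simp
      linarith [hw.2]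
    have hQs : ∀ w ∈ T.lens c, 0 ≤ min (Q 1 w).fst (T.d - (Q 1 w).fst) ∧
        ‖(Q 1 w).snd‖ ≤ κ₀ * min (Q 1 w).fst (T.d - (Q 1 w).fst) ∧
        |Complex.arg (Q 1 w).snd| ≤ δ := by
      intro w hw
      obtain ⟨hx, _, hn⟩ := hQw w hw
      exact J1737_near hκ hκ1 hκ' hk1 hδ.le hk2 (hq1 _ hx).1 hn
    refine ⟨c, hc, fun w => E (rotx (Real.pi - 3 * δ) (Q 1 w)), ?_, ?_⟩
    · intro w hw
      obtain ⟨a1, a2, a3⟩ := hQs w hw
      exact J1737_lens hd hh him hm hκ2 hδ hδ1 hc' h1 h2 a2 a1 a3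
    · intro b hb
      obtain ⟨Hr, hrc, hri, hr0, hr1, hr2, hr3⟩ :=
        rot_move hd hc₁ hc₁1 hb hδ hδc hκ hκ1
      refine ⟨fun t y => E (Hr (J1737_cl (2 * t - 1)) (rotx b (Q (J1737_cl (2 * t))
        (rotx (-b) (E.symm y))))), ?_, ?_, ?_, ?_, ?_⟩
      · refine E.continuous.comp (hrc.comp ((J1737_cl_cont (by fun_prop)).prodMk
          (J1737_rotx_cont continuous_const (hQc.comp ((J1737_cl_cont (by fun_prop)).prodMk
            (J1737_rotx_cont continuous_const (E.symm.continuous.comp continuous_snd)))))))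
      · intro t ht
        exact E.injective.comp ((hri _ (J1737_cl_mem _)).comp ((J1737_rotx_inj b).comp
          ((hQi _ (J1737_cl_mem _)).comp ((J1737_rotx_inj (-b)).comp E.symm.injective))))
      · intro w
        simp only
        rw [J1737_cl_le (by norm_num), J1737_cl_le (by norm_num), hQ0, hr0, J1737_rotx_neg,
          E.apply_symm_apply]
      · intro w hw
        obtain ⟨hx, hn0, hn⟩ := hQw w hw
        obtain ⟨a1, a2, a3⟩ := hQs w hw
        have hfix : ∀ s ∈ Icc (0 : ℝ) 1, Hr s (rotx b (Q 1 w)) =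
            rotx (b + s * (Real.pi - 3 * δ - b)) (Q 1 w) := by
          intro s hs
          refine hr3 _ ?_ a3 s hs
          rw [max_eq_right a1]
          exact a2
        constructor
        · intro t ht
          simp only
          rw [E.symm_apply_apply, J1737_rotx_neg', E.dist_map]
          rcases le_total t (1 / 2) with ht2 | ht2
          · rw [J1737_cl_le (show 2 * t - 1 ≤ 0 by linarith), hr0, mul_zero, add_zero, J1737_rotx_dist]
            refine (hn0 _ (J1737_cl_mem _)).trans ?_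
            have e1 := J1737_hgt_le (T := T) (w := proj w) hx.2
            calc ε / T.b2 * hgt (proj w) ≤ ε / T.b2 * T.b2 :=
                  mul_le_mul_of_nonneg_left e1 (by positivity)
              _ = ε := by field_simp
          · rw [J1737_cl_ge (show 1 ≤ 2 * t by linarith), hfix _ (J1737_cl_mem _)]
            obtain ⟨s, hs⟩ : ∃ s, s = J1737_cl (2 * t - 1) := ⟨_, rfl⟩
            have hs01 := J1737_cl_mem (2 * t - 1)
            rw [← hs] at hs01 ⊢
            have hx1 := (hq1 _ hx).2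
            have e1 := J1737_hgt_le (T := T) (w := q 1 (proj w)) hx1.2
            have e0 := (hpl _ hx1).2
            have hn1 : ‖(q 1 (proj w)).snd‖ = hgt (q 1 (proj w)) := by
              have : (q 1 (proj w)).snd = ((hgt (q 1 (proj w)) : ℝ) : ℂ) := by
                apply Complex.ext
                · simp [hgt]
                · simp [hx1.1]
              rw [this, Complex.norm_real, Real.norm_of_nonneg e0]
            have d1 := dist_triangle (rotx (b + s * (Real.pi - 3 * δ - b)) (Q 1 w))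
              (rotx (b + s * (Real.pi - 3 * δ - b)) (q 1 (proj w)))
              (rotx (b + (Real.pi - b) * s) (q 1 (proj w)))
            rw [J1737_rotx_dist] at d1
            have d2 := J1737_rotx_dist_angle (b + s * (Real.pi - 3 * δ - b)) (b + (Real.pi - b) * s)
              (q 1 (proj w))
            rw [hn1] at d2
            have d3 : |b + s * (Real.pi - 3 * δ - b) - (b + (Real.pi - b) * s)| ≤ 3 * δ := by
              rw [show b + s * (Real.pi - 3 * δ - b) - (b + (Real.pi - b) * s) = -(3 * δ * s) by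
                ring, abs_neg, abs_of_nonneg (by have := hs01.1; positivity)]
              have := hs01.2
              nlinarith
            have d4 : |b + s * (Real.pi - 3 * δ - b) - (b + (Real.pi - b) * s)| *
                hgt (q 1 (proj w)) ≤ 3 * δ * T.b2 :=
              mul_le_mul d3 e1 e0 (by positivity)
            have d5 : κ' * hgt (q 1 (proj w)) ≤ κ' * T.b2 :=
              mul_le_mul_of_nonneg_left e1 hκ'.le
            linarith
        · simp only
          rw [E.symm_apply_apply, J1737_rotx_neg', J1737_cl_ge (by norm_num), J1737_cl_ge (by norm_num),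
            hfix 1 (by norm_num)]
          congr 2
          ring
      · intro y hy1 hy2 t ht
        simp only
        have hY : ∀ x ∈ T.carrier, c₁ / 2 * hgt x ≤ dist x (rotx (-b) (E.symm y)) := by
          intro x hx
          refine (hy1 x hx).trans (le_of_eq ?_)
          have e1 : dist (E (rotx b x)) (E (E.symm y)) = dist (rotx b x) (E.symm y) :=
            E.dist_map _ _
          rw [E.apply_symm_apply] at e1
          rw [← J1737_rotx_dist b x, J1737_rotx_neg, e1]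
        rw [hQY _ (J1737_cl_mem _) _ hY, J1737_rotx_neg]
        have hy' : ∀ s ∈ Icc (0 : ℝ) 1, Hr s (E.symm y) = E.symm y := by
          obtain ⟨y', hye⟩ : ∃ y', y' = E.symm y := ⟨_, rfl⟩
          have hye' : y = E y' := by rw [hye, E.apply_symm_apply]
          rw [← hye]
          rcases hy2 with hy2 | hy2
          · apply hr2
            rw [hye'] at hy2
            obtain ⟨m0, m1⟩ := hy2
            rw [him] at m1
            have hmle : P.m (E y') ≤ -y'.snd.re / h₀ := by rw [hm]; exact min_le_left _ _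
            have hre0 : y'.snd.re ≤ 0 := by
              have := m0.trans hmle
              by_contra hcon
              push Not at hcon
              have : -y'.snd.re / h₀ < 0 := div_neg_of_neg_of_pos (by linarith) hh
              linarith
            refine J1737_arg_big hδ.le hre0 ?_
            refine m1.trans ?_
            calc c * P.m (E y') ≤ c * (-y'.snd.re / h₀) := mul_le_mul_of_nonneg_left hmle hc.le
              _ ≤ h₀ * Real.sin δ * (-y'.snd.re / h₀) :=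
                mul_le_mul_of_nonneg_right hcs (m0.trans hmle)
              _ = Real.sin δ * -y'.snd.re := by field_simp
          · apply hr1
            by_cases hin : y'.fst ∈ Icc 0 T.d
            · have h4 := hy2 _ hin
              have h5 : dist (E (pt y'.fst 0)) y = ‖y'.snd‖ := by
                rw [hye', E.dist_map]
                have : dist (pt y'.fst 0) y' ^ 2 = ‖y'.snd‖ ^ 2 := by
                  rw [W_dist_sq]; simp
                exact (sq_eq_sq₀ dist_nonneg (norm_nonneg _)).1 this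
              rw [h5] at h4
              have h6 : 0 ≤ min y'.fst (T.d - y'.fst) := le_min hin.1 (by linarith [hin.2])
              rw [max_eq_right h6]
              nlinarith
            · have h6 : min y'.fst (T.d - y'.fst) ≤ 0 := by
                by_contra hcon
                push Not at hcon
                obtain ⟨u1, u2⟩ := lt_min_iff.1 hcon
                exact hin ⟨u1.le, by linarith⟩
              rw [max_eq_left h6, mul_zero]
              exact norm_nonneg _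
        rw [hy' _ (J1737_cl_mem _), E.apply_symm_apply]

end Pool.Agent.H334
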