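import Pool.Agent.Helper334_Fold.Defs2
import Pool.Agent.Helper334_Fold.P_stage
import Pool.Agent.Helper334_Fold.P_PA_comp
import Pool.Agent.Helper334_Fold.P_PAp_comp
import Pool.Agent.Helper334_Fold.P_PA_isom
import Pool.Agent.Helper334_Fold.P_PAp_of_PA
import Pool.Agent.Helper334_Fold.P_PAp_of_two

set_option autoImplicit false

open Set


namespace Pool.Agent.H334







/-- clamping to the unit interval -/
noncomputable def hub_cl (u : ℝ) : ℝ := max 0 (min u 1)

theorem hub_cl_mem (u : ℝ) : hub_cl u ∈ Icc (0 : ℝ) 1 :=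
  ⟨le_max_left _ _, max_le zero_le_one (min_le_right _ _)⟩

theorem hub_cl_cont : Continuous hub_cl := by
  unfold hub_cl
  fun_prop

theorem hub_cl_zero {u : ℝ} (h : u ≤ 0) : hub_cl u = 0 := by
  unfold hub_cl
  rw [min_eq_left (h.trans zero_le_one), max_eq_left h]

theorem hub_cl_one {u : ℝ} (h : 1 ≤ u) : hub_cl u = 1 := by
  unfold hub_cl
  rw [min_eq_right h, max_eq_right zero_le_one]

theorem hub_m_proj (T : Tri) (w : W) : T.m (proj w) = T.m w := by
  unfold Tri.m Tri.lA Tri.lD Tri.lB proj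
  simp only [pt_fst, pt_snd, Complex.ofReal_re]

theorem hub_m_le (T : Tri) (w : W) : T.m w ≤ 1 := by
  have h1 : T.m w ≤ T.lA w := min_le_left _ _
  have h2 : T.m w ≤ T.lD w := (min_le_right _ _).trans (min_le_left _ _)
  have h3 : T.m w ≤ T.lB w := (min_le_right _ _).trans (min_le_right _ _)
  have h4 : T.lA w = 1 - T.lB w - T.lD w := rfl
  linarith

theorem hub_proj_mem (T : Tri) {c : ℝ} {w : W} (h : w ∈ T.lens c) : proj w ∈ T.carrier := by
  refine ⟨?_, ?_⟩
  · show (proj w).snd.im = 0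
    unfold proj
    simp
  · rw [hub_m_proj]
    exact h.1

theorem hub_dist_proj (w : W) : dist w (proj w) = |w.snd.im| := by
  have h1 : dist w (proj w) ^ 2 = |w.snd.im| ^ 2 := by
    rw [W_dist_sq]
    have h2 : w.snd - (proj w).snd = (w.snd.im : ℂ) * Complex.I := by
      unfold proj
      rw [pt_snd]
      apply Complex.ext <;> simp
    have h3 : (proj w).fst = w.fst := rfl
    rw [h2, h3, norm_mul, Complex.norm_I, mul_one, Complex.norm_real, Real.norm_eq_abs]
    ring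
  exact (pow_left_inj₀ dist_nonneg (abs_nonneg _) two_ne_zero).1 h1

theorem hub_lens_mono (T : Tri) {c c' : ℝ} (h : c ≤ c') {w : W} (hw : w ∈ T.lens c) :
    w ∈ T.lens c' :=
  ⟨hw.1, hw.2.trans (mul_le_mul_of_nonneg_right h hw.1)⟩

theorem hub_proj_lip (w v : W) (hv : v.snd.im = 0) : dist (proj w) v ≤ dist w v := by
  refine abs_le_of_sq_le_sq' ?_ dist_nonneg |>.2
  rw [W_dist_sq, W_dist_sq]
  have h3 : (proj w).fst = w.fst := rfl
  have h4 : (proj w).snd = (w.snd.re : ℂ) := rfl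
  rw [h3, h4, ← Complex.normSq_eq_norm_sq, ← Complex.normSq_eq_norm_sq, Complex.normSq_apply,
    Complex.normSq_apply]
  simp only [Complex.sub_re, Complex.sub_im, Complex.ofReal_re, Complex.ofReal_im, hv]
  nlinarith [sq_nonneg w.snd.im]

theorem hub_m_cont (T : Tri) : Continuous T.m := by
  have h1 := W_continuous_fst
  have h2 : Continuous fun w : W => w.snd.re := Complex.continuous_re.comp W_continuous_snd
  have hB : Continuous T.lB := h2.div_const _
  have hD : Continuous T.lD := (h1.sub (continuous_const.mul (h2.div_const _))).div_const _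
  have hA : Continuous T.lA := (continuous_const.sub hB).sub hD
  exact hA.min (hD.min hB)

theorem hub_closed (T : Tri) : IsClosed T.carrier := by
  have h2 : Continuous fun w : W => w.snd.im := Complex.continuous_im.comp W_continuous_snd
  exact (isClosed_eq h2 continuous_const).inter (isClosed_le continuous_const (hub_m_cont T))

theorem hub_compact (T : Tri) : IsCompact T.carrier := by
  have hp : ProperSpace W := FiniteDimensional.proper ℝ W
  refine Metric.isCompact_of_isClosed_isBounded (hub_closed T) ?_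
  refine (Metric.isBounded_iff_subset_closedBall (pt 0 0)).2 ⟨(T.d + |T.b1|) + T.b2, ?_⟩
  rintro w ⟨h1, h2⟩
  rw [Metric.mem_closedBall]
  refine (W_dist_le _ _).trans ?_
  have hA : 0 ≤ T.lA w := h2.trans (min_le_left _ _)
  have hD : 0 ≤ T.lD w := h2.trans ((min_le_right _ _).trans (min_le_left _ _))
  have hB : 0 ≤ T.lB w := h2.trans ((min_le_right _ _).trans (min_le_right _ _))
  have hs : T.lA w = 1 - T.lB w - T.lD w := rfl
  have hd := T.hd
  have hb := T.hb
  have eB : w.snd.re = T.b2 * T.lB w := by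
    unfold Tri.lB
    field_simp
  have eD : w.fst = T.d * T.lD w + T.b1 * T.lB w := by
    unfold Tri.lD Tri.lB
    field_simp
    ring
  have hB1 : T.lB w ≤ 1 := by linarith
  have hD1 : T.lD w ≤ 1 := by linarith
  have f1 : |w.fst - (pt 0 0).fst| ≤ T.d + |T.b1| := by
    rw [pt_fst, sub_zero, eD]
    refine (abs_add_le _ _).trans (add_le_add ?_ ?_)
    · rw [abs_mul, abs_of_pos hd, abs_of_nonneg hD]
      nlinarith
    · rw [abs_mul, abs_of_nonneg hB]
      nlinarith [abs_nonneg T.b1]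
  have f2 : ‖w.snd - (pt 0 0).snd‖ ≤ T.b2 := by
    rw [pt_snd, sub_zero]
    have : w.snd = ((w.snd.re : ℝ) : ℂ) := by
      apply Complex.ext <;> simp [h1]
    rw [this, Complex.norm_real, Real.norm_eq_abs, eB, abs_of_nonneg (mul_nonneg hb.le hB)]
    nlinarith
  linarith

theorem hub_seg_mem (T : Tri) {s : ℝ} (hs : s ∈ Icc 0 T.d) : pt s 0 ∈ T.carrier := by
  have hd := T.hd
  have hb := T.hb
  refine ⟨by simp, ?_⟩
  have eB : T.lB (pt s 0) = 0 := by
    unfold Tri.lB
    simp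
  have eD : T.lD (pt s 0) = s / T.d := by
    unfold Tri.lD
    simp
  have eA : T.lA (pt s 0) = 1 - s / T.d := by
    unfold Tri.lA
    rw [eB, eD]
    ring
  unfold Tri.m
  rw [eA, eB, eD]
  have h1 : 0 ≤ s / T.d := div_nonneg hs.1 hd.le
  have h2 : s / T.d ≤ 1 := (div_le_one hd).2 hs.2
  exact le_min (by linarith) (le_min h1 le_rfl)

theorem hub_rotx_seg (θ s : ℝ) : rotx θ (pt s 0) = pt s 0 := by
  unfold rotx
  simp

theorem hub_clear {X : Sys} {n : ℕ} {c : ℝ} {f : Fr} (h : Clear X (n + 1) c f) : Clear X n c f where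
  fr k h1 h2 := h.fr k h1 (h2.trans (Nat.le_succ n))
  ang k h1 h2 := h.ang k h1 (h2.trans (Nat.le_succ n))
  base k h2 := h.base k (h2.trans (Nat.le_succ n))
  mm k h2 := h.mm k (h2.trans (Nat.le_succ n))
  seg k h2 := h.seg k (h2.trans (Nat.le_succ n))

theorem hub_ok {X : Sys} {n : ℕ} (h : X.Ok (n + 1)) : X.Ok n :=
  fun k h1 h2 => h k h1 (h2.trans (Nat.le_succ n))

/-- uniform continuity on a compact set -/
theorem hub_unif {T : Tri} {F : ℝ → W → W}
    (hF : ContinuousOn (fun p : ℝ × W => F p.1 p.2) (Icc (0 : ℝ) 1 ×ˢ T.carrier)) {ε : ℝ}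
    (hε : 0 < ε) : ∃ η > (0 : ℝ), ∀ t ∈ Icc (0 : ℝ) 1, ∀ x ∈ T.carrier, ∀ y ∈ T.carrier,
      dist x y ≤ η → dist (F t x) (F t y) ≤ ε := by
  have hK : IsCompact (Icc (0 : ℝ) 1 ×ˢ T.carrier) := isCompact_Icc.prod (hub_compact T)
  have hu := hK.uniformContinuousOn_of_continuous hF
  obtain ⟨δ, hδ, h⟩ := Metric.uniformContinuousOn_iff.1 hu ε hε
  refine ⟨δ / 2, half_pos hδ, fun t ht x hx y hy hxy => ?_⟩
  refine (h (t, x) ⟨ht, hx⟩ (t, y) ⟨ht, hy⟩ ?_).le
  rw [Prod.dist_eq, dist_self]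
  exact max_lt hδ (by linarith)

/-- the conclusion of the theorem -/
def hub_C (X : Sys) (n : ℕ) (f : Bool → Fr) : Prop :=
    ∃ (R : ℕ → W → W) (F : Bool → ℝ → ℕ → W → W),
      (∀ k ≤ n, PA (X.T k).carrier (R k)) ∧
      (∀ i, ∀ k ≤ n,
        ContinuousOn (fun p : ℝ × W => F i p.1 k p.2) (Icc (0 : ℝ) 1 ×ˢ (X.T k).carrier) ∧
        (∀ x ∈ (X.T k).carrier,
          F i 0 k x = (f i).J k x ∧ F i 1 k x = (f i).J 0 (R k x)) ∧
        PAp (X.T k).carrier (fun t => F i t k)) ∧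
      ∀ ε > (0 : ℝ), ∃ c > (0 : ℝ), ∃ Ω : ℕ → W → W, ∀ i, ∃ H : ℝ → W → W,
        Continuous (fun p : ℝ × W => H p.1 p.2) ∧
        (∀ t ∈ Icc (0 : ℝ) 1, Function.Injective (H t)) ∧ (∀ w, H 0 w = w) ∧
        ∀ k ≤ n, ∀ w ∈ (X.T k).lens c,
          (∀ t ∈ Icc (0 : ℝ) 1, dist (H t ((f i).J k w)) (F i t k (proj w)) ≤ ε) ∧
          H 1 ((f i).J k w) = (f i).J 0 (Ω k w)

theorem hub_zero (X : Sys) (f : Bool → Fr) : hub_C X 0 f := by
  refine ⟨fun _ x => x, fun i _ k x => (f i).J k x, ?_, ?_, ?_⟩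
  · intro k _
    exact PA_isom _ (AffineIsometryEquiv.refl ℝ W)
  · intro i k hk
    obtain rfl : k = 0 := by omega
    refine ⟨((f i).J 0).continuous.comp_continuousOn continuousOn_snd, fun x _ => ⟨rfl, rfl⟩, ?_⟩
    exact PAp_of_PA (PA_isom _ ((f i).J 0))
  · intro ε hε
    refine ⟨ε, hε, fun _ w => w, fun i => ⟨fun _ w => w, continuous_snd,
      fun t _ => Function.injective_id, fun w => rfl, ?_⟩⟩
    intro k hk w hw
    obtain rfl : k = 0 := by omega
    refine ⟨fun t _ => ?_, rfl⟩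
    rw [((f i).J 0).dist_map, hub_dist_proj]
    refine hw.2.trans ?_
    have := mul_le_mul_of_nonneg_left (hub_m_le (X.T 0) w) hε.le
    linarith

/-- points of the earlier pieces are fixed by the motion of the last piece -/
theorem hub_fix {X : Sys} {n : ℕ} {c₁ : ℝ} (f : Fr)
    (hf : Clear X (n + 1) c₁ f) {c cs : ℝ} (hc : c ≤ c₁ / 2) (hcs : c ≤ cs)
    {k : ℕ} (hk : k ≤ n) {w : W} (hw : w ∈ (X.T k).lens c) :
    (∀ x ∈ (X.T (n + 1)).carrier, c₁ / 2 * hgt x ≤
      dist (X.E (n + 1) (rotx (f.b (n + 1)) x)) ((f.J (X.p (n + 1))).symm (f.J k w))) ∧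
    ((f.J (X.p (n + 1))).symm (f.J k w) ∈ (X.T (X.p (n + 1))).lens cs ∨
      ∀ s ∈ Icc 0 (X.T (n + 1)).d, c₁ / 2 * min s ((X.T (n + 1)).d - s) ≤
        dist (X.E (n + 1) (pt s 0)) ((f.J (X.p (n + 1))).symm (f.J k w))) := by
  have hu : proj w ∈ (X.T k).carrier := hub_proj_mem _ hw
  have hwu : dist (f.J k (proj w)) (f.J k w) ≤ c * (X.T k).m (proj w) := by
    rw [(f.J k).dist_map, dist_comm, hub_dist_proj, hub_m_proj]
    exact hw.2
  have hm0 : 0 ≤ (X.T k).m (proj w) := hu.2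
  have hd : ∀ x : W, dist (X.E (n + 1) (rotx (f.b (n + 1)) x))
      ((f.J (X.p (n + 1))).symm (f.J k w)) = dist (f.J (n + 1) x) (f.J k w) := by
    intro x
    rw [hf.fr (n + 1) (by omega) le_rfl x, ← (f.J (X.p (n + 1))).dist_map,
      AffineIsometryEquiv.apply_symm_apply]
  have hhalf : ∀ x ∈ (X.T (n + 1)).carrier, dist (f.J (n + 1) x) (f.J k (proj w)) / 2 ≤
      dist (f.J (n + 1) x) (f.J k w) := by
    intro x hx
    have h1 := hf.mm (n + 1) le_rfl k (by omega) x hx (proj w) hu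
    have h2 := dist_triangle_right (f.J (n + 1) x) (f.J k (proj w)) (f.J k w)
    have h3 : c * (X.T k).m (proj w) ≤ c₁ / 2 * (X.T k).m (proj w) :=
      mul_le_mul_of_nonneg_right hc hm0
    linarith
  refine ⟨fun x hx => ?_, ?_⟩
  · rw [hd]
    have h1 := hf.base (n + 1) le_rfl k (by omega) x hx (proj w) hu
    have h2 := hhalf x hx
    linarith
  · by_cases hkp : k = X.p (n + 1)
    · left
      rw [hkp, AffineIsometryEquiv.symm_apply_apply, ← hkp]
      exact hub_lens_mono _ hcs hw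
    · right
      intro s hs
      have h1 := hf.seg (n + 1) le_rfl k (by omega) hkp s hs (proj w) hu
      have h2 := hhalf (pt s 0) (hub_seg_mem _ hs)
      have h3 := hd (pt s 0)
      rw [hub_rotx_seg] at h3
      rw [h3]
      linarith

theorem hub_succ (X : Sys) (n : ℕ) (hX : X.Ok (n + 1)) {c₁ : ℝ} (hc₁ : 0 < c₁) (hc₁1 : c₁ ≤ 1)
    (f : Bool → Fr) (hf : ∀ i, Clear X (n + 1) c₁ (f i)) (ih : hub_C X n f) :
    hub_C X (n + 1) f := by
  obtain ⟨R, F, hR, hF, hE⟩ := ih
  obtain ⟨hp, hH⟩ := hX (n + 1) (by omega) le_rfl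
  have hpn : X.p (n + 1) ≤ n := by omega
  obtain ⟨Rs, K, s1, s2, s3, s4⟩ := stage (X.T (n + 1)) (X.T (X.p (n + 1))) (X.E (n + 1)) hH hc₁ hc₁1
  have hb : ∀ i, |(f i).b (n + 1)| ≤ Real.pi - c₁ := fun i => (hf i).ang (n + 1) (by omega) le_rfl
  have hfr : ∀ i w, (f i).J (n + 1) w =
      (f i).J (X.p (n + 1)) (X.E (n + 1) (rotx ((f i).b (n + 1)) w)) :=
    fun i => (hf i).fr (n + 1) (by omega) le_rfl
  set p := X.p (n + 1) with hpd
  -- the new maps
  obtain ⟨R', hR'1, hR'2⟩ : ∃ R' : ℕ → W → W, (∀ k ≤ n, R' k = R k) ∧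
      R' (n + 1) = fun x => R p (Rs x) := by
    refine ⟨fun k => if k = n + 1 then (fun x => R p (Rs x)) else R k, fun k hk => ?_, ?_⟩
    · exact if_neg (by omega)
    · exact if_pos rfl
  obtain ⟨F', hF'1, hF'2⟩ : ∃ F' : Bool → ℝ → ℕ → W → W,
      (∀ i t, ∀ k ≤ n, F' i t k = F i (hub_cl (2 * t - 1)) k) ∧
      ∀ i t x, F' i t (n + 1) x = (f i).J p (K ((f i).b (n + 1)) (hub_cl (2 * t)) x) +
        (F i (hub_cl (2 * t - 1)) p (Rs x) - (f i).J p (Rs x)) := by
    refine ⟨fun i t k => if k = n + 1 then (fun x =>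
      (f i).J p (K ((f i).b (n + 1)) (hub_cl (2 * t)) x) +
        (F i (hub_cl (2 * t - 1)) p (Rs x) - (f i).J p (Rs x))) else F i (hub_cl (2 * t - 1)) k,
      fun i t k hk => ?_, fun i t x => ?_⟩
    · exact if_neg (by omega)
    · exact congrFun (if_pos rfl) x
  have hc2 : Continuous fun t : ℝ => hub_cl (2 * t) :=
    hub_cl_cont.comp (continuous_const.mul continuous_id)
  have hc21 : Continuous fun t : ℝ => hub_cl (2 * t - 1) :=
    hub_cl_cont.comp ((continuous_const.mul continuous_id).sub continuous_const)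
  -- values on the new triangle
  have v1 : ∀ i, ∀ t : ℝ, t ≤ 1 / 2 → ∀ x ∈ (X.T (n + 1)).carrier,
      F' i t (n + 1) x = (f i).J p (K ((f i).b (n + 1)) (hub_cl (2 * t)) x) := by
    intro i t ht x hx
    rw [hF'2, hub_cl_zero (show 2 * t - 1 ≤ 0 by linarith),
      ((hF i p hpn).2.1 (Rs x) (s1 x hx)).1, sub_self, add_zero]
  have v2 : ∀ i, ∀ t : ℝ, 1 / 2 ≤ t → ∀ x ∈ (X.T (n + 1)).carrier,
      F' i t (n + 1) x = F i (hub_cl (2 * t - 1)) p (Rs x) := by
    intro i t ht x hx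
    rw [hF'2, hub_cl_one (show 1 ≤ 2 * t by linarith), ((s3 _ (hb i)).2.1 x hx).2,
      add_sub_cancel]
  have hRs : ContinuousOn Rs (X.T (n + 1)).carrier := by
    have h1 : Continuous fun x : W => K ((f true).b (n + 1)) 1 x :=
      (s3 _ (hb true)).1.comp (continuous_const.prodMk continuous_id)
    exact h1.continuousOn.congr fun x hx => (((s3 _ (hb true)).2.1 x hx).2).symm
  refine ⟨R', F', ?_, ?_, ?_⟩
  · intro k hk
    rcases Nat.lt_or_eq_of_le hk with hk | rfl
    · rw [hR'1 k (by omega)]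
      exact hR k (by omega)
    · rw [hR'2]
      exact PA_comp s2 s1 (hR p hpn)
  · intro i k hk
    rcases Nat.lt_or_eq_of_le hk with hk | rfl
    · have hkn : k ≤ n := by omega
      obtain ⟨q1, q2, q3⟩ := hF i k hkn
      simp only [hF'1 i _ k hkn, hR'1 k hkn]
      refine ⟨?_, ?_, ?_⟩
      · exact q1.comp (f := fun p : ℝ × W => (hub_cl (2 * p.1 - 1), p.2))
          ((hc21.comp continuous_fst).prodMk continuous_snd).continuousOn
          (fun x hx => ⟨hub_cl_mem _, hx.2⟩)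
      · intro x hx
        rw [hub_cl_zero (show (2 * (0 : ℝ) - 1) ≤ 0 by norm_num),
          hub_cl_one (show 1 ≤ (2 * (1 : ℝ) - 1) by norm_num)]
        exact q2 x hx
      · refine PAp_of_two q3 q3 fun t _ => ⟨hub_cl (2 * t - 1), hub_cl_mem _, Or.inl ?_⟩
        intro x _ y _
        rfl
    · obtain ⟨q1, q2, q3⟩ := hF i p hpn
      obtain ⟨r1, r2, r3⟩ := s3 _ (hb i)
      refine ⟨?_, ?_, ?_⟩
      · simp only [hF'2]
        refine ContinuousOn.add ?_ (ContinuousOn.sub ?_ ?_)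
        · exact (((f i).J p).continuous.comp (r1.comp
            ((hc2.comp continuous_fst).prodMk continuous_snd))).continuousOn
        · refine q1.comp (f := fun p : ℝ × W => (hub_cl (2 * p.1 - 1), Rs p.2)) ?_ ?_
          · refine ContinuousOn.prodMk (hc21.comp continuous_fst).continuousOn ?_
            exact hRs.comp continuousOn_snd fun x hx => hx.2
          · exact fun x hx => ⟨hub_cl_mem _, s1 _ hx.2⟩
        · exact ((f i).J p).continuous.comp_continuousOn
            (hRs.comp continuousOn_snd fun x hx => hx.2)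
      · intro x hx
        rw [v1 i 0 (by norm_num) x hx, v2 i 1 (by norm_num) x hx, mul_zero,
          hub_cl_zero le_rfl, hub_cl_one (show 1 ≤ (2 * (1 : ℝ) - 1) by norm_num), hR'2, hfr i,
          (r2 x hx).1]
        exact ⟨rfl, (q2 _ (s1 x hx)).2⟩
      · refine PAp_of_two r3 (PAp_comp s2 s1 q3) fun t ht => ?_
        rcases le_total t (1 / 2) with h | h
        · refine ⟨hub_cl (2 * t), hub_cl_mem _, Or.inl fun x hx y hy => ?_⟩
          rw [v1 i t h x hx, v1 i t h y hy, ((f i).J p).dist_map]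
        · refine ⟨hub_cl (2 * t - 1), hub_cl_mem _, Or.inr fun x hx y hy => ?_⟩
          rw [v2 i t h x hx, v2 i t h y hy]
  · intro ε hε
    obtain ⟨c₀, hc₀, Ω, hΩ⟩ := hE (ε / 2) (half_pos hε)
    choose H hH1 hH2 hH3 hH4 using hΩ
    obtain ⟨η, hη, hu⟩ : ∃ η > (0 : ℝ), ∀ i, ∀ t ∈ Icc (0 : ℝ) 1, ∀ x ∈ (X.T p).carrier,
        ∀ y ∈ (X.T p).carrier, dist x y ≤ η → dist (F i t p x) (F i t p y) ≤ ε / 2 := by
      obtain ⟨η1, hη1, h1⟩ := hub_unif (F := fun t => F true t p) (hF true p hpn).1 (half_pos hε)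
      obtain ⟨η2, hη2, h2⟩ := hub_unif (F := fun t => F false t p) (hF false p hpn).1 (half_pos hε)
      refine ⟨min η1 η2, lt_min hη1 hη2, fun i t ht x hx y hy hxy => ?_⟩
      cases i
      · exact h2 t ht x hx y hy (hxy.trans (min_le_right _ _))
      · exact h1 t ht x hx y hy (hxy.trans (min_le_left _ _))
    obtain ⟨cs, hcs, Ωs, hΩs, hs⟩ := s4 (min η ε) (lt_min hη hε) c₀ hc₀
    choose Hs hHs1 hHs2 hHs3 hHs4 hHs5 using fun i => hs _ (hb i)
    obtain ⟨Ω', hΩ'1, hΩ'2⟩ : ∃ Ω' : ℕ → W → W, (∀ k ≤ n, Ω' k = Ω k) ∧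
        Ω' (n + 1) = fun x => Ω p (Ωs x) := by
      refine ⟨fun k => if k = n + 1 then (fun x => Ω p (Ωs x)) else Ω k, fun k hk => ?_, ?_⟩
      · exact if_neg (by omega)
      · exact if_pos rfl
    have hcp : 0 < min c₀ (min cs (c₁ / 2)) := lt_min hc₀ (lt_min hcs (half_pos hc₁))
    refine ⟨min c₀ (min cs (c₁ / 2)), hcp, Ω', fun i => ?_⟩
    refine ⟨fun t w => H i (hub_cl (2 * t - 1))
      ((f i).J p (Hs i (hub_cl (2 * t)) (((f i).J p).symm w))), ?_, ?_, ?_, ?_⟩
    · refine (hH1 i).comp ((hc21.comp continuous_fst).prodMk ?_)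
      refine ((f i).J p).continuous.comp ((hHs1 i).comp ((hc2.comp continuous_fst).prodMk ?_))
      exact ((f i).J p).symm.continuous.comp continuous_snd
    · intro t _
      exact (hH2 i _ (hub_cl_mem _)).comp (((f i).J p).injective.comp
        ((hHs2 i _ (hub_cl_mem _)).comp ((f i).J p).symm.injective))
    · intro w
      show H i (hub_cl (2 * 0 - 1)) ((f i).J p (Hs i (hub_cl (2 * 0)) (((f i).J p).symm w))) = w
      rw [hub_cl_zero (show (2 * (0 : ℝ) - 1) ≤ 0 by norm_num), mul_zero, hub_cl_zero le_rfl,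
        hHs3 i, hH3 i, AffineIsometryEquiv.apply_symm_apply]
    · intro k hk w hw
      rcases Nat.lt_or_eq_of_le hk with hk | rfl
      · have hkn : k ≤ n := by omega
        obtain ⟨g1, g2⟩ := hub_fix (cs := cs) (f i) (hf i)
          ((min_le_right _ _).trans (min_le_right _ _))
          ((min_le_right _ _).trans (min_le_left _ _)) hkn hw
        have hfix : ∀ t : ℝ, Hs i (hub_cl t) (((f i).J p).symm ((f i).J k w)) =
            ((f i).J p).symm ((f i).J k w) := fun t => hHs5 i _ g1 g2 _ (hub_cl_mem _)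
        obtain ⟨q1, q2⟩ := hH4 i k hkn w (hub_lens_mono _ (min_le_left _ _) hw)
        refine ⟨fun t _ => ?_, ?_⟩
        · show dist (H i (hub_cl (2 * t - 1)) ((f i).J p (Hs i (hub_cl (2 * t))
            (((f i).J p).symm ((f i).J k w))))) (F' i t k (proj w)) ≤ ε
          rw [hfix, AffineIsometryEquiv.apply_symm_apply, hF'1 i t k hkn]
          have := q1 _ (hub_cl_mem (2 * t - 1))
          linarith
        · show H i (hub_cl (2 * 1 - 1)) ((f i).J p (Hs i (hub_cl (2 * 1))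
            (((f i).J p).symm ((f i).J k w)))) = (f i).J 0 (Ω' k w)
          rw [hfix, AffineIsometryEquiv.apply_symm_apply, hΩ'1 k hkn,
            hub_cl_one (show 1 ≤ (2 * (1 : ℝ) - 1) by norm_num)]
          exact q2
      · have hw' : w ∈ (X.T (n + 1)).lens cs :=
          hub_lens_mono _ ((min_le_right _ _).trans (min_le_left _ _)) hw
        have hpw : proj w ∈ (X.T (n + 1)).carrier := hub_proj_mem _ hw
        have hsym : ((f i).J p).symm ((f i).J (n + 1) w) =
            X.E (n + 1) (rotx ((f i).b (n + 1)) w) := by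
          rw [hfr i, AffineIsometryEquiv.symm_apply_apply]
        obtain ⟨t1, t2⟩ := hHs4 i w hw'
        obtain ⟨q1, q2⟩ := hH4 i p hpn (Ωs w) (hΩs w hw')
        refine ⟨fun t ht => ?_, ?_⟩
        · show dist (H i (hub_cl (2 * t - 1)) ((f i).J p (Hs i (hub_cl (2 * t))
            (((f i).J p).symm ((f i).J (n + 1) w))))) (F' i t (n + 1) (proj w)) ≤ ε
          rw [hsym]
          rcases le_total t (1 / 2) with h | h
          · rw [v1 i t h _ hpw, hub_cl_zero (show 2 * t - 1 ≤ 0 by linarith), hH3 i,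
              ((f i).J p).dist_map]
            exact (t1 _ (hub_cl_mem _)).trans (min_le_right _ _)
          · rw [v2 i t h _ hpw, hub_cl_one (show 1 ≤ 2 * t by linarith), t2]
            have e1 := q1 _ (hub_cl_mem (2 * t - 1))
            have e2 : dist (proj (Ωs w)) (Rs (proj w)) ≤ η := by
              refine (hub_proj_lip _ _ (s1 _ hpw).1).trans ?_
              have e3 := t1 1 ⟨zero_le_one, le_rfl⟩
              rw [t2, ((s3 _ (hb i)).2.1 _ hpw).2] at e3
              exact e3.trans (min_le_left _ _)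
            have e4 := hu i _ (hub_cl_mem (2 * t - 1)) _ (hub_proj_mem _ (hΩs w hw')) _
              (s1 _ hpw) e2
            have e5 := dist_triangle (H i (hub_cl (2 * t - 1)) ((f i).J p (Ωs w)))
              (F i (hub_cl (2 * t - 1)) p (proj (Ωs w))) (F i (hub_cl (2 * t - 1)) p (Rs (proj w)))
            linarith
        · show H i (hub_cl (2 * 1 - 1)) ((f i).J p (Hs i (hub_cl (2 * 1))
            (((f i).J p).symm ((f i).J (n + 1) w)))) = (f i).J 0 (Ω' (n + 1) w)
          rw [hsym, hub_cl_one (show 1 ≤ (2 * (1 : ℝ) - 1) by norm_num),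
            hub_cl_one (show 1 ≤ (2 * (1 : ℝ)) by norm_num), t2, hΩ'2]
          exact q2

theorem hub (X : Sys) (n : ℕ) (hX : X.Ok n) {c₁ : ℝ} (hc₁ : 0 < c₁) (hc₁1 : c₁ ≤ 1)
    (f : Bool → Fr) (hf : ∀ i, Clear X n c₁ (f i)) :
    ∃ (R : ℕ → W → W) (F : Bool → ℝ → ℕ → W → W),
      (∀ k ≤ n, PA (X.T k).carrier (R k)) ∧
      (∀ i, ∀ k ≤ n,
        ContinuousOn (fun p : ℝ × W => F i p.1 k p.2) (Icc (0 : ℝ) 1 ×ˢ (X.T k).carrier) ∧
        (∀ x ∈ (X.T k).carrier,
          F i 0 k x = (f i).J k x ∧ F i 1 k x = (f i).J 0 (R k x)) ∧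
        PAp (X.T k).carrier (fun t => F i t k)) ∧
      ∀ ε > (0 : ℝ), ∃ c > (0 : ℝ), ∃ Ω : ℕ → W → W, ∀ i, ∃ H : ℝ → W → W,
        Continuous (fun p : ℝ × W => H p.1 p.2) ∧
        (∀ t ∈ Icc (0 : ℝ) 1, Function.Injective (H t)) ∧ (∀ w, H 0 w = w) ∧
        ∀ k ≤ n, ∀ w ∈ (X.T k).lens c,
          (∀ t ∈ Icc (0 : ℝ) 1, dist (H t ((f i).J k w)) (F i t k (proj w)) ≤ ε) ∧
          H 1 ((f i).J k w) = (f i).J 0 (Ω k w) := by
  have main : hub_C X n f := by
    induction n with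
    | zero => exact hub_zero X f
    | succ n ih =>
      exact hub_succ X n hX hc₁ hc₁1 f hf (ih (hub_ok hX) fun i => hub_clear (hf i))
  exact main

end Pool.Agent.H334
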