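import Pool.Agent.Helper334_Fold.Defs2
import Pool.Agent.Helper334_Fold.P_hub
import Pool.Agent.Helper334_Fold.P_PA_comp
import Pool.Agent.Helper334_Fold.P_PAp_comp
import Pool.Agent.Helper334_Fold.P_PA_isom
import Pool.Agent.Helper334_Fold.P_PAp_of_PA
import Pool.Agent.Helper334_Fold.P_PAp_of_two

set_option autoImplicit false

open Set


namespace Pool.Agent.H334






/-- gluing of three families -/
noncomputable def main_internal_glue (A M B : ℝ → W → W) (t : ℝ) (x : W) : W :=
  if t ≤ 1 / 3 then A (3 * t) x else if t ≤ 2 / 3 then M (3 * t - 1) x else B (3 - 3 * t) x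

theorem main_internal_glue_cont {C : Set W} {A M B : ℝ → W → W}
    (hA : ContinuousOn (fun p : ℝ × W => A p.1 p.2) (Icc (0 : ℝ) 1 ×ˢ C))
    (hM : ContinuousOn (fun p : ℝ × W => M p.1 p.2) (Icc (0 : ℝ) 1 ×ˢ C))
    (hB : ContinuousOn (fun p : ℝ × W => B p.1 p.2) (Icc (0 : ℝ) 1 ×ˢ C))
    (h1 : ∀ x ∈ C, A 1 x = M 0 x) (h2 : ∀ x ∈ C, M 1 x = B 1 x) :
    ContinuousOn (fun p : ℝ × W => main_internal_glue A M B p.1 p.2) (Icc (0 : ℝ) 1 ×ˢ C) := by
  unfold main_internal_glue
  apply ContinuousOn.if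
  · rintro ⟨t, x⟩ ⟨⟨ht, hx⟩, hf⟩
    have hf' := frontier_le_subset_eq (f := fun p : ℝ × W => p.1) (g := fun _ : ℝ × W => (1 : ℝ) / 3)
      continuous_fst continuous_const hf
    simp only [Set.mem_ofPred_eq] at hf' ht hx
    subst hf'
    rw [if_pos (by norm_num)]
    have e1 : (3 : ℝ) * (1 / 3) = 1 := by norm_num
    have e2 : (3 : ℝ) * (1 / 3) - 1 = 0 := by norm_num
    simp only [e1, e2]
    norm_num
    exact h1 x hx
  · have hcl : closure {p : ℝ × W | p.1 ≤ 1 / 3} ⊆ {p : ℝ × W | p.1 ≤ 1 / 3} :=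
      (isClosed_le continuous_fst continuous_const).closure_subset
    refine hA.comp (f := fun p : ℝ × W => (3 * p.1, p.2)) (by fun_prop) ?_
    rintro ⟨t, x⟩ ⟨⟨ht, hx⟩, hf⟩
    have hf' := hcl hf
    simp only [Set.mem_ofPred_eq, Set.mem_Icc] at hf' ht hx
    exact ⟨⟨by simp only; linarith [ht.1], by simp only; linarith⟩, hx⟩
  · apply ContinuousOn.if
    · rintro ⟨t, x⟩ ⟨⟨⟨ht, hx⟩, _⟩, hf⟩
      have hf' := frontier_le_subset_eq (f := fun p : ℝ × W => p.1) (g := fun _ : ℝ × W => (2 : ℝ) / 3)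
        continuous_fst continuous_const hf
      simp only [Set.mem_ofPred_eq] at hf' ht hx
      subst hf'
      have e1 : (3 : ℝ) * (2 / 3) - 1 = 1 := by norm_num
      have e2 : (3 : ℝ) - 3 * (2 / 3) = 1 := by norm_num
      simp only [e1, e2]
      exact h2 x hx
    · have hcl : closure {p : ℝ × W | p.1 ≤ 2 / 3} ⊆ {p : ℝ × W | p.1 ≤ 2 / 3} :=
        (isClosed_le continuous_fst continuous_const).closure_subset
      have hcl2 : closure {p : ℝ × W | ¬ p.1 ≤ 1 / 3} ⊆ {p : ℝ × W | 1 / 3 ≤ p.1} := by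
        simp only [not_le]
        exact closure_lt_subset_le continuous_const continuous_fst
      refine hM.comp (f := fun p : ℝ × W => (3 * p.1 - 1, p.2)) (by fun_prop) ?_
      rintro ⟨t, x⟩ ⟨⟨⟨ht, hx⟩, hg⟩, hf⟩
      have hf' := hcl hf
      have hg' := hcl2 hg
      simp only [Set.mem_ofPred_eq, Set.mem_Icc] at hf' hg' ht hx
      exact ⟨⟨by simp only; linarith [ht.1], by simp only; linarith⟩, hx⟩
    · have hcl2 : closure {p : ℝ × W | ¬ p.1 ≤ 2 / 3} ⊆ {p : ℝ × W | 2 / 3 ≤ p.1} := by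
        simp only [not_le]
        exact closure_lt_subset_le continuous_const continuous_fst
      refine hB.comp (f := fun p : ℝ × W => (3 - 3 * p.1, p.2)) (by fun_prop) ?_
      rintro ⟨t, x⟩ ⟨⟨⟨ht, hx⟩, _⟩, hf⟩
      have hf' := hcl2 hf
      simp only [Set.mem_ofPred_eq, Set.mem_Icc] at hf' ht hx
      exact ⟨⟨by simp only; linarith [ht.2], by simp only; linarith⟩, hx⟩

theorem main_internal_glue_zero (A M B : ℝ → W → W) (x : W) : main_internal_glue A M B 0 x = A 0 x := by
  unfold main_internal_glue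
  rw [if_pos (by norm_num), mul_zero]

theorem main_internal_glue_one (A M B : ℝ → W → W) (x : W) : main_internal_glue A M B 1 x = B 0 x := by
  unfold main_internal_glue
  rw [if_neg (by norm_num), if_neg (by norm_num)]
  congr 1
  norm_num

theorem main_internal_cases {t : ℝ} (ht : t ∈ Icc (0 : ℝ) 1) :
    (t ≤ 1 / 3 ∧ 3 * t ∈ Icc (0 : ℝ) 1) ∨ (¬ t ≤ 1 / 3 ∧ t ≤ 2 / 3 ∧ 3 * t - 1 ∈ Icc (0 : ℝ) 1) ∨
      (¬ t ≤ 1 / 3 ∧ ¬ t ≤ 2 / 3 ∧ 3 - 3 * t ∈ Icc (0 : ℝ) 1) := by
  obtain ⟨h0, h1'⟩ := ht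
  by_cases ha : t ≤ 1 / 3
  · exact Or.inl ⟨ha, ⟨by linarith, by linarith⟩⟩
  · by_cases hb : t ≤ 2 / 3
    · exact Or.inr (Or.inl ⟨ha, hb, ⟨by linarith [not_le.1 ha], by linarith⟩⟩)
    · exact Or.inr (Or.inr ⟨ha, hb, ⟨by linarith, by linarith [not_le.1 hb]⟩⟩)

/- TARGET. Plain-words proof:
From hub: R, F_i. Define F t k x = F_false (3t) k x for t <= 1/3, θ(3t-1) (R k x) for 1/3 <= t <= 2/3, F_true (3-3t) k x for t >= 2/3 (use clamped times). They match at 1/3:
F_false 1 k x = J^false_0 (R k x) = θ 0 (R k x), at 2/3: θ 1 (R k x) = J^true_0 (R k x) = F_true 1 k x (for x in the carrier). R k is continuous on the carrier (F_i 1 k x = (f i).J 0 (R k x)).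
PAp: PAp_of_two twice; the middle part is isometric to R k, PAp_of_PA. 
ε-part: hub with ε: c, Ω, H_i. G t k x = H_false (3t) (J^false_k x), then θ(3t-1) (Ω k x), then H_true (3-3t) (J^true_k x). For x in the carrier: x in lens c (im = 0, m >= 0), proj x = x.
Match: H_i 1 (J^i_k x) = J^i_0 (Ω k x). Ω k x = (J^i_0)⁻¹ (H_i 1 (J^i_k x)) is continuous in x on the carrier. Closeness: first and third parts from hub; middle: dist (Ω k x) (R k x) =
dist (H_i 1 (J^i_k x)) (F_i 1 k x) <= ε.
Last item: G t k x = G t j u iff J^false_k x = J^false_j u: H_i s and θ s are injective, so in the three parts the condition is J^false_k x = J^false_j u, Ω k x = Ω j u, J^true_k x = J^true_j u;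
and J^i_k x = J^i_j u iff H_i 1 (J^i_k x) = H_i 1 (J^i_j u) iff Ω k x = Ω j u, for both i.
-/
theorem main_internal (X : Sys) (n : ℕ) (hX : X.Ok n) {c₁ : ℝ} (hc₁ : 0 < c₁)
    (hc₁1 : c₁ ≤ 1) (f : Bool → Fr) (hf : ∀ i, Clear X n c₁ (f i))
    (θ : ℝ → (W ≃ᵃⁱ[ℝ] W)) (hθ : Continuous fun p : ℝ × W => θ p.1 p.2)
    (hθ0 : ∀ w, θ 0 w = (f false).J 0 w) (hθ1 : ∀ w, θ 1 w = (f true).J 0 w) :
    ∃ F : ℝ → ℕ → W → W,
      (∀ k ≤ n,
        ContinuousOn (fun p : ℝ × W => F p.1 k p.2) (Icc (0 : ℝ) 1 ×ˢ (X.T k).carrier) ∧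
        (∀ x ∈ (X.T k).carrier, F 0 k x = (f false).J k x ∧ F 1 k x = (f true).J k x) ∧
        PAp (X.T k).carrier (fun t => F t k)) ∧
      ∀ ε > (0 : ℝ), ∃ G : ℝ → ℕ → W → W,
        (∀ k ≤ n,
          ContinuousOn (fun p : ℝ × W => G p.1 k p.2) (Icc (0 : ℝ) 1 ×ˢ (X.T k).carrier) ∧
          (∀ x ∈ (X.T k).carrier,
            G 0 k x = (f false).J k x ∧ G 1 k x = (f true).J k x)) ∧
        (∀ t ∈ Icc (0 : ℝ) 1, ∀ k ≤ n, ∀ x ∈ (X.T k).carrier,
          dist (G t k x) (F t k x) ≤ ε) ∧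
        (∀ t ∈ Icc (0 : ℝ) 1, ∀ k ≤ n, ∀ j ≤ n, ∀ x ∈ (X.T k).carrier,
          ∀ u ∈ (X.T j).carrier, G t k x = G t j u ↔ (f false).J k x = (f false).J j u) := by
  obtain ⟨R, Fh, hR, hF, hε⟩ := hub X n hX hc₁ hc₁1 f hf
  have hFc : ∀ i k, k ≤ n → ContinuousOn (fun p : ℝ × W => Fh i p.1 k p.2)
      (Icc (0 : ℝ) 1 ×ˢ (X.T k).carrier) := fun i k hk => (hF i k hk).1
  have hF0 : ∀ i k, k ≤ n → ∀ x ∈ (X.T k).carrier, Fh i 0 k x = (f i).J k x :=
    fun i k hk x hx => ((hF i k hk).2.1 x hx).1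
  have hF1 : ∀ i k, k ≤ n → ∀ x ∈ (X.T k).carrier, Fh i 1 k x = (f i).J 0 (R k x) :=
    fun i k hk x hx => ((hF i k hk).2.1 x hx).2
  have hRc : ∀ k, k ≤ n → ContinuousOn (R k) (X.T k).carrier := by
    intro k hk
    have h1 : ContinuousOn (fun x => Fh false 1 k x) (X.T k).carrier := by
      refine (hFc false k hk).comp (f := fun x : W => ((1 : ℝ), x)) (by fun_prop) ?_
      intro x hx
      exact ⟨⟨zero_le_one, le_rfl⟩, hx⟩
    have h2 : ContinuousOn (fun x => ((f false).J 0).symm (Fh false 1 k x)) (X.T k).carrier :=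
      ((f false).J 0).symm.continuous.comp_continuousOn h1
    refine h2.congr ?_
    intro x hx
    simp only
    rw [hF1 false k hk x hx, AffineIsometryEquiv.symm_apply_apply]
  refine ⟨fun t k x => main_internal_glue (fun s => Fh false s k) (fun s y => θ s (R k y))
    (fun s => Fh true s k) t x, ?_, ?_⟩
  · intro k hk
    refine ⟨?_, ?_, ?_⟩
    · apply main_internal_glue_cont (hFc false k hk) _ (hFc true k hk)
      · intro x hx
        rw [hF1 false k hk x hx, hθ0]
      · intro x hx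
        rw [hF1 true k hk x hx, hθ1]
      · refine hθ.comp_continuousOn (f := fun p : ℝ × W => (p.1, R k p.2)) (continuousOn_fst.prodMk ?_)
        refine (hRc k hk).comp continuousOn_snd ?_
        rintro ⟨t, x⟩ ⟨_, hx⟩
        exact hx
    · intro x hx
      dsimp only
      rw [main_internal_glue_zero, main_internal_glue_one]
      exact ⟨hF0 false k hk x hx, hF0 true k hk x hx⟩
    · have hP1 : PAp (X.T k).carrier (fun t => Fh false t k) := (hF false k hk).2.2
      have hP2 : PAp (X.T k).carrier (fun t => Fh true t k) := (hF true k hk).2.2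
      have hP3 : PAp (X.T k).carrier (fun _ => R k) := PAp_of_PA (hR k hk)
      have hP4 : PAp (X.T k).carrier (fun t => if t ≤ 1 / 2 then Fh false (2 * t) k else R k) := by
        refine PAp_of_two hP1 hP3 ?_
        rintro t ⟨ht0, ht1⟩
        by_cases h : t ≤ 1 / 2
        · refine ⟨2 * t, ⟨by linarith, by linarith⟩, Or.inl ?_⟩
          intro x _ y _
          rw [if_pos h]
        · refine ⟨t, ⟨ht0, ht1⟩, Or.inr ?_⟩
          intro x _ y _
          rw [if_neg h]
      refine PAp_of_two hP4 hP2 ?_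
      intro t ht
      dsimp only
      rcases main_internal_cases ht with ⟨h1, h2, h3⟩ | ⟨h1, h1', h2, h3⟩ | ⟨h1, h1', h2, h3⟩
      · refine ⟨3 * t / 2, ⟨by linarith, by linarith⟩, Or.inl ?_⟩
        intro x _ y _
        unfold main_internal_glue
        rw [if_pos h1, if_pos h1, if_pos (by linarith)]
        have e : 2 * (3 * t / 2) = 3 * t := by ring
        rw [e]
      · refine ⟨1, ⟨zero_le_one, le_rfl⟩, Or.inl ?_⟩
        intro x _ y _
        unfold main_internal_glue
        rw [if_neg h1, if_neg h1, if_pos h1', if_pos h1', if_neg (by norm_num), AffineIsometryEquiv.dist_map]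
      · refine ⟨3 - 3 * t, ⟨h2, h3⟩, Or.inr ?_⟩
        intro x _ y _
        unfold main_internal_glue
        rw [if_neg h1, if_neg h1, if_neg h1', if_neg h1']
  · intro ε hεpos
    obtain ⟨c, hc, Ω, hΩ⟩ := hε ε hεpos
    choose H hHc hHi hH0 hHk using hΩ
    have hlens : ∀ k, ∀ x ∈ (X.T k).carrier, x ∈ (X.T k).lens c := by
      rintro k x ⟨hx1, hx2⟩
      refine ⟨hx2, ?_⟩
      rw [hx1, abs_zero]
      positivity
    have hproj : ∀ k, ∀ x ∈ (X.T k).carrier, proj x = x := by
      rintro k x ⟨hx1, hx2⟩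
      unfold proj
      apply W_ext
      · rfl
      · rw [pt_snd]
        apply Complex.ext
        · rfl
        · rw [hx1]
          rfl
    have hcl : ∀ i, ∀ k ≤ n, ∀ x ∈ (X.T k).carrier, ∀ t ∈ Icc (0 : ℝ) 1,
        dist (H i t ((f i).J k x)) (Fh i t k x) ≤ ε := by
      intro i k hk x hx t ht
      have := (hHk i k hk x (hlens k x hx)).1 t ht
      rwa [hproj k x hx] at this
    have hend : ∀ i, ∀ k ≤ n, ∀ x ∈ (X.T k).carrier, H i 1 ((f i).J k x) = (f i).J 0 (Ω k x) := by
      intro i k hk x hx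
      exact (hHk i k hk x (hlens k x hx)).2
    have hΩc : ∀ k ≤ n, ContinuousOn (Ω k) (X.T k).carrier := by
      intro k hk
      have h2 : ContinuousOn (fun x => ((f false).J 0).symm (H false 1 ((f false).J k x))) (X.T k).carrier := by
        apply Continuous.continuousOn
        apply ((f false).J 0).symm.continuous.comp
        exact (hHc false).comp (continuous_const.prodMk ((f false).J k).continuous)
      refine h2.congr ?_
      intro x hx
      simp only
      rw [hend false k hk x hx, AffineIsometryEquiv.symm_apply_apply]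
    have hmid : ∀ i, ∀ k ≤ n, ∀ j ≤ n, ∀ x ∈ (X.T k).carrier, ∀ u ∈ (X.T j).carrier,
        (Ω k x = Ω j u ↔ (f i).J k x = (f i).J j u) := by
      intro i k hk j hj x hx u hu
      constructor
      · intro h
        apply hHi i 1 ⟨zero_le_one, le_rfl⟩
        rw [hend i k hk x hx, hend i j hj u hu, h]
      · intro h
        apply ((f i).J 0).injective
        rw [← hend i k hk x hx, ← hend i j hj u hu, h]
    refine ⟨fun t k x => main_internal_glue (fun s y => H false s ((f false).J k y)) (fun s y => θ s (Ω k y))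
      (fun s y => H true s ((f true).J k y)) t x, ?_, ?_, ?_⟩
    · intro k hk
      refine ⟨?_, ?_⟩
      · apply main_internal_glue_cont
        · apply Continuous.continuousOn
          exact (hHc false).comp (continuous_fst.prodMk (((f false).J k).continuous.comp continuous_snd))
        · refine hθ.comp_continuousOn (f := fun p : ℝ × W => (p.1, Ω k p.2)) (continuousOn_fst.prodMk ?_)
          refine (hΩc k hk).comp continuousOn_snd ?_
          rintro ⟨t, x⟩ ⟨_, hx⟩
          exact hx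
        · apply Continuous.continuousOn
          exact (hHc true).comp (continuous_fst.prodMk (((f true).J k).continuous.comp continuous_snd))
        · intro x hx
          rw [hend false k hk x hx, hθ0]
        · intro x hx
          rw [hend true k hk x hx, hθ1]
      · intro x hx
        dsimp only
        rw [main_internal_glue_zero, main_internal_glue_one]
        exact ⟨hH0 false _, hH0 true _⟩
    · intro t ht k hk x hx
      dsimp only
      rcases main_internal_cases ht with ⟨h1, h2⟩ | ⟨h1, h1', h2⟩ | ⟨h1, h1', h2⟩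
      · unfold main_internal_glue
        rw [if_pos h1, if_pos h1]
        exact hcl false k hk x hx _ h2
      · unfold main_internal_glue
        rw [if_neg h1, if_neg h1, if_pos h1', if_pos h1', AffineIsometryEquiv.dist_map,
          ← AffineIsometryEquiv.dist_map ((f false).J 0), ← hend false k hk x hx, ← hF1 false k hk x hx]
        exact hcl false k hk x hx 1 ⟨zero_le_one, le_rfl⟩
      · unfold main_internal_glue
        rw [if_neg h1, if_neg h1, if_neg h1', if_neg h1']
        exact hcl true k hk x hx _ h2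
    · intro t ht k hk j hj x hx u hu
      dsimp only
      rcases main_internal_cases ht with ⟨h1, h2⟩ | ⟨h1, h1', h2⟩ | ⟨h1, h1', h2⟩
      · unfold main_internal_glue
        rw [if_pos h1, if_pos h1]
        exact (hHi false _ h2).eq_iff
      · unfold main_internal_glue
        rw [if_neg h1, if_neg h1, if_pos h1', if_pos h1']
        rw [← hmid false k hk j hj x hx u hu]
        exact (θ (3 * t - 1)).injective.eq_iff
      · unfold main_internal_glue
        rw [if_neg h1, if_neg h1, if_neg h1', if_neg h1']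
        rw [← hmid false k hk j hj x hx u hu, hmid true k hk j hj x hx u hu]
        exact (hHi true _ h2).eq_iff

end Pool.Agent.H334
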