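import Pool.Agent.Helper334_Fold.Defs2

set_option autoImplicit false

open Set


namespace Pool.Agent.H334


namespace K5

/-- the reflection with normal vector `v` -/
noncomputable def R (v : W) : W ≃ₗᵢ[ℝ] W := (ℝ ∙ v)ᗮ.reflection

theorem R_apply (v x : W) : R v x = x - (2 * (inner ℝ v x / ‖v‖ ^ 2)) • v := by
  unfold R
  rw [Submodule.reflection_orthogonal_apply, Submodule.reflection_singleton_apply]
  simp only [RCLike.ofReal_real_eq_id, id]
  rw [← Nat.cast_smul_eq_nsmul ℝ, smul_smul]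
  simp only [Nat.cast_ofNat]
  abel

theorem mul_app (A B : W ≃ₗᵢ[ℝ] W) (x : W) : (A * B) x = A (B x) := rfl

theorem R_zero : R 0 = 1 := by
  ext x
  rw [R_apply]
  simp

theorem R_mul_self (v : W) : R v * R v = 1 := by
  ext x
  show R v (R v x) = x
  exact Submodule.reflection_reflection _ _

/-- `A` is joined to the identity -/
def Jn (A : W ≃ₗᵢ[ℝ] W) : Prop :=
  ∃ Φ : ℝ → (W ≃ₗᵢ[ℝ] W), (Continuous fun p : ℝ × W => Φ p.1 p.2) ∧ Φ 0 = 1 ∧ Φ 1 = A

theorem Jn_one : Jn 1 := ⟨fun _ => 1, by simpa using continuous_snd, rfl, rfl⟩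

theorem Jn_mul {A B : W ≃ₗᵢ[ℝ] W} (hA : Jn A) (hB : Jn B) : Jn (A * B) := by
  obtain ⟨Φ, h1, h2, h3⟩ := hA
  obtain ⟨Ψ, g1, g2, g3⟩ := hB
  refine ⟨fun t => Φ t * Ψ t, ?_, by show Φ 0 * Ψ 0 = 1; rw [h2, g2, one_mul],
    by show Φ 1 * Ψ 1 = _; rw [h3, g3]⟩
  have : (fun p : ℝ × W => (Φ p.1 * Ψ p.1) p.2) =
    (fun p : ℝ × W => Φ p.1 p.2) ∘ (fun p : ℝ × W => (p.1, Ψ p.1 p.2)) := rfl
  rw [this]
  exact h1.comp (continuous_fst.prodMk g1)

theorem Jn_conj {A : W ≃ₗᵢ[ℝ] W} (B : W ≃ₗᵢ[ℝ] W) (hA : Jn A) : Jn (B * A * B⁻¹) := by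
  obtain ⟨Φ, h1, h2, h3⟩ := hA
  refine ⟨fun t => B * Φ t * B⁻¹, ?_, by show B * Φ 0 * B⁻¹ = 1; rw [h2]; group,
    by show B * Φ 1 * B⁻¹ = _; rw [h3]⟩
  have : (fun p : ℝ × W => (B * Φ p.1 * B⁻¹) p.2) =
    B ∘ (fun p : ℝ × W => Φ p.1 p.2) ∘ (fun p : ℝ × W => (p.1, (B⁻¹ : W ≃ₗᵢ[ℝ] W) p.2)) := rfl
  rw [this]
  exact B.continuous.comp (h1.comp (continuous_fst.prodMk
    ((B⁻¹ : W ≃ₗᵢ[ℝ] W).continuous.comp continuous_snd)))

theorem one_lt_rank : 1 < Module.rank ℝ W := by
  have e : Module.rank ℝ W = Module.rank ℝ (ℝ × ℂ) :=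
    (WithLp.linearEquiv 2 ℝ (ℝ × ℂ)).rank_eq
  rw [e, rank_prod']
  simp
  norm_num

theorem Jn_RR {u v : W} (hu : u ≠ 0) (hv : v ≠ 0) : Jn (R u * R v) := by
  obtain ⟨γ, hγ⟩ := (isPathConnected_compl_singleton_of_one_lt_rank one_lt_rank
    (0 : W)).joinedIn v hv u hu
  have hne : ∀ t, γ.extend t ≠ 0 := by
    intro t
    have : γ.extend t ∈ Set.range γ := by
      rw [← Path.extend_range]
      exact ⟨t, rfl⟩
    obtain ⟨s, hs⟩ := this
    rw [← hs]
    exact hγ s
  refine ⟨fun t => R (γ.extend t) * R v, ?_, ?_, ?_⟩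
  · have : (fun p : ℝ × W => (R (γ.extend p.1) * R v) p.2) = fun p : ℝ × W =>
      R v p.2 - (2 * (inner ℝ (γ.extend p.1) (R v p.2) / ‖γ.extend p.1‖ ^ 2)) • γ.extend p.1 := by
      funext p
      rw [mul_app, R_apply (γ.extend p.1)]
    rw [this]
    have c1 : Continuous fun p : ℝ × W => γ.extend p.1 := γ.continuous_extend.comp continuous_fst
    have c2 : Continuous fun p : ℝ × W => R v p.2 := (R v).continuous.comp continuous_snd
    refine c2.sub ((continuous_const.mul ((c1.inner c2).div (c1.norm.pow 2) ?_)).smul c1)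
    intro p
    exact pow_ne_zero _ (norm_ne_zero_iff.2 (hne _))
  · simp only [Path.extend_zero]
    exact R_mul_self v
  · simp only [Path.extend_one]

theorem Jn_list (e : W) (he : e ≠ 0) (l : List W) :
    Jn (l.map R).prod ∨ Jn ((l.map R).prod * R e) := by
  induction l with
  | nil => exact Or.inl (by simpa using Jn_one)
  | cons v l ih =>
    rw [List.map_cons, List.prod_cons]
    by_cases hv : v = 0
    · rw [hv, R_zero, one_mul]; exact ih
    · have inv : ∀ w : W, (R w)⁻¹ = R w := fun w => inv_eq_of_mul_eq_one_left (R_mul_self w)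
      rcases ih with h | h
      · right
        have := Jn_mul (Jn_conj (R v) h) (Jn_RR hv he)
        rw [inv v, mul_assoc (R v * (List.map R l).prod), ← mul_assoc (R v) (R v), R_mul_self,
          one_mul] at this
        exact this
      · left
        have := Jn_mul (Jn_conj (R v) h) (Jn_RR hv he)
        rw [inv v, mul_assoc (R v * ((List.map R l).prod * R e)), ← mul_assoc (R v) (R v),
          R_mul_self, one_mul, mul_assoc, mul_assoc, R_mul_self, mul_one] at this
        exact this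

theorem finrank_W_rigid_path : Module.Finite ℝ W := inferInstance

theorem R_flip (w : W) : R (pt 0 Complex.I) w = flip w := by
  rw [R_apply]
  have h1 : inner ℝ (pt 0 Complex.I) w = w.snd.im := by
    rw [WithLp.prod_inner_apply]
    simp [pt, Complex.inner]
  have h2 : ‖pt 0 Complex.I‖ ^ 2 = 1 := by
    rw [WithLp.prod_norm_sq_eq_of_L2]
    simp [pt]
  rw [h1, h2, div_one]
  unfold flip
  refine W_ext ?_ ?_
  · simp [pt]
  · apply Complex.ext
    · simp [pt]
    · simp [pt]; ring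

theorem pt_ne : pt 0 Complex.I ≠ 0 := by
  intro h
  have := congrArg (fun w : W => w.snd) h
  simp [pt] at this

end K5

open K5 in
/- TARGET. Plain-words proof:
Let A₀, A₁ be the linear parts (linear isometry equivs of W, dim 3). It suffices to find a continuous path of linear isometries from the identity to B := A₀⁻¹ A₁ or to B ∘ flip (flip is a linear isometry; J₁ ∘ flip has linear part A₁ flip);
translations are interpolated linearly: θ t w = A₀ (Φ t (w)) + ((1-t) J₀ 0 + t J₁ 0).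
Let det B = ±1 and choose C = B or B ∘ flip with det C = 1 (or: an even number of reflections). By Cartan-Dieudonné (LinearIsometryEquiv.reflections_generate_dim) B is a product of at most 3
reflections in hyperplanes (Submodule.reflection of (ℝ ∙ v)ᗮ); the identity reflection v = 0 can be dropped or treated as the identity. B or B ∘ flip is then a product of an even number of such reflections (flip is the reflection for v = pt 0 I).
A product r_u r_v of two reflections with unit vectors u, v is joined to r_v r_v = id by moving u to v along a path in the unit sphere (path connected in dimension 3 >= 2, isPathConnected_sphere), and r_u x = x - 2 <u,x> u depends continuously on (u,x).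
Multiply such paths. (Any other proof that the rotation group of W is path connected is fine, e.g. by rotations in planes.)
θ as a function ℝ -> (W ≃ᵃⁱ[ℝ] W), constant outside [0,1], jointly continuous as a map ℝ × W -> W.
-/
theorem rigid_path (J₀ J₁ : W ≃ᵃⁱ[ℝ] W) :
    ∃ θ : ℝ → (W ≃ᵃⁱ[ℝ] W), (Continuous fun p : ℝ × W => θ p.1 p.2) ∧
      (∀ w, θ 0 w = J₀ w) ∧ ((∀ w, θ 1 w = J₁ w) ∨ (∀ w, θ 1 w = J₁ (flip w))) := by
  obtain ⟨l, -, hl⟩ := (J₀.linearIsometryEquiv⁻¹ * J₁.linearIsometryEquiv).reflections_generate_dim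
  have hl' : (l.map R).prod = J₀.linearIsometryEquiv⁻¹ * J₁.linearIsometryEquiv := hl.symm
  have key : ∀ B : W ≃ₗᵢ[ℝ] W, Jn B → ∃ θ : ℝ → (W ≃ᵃⁱ[ℝ] W),
      (Continuous fun p : ℝ × W => θ p.1 p.2) ∧ (∀ w, θ 0 w = J₀ w) ∧
      (∀ w, θ 1 w = J₀.linearIsometryEquiv (B w) + J₁ 0) := by
    rintro B ⟨Φ, h1, h2, h3⟩
    refine ⟨fun t => ((Φ t).trans J₀.linearIsometryEquiv).toAffineIsometryEquiv.trans
      (AffineIsometryEquiv.constVAdd ℝ W ((1 - t) • J₀ 0 + t • J₁ 0)), ?_, ?_, ?_⟩
    · have : (fun p : ℝ × W => (((Φ p.1).trans J₀.linearIsometryEquiv).toAffineIsometryEquiv.trans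
          (AffineIsometryEquiv.constVAdd ℝ W ((1 - p.1) • J₀ 0 + p.1 • J₁ 0))) p.2) =
          fun p : ℝ × W => ((1 - p.1) • J₀ 0 + p.1 • J₁ 0) +
            J₀.linearIsometryEquiv (Φ p.1 p.2) := rfl
      rw [this]
      exact (((continuous_const.sub continuous_fst).smul continuous_const).add
        (continuous_fst.smul continuous_const)).add (J₀.linearIsometryEquiv.continuous.comp h1)
    · intro w
      show ((1 - (0 : ℝ)) • J₀ 0 + (0 : ℝ) • J₁ 0) + J₀.linearIsometryEquiv (Φ 0 w) = J₀ w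
      rw [h2, sub_zero, one_smul, zero_smul, add_zero]
      have := J₀.map_vadd 0 w
      simp only [vadd_eq_add, add_zero] at this
      rw [this, add_comm]
      rfl
    · intro w
      show ((1 - (1 : ℝ)) • J₀ 0 + (1 : ℝ) • J₁ 0) + J₀.linearIsometryEquiv (Φ 1 w) = _
      rw [h3, sub_self, one_smul, zero_smul, zero_add, add_comm]
  have hJ : ∀ w, J₀.linearIsometryEquiv
      ((J₀.linearIsometryEquiv⁻¹ * J₁.linearIsometryEquiv) w) + J₁ 0 = J₁ w := by
    intro w
    have e : J₀.linearIsometryEquiv ((J₀.linearIsometryEquiv⁻¹ * J₁.linearIsometryEquiv) w) =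
        J₁.linearIsometryEquiv w := J₀.linearIsometryEquiv.apply_symm_apply _
    have := J₁.map_vadd 0 w
    simp only [vadd_eq_add, add_zero] at this
    rw [e, this]
  rcases Jn_list (pt 0 Complex.I) pt_ne l with h | h
  · rw [hl'] at h
    obtain ⟨θ, c, z, o⟩ := key _ h
    exact ⟨θ, c, z, Or.inl fun w => by rw [o, hJ]⟩
  · rw [hl'] at h
    obtain ⟨θ, c, z, o⟩ := key _ h
    refine ⟨θ, c, z, Or.inr fun w => ?_⟩
    rw [o, ← R_flip]
    exact hJ (R (pt 0 Complex.I) w)

end Pool.Agent.H334
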