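import Pool.Agent.Helper334_Fold.Defs2
import Pool.Agent.Helper334_Fold.P_chart
import Pool.Agent.Helper334_Fold.P_hinge_exists

set_option autoImplicit false

open Set


namespace Pool.Agent.H334




theorem to_sys_dist (d : ℝ) (hd : 0 < d) : dist (pt 0 0) (pt d 0) = d := by
  have h := W_dist_sq (pt 0 0) (pt d 0)
  simp only [pt_fst, pt_snd, sub_self, norm_zero] at h
  have h1 : dist (pt 0 0) (pt d 0) ^ 2 = d ^ 2 := by rw [h]; ring
  exact (pow_left_inj₀ dist_nonneg hd.le (by norm_num)).1 h1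

theorem to_sys_line (d s : ℝ) :
    pt (s * d) 0 = AffineMap.lineMap (pt 0 0) (pt d 0) s := by
  rw [AffineMap.lineMap_apply]
  apply W_ext
  · simp
  · simp

/- TARGET. Plain-words proof:
For each i : Fin (n+1) chart gives (T_i, κ_i) for vtx i. For k : Fin n, hinge_exists with P = T_(par k), i = u k, j = v k gives E_k with IsHinge P (dist (P.vert (u k)) (P.vert (v k))) E_k; this distance is
dist (vtx (par k) (u k)) (vtx (par k) (v k)) = dist (vtx k.succ 0) (vtx k.succ 1) = dist ((T_(k+1)).vert 0) ((T_(k+1)).vert 1) = (T_(k+1)).d (κ isometric, vert 0 = pt 0 0, vert 1 = pt d 0). Define S.T m = T_m for m <= n (anything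
beyond, e.g. via Fin.ofNat or an if), S.p (k+1) = par k, S.E (k+1) = E_k. edge: both sides are affine in s and agree at s = 0 and s = 1 (E_k and κ are affine maps; pt (s d) 0 = lineMap (pt 0 0) (pt d 0) s).
-/
theorem to_sys {n : ℕ} (X : HingedTree n) :
    ∃ (S : Sys) (κ : Fin (n + 1) → (Plane →ᵃⁱ[ℝ] W)), Model X S κ := by
  choose Tc κ hv him htri using fun i => chart (X.vtx i) (X.nondeg i)
  choose E hE1 hE2 hE3 using fun k : Fin n => hinge_exists (Tc (X.par k)) (X.u k) (X.v k) (X.ne k)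
  have hvert01 : ∀ T : Tri, dist (T.vert 0) (T.vert 1) = T.d := by
    intro T
    have e0 : T.vert 0 = pt 0 0 := rfl
    have e1 : T.vert 1 = pt T.d 0 := rfl
    rw [e0, e1, to_sys_dist _ T.hd]
  have hdist : ∀ k : Fin n, dist ((Tc (X.par k)).vert (X.u k)) ((Tc (X.par k)).vert (X.v k)) =
      (Tc k.succ).d := by
    intro k
    rw [← hv, ← hv, (κ (X.par k)).dist_map, X.len k, ← (κ k.succ).dist_map, hv, hv, hvert01]
  let S : Sys :=
    { T := fun m => if h : m < n + 1 then Tc ⟨m, h⟩ else Tc 0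
      p := fun m => if h : m - 1 < n then (X.par ⟨m - 1, h⟩ : ℕ) else 0
      E := fun m => if h : m - 1 < n then E ⟨m - 1, h⟩ else AffineIsometryEquiv.refl ℝ W }
  have hT : ∀ i : Fin (n + 1), S.T i = Tc i := fun i => dif_pos i.2
  have hp : ∀ k : Fin n, S.p (k.succ : Fin (n + 1)) = X.par k := by
    intro k
    change (if h : (k.succ : ℕ) - 1 < n then (X.par ⟨(k.succ : ℕ) - 1, h⟩ : ℕ) else 0) = _
    have h : (k.succ : ℕ) - 1 < n := by simp
    rw [dif_pos h]
    congr 2
  have hE : ∀ k : Fin n, S.E (k.succ : Fin (n + 1)) = E k := by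
    intro k
    change (if h : (k.succ : ℕ) - 1 < n then E ⟨(k.succ : ℕ) - 1, h⟩ else
      AffineIsometryEquiv.refl ℝ W) = _
    have h : (k.succ : ℕ) - 1 < n := by simp
    rw [dif_pos h]
    congr 1
  refine ⟨S, κ, ?_, ?_, him, ?_, hp, ?_⟩
  · intro k hk1 hkn
    obtain ⟨m, rfl⟩ : ∃ m, k = m + 1 := ⟨k - 1, by omega⟩
    have hm : m < n := by omega
    have e : m + 1 = (((⟨m, hm⟩ : Fin n).succ : Fin (n + 1)) : ℕ) := rfl
    rw [e, hp, hE, hT, hT]
    refine ⟨X.par_lt ⟨m, hm⟩, ?_⟩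
    rw [← hdist]
    exact hE1 _
  · intro i j
    rw [hT]
    exact hv i j
  · intro i
    rw [hT]
    exact htri i
  · intro k s
    rw [hE, hT, to_sys_line, ← hdist]
    have h1 := (E k).toAffineEquiv.toAffineMap.apply_lineMap (pt 0 0)
      (pt (dist ((Tc (X.par k)).vert (X.u k)) ((Tc (X.par k)).vert (X.v k))) 0) s
    have h2 := (κ (X.par k)).toAffineMap.apply_lineMap (X.vtx (X.par k) (X.u k))
      (X.vtx (X.par k) (X.v k)) s
    have h3 : E k (AffineMap.lineMap (pt 0 0)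
      (pt (dist ((Tc (X.par k)).vert (X.u k)) ((Tc (X.par k)).vert (X.v k))) 0) s) =
      AffineMap.lineMap (E k (pt 0 0))
        (E k (pt (dist ((Tc (X.par k)).vert (X.u k)) ((Tc (X.par k)).vert (X.v k))) 0)) s := h1
    have h4 : κ (X.par k) (AffineMap.lineMap (X.vtx (X.par k) (X.u k))
      (X.vtx (X.par k) (X.v k)) s) =
      AffineMap.lineMap (κ (X.par k) (X.vtx (X.par k) (X.u k)))
        (κ (X.par k) (X.vtx (X.par k) (X.v k))) s := h2
    rw [h3, h4, hE2, hE3, hv, hv]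

end Pool.Agent.H334
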