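import Pool.Agent.Helper334_Fold.Defs2
import Pool.Agent.Helper334_Fold.P_to_sys
import Pool.Agent.Helper334_Fold.P_extend_isom
import Pool.Agent.Helper334_Fold.P_rigid_path
import Pool.Agent.Helper334_Fold.P_config_frames
import Pool.Agent.Helper334_Fold.P_crease_segments
import Pool.Agent.Helper334_Fold.P_clear_mono
import Pool.Agent.Helper334_Fold.P_main_internal

set_option autoImplicit false

open Set


namespace Pool.Agent.H334












theorem mr_finrank : Module.finrank ℝ W = 3 := by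
  rw [(WithLp.linearEquiv 2 ℝ (ℝ × ℂ)).finrank_eq, Module.finrank_prod, Module.finrank_self,
    Complex.finrank_real_complex]

theorem mr_iota : Nonempty (Space ≃ₗᵢ[ℝ] W) :=
  ⟨((stdOrthonormalBasis ℝ W).reindex (finCongr mr_finrank)).repr.symm⟩

theorem mr_J {n : ℕ} (X : HingedTree n) (S : Sys) (κ : Fin (n + 1) → (Plane →ᵃⁱ[ℝ] W))
    (hM : Model X S κ) (ι : Space ≃ₗᵢ[ℝ] W) (f : Fin (n + 1) → Plane → Space)
    (hf : X.IsConfig f) : ∃ J : W ≃ᵃⁱ[ℝ] W, ∀ x ∈ X.tri 0, ι (f 0 x) = J (κ 0 x) := by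
  have hinj : Function.Injective (κ 0) := (κ 0).injective
  have hinv : ∀ x, Function.invFun (κ 0) (κ 0 x) = x := Function.leftInverse_invFun hinj
  obtain ⟨J, hJ⟩ := extend_isom (S.T ((0 : Fin (n + 1)) : ℕ))
    (fun w => ι (f 0 (Function.invFun (κ 0) w))) (by
      intro x hx y hy
      rw [← hM.tri 0] at hx hy
      obtain ⟨x', hx', rfl⟩ := hx
      obtain ⟨y', hy', rfl⟩ := hy
      simp only [hinv]
      rw [ι.dist_map, hf.2 0 x' hx' y' hy', (κ 0).dist_map])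
  refine ⟨J, fun x hx => ?_⟩
  have h1 := hJ (κ 0 x) (by rw [← hM.tri 0]; exact Set.mem_image_of_mem _ hx)
  simp only [hinv] at h1
  exact h1

theorem mr_flip (w : W) (hw : w.snd.im = 0) : flip w = w := by
  apply W_ext
  · rfl
  · show starRingEnd ℂ w.snd = w.snd
    exact Complex.conj_eq_iff_im.2 hw

theorem mr_joins {n : ℕ} (X : HingedTree n) (S : Sys) (κ : Fin (n + 1) → (Plane →ᵃⁱ[ℝ] W))
    (hM : Model X S κ) (ι : Space ≃ₗᵢ[ℝ] W) (f g : Fin (n + 1) → Plane → Space)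
    (φf φg : Fr) (hφf : ∀ i : Fin (n + 1), ∀ x ∈ X.tri i, ι (f i x) = φf.J i (κ i x))
    (hφg : ∀ i : Fin (n + 1), ∀ x ∈ X.tri i, ι (g i x) = φg.J i (κ i x))
    (F : ℝ → ℕ → W → W)
    (hF1 : ∀ k ≤ n, ContinuousOn (fun p : ℝ × W => F p.1 k p.2)
      (Icc (0 : ℝ) 1 ×ˢ (S.T k).carrier))
    (hF2 : ∀ k ≤ n, ∀ x ∈ (S.T k).carrier, F 0 k x = φf.J k x ∧ F 1 k x = φg.J k x) :
    X.Joins (fun t i x => ι.symm (F t i (κ i x))) f g := by
  have hmem : ∀ i : Fin (n + 1), ∀ x ∈ X.tri i, κ i x ∈ (S.T i).carrier := by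
    intro i x hx
    rw [← hM.tri i]
    exact Set.mem_image_of_mem _ hx
  refine ⟨fun i => ?_, fun i x hx => ⟨?_, ?_⟩⟩
  · have hi : (i : ℕ) ≤ n := Nat.lt_succ_iff.1 i.2
    have h1 : ContinuousOn (fun p : ℝ × Plane => F p.1 i (κ i p.2))
        (Icc (0 : ℝ) 1 ×ˢ X.tri i) := by
      have h2 : Continuous fun p : ℝ × Plane => ((p.1, κ i p.2) : ℝ × W) :=
        continuous_fst.prodMk ((κ i).continuous.comp continuous_snd)
      exact (hF1 i hi).comp h2.continuousOn (fun p hp => ⟨hp.1, hmem i _ hp.2⟩)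
    exact ι.symm.continuous.comp_continuousOn h1
  · have hi : (i : ℕ) ≤ n := Nat.lt_succ_iff.1 i.2
    show ι.symm (F 0 i (κ i x)) = f i x
    rw [(hF2 i hi _ (hmem i x hx)).1, ← hφf i x hx, ι.symm_apply_apply]
  · have hi : (i : ℕ) ≤ n := Nat.lt_succ_iff.1 i.2
    show ι.symm (F 1 i (κ i x)) = g i x
    rw [(hF2 i hi _ (hmem i x hx)).2, ← hφg i x hx, ι.symm_apply_apply]

theorem mr_glue_mem {n : ℕ} (X : HingedTree n) (a b : Fin (n + 1) × Plane) (h : X.Glue a b) :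
    a.2 ∈ X.tri a.1 ∧ b.2 ∈ X.tri b.1 := by
  have key : ∀ (i : Fin (n + 1)) (p q : Fin 3) (s : ℝ), s ∈ Icc (0 : ℝ) 1 →
      AffineMap.lineMap (X.vtx i p) (X.vtx i q) s ∈ X.tri i := by
    intro i p q s hs
    have h1 : X.vtx i p ∈ X.tri i := subset_convexHull ℝ _ (Set.mem_range_self p)
    have h2 : X.vtx i q ∈ X.tri i := subset_convexHull ℝ _ (Set.mem_range_self q)
    exact (convex_convexHull ℝ _).lineMap_mem h1 h2 hs
  obtain ⟨k, s, hs, rfl, rfl⟩ := h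
  exact ⟨key _ _ _ _ hs, key _ _ _ _ hs⟩

theorem main_result {n : ℕ} (X : HingedTree n) (f g : Fin (n + 1) → Plane → Space)
    (hf : X.IsConfig f) (hg : X.IsConfig g) :
    ∃ (C : Fin (n + 1) → Set (Plane × Plane)) (F : ℝ → Fin (n + 1) → Plane → Space),
      (∀ i, (C i).Finite ∧ ∀ c ∈ C i, c.1 ∈ X.tri i ∧ c.2 ∈ X.tri i) ∧
      X.Joins F f g ∧ (∀ t ∈ Icc (0 : ℝ) 1, X.Folded C (F t)) ∧
      ∀ ε > (0 : ℝ), ∃ G : ℝ → Fin (n + 1) → Plane → Space,
        X.Joins G f g ∧ (∀ t ∈ Icc (0 : ℝ) 1, X.Embeds (G t)) ∧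
        ∀ t ∈ Icc (0 : ℝ) 1, ∀ i, ∀ x ∈ X.tri i, dist (G t i x) (F t i x) < ε := by
  obtain ⟨S, κ, hM⟩ := to_sys X
  obtain ⟨ι⟩ := mr_iota
  obtain ⟨Jf, hJf⟩ := mr_J X S κ hM ι f hf
  obtain ⟨Jg, hJg⟩ := mr_J X S κ hM ι g hg
  obtain ⟨θ, hθc, hθ0, hθ1⟩ := rigid_path Jf Jg
  have hθf : ∀ x ∈ X.tri 0, ι (f 0 x) = θ 0 (κ 0 x) := by
    intro x hx
    rw [hθ0, hJf x hx]
  have hθg : ∀ x ∈ X.tri 0, ι (g 0 x) = θ 1 (κ 0 x) := by
    intro x hx
    rcases hθ1 with h1 | h1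
    · rw [h1, hJg x hx]
    · rw [h1, mr_flip _ (hM.im 0 x), hJg x hx]
  obtain ⟨φf, hφf0, hφf, cf, hcf, hcf1, hClf⟩ := config_frames X S κ hM ι f hf (θ 0) hθf
  obtain ⟨φg, hφg0, hφg, cg, hcg, hcg1, hClg⟩ := config_frames X S κ hM ι g hg (θ 1) hθg
  have hc : 0 < min cf cg := lt_min hcf hcg
  have hClf' : Clear S n (min cf cg) φf := clear_mono hc (min_le_left _ _) hClf
  have hClg' : Clear S n (min cf cg) φg := clear_mono hc (min_le_right _ _) hClg
  obtain ⟨F, hF, hG⟩ := main_internal S n hM.ok hc ((min_le_left _ _).trans hcf1)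
    (fun b => match b with | false => φf | true => φg)
    (by intro i; cases i
        · exact hClf'
        · exact hClg') θ hθc (fun w => (hφf0 w).symm) (fun w => (hφg0 w).symm)
  have hmem : ∀ i : Fin (n + 1), ∀ x ∈ X.tri i, κ i x ∈ (S.T i).carrier := by
    intro i x hx
    rw [← hM.tri i]
    exact Set.mem_image_of_mem _ hx
  have hle : ∀ i : Fin (n + 1), (i : ℕ) ≤ n := fun i => Nat.lt_succ_iff.1 i.2
  have hC : ∀ i : Fin (n + 1), ∃ C : Set (Plane × Plane), C.Finite ∧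
      (∀ c ∈ C, c.1 ∈ X.tri i ∧ c.2 ∈ X.tri i) ∧
      ∀ x ∈ X.tri i \ ⋃ c ∈ C, segment ℝ c.1 c.2,
        ∀ y ∈ connectedComponentIn (X.tri i \ ⋃ c ∈ C, segment ℝ c.1 c.2) x,
          ∀ t ∈ Icc (0 : ℝ) 1, dist (F t i (κ i x)) (F t i (κ i y)) = dist x y := by
    intro i
    have h1 : PAp (κ i '' X.tri i) (fun t => F t i) := by
      rw [hM.tri i]
      exact (hF i (hle i)).2.2
    exact crease_segments (X.vtx i) (κ i) (fun t => F t i) h1
  choose C hC1 hC2 hC3 using hC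
  -- gluing for a family with the iff property
  have hglue : ∀ (G : ℝ → ℕ → W → W),
      (∀ t ∈ Icc (0 : ℝ) 1, ∀ k ≤ n, ∀ j ≤ n, ∀ x ∈ (S.T k).carrier,
          ∀ u ∈ (S.T j).carrier, G t k x = G t j u ↔ φf.J k x = φf.J j u) →
      ∀ t ∈ Icc (0 : ℝ) 1, ∀ a b, X.Glue a b → G t a.1 (κ a.1 a.2) = G t b.1 (κ b.1 b.2) := by
    intro G hG t ht a b hab
    obtain ⟨ha, hb⟩ := mr_glue_mem X a b hab
    rw [hG t ht a.1 (hle _) b.1 (hle _) _ (hmem _ _ ha) _ (hmem _ _ hb), ← hφf _ _ ha,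
      ← hφf _ _ hb, hf.1.glued a b hab]
  refine ⟨C, fun t i x => ι.symm (F t i (κ i x)), fun i => ⟨hC1 i, hC2 i⟩, ?_, ?_, ?_⟩
  · exact mr_joins X S κ hM ι f g φf φg hφf hφg F (fun k hk => (hF k hk).1)
      (fun k hk => (hF k hk).2.1)
  · intro t ht
    refine ⟨?_, ?_⟩
    · intro a b hab
      obtain ⟨ha, hb⟩ := mr_glue_mem X a b hab
      show ι.symm (F t a.1 (κ a.1 a.2)) = ι.symm (F t b.1 (κ b.1 b.2))
      congr 1
      apply dist_le_zero.1
      apply le_of_forall_pos_le_add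
      intro ε hε
      obtain ⟨G, hG1, hG2, hG3⟩ := hG (ε / 2) (by positivity)
      have h1 := hG2 t ht a.1 (hle _) _ (hmem _ _ ha)
      have h2 := hG2 t ht b.1 (hle _) _ (hmem _ _ hb)
      have h3 := hglue G hG3 t ht a b hab
      calc dist (F t a.1 (κ a.1 a.2)) (F t b.1 (κ b.1 b.2))
          ≤ dist (F t a.1 (κ a.1 a.2)) (G t a.1 (κ a.1 a.2)) +
            dist (G t a.1 (κ a.1 a.2)) (F t b.1 (κ b.1 b.2)) := dist_triangle _ _ _
        _ ≤ 0 + ε := by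
            rw [dist_comm (F t a.1 (κ a.1 a.2)), h3]
            rw [h3] at h1
            linarith
    · intro i x hx y hy
      show dist (ι.symm (F t i (κ i x))) (ι.symm (F t i (κ i y))) = dist x y
      rw [ι.symm.dist_map]
      exact hC3 i x hx y hy t ht
  · intro ε hε
    obtain ⟨G, hG1, hG2, hG3⟩ := hG (ε / 2) (by positivity)
    have hJ : X.Joins (fun t i x => ι.symm (G t i (κ i x))) f g :=
      mr_joins X S κ hM ι f g φf φg hφf hφg G (fun k hk => (hG1 k hk).1)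
        (fun k hk => (hG1 k hk).2)
    refine ⟨fun t i x => ι.symm (G t i (κ i x)), hJ, ?_, ?_⟩
    · intro t ht
      refine ⟨?_, ?_, ?_⟩
      · intro a b hab
        show ι.symm (G t a.1 (κ a.1 a.2)) = ι.symm (G t b.1 (κ b.1 b.2))
        rw [hglue G hG3 t ht a b hab]
      · intro i
        have h1 := hJ.1 i
        have h2 : ContinuousOn (fun x : Plane => ((t, x) : ℝ × Plane)) (X.tri i) :=
          (continuous_const.prodMk continuous_id).continuousOn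
        exact h1.comp h2 (fun x hx => ⟨ht, hx⟩)
      · intro i j x hx y hy hxy
        have h1 : G t i (κ i x) = G t j (κ j y) := ι.symm.injective hxy
        rw [hG3 t ht i (hle _) j (hle _) _ (hmem _ _ hx) _ (hmem _ _ hy), ← hφf _ _ hx,
          ← hφf _ _ hy] at h1
        exact hf.1.inj i j x hx y hy (ι.injective h1)
    · intro t ht i x hx
      show dist (ι.symm (G t i (κ i x))) (ι.symm (F t i (κ i x))) < ε
      rw [ι.symm.dist_map]
      have := hG2 t ht i (hle _) _ (hmem _ _ hx)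
      linarith

end Pool.Agent.H334
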