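import Pool.Agent.Helper334_Fold.CDefs

set_option autoImplicit false

open Set


namespace Pool.Agent.H334

open Pool.Agent.Helper22.FC (SimplePolygon IsPaper cyc curve wnd side SimpleL)

/- TARGET. Plain-words proof:
(T i).tri t = Y.tri ⟨i,t⟩ by hY.vtx, and (T i).tri t ⊆ X.region i by (hT i).cover. Embeds.glued: hY.down: either i = i', x = x' or X.Glue and hf.1.glued. cont: restriction. Isometry: restriction.
inj: let f i x = f i' x', x ∈ tri ⟨i,s⟩, x' ∈ tri ⟨i',s'⟩. Then EqvGen X.Glue (i,x) (i',x'). Claim: EqvGen X.Glue p q implies p = q or [(∃ s, p.2 ∈ (T p.1).tri s) ∧ (∃ s, q.2 ∈ (T q.1).tri s) ∧ ∀ s s', p.2 ∈ (T p.1).tri s → q.2 ∈ (T q.1).tri s' → EqvGen Y.Glue (⟨p.1,s⟩,p.2) (⟨q.1,s'⟩,q.2)]. Induction on EqvGen: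
rel: hY.up gives s0, s0' with Y.Glue; for other s: (⟨i,s⟩,x) ~ (⟨i,s0⟩,x) by (hT i).planar and hY.inner (map EqvGen (T i).Glue to EqvGen Y.Glue by induction). refl, symm clear; trans: use the existence of a triangle containing the middle point. In the case p = q use planar and inner again.
-/
theorem config_up {k : ℕ} {X : PolyTree k} {ι : Fin (k + 1) → Type} {T : ∀ i, CTree (ι i)}
    {r : ∀ i, Fin (X.m i + 3)} (hT : ∀ i, (T i).Tri (X.vtx i) (X.region i) (r i))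
    {Y : CTree (Σ i, ι i)} (hY : Refines X ι T Y) {f : Fin (k + 1) → ℂ → Space}
    (hf : X.IsConfig f) : Y.IsConfig (fun a => f a.1) := by
  have htri : ∀ a : (Σ i, ι i), Y.tri a = (T a.1).tri a.2 := by
    rintro ⟨i, t⟩
    unfold CTree.tri
    rw [hY.vtx]
  have hsub : ∀ a : (Σ i, ι i), Y.tri a ⊆ X.region a.1 := by
    rintro ⟨i, t⟩
    rw [htri, ← (hT i).cover]
    exact Set.subset_iUnion (fun s => (T i).tri s) t
  -- gluing inside one polygon
  have hin : ∀ i (a b : ι i × ℂ), Relation.EqvGen (T i).Glue a b →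
      Relation.EqvGen Y.Glue ((⟨i, a.1⟩ : Σ i, ι i), a.2) ((⟨i, b.1⟩ : Σ i, ι i), b.2) := by
    intro i a b h
    induction h with
    | rel a b h => exact Relation.EqvGen.rel _ _ (hY.inner i a.1 b.1 a.2 b.2 h)
    | refl a => exact Relation.EqvGen.refl _
    | symm a b _ ih => exact Relation.EqvGen.symm _ _ ih
    | trans a b c _ _ ih1 ih2 => exact Relation.EqvGen.trans _ _ _ ih1 ih2
  have hpl : ∀ i (s s' : ι i) (x : ℂ), x ∈ (T i).tri s → x ∈ (T i).tri s' →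
      Relation.EqvGen Y.Glue ((⟨i, s⟩ : Σ i, ι i), x) ((⟨i, s'⟩ : Σ i, ι i), x) := by
    intro i s s' x hs hs'
    exact hin i (s, x) (s', x) ((hT i).planar s s' x hs hs')
  have hkey : ∀ p q : Fin (k + 1) × ℂ, Relation.EqvGen X.Glue p q →
      p = q ∨ ((∃ s, p.2 ∈ (T p.1).tri s) ∧ (∃ s, q.2 ∈ (T q.1).tri s) ∧
        ∀ s s', p.2 ∈ (T p.1).tri s → q.2 ∈ (T q.1).tri s' →
          Relation.EqvGen Y.Glue ((⟨p.1, s⟩ : Σ i, ι i), p.2) ((⟨q.1, s'⟩ : Σ i, ι i), q.2)) := by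
    intro p q h
    induction h with
    | rel a b h =>
      right
      obtain ⟨s0, s0', h1, h2, h3⟩ := hY.up a.1 a.2 b.1 b.2 h
      refine ⟨⟨s0, h1⟩, ⟨s0', h2⟩, ?_⟩
      intro s s' hs hs'
      exact Relation.EqvGen.trans _ _ _ (hpl a.1 s s0 a.2 hs h1)
        (Relation.EqvGen.trans _ _ _ (Relation.EqvGen.rel _ _ h3) (hpl b.1 s0' s' b.2 h2 hs'))
    | refl a => left; rfl
    | symm a b _ ih =>
      rcases ih with ih | ⟨h1, h2, h3⟩
      · left; exact ih.symm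
      · right
        refine ⟨h2, h1, ?_⟩
        intro s s' hs hs'
        exact Relation.EqvGen.symm _ _ (h3 s' s hs' hs)
    | trans a b c _ _ ih1 ih2 =>
      rcases ih1 with ih1 | ⟨h1, h2, h3⟩
      · subst ih1; exact ih2
      · rcases ih2 with ih2 | ⟨g1, g2, g3⟩
        · subst ih2
          exact Or.inr ⟨h1, h2, h3⟩
        · right
          refine ⟨h1, g2, ?_⟩
          intro s s' hs hs'
          obtain ⟨t, ht⟩ := h2
          exact Relation.EqvGen.trans _ _ _ (h3 s t hs ht) (g3 t s' ht hs')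
  refine ⟨⟨?_, ?_, ?_⟩, ?_⟩
  · rintro ⟨⟨i, s⟩, x⟩ ⟨⟨i', s'⟩, x'⟩ h
    rcases hY.down i s x i' s' x' h with ⟨h1, h2⟩ | h1
    · subst h1 h2; rfl
    · exact hf.1.glued _ _ h1
  · intro a
    exact (hf.1.cont a.1).mono (hsub a)
  · rintro ⟨i, s⟩ ⟨i', s'⟩ x hx x' hx' h
    have hx1 : x ∈ (T i).tri s := by rw [← htri ⟨i, s⟩]; exact hx
    have hx2 : x' ∈ (T i').tri s' := by rw [← htri ⟨i', s'⟩]; exact hx'
    rcases hkey (i, x) (i', x') (hf.1.inj i i' x (hsub _ hx) x' (hsub _ hx') h) with h1 | ⟨-, -, h1⟩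
    · obtain ⟨rfl, rfl⟩ := Prod.mk.inj h1
      exact hpl i s s' x hx1 hx2
    · exact h1 s s' hx1 hx2
  · intro a x hx y hy
    exact hf.2 a.1 x (hsub a hx) y (hsub a hy)

end Pool.Agent.H334
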