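import Pool.Agent.Helper334_Fold.CDefs

set_option autoImplicit false

open Set


namespace Pool.Agent.H334

open Pool.Agent.Helper22.FC (SimplePolygon IsPaper cyc curve wnd side SimpleL)

/- TARGET. Plain-words proof:
Iterating par strictly decreases rank until root is reached, so rank root < rank i for every i ≠ root (strong induction on rank i: if par i = root this is par_lt, else rank root < rank (par i) < rank i).
Let e0 : ι ≃ Fin (card ι) (Fintype.equivFin), and rho i = rank i * card ι + e0 i, an injective function ι → ℕ with rho (par i) < rho i for i ≠ root and rho root < rho i for i ≠ root. Order ι by rho (LinearOrder.lift' rho inj),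
card ι = n + 1 with n = card ι - 1 (ι is nonempty: root), and take the order isomorphism Fin (n+1) ≃o ι (Fintype.orderIsoFinOfCardEq or monoEquivOfFin) as e. e 0 is the least element, i.e. root. (Alternatively: induction, or the image of rho as a Finset of ℕ and
Finset.orderIsoOfFin.)
-/
theorem ct_sort {ι : Type} [Fintype ι] (X : CTree ι) :
    ∃ (n : ℕ) (e : Fin (n + 1) ≃ ι), e 0 = X.root ∧
      ∀ i, i ≠ X.root → e.symm (X.par i) < e.symm i := by
  classical
  have hroot : ∀ N i, X.rank i ≤ N → i ≠ X.root → X.rank X.root < X.rank i := by
    intro N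
    induction N with
    | zero =>
      intro i hi hne
      have := X.par_lt i hne
      omega
    | succ N ih =>
      intro i hi hne
      have h := X.par_lt i hne
      by_cases hp : X.par i = X.root
      · rw [hp] at h
        exact h
      · exact (ih (X.par i) (by omega) hp).trans h
  let e0 : ι ≃ Fin (Fintype.card ι) := Fintype.equivFin ι
  let rho : ι → ℕ := fun i => X.rank i * Fintype.card ι + (e0 i : ℕ)
  have hlt : ∀ i j, X.rank i < X.rank j → rho i < rho j := by
    intro i j h
    have h1 := (e0 i).2
    have h2 : (X.rank i + 1) * Fintype.card ι ≤ X.rank j * Fintype.card ι :=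
      Nat.mul_le_mul_right _ h
    show X.rank i * Fintype.card ι + (e0 i : ℕ) < X.rank j * Fintype.card ι + (e0 j : ℕ)
    rw [add_mul, one_mul] at h2
    omega
  have hinj : Function.Injective rho := by
    intro i j h
    have h1 : X.rank i = X.rank j := by
      rcases lt_trichotomy (X.rank i) (X.rank j) with h2 | h2 | h2
      · exact absurd h (hlt i j h2).ne
      · exact h2
      · exact absurd h.symm (hlt j i h2).ne
    have h3 : X.rank i * Fintype.card ι + (e0 i : ℕ) = X.rank j * Fintype.card ι + (e0 j : ℕ) := h
    rw [h1] at h3
    exact e0.injective (Fin.ext (by omega))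
  letI : LinearOrder ι := LinearOrder.lift' rho hinj
  have hc : Fintype.card ι = (Fintype.card ι - 1) + 1 := by
    have : 0 < Fintype.card ι := Fintype.card_pos_iff.2 ⟨X.root⟩
    omega
  let e : Fin (Fintype.card ι - 1 + 1) ≃o ι := Fintype.orderIsoFinOfCardEq ι hc
  have hle : ∀ i j : ι, rho i < rho j → i < j := fun i j h => h
  refine ⟨Fintype.card ι - 1, e.toEquiv, ?_, ?_⟩
  · by_contra h0
    have h1 : X.root < e 0 := hle _ _ (hlt _ _ (hroot _ _ le_rfl h0))
    have h2 : e 0 ≤ X.root := by
      have : (0 : Fin (Fintype.card ι - 1 + 1)) ≤ e.symm X.root := Fin.zero_le _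
      have h3 := e.monotone this
      rwa [OrderIso.apply_symm_apply] at h3
    exact absurd h1 (not_lt.2 h2)
  · intro i hi
    have h1 : X.par i < i := hle _ _ (hlt _ _ (X.par_lt i hi))
    exact e.symm.strictMono h1

end Pool.Agent.H334
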