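import Pool.Agent.Helper334_Fold.CDefs
import Pool.Agent.Helper334_Fold.Q_ct_sort
import Pool.Agent.Helper334_Fold.P_main_result

set_option autoImplicit false

open Set


namespace Pool.Agent.H334

open Pool.Agent.Helper22.FC (SimplePolygon IsPaper cyc curve wnd side SimpleL)

/-- The linear isometry between the complex plane and the Euclidean plane. -/
noncomputable def ctPhi : ℂ ≃ₗᵢ[ℝ] Plane := Complex.orthonormalBasisOneI.repr

theorem ct_hull (f : ℂ ≃ₗᵢ[ℝ] Plane) (s : Set ℂ) : f '' convexHull ℝ s = convexHull ℝ (f '' s) := by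
  have := LinearMap.image_convexHull (f.toLinearEquiv.toLinearMap) s
  simpa using this

theorem ct_line (f : ℂ ≃ₗᵢ[ℝ] Plane) (a b : ℂ) (s : ℝ) :
    f (AffineMap.lineMap a b s) = AffineMap.lineMap (f a) (f b) s := by
  rw [AffineMap.lineMap_apply, AffineMap.lineMap_apply, vsub_eq_sub, vsub_eq_sub, vadd_eq_add,
    vadd_eq_add, map_add, map_smul, map_sub]

theorem ct_line' (f : ℂ ≃ₗᵢ[ℝ] Plane) (a b : Plane) (s : ℝ) :
    f.symm (AffineMap.lineMap a b s) = AffineMap.lineMap (f.symm a) (f.symm b) s := by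
  simp [AffineMap.lineMap_apply, map_add, map_smul, map_sub]

theorem ct_seg (f : ℂ ≃ₗᵢ[ℝ] Plane) (a b : Plane) (z : ℂ) :
    z ∈ segment ℝ (f.symm a) (f.symm b) ↔ f z ∈ segment ℝ a b := by
  constructor
  · rintro ⟨s, t, hs, ht, hst, rfl⟩
    refine ⟨s, t, hs, ht, hst, ?_⟩
    rw [map_add, map_smul, map_smul, f.apply_symm_apply, f.apply_symm_apply]
  · rintro ⟨s, t, hs, ht, hst, h⟩
    refine ⟨s, t, hs, ht, hst, ?_⟩
    apply f.injective
    rw [← h, map_add, map_smul, map_smul, f.apply_symm_apply, f.apply_symm_apply]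

theorem ct_ne_root {ι : Type} (X : CTree ι) {n : ℕ} (e : Fin (n + 1) ≃ ι) (he0 : e 0 = X.root)
    (k : Fin n) : e k.succ ≠ X.root := by
  rw [← he0]
  intro h
  exact Fin.succ_ne_zero k (e.injective h)

/-- The hinged tree on `Fin (n + 1)` in the Euclidean plane. -/
noncomputable def toH {ι : Type} (X : CTree ι) {n : ℕ} (e : Fin (n + 1) ≃ ι)
    (he0 : e 0 = X.root) (he : ∀ i, i ≠ X.root → e.symm (X.par i) < e.symm i) :
    HingedTree n where
  vtx k j := ctPhi (X.vtx (e k) j)
  nondeg k := by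
    have h := (X.nondeg (e k)).map' (ctPhi.toLinearEquiv.toLinearMap.toAffineMap)
      (by intro a b h; exact ctPhi.injective (by simpa using h))
    exact h
  par k := e.symm (X.par (e k.succ))
  par_lt k := by
    have := he _ (ct_ne_root X e he0 k)
    simpa using this
  u k := X.u (e k.succ)
  v k := X.v (e k.succ)
  ne k := X.ne _ (ct_ne_root X e he0 k)
  len k := by
    have := X.len _ (ct_ne_root X e he0 k)
    simpa [ctPhi.dist_map] using this
  once k l h1 h2 := by
    have h := X.once _ _ (ct_ne_root X e he0 k) (ct_ne_root X e he0 l) (e.symm.injective h1) h2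
    exact Fin.succ_injective _ (e.injective h)
  base k l h := by
    have h1 : X.par (e k.succ) = e l.succ := by
      rw [← h]; simp
    apply X.base _ (ct_ne_root X e he0 k)
    rw [h1]
    exact ct_ne_root X e he0 l

section
variable {ι : Type} (X : CTree ι) {n : ℕ} (e : Fin (n + 1) ≃ ι)
    (he0 : e 0 = X.root) (he : ∀ i, i ≠ X.root → e.symm (X.par i) < e.symm i)

theorem ct_tri (k : Fin (n + 1)) : (toH X e he0 he).tri k = ctPhi '' X.tri (e k) := by
  unfold HingedTree.tri CTree.tri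
  rw [ct_hull]
  congr 1
  ext z
  simp [toH]

theorem ct_mem (i : ι) (z : ℂ) : ctPhi z ∈ (toH X e he0 he).tri (e.symm i) ↔ z ∈ X.tri i := by
  rw [ct_tri, Equiv.apply_symm_apply]
  constructor
  · rintro ⟨w, hw, h⟩
    rwa [← ctPhi.injective h]
  · intro h
    exact ⟨z, h, rfl⟩

theorem ct_mem' (k : Fin (n + 1)) (x : Plane) :
    x ∈ (toH X e he0 he).tri k ↔ ctPhi.symm x ∈ X.tri (e k) := by
  have := ct_mem X e he0 he (e k) (ctPhi.symm x)
  simpa using this

theorem ct_glue1 {a b : Fin (n + 1) × Plane} (h : (toH X e he0 he).Glue a b) :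
    X.Glue (e a.1, ctPhi.symm a.2) (e b.1, ctPhi.symm b.2) := by
  obtain ⟨k, s, hs, rfl, rfl⟩ := h
  refine ⟨e k.succ, s, ct_ne_root X e he0 k, hs, ?_, ?_⟩
  · simp [toH, ct_line']
  · simp [toH, ct_line']

theorem ct_glue2 {a b : ι × ℂ} (h : X.Glue a b) :
    (toH X e he0 he).Glue (e.symm a.1, ctPhi a.2) (e.symm b.1, ctPhi b.2) := by
  obtain ⟨i, s, hi, hs, rfl, rfl⟩ := h
  have h0 : e.symm i ≠ 0 := by
    intro h
    apply hi
    rw [← he0, ← h, Equiv.apply_symm_apply]
  obtain ⟨k, hk⟩ := Fin.exists_succ_eq.2 h0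
  have hk' : e k.succ = i := by rw [hk, Equiv.apply_symm_apply]
  refine ⟨k, s, hs, ?_, ?_⟩
  · simp [toH, ct_line, hk']
    exact hk.symm
  · simp [toH, ct_line, hk']

theorem ct_eqv1 {a b : Fin (n + 1) × Plane} (h : Relation.EqvGen (toH X e he0 he).Glue a b) :
    Relation.EqvGen X.Glue (e a.1, ctPhi.symm a.2) (e b.1, ctPhi.symm b.2) := by
  induction h with
  | rel _ _ h => exact .rel _ _ (ct_glue1 X e he0 he h)
  | refl _ => exact .refl _
  | symm _ _ _ ih => exact .symm _ _ ih
  | trans _ _ _ _ _ ih1 ih2 => exact .trans _ _ _ ih1 ih2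

theorem ct_eqv2 {a b : ι × ℂ} (h : Relation.EqvGen X.Glue a b) :
    Relation.EqvGen (toH X e he0 he).Glue (e.symm a.1, ctPhi a.2) (e.symm b.1, ctPhi b.2) := by
  induction h with
  | rel _ _ h => exact .rel _ _ (ct_glue2 X e he0 he h)
  | refl _ => exact .refl _
  | symm _ _ _ ih => exact .symm _ _ ih
  | trans _ _ _ _ _ ih1 ih2 => exact .trans _ _ _ ih1 ih2

theorem ct_emb1 {f : ι → ℂ → Space} (hf : X.Embeds f) :
    (toH X e he0 he).Embeds (fun k x => f (e k) (ctPhi.symm x)) where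
  glued a b h := hf.glued _ _ (ct_glue1 X e he0 he h)
  cont k := by
    apply (hf.cont (e k)).comp (ctPhi.symm.continuous.continuousOn)
    intro x hx
    exact (ct_mem' X e he0 he k x).1 hx
  inj k l x hx y hy h := by
    have := hf.inj (e k) (e l) _ ((ct_mem' X e he0 he k x).1 hx) _
      ((ct_mem' X e he0 he l y).1 hy) h
    simpa using ct_eqv2 X e he0 he this

theorem ct_emb2 {f : Fin (n + 1) → Plane → Space} (hf : (toH X e he0 he).Embeds f) :
    X.Embeds (fun i z => f (e.symm i) (ctPhi z)) where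
  glued a b h := hf.glued _ _ (ct_glue2 X e he0 he h)
  cont i := by
    apply (hf.cont (e.symm i)).comp (ctPhi.continuous.continuousOn)
    intro x hx
    exact (ct_mem X e he0 he i x).2 hx
  inj i j x hx y hy h := by
    have := hf.inj (e.symm i) (e.symm j) _ ((ct_mem X e he0 he i x).2 hx) _
      ((ct_mem X e he0 he j y).2 hy) h
    simpa using ct_eqv1 X e he0 he this

theorem ct_config {f : ι → ℂ → Space} (hf : X.IsConfig f) :
    (toH X e he0 he).IsConfig (fun k x => f (e k) (ctPhi.symm x)) := by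
  refine ⟨ct_emb1 X e he0 he hf.1, fun k x hx y hy => ?_⟩
  rw [hf.2 (e k) _ ((ct_mem' X e he0 he k x).1 hx) _ ((ct_mem' X e he0 he k y).1 hy),
    ctPhi.symm.dist_map]

theorem ct_crs (C' : Fin (n + 1) → Set (Plane × Plane)) (i : ι) (z : ℂ) :
    z ∈ crs ((fun c => (ctPhi.symm c.1, ctPhi.symm c.2)) '' C' (e.symm i)) ↔
      ctPhi z ∈ creases C' (e.symm i) := by
  unfold crs creases
  simp only [Set.mem_iUnion, Set.mem_image, exists_prop]
  constructor
  · rintro ⟨c, ⟨d, hd, rfl⟩, h⟩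
    exact ⟨d, hd, (ct_seg ctPhi _ _ z).1 h⟩
  · rintro ⟨d, hd, h⟩
    exact ⟨_, ⟨d, hd, rfl⟩, (ct_seg ctPhi _ _ z).2 h⟩

theorem ct_folded {C' : Fin (n + 1) → Set (Plane × Plane)} {f : Fin (n + 1) → Plane → Space}
    (hf : (toH X e he0 he).Folded C' f) :
    X.Folded (fun i => (fun c => (ctPhi.symm c.1, ctPhi.symm c.2)) '' C' (e.symm i))
      (fun i z => f (e.symm i) (ctPhi z)) := by
  refine ⟨fun a b h => hf.1 _ _ (ct_glue2 X e he0 he h), fun i x hx y hy => ?_⟩
  set A : Set ℂ := X.tri i \ crs ((fun c => (ctPhi.symm c.1, ctPhi.symm c.2)) '' C' (e.symm i))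
    with hA
  set B : Set Plane := (toH X e he0 he).tri (e.symm i) \ creases C' (e.symm i) with hB
  have hAB : ∀ z, z ∈ A → ctPhi z ∈ B := by
    intro z hz
    exact ⟨(ct_mem X e he0 he i z).2 hz.1, fun h => hz.2 ((ct_crs e C' i z).2 h)⟩
  have h1 : ctPhi y ∈ connectedComponentIn B (ctPhi x) := by
    have hpre : IsPreconnected (ctPhi '' connectedComponentIn A x) :=
      isPreconnected_connectedComponentIn.image _ ctPhi.continuous.continuousOn
    have hsub : ctPhi '' connectedComponentIn A x ⊆ connectedComponentIn B (ctPhi x) := by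
      apply hpre.subset_connectedComponentIn
      · exact ⟨x, mem_connectedComponentIn hx, rfl⟩
      · rintro _ ⟨z, hz, rfl⟩
        exact hAB z (connectedComponentIn_subset _ _ hz)
    exact hsub ⟨y, hy, rfl⟩
  have h2 := hf.2 (e.symm i) (ctPhi x) (hAB x hx) (ctPhi y) h1
  rw [h2, ctPhi.dist_map]

theorem ct_joins {F : ℝ → Fin (n + 1) → Plane → Space} {f g : ι → ℂ → Space}
    (h : (toH X e he0 he).Joins F (fun k x => f (e k) (ctPhi.symm x))
      (fun k x => g (e k) (ctPhi.symm x))) :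
    X.Joins (fun t i z => F t (e.symm i) (ctPhi z)) f g := by
  refine ⟨fun i => ?_, fun i x hx => ?_⟩
  · have h1 := h.1 (e.symm i)
    have h2 : ContinuousOn (fun p : ℝ × ℂ => ((p.1, ctPhi p.2) : ℝ × Plane))
        (Icc (0 : ℝ) 1 ×ˢ X.tri i) := by
      apply Continuous.continuousOn
      exact continuous_fst.prodMk (ctPhi.continuous.comp continuous_snd)
    exact h1.comp h2 (fun p hp => ⟨hp.1, (ct_mem X e he0 he i p.2).2 hp.2⟩)
  · have h1 := h.2 (e.symm i) (ctPhi x) ((ct_mem X e he0 he i x).2 hx)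
    simpa using h1

end

/- TARGET. Plain-words proof:
Take n, e from ct_sort. Let φ : ℂ ≃ₗᵢ[ℝ] Plane (Complex.orthonormalBasisOneI.repr). Define H : HingedTree n by H.vtx k j = φ (X.vtx (e k) j), H.par k = e.symm (X.par (e k.succ)), H.u k = X.u (e k.succ), H.v k = X.v (e k.succ). Note e k.succ ≠ X.root
(= e 0). nondeg: image of an affinely independent family under an affine isomorphism. par_lt: ct_sort gives e.symm (par (e k.succ)) < e.symm (e k.succ) = k.succ. len: φ is isometric. once: from X.once (par k = par l gives X.par (e k.succ) = X.par (e l.succ), conclusion e k.succ = e l.succ,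
so k = l). base: par k = l.succ means X.par (e k.succ) = e l.succ ≠ root; X.base.
H.tri k = φ '' X.tri (e k) (convexHull of an image under a linear map). H.Glue (k,x) (l,y) iff X.Glue (e k, φ.symm x) (e l, φ.symm y) (φ commutes with lineMap: AffineMap.apply_lineMap; the indices k with e k ≠ root are the k = m.succ).
Hence EqvGen H.Glue a b → EqvGen X.Glue (e a.1, φ.symm a.2) (e b.1, φ.symm b.2) and conversely (induction on EqvGen, Relation.EqvGen.mono after mapping).
For f : ι → ℂ → Space put f' k x = f (e k) (φ.symm x). X.Embeds f iff H.Embeds f', X.IsConfig f implies H.IsConfig f'. Apply main_result to H, f', g' and get C', F'. Put C i = (fun c => (φ.symm c.1, φ.symm c.2)) '' C' (e.symm i), F t i x = F' t (e.symm i) (φ x), and for ε,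
G t i x = G' t (e.symm i) (φ x). crs (C i) = φ.symm '' creases C' (e.symm i) (image of a segment), and φ maps connectedComponentIn (X.tri i \ crs (C i)) z into connectedComponentIn (H.tri (e.symm i) \ creases C' (e.symm i)) (φ z) (the image is preconnected, contains φ z and lies in that set:
IsPreconnected.subset_connectedComponentIn). Joins: composition with the continuous map (t,x) ↦ (t, φ x).
-/
theorem ct_result {ι : Type} [Fintype ι] (X : CTree ι) (f g : ι → ℂ → Space)
    (hf : X.IsConfig f) (hg : X.IsConfig g) :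
    ∃ (C : ι → Set (ℂ × ℂ)) (F : ℝ → ι → ℂ → Space),
      (∀ i, (C i).Finite ∧ ∀ c ∈ C i, c.1 ∈ X.tri i ∧ c.2 ∈ X.tri i) ∧
      X.Joins F f g ∧ (∀ t ∈ Icc (0 : ℝ) 1, X.Folded C (F t)) ∧
      ∀ ε > (0 : ℝ), ∃ G : ℝ → ι → ℂ → Space,
        X.Joins G f g ∧ (∀ t ∈ Icc (0 : ℝ) 1, X.Embeds (G t)) ∧
        ∀ t ∈ Icc (0 : ℝ) 1, ∀ i, ∀ x ∈ X.tri i, dist (G t i x) (F t i x) < ε := by
  obtain ⟨n, e, he0, he⟩ := ct_sort X
  obtain ⟨C', F', hC, hJ, hF, hG⟩ := main_result (toH X e he0 he) _ _ (ct_config X e he0 he hf)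
    (ct_config X e he0 he hg)
  refine ⟨fun i => (fun c => (ctPhi.symm c.1, ctPhi.symm c.2)) '' C' (e.symm i),
    fun t i z => F' t (e.symm i) (ctPhi z), ?_, ct_joins X e he0 he hJ,
    fun t ht => ct_folded X e he0 he (hF t ht), ?_⟩
  · intro i
    refine ⟨(hC _).1.image _, ?_⟩
    rintro _ ⟨c, hc, rfl⟩
    have := (hC _).2 c hc
    rw [ct_mem', ct_mem', Equiv.apply_symm_apply] at this
    exact this
  · intro ε hε
    obtain ⟨G', hG1, hG2, hG3⟩ := hG ε hε
    refine ⟨fun t i z => G' t (e.symm i) (ctPhi z), ct_joins X e he0 he hG1,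
      fun t ht => ct_emb2 X e he0 he (hG2 t ht), fun t ht i x hx => ?_⟩
    exact hG3 t ht (e.symm i) (ctPhi x) ((ct_mem X e he0 he i x).2 hx)

end Pool.Agent.H334
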