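import Pool.Agent.Helper334_Fold.CDefs

set_option autoImplicit false

open Set


namespace Pool.Agent.H334

open Pool.Agent.Helper22.FC (SimplePolygon IsPaper cyc curve wnd side SimpleL)

/- TARGET. Plain-words proof:
(hT i).planar s t x hs ht : EqvGen (T i).Glue (s,x) (t,x). Show by induction on EqvGen: EqvGen (T i).Glue p q → G ⟨i,p.1⟩ p.2 = G ⟨i,q.1⟩ q.2, using hY.inner and hG.
-/
theorem sel_eq {k : ℕ} {X : PolyTree k} {ι : Fin (k + 1) → Type} {T : ∀ i, CTree (ι i)}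
    {r : ∀ i, Fin (X.m i + 3)} (hT : ∀ i, (T i).Tri (X.vtx i) (X.region i) (r i))
    {Y : CTree (Σ i, ι i)} (hY : Refines X ι T Y) {G : (Σ i, ι i) → ℂ → Space}
    (hG : ∀ a b, Y.Glue a b → G a.1 a.2 = G b.1 b.2) (i : Fin (k + 1)) (s t : ι i) (x : ℂ)
    (hs : x ∈ (T i).tri s) (ht : x ∈ (T i).tri t) : G ⟨i, s⟩ x = G ⟨i, t⟩ x := by
  have key : ∀ p q : ι i × ℂ, Relation.EqvGen (T i).Glue p q → G ⟨i, p.1⟩ p.2 = G ⟨i, q.1⟩ q.2 := by
    intro p q h
    induction h with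
    | rel p q h => exact hG _ _ (hY.inner i p.1 q.1 p.2 q.2 h)
    | refl p => rfl
    | symm p q _ ih => exact ih.symm
    | trans p q r _ _ ih1 ih2 => exact ih1.trans ih2
  exact key (s, x) (t, x) ((hT i).planar s t x hs ht)

end Pool.Agent.H334
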