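import Pool.Agent.Helper334_Fold.CDefs
import Pool.Agent.Helper334_Fold.Q_sel_eq

set_option autoImplicit false

open Set


namespace Pool.Agent.H334

open Pool.Agent.Helper22.FC (SimplePolygon IsPaper cyc curve wnd side SimpleL)

/- TARGET. Plain-words proof:
glued: X.Glue (i,x) (i',x'): hY.up gives s, s' with x ∈ tri s, x' ∈ tri s' and Y.Glue; G' i x = G ⟨i,s⟩ x = G ⟨i',s'⟩ x' = G' i' x' (h and hG.glued). cont: X.region i = ⋃ s, (T i).tri s ((hT i).cover), a finite union of closed (compact) sets, on each G' i agrees with G ⟨i,s⟩ which is continuous there (Y.tri ⟨i,s⟩ = (T i).tri s by hY.vtx);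
LocallyFinite.continuousOn_iUnion or a finite induction with ContinuousOn.union_of_isClosed. inj: x ∈ region i gives s with x ∈ tri s, the same for x'; hG.inj gives EqvGen Y.Glue (⟨i,s⟩,x) (⟨i',s'⟩,x'); by induction on EqvGen and hY.down, EqvGen X.Glue (i,x) (i',x').
-/
theorem tri_eq_aux {k : ℕ} {X : PolyTree k} {ι : Fin (k + 1) → Type}
    {T : ∀ i, CTree (ι i)} {Y : CTree (Σ i, ι i)} (hY : Refines X ι T Y) (i : Fin (k + 1))
    (s : ι i) : Y.tri ⟨i, s⟩ = (T i).tri s := by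
  unfold CTree.tri
  rw [hY.vtx]

theorem eqv_down_aux {k : ℕ} {X : PolyTree k} {ι : Fin (k + 1) → Type}
    {T : ∀ i, CTree (ι i)} {Y : CTree (Σ i, ι i)} (hY : Refines X ι T Y)
    {a b : (Σ i, ι i) × ℂ} (h : Relation.EqvGen Y.Glue a b) :
    Relation.EqvGen X.Glue (a.1.1, a.2) (b.1.1, b.2) := by
  induction h with
  | rel a b h =>
    obtain ⟨⟨i, s⟩, x⟩ := a
    obtain ⟨⟨i', s'⟩, x'⟩ := b
    rcases hY.down i s x i' s' x' h with ⟨h1, h2⟩ | h1
    · subst h1 h2
      exact Relation.EqvGen.refl _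
    · exact Relation.EqvGen.rel _ _ h1
  | refl a => exact Relation.EqvGen.refl _
  | symm a b _ ih => exact Relation.EqvGen.symm _ _ ih
  | trans a b c _ _ h1 h2 => exact Relation.EqvGen.trans _ _ _ h1 h2

theorem embeds_down {k : ℕ} {X : PolyTree k} {ι : Fin (k + 1) → Type} [∀ i, Fintype (ι i)]
    {T : ∀ i, CTree (ι i)}
    {r : ∀ i, Fin (X.m i + 3)} (hT : ∀ i, (T i).Tri (X.vtx i) (X.region i) (r i))
    {Y : CTree (Σ i, ι i)} (hY : Refines X ι T Y) {G : (Σ i, ι i) → ℂ → Space}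
    (hG : Y.Embeds G) {G' : Fin (k + 1) → ℂ → Space}
    (h : ∀ i s, ∀ x ∈ (T i).tri s, G' i x = G ⟨i, s⟩ x) : X.Embeds G' := by
  constructor
  · rintro ⟨i, x⟩ ⟨i', x'⟩ hg
    obtain ⟨s, s', hs, hs', hY'⟩ := hY.up i x i' x' hg
    change G' i x = G' i' x'
    rw [h i s x hs, h i' s' x' hs']
    exact hG.glued _ _ hY'
  · intro i
    rw [← (hT i).cover]
    refine LocallyFinite.continuousOn_iUnion (locallyFinite_of_finite _) (fun s => ?_)
      (fun s => ?_)
    · exact ((Set.finite_range ((T i).vtx s)).isCompact_convexHull (𝕜 := ℝ)).isClosed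
    · have hc := hG.cont ⟨i, s⟩
      rw [tri_eq_aux hY] at hc
      exact hc.congr (fun x hx => h i s x hx)
  · intro i j x hx y hy hxy
    rw [← (hT i).cover] at hx
    rw [← (hT j).cover] at hy
    obtain ⟨s, hs⟩ := Set.mem_iUnion.1 hx
    obtain ⟨t, ht⟩ := Set.mem_iUnion.1 hy
    rw [h i s x hs, h j t y ht] at hxy
    have := hG.inj ⟨i, s⟩ ⟨j, t⟩ x (by rw [tri_eq_aux hY]; exact hs) y
      (by rw [tri_eq_aux hY]; exact ht) hxy
    exact eqv_down_aux hY this

end Pool.Agent.H334
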