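import Pool.Agent.Helper334_Fold.CDefs
import Pool.Agent.Helper334_Fold.Q_sel_eq

set_option autoImplicit false

open Set


namespace Pool.Agent.H334

open Pool.Agent.Helper22.FC (SimplePolygon IsPaper cyc curve wnd side SimpleL)

/- TARGET. Plain-words proof:
glued: as in the embedding case (hY.up, h, hG.1). Isometry: let D_i be the crease set in the statement, x ∈ region i \ crs D_i and K = connectedComponentIn (region i \ crs D_i) x. x ∈ tri s for some s ((hT i).cover). Claim: K ⊆ tri s. The sets tri t (t : ι i) are closed, finitely many, cover K, and are pairwise disjoint on K: if z ∈ tri t ∩ tri t', t ≠ t',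
then (hT i).planar gives EqvGen (T i).Glue (t,z) (t',z), so (t,z) is a member of some Glue pair (otherwise its class is a singleton; induction on EqvGen), hence z is in the segment (vtx c 0, vtx c 1) for some c ≠ root: for the first member directly, for the second member by g0, g1 of Tri (both points of a Glue pair of T i are equal as complex numbers).
So z ∈ crs D_i, contradiction. K is preconnected, covered by the two closed sets tri s and ⋃_{t≠s} tri t, disjoint on K, so K ⊆ tri s (IsPreconnected.subset_left_of_subset_union needs open sets; use isPreconnected_closed_iff). So K is a preconnected subset of (Y.tri ⟨i,s⟩) \ crs (C ⟨i,s⟩) containing x (crs (C ⟨i,s⟩) ⊆ crs D_i), so K is contained in the component used in hG.2, and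
dist (G' i x) (G' i y) = dist (G ⟨i,s⟩ x) (G ⟨i,s⟩ y) = dist x y.
-/
theorem folded_down {k : ℕ} {X : PolyTree k} {ι : Fin (k + 1) → Type} [∀ i, Fintype (ι i)]
    {T : ∀ i, CTree (ι i)}
    {r : ∀ i, Fin (X.m i + 3)} (hT : ∀ i, (T i).Tri (X.vtx i) (X.region i) (r i))
    {Y : CTree (Σ i, ι i)} (hY : Refines X ι T Y) {C : (Σ i, ι i) → Set (ℂ × ℂ)}
    (hC : ∀ a, (C a).Finite) {G : (Σ i, ι i) → ℂ → Space}
    (hG : Y.Folded C G) {G' : Fin (k + 1) → ℂ → Space}
    (h : ∀ i s, ∀ x ∈ (T i).tri s, G' i x = G ⟨i, s⟩ x) :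
    X.Folded (fun i => (⋃ s, C ⟨i, s⟩) ∪
      ((fun s => ((T i).vtx s 0, (T i).vtx s 1)) '' {s | s ≠ (T i).root})) G' := by
  have hclosed : ∀ i t, IsClosed ((T i).tri t) := fun i t =>
    ((Set.finite_range _).isCompact_convexHull ℝ).isClosed
  have hS : ∀ i (a b : ι i × ℂ), Relation.EqvGen (T i).Glue a b → a = b ∨
      ((∃ c, c ≠ (T i).root ∧ a.2 ∈ segment ℝ ((T i).vtx c 0) ((T i).vtx c 1)) ∧
       (∃ c, c ≠ (T i).root ∧ b.2 ∈ segment ℝ ((T i).vtx c 0) ((T i).vtx c 1))) := by
    intro i a b hab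
    induction hab with
    | rel a b hab =>
      right
      obtain ⟨c, s, hc, hs, ha, hb⟩ := hab
      have h1 : AffineMap.lineMap ((T i).vtx c 0) ((T i).vtx c 1) s ∈
          segment ℝ ((T i).vtx c 0) ((T i).vtx c 1) := by
        rw [segment_eq_image_lineMap]
        exact ⟨s, hs, rfl⟩
      refine ⟨⟨c, hc, ?_⟩, ⟨c, hc, ?_⟩⟩
      · rw [ha]; exact h1
      · rw [hb]
        simp only [← (hT i).g0 c hc, ← (hT i).g1 c hc]
        exact h1
    | refl a => exact Or.inl rfl
    | symm a b _ ih =>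
      rcases ih with ih | ⟨h1, h2⟩
      · exact Or.inl ih.symm
      · exact Or.inr ⟨h2, h1⟩
    | trans a b c _ _ ih1 ih2 =>
      rcases ih1 with rfl | ⟨h1, h2⟩
      · exact ih2
      · rcases ih2 with rfl | ⟨h3, h4⟩
        · exact Or.inr ⟨h1, h2⟩
        · exact Or.inr ⟨h1, h4⟩
  refine ⟨?_, ?_⟩
  · rintro ⟨i, x⟩ ⟨i', x'⟩ hg
    obtain ⟨s, s', hs, hs', hg'⟩ := hY.up i x i' x' hg
    have h1 := hG.1 _ _ hg'
    show G' i x = G' i' x'
    rw [h i s x hs, h i' s' x' hs']
    exact h1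
  · intro i x hx y hy
    set D : Set (ℂ × ℂ) := (⋃ s, C ⟨i, s⟩) ∪
      ((fun s => ((T i).vtx s 0, (T i).vtx s 1)) '' {s | s ≠ (T i).root}) with hD
    set K := connectedComponentIn (X.region i \ crs D) x with hK
    have hKpre : IsPreconnected K := isPreconnected_connectedComponentIn
    have hKsub : K ⊆ X.region i \ crs D := connectedComponentIn_subset _ _
    have hxK : x ∈ K := mem_connectedComponentIn hx
    have hxr : x ∈ ⋃ t, (T i).tri t := by rw [(hT i).cover]; exact hx.1
    obtain ⟨s, hs⟩ := Set.mem_iUnion.1 hxr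
    have hdisj : ∀ t t' : ι i, t ≠ t' → ∀ z ∈ K, z ∈ (T i).tri t → z ∈ (T i).tri t' → False := by
      intro t t' htt z hz h1 h2
      have h3 := (hT i).planar t t' z h1 h2
      rcases hS i _ _ h3 with h4 | ⟨⟨c, hc, hz1⟩, _⟩
      · exact htt (congrArg Prod.fst h4)
      · apply (hKsub hz).2
        refine Set.mem_iUnion₂.2 ⟨((T i).vtx c 0, (T i).vtx c 1), ?_, hz1⟩
        exact Or.inr ⟨c, hc, rfl⟩
    have hKs : K ⊆ (T i).tri s := by
      intro z hz
      by_contra hzs
      have hc2 : IsClosed (⋃ t ∈ {t : ι i | t ≠ s}, (T i).tri t) :=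
        (Set.toFinite _).isClosed_biUnion (fun t _ => hclosed i t)
      have hcov : K ⊆ (T i).tri s ∪ ⋃ t ∈ {t : ι i | t ≠ s}, (T i).tri t := by
        intro w hw
        have hwr : w ∈ ⋃ t, (T i).tri t := by rw [(hT i).cover]; exact (hKsub hw).1
        obtain ⟨t, ht⟩ := Set.mem_iUnion.1 hwr
        by_cases hts : t = s
        · left; rw [← hts]; exact ht
        · right; exact Set.mem_iUnion₂.2 ⟨t, hts, ht⟩
      obtain ⟨w, hwK, hw1, hw2⟩ := isPreconnected_closed_iff.1 hKpre _ _ (hclosed i s) hc2 hcov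
        ⟨x, hxK, hs⟩ ⟨z, hz, (hcov hz).resolve_left hzs⟩
      obtain ⟨t, hts, hwt⟩ := Set.mem_iUnion₂.1 hw2
      exact hdisj t s hts w hwK hwt hw1
    have htri : Y.tri ⟨i, s⟩ = (T i).tri s := by
      unfold CTree.tri
      rw [hY.vtx]
    have hcrs : crs (C ⟨i, s⟩) ⊆ crs D := by
      apply Set.biUnion_subset_biUnion_left
      intro c hc
      exact Or.inl (Set.mem_iUnion.2 ⟨s, hc⟩)
    have hKF : K ⊆ Y.tri ⟨i, s⟩ \ crs (C ⟨i, s⟩) := by
      intro z hz
      refine ⟨?_, fun hz2 => (hKsub hz).2 (hcrs hz2)⟩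
      rw [htri]; exact hKs hz
    have hyK : y ∈ K := hy
    have hyc : y ∈ connectedComponentIn (Y.tri ⟨i, s⟩ \ crs (C ⟨i, s⟩)) x :=
      hKpre.subset_connectedComponentIn hxK hKF hyK
    have h1 := hG.2 ⟨i, s⟩ x (hKF hxK) y hyc
    rw [h i s x hs, h i s y (hKs hyK)]
    exact h1

end Pool.Agent.H334
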