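import Pool.Agent.Helper334_Fold.CDefs
import Pool.Agent.Helper334_Fold.Q_sel_eq

set_option autoImplicit false

open Set


namespace Pool.Agent.H334

open Pool.Agent.Helper22.FC (SimplePolygon IsPaper cyc curve wnd side SimpleL)

/- TARGET. Plain-words proof:
Icc 0 1 ×ˢ region i = ⋃ s, Icc 0 1 ×ˢ (T i).tri s, a finite union of closed sets; on each, F' agrees with F _ ⟨i,s⟩, continuous there by hF.1 (Y.tri ⟨i,s⟩ = (T i).tri s by hY.vtx). Ends: x ∈ tri s; F' 0 i x = F 0 ⟨i,s⟩ x = f i x by hF.2, the same at 1.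
-/
theorem joins_down {k : ℕ} {X : PolyTree k} {ι : Fin (k + 1) → Type} [∀ i, Fintype (ι i)]
    {T : ∀ i, CTree (ι i)}
    {r : ∀ i, Fin (X.m i + 3)} (hT : ∀ i, (T i).Tri (X.vtx i) (X.region i) (r i))
    {Y : CTree (Σ i, ι i)} (hY : Refines X ι T Y) {f g : Fin (k + 1) → ℂ → Space}
    {F : ℝ → (Σ i, ι i) → ℂ → Space} (hF : Y.Joins F (fun a => f a.1) (fun a => g a.1))
    {F' : ℝ → Fin (k + 1) → ℂ → Space}
    (h : ∀ t ∈ Icc (0 : ℝ) 1, ∀ i s, ∀ x ∈ (T i).tri s, F' t i x = F t ⟨i, s⟩ x) :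
    X.Joins F' f g := by
  have htri : ∀ i s, Y.tri ⟨i, s⟩ = (T i).tri s := by
    intro i s
    unfold CTree.tri
    rw [hY.vtx]
  refine ⟨?_, ?_⟩
  · intro i
    rw [← (hT i).cover, Set.prod_iUnion]
    apply LocallyFinite.continuousOn_iUnion (locallyFinite_of_finite _)
    · intro s
      exact isClosed_Icc.prod ((Set.finite_range ((T i).vtx s)).isCompact_convexHull (𝕜 := ℝ)).isClosed
    · intro s
      have h1 := hF.1 ⟨i, s⟩
      rw [htri] at h1
      refine h1.congr ?_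
      rintro ⟨t, x⟩ ⟨ht, hx⟩
      exact h t ht i s x hx
  · intro i x hx
    rw [← (hT i).cover, Set.mem_iUnion] at hx
    obtain ⟨s, hs⟩ := hx
    have h1 := hF.2 ⟨i, s⟩ x (by rw [htri]; exact hs)
    rw [h 0 (by norm_num) i s x hs, h 1 (by norm_num) i s x hs]
    exact h1

end Pool.Agent.H334
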