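import Pool.Agent.Helper334_Fold.CDefs
import Pool.Agent.Helper22.FC.Final

set_option autoImplicit false

open Set


namespace Pool.Agent.H334

open Pool.Agent.Helper22.FC (SimplePolygon IsPaper cyc curve wnd side SimpleL)

/- TARGET. Plain-words proof:
Write V = [x]++E++[y]++B, V1 = [x,y]++B, V2 = [x]++E++[y]. Use region_exists (Final.lean) for V1 and V2 to get P1 and P2. By region_eq (used in Final.lean as `region_eq wndFacts hU hw hcompact hregular hfrontier : ∀ z ∉ curve U, (z ∈ P ↔ wnd z U = 2 π)` or similar), for z off the three curves: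
z ∈ P iff wnd z V = 2π, z ∈ Pi iff wnd z Vi = 2π. Lists: cyc V = (edges of the path x E y) ++ (edges of the path y B x), cyc V2 = (edges of the path x E y) ++ [(y,x)], cyc V1 = (x,y) :: (edges of the path y B x) (see pth1329 and cyc_cons1329, pth_append1329 in T4.lean, as used in the proof of
split_values). Hence wnd z V = wnd z V1 + wnd z V2 for z not on segment x y (ang z x y + ang z y x = 0: ang_swap / wndFacts.swap). All three values are 0 or 2π, so for z off the curves: z ∈ P iff z ∈ P1 or z ∈ P2, and not both.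
Nowhere density: the union K of the three curves is a finite union of segments, closed with empty interior (a segment in ℂ is contained in a line, so its interior is empty; the union of finitely many closed sets with empty interior has empty interior: interior_union_isClosed_of_interior_empty or
Baire; K is also of measure zero), so an open set meets the complement of K.
P = P1 ∪ P2: interior P \ K ⊆ P1 ∪ P2 and is dense in interior P, P1 ∪ P2 is closed, so P = closure (interior P) ⊆ P1 ∪ P2; conversely interior Pi \ K ⊆ P, so Pi ⊆ P.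
interior P1 ∩ interior P2 = ∅ (otherwise it meets the complement of K, where z cannot be in both). If z ∈ P1 ∩ P2 and z ∈ interior P1, then z ∈ closure (interior P2) gives a point of interior P1 ∩ interior P2, contradiction; so z ∉ interior P1, i.e. z ∈ frontier P1 = curve V1, likewise z ∈ curve V2.
curve V1 ∩ curve V2 ⊆ segment x y: let z be in an edge e1 of V1 and an edge e2 of V2. If e1 = (x,y) or e2 = (y,x) then z ∈ segment x y. Otherwise e1 is an edge of the path y B x and e2 an edge of the path x E y, both are edges of V and e1 ≠ e2 (V is Nodup), so z is an end of both e1 and e2 by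
SimpleL V; the ends of e1 are in {y} ∪ B ∪ {x} and the ends of e2 in {x} ∪ E ∪ {y}; by Nodup z is x or y. Conversely segment x y ⊆ curve V1 ∩ curve V2 ⊆ P1 ∩ P2.
-/
theorem split_reg {x y : ℂ} {E B : List ℂ} (hE : E ≠ []) (hB : B ≠ [])
    (hV : SimpleL ([x] ++ E ++ [y] ++ B)) (h1 : SimpleL ([x, y] ++ B))
    (h2 : SimpleL ([x] ++ E ++ [y]))
    (hw : ∀ z, z ∉ curve ([x] ++ E ++ [y] ++ B) →
      wnd z ([x] ++ E ++ [y] ++ B) = 0 ∨ wnd z ([x] ++ E ++ [y] ++ B) = 2 * Real.pi)
    (hw1 : ∀ z, z ∉ curve ([x, y] ++ B) →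
      wnd z ([x, y] ++ B) = 0 ∨ wnd z ([x, y] ++ B) = 2 * Real.pi)
    (hw2 : ∀ z, z ∉ curve ([x] ++ E ++ [y]) →
      wnd z ([x] ++ E ++ [y]) = 0 ∨ wnd z ([x] ++ E ++ [y]) = 2 * Real.pi)
    {P : Set ℂ}
    (hP : IsCompact P ∧ closure (interior P) = P ∧ frontier P = curve ([x] ++ E ++ [y] ++ B)) :
    ∃ P1 P2 : Set ℂ,
      (IsCompact P1 ∧ closure (interior P1) = P1 ∧ frontier P1 = curve ([x, y] ++ B)) ∧
      (IsCompact P2 ∧ closure (interior P2) = P2 ∧ frontier P2 = curve ([x] ++ E ++ [y])) ∧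
      P = P1 ∪ P2 ∧ P1 ∩ P2 = segment ℝ x y := by
  have hpi := Real.pi_pos
  obtain ⟨P1, c1, r1, f1⟩ := Pool.Agent.Helper22.FC.region_exists h1 hw1
  obtain ⟨P2, c2, r2, f2⟩ := Pool.Agent.Helper22.FC.region_exists h2 hw2
  obtain ⟨c0, r0, f0⟩ := hP
  refine ⟨P1, P2, ⟨c1, r1, f1⟩, ⟨c2, r2, f2⟩, ?_⟩
  have q0 := Pool.Agent.Helper22.FC.region_eq Pool.Agent.Helper22.FC.wndFacts hV hw c0 r0 f0
  have q1 := Pool.Agent.Helper22.FC.region_eq Pool.Agent.Helper22.FC.wndFacts h1 hw1 c1 r1 f1
  have q2 := Pool.Agent.Helper22.FC.region_eq Pool.Agent.Helper22.FC.wndFacts h2 hw2 c2 r2 f2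
  obtain ⟨EA, hEA⟩ : ∃ L, L = Pool.Agent.Helper22.FC.pth1329 (x :: (E ++ [y])) := ⟨_, rfl⟩
  obtain ⟨EB, hEB⟩ : ∃ L, L = Pool.Agent.Helper22.FC.pth1329 (y :: (B ++ [x])) := ⟨_, rfl⟩
  have cV : cyc ([x] ++ E ++ [y] ++ B) = EA ++ EB := by
    have e1 : [x] ++ E ++ [y] ++ B = x :: (E ++ y :: B) := by simp
    have e2 : x :: (E ++ y :: B ++ [x]) = (x :: E) ++ y :: (B ++ [x]) := by simp
    rw [e1, Pool.Agent.Helper22.FC.cyc_cons1329, e2, Pool.Agent.Helper22.FC.pth_append1329, hEA, hEB]
    simp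
  have cV1 : cyc ([x, y] ++ B) = (x, y) :: EB := by
    have e1 : [x, y] ++ B = x :: (y :: B) := by simp
    rw [e1, Pool.Agent.Helper22.FC.cyc_cons1329, hEB]
    rfl
  have cV2 : cyc ([x] ++ E ++ [y]) = EA ++ [(y, x)] := by
    have e1 : [x] ++ E ++ [y] = x :: (E ++ [y]) := by simp
    have e2 : x :: (E ++ [y] ++ [x]) = (x :: E) ++ y :: [x] := by simp
    rw [e1, Pool.Agent.Helper22.FC.cyc_cons1329, e2, Pool.Agent.Helper22.FC.pth_append1329, hEA]
    simp [Pool.Agent.Helper22.FC.pth1329]
  have mV : ∀ z, z ∈ curve ([x] ++ E ++ [y] ++ B) ↔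
      (∃ e ∈ EA, z ∈ segment ℝ e.1 e.2) ∨ (∃ e ∈ EB, z ∈ segment ℝ e.1 e.2) := by
    intro z
    change (∃ e ∈ cyc ([x] ++ E ++ [y] ++ B), z ∈ segment ℝ e.1 e.2) ↔ _
    rw [cV]
    simp only [List.mem_append, or_and_right, exists_or]
  have m1 : ∀ z, z ∈ curve ([x, y] ++ B) ↔
      z ∈ segment ℝ x y ∨ (∃ e ∈ EB, z ∈ segment ℝ e.1 e.2) := by
    intro z
    change (∃ e ∈ cyc ([x, y] ++ B), z ∈ segment ℝ e.1 e.2) ↔ _
    rw [cV1]
    simp only [List.mem_cons, or_and_right, exists_or, exists_eq_left]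
  have m2 : ∀ z, z ∈ curve ([x] ++ E ++ [y]) ↔
      (∃ e ∈ EA, z ∈ segment ℝ e.1 e.2) ∨ z ∈ segment ℝ x y := by
    intro z
    change (∃ e ∈ cyc ([x] ++ E ++ [y]), z ∈ segment ℝ e.1 e.2) ↔ _
    rw [cV2]
    simp only [List.mem_append, List.mem_singleton, or_and_right, exists_or, exists_eq_left]
    rw [segment_symm ℝ y x]
  -- distinctness
  have hnd : (x :: (E ++ y :: B)).Nodup := by
    have := hV.2.1
    simpa using this
  have hx : x ∉ E ++ y :: B := (List.nodup_cons.mp hnd).1
  have hnd2 : (E ++ y :: B).Nodup := (List.nodup_cons.mp hnd).2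
  have hdis : ∀ v ∈ E, v ∉ y :: B := fun v hv hv' => (List.disjoint_of_nodup_append hnd2) hv hv'
  have hAv : ∀ e ∈ EA, e.1 ∈ x :: E ∧ e.2 ∈ E ++ [y] := by
    intro e he
    rw [hEA] at he
    refine ⟨?_, Pool.Agent.Helper22.FC.pth_snd1329 he⟩
    rw [← List.cons_append] at he
    exact Pool.Agent.Helper22.FC.pth_fst1329 he
  have hBv : ∀ e ∈ EB, e.1 ∈ y :: B ∧ e.2 ∈ B ++ [x] := by
    intro e he
    rw [hEB] at he
    refine ⟨?_, Pool.Agent.Helper22.FC.pth_snd1329 he⟩
    rw [← List.cons_append] at he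
    exact Pool.Agent.Helper22.FC.pth_fst1329 he
  have hAB : ∀ e ∈ EA, ∀ e' ∈ EB, e ≠ e' := by
    rintro e he e' he' rfl
    have g1 := (hAv e he).1
    have g2 := (hBv e he').1
    rcases List.mem_cons.mp g1 with g3 | g3
    · rw [g3] at g2
      exact hx (List.mem_append_right _ g2)
    · exact hdis _ g3 g2
  have hint : ∀ e ∈ EA, ∀ e' ∈ EB, ∀ z, z ∈ segment ℝ e.1 e.2 → z ∈ segment ℝ e'.1 e'.2 →
      z = x ∨ z = y := by
    intro e he e' he' z hz hz'
    have h := hV.2.2 e (by rw [cV]; exact List.mem_append_left _ he) e'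
      (by rw [cV]; exact List.mem_append_right _ he') (hAB e he e' he') ⟨hz, hz'⟩
    have g1 := h.1
    have g2 := h.2
    have g3 : z ∈ x :: (E ++ [y]) := by
      rcases g1 with g1 | g1
      · rw [g1]
        have := (hAv e he).1
        rw [← List.cons_append]
        exact List.mem_append_left _ this
      · rw [Set.mem_singleton_iff] at g1
        rw [g1]
        exact List.mem_cons_of_mem _ (hAv e he).2
    have g4 : z ∈ y :: (B ++ [x]) := by
      rcases g2 with g2 | g2
      · rw [g2]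
        have := (hBv e' he').1
        rw [← List.cons_append]
        exact List.mem_append_left _ this
      · rw [Set.mem_singleton_iff] at g2
        rw [g2]
        exact List.mem_cons_of_mem _ (hBv e' he').2
    rcases List.mem_cons.mp g3 with g5 | g5
    · exact Or.inl g5
    rcases List.mem_append.mp g5 with g6 | g6
    · rw [← List.cons_append] at g4
      rcases List.mem_append.mp g4 with g7 | g7
      · exact absurd g7 (hdis z g6)
      · left; simpa using g7
    · right; simpa using g6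
  -- winding angles add up
  have hadd : ∀ z, z ∉ segment ℝ x y → wnd z ([x] ++ E ++ [y] ++ B) =
      wnd z ([x, y] ++ B) + wnd z ([x] ++ E ++ [y]) := by
    intro z hz
    have hs := Pool.Agent.Helper22.FC.wndFacts.swap hz
    unfold wnd
    rw [cV, cV1, cV2]
    simp only [List.map_append, List.map_cons, List.map_nil, List.sum_append, List.sum_cons,
      List.sum_nil, hs]
    ring
  -- the union of the curves
  have k1 : IsClosed (curve ([x, y] ++ B)) := Pool.Agent.Helper22.FC.wndFacts.closed _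
  have k2 : IsClosed (curve ([x] ++ E ++ [y])) := Pool.Agent.Helper22.FC.wndFacts.closed _
  have i1 : interior (curve ([x, y] ++ B)) = ∅ := by rw [← f1]; exact interior_frontier c1.isClosed
  have i2 : interior (curve ([x] ++ E ++ [y])) = ∅ := by
    rw [← f2]; exact interior_frontier c2.isClosed
  obtain ⟨K, hK⟩ : ∃ K, K = curve ([x, y] ++ B) ∪ curve ([x] ++ E ++ [y]) := ⟨_, rfl⟩
  have iK : interior K = ∅ := by
    rw [hK, interior_union_isClosed_of_interior_empty k1 i2, i1]
  have dK : Dense Kᶜ := interior_eq_empty_iff_dense_compl.1 iK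
  have hoff : ∀ z, z ∉ K → (z ∈ P ↔ z ∈ P1 ∨ z ∈ P2) ∧ ¬ (z ∈ P1 ∧ z ∈ P2) := by
    intro z hz
    have n1 : z ∉ curve ([x, y] ++ B) := fun h => hz (by rw [hK]; exact Or.inl h)
    have n2 : z ∉ curve ([x] ++ E ++ [y]) := fun h => hz (by rw [hK]; exact Or.inr h)
    have ns : z ∉ segment ℝ x y := fun h => n1 ((m1 z).2 (Or.inl h))
    have n0 : z ∉ curve ([x] ++ E ++ [y] ++ B) := by
      intro h
      rcases (mV z).1 h with h | h
      · exact n2 ((m2 z).2 (Or.inl h))
      · exact n1 ((m1 z).2 (Or.inr h))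
    rw [q0 z n0, q1 z n1, q2 z n2]
    have a0 := hadd z ns
    rcases hw z n0 with b0 | b0 <;> rcases hw1 z n1 with b1 | b1 <;>
      rcases hw2 z n2 with b2 | b2 <;> rw [b0, b1, b2] at a0 <;> rw [b0, b1, b2] <;>
      (try (exfalso; linarith)) <;>
      (refine ⟨⟨fun h => ?_, fun h => ?_⟩, fun h => ?_⟩) <;>
      (try (exfalso; linarith)) <;> (try rfl) <;> (try (exact Or.inl rfl)) <;>
      (try (exact Or.inr rfl)) <;> (try (rcases h with h | h <;> exfalso <;> linarith)) <;>
      (try (obtain ⟨h, h'⟩ := h; exfalso; linarith))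
  have hcl : ∀ {S T : Set ℂ}, closure (interior S) = S → IsClosed T →
      (∀ z ∈ S, z ∉ K → z ∈ T) → S ⊆ T := by
    intro S T hS hT h
    have g1 : interior S ⊆ closure (interior S ∩ Kᶜ) :=
      dK.open_subset_closure_inter isOpen_interior
    have g2 : interior S ∩ Kᶜ ⊆ T := fun z hz => h z (interior_subset hz.1) hz.2
    have g3 : interior S ⊆ T := g1.trans (closure_minimal g2 hT)
    calc S = closure (interior S) := hS.symm
      _ ⊆ T := closure_minimal g3 hT
  have hdisj : ∀ z, z ∈ interior P1 → z ∈ interior P2 → False := by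
    intro z z1 z2
    obtain ⟨w, ⟨w1, w2⟩, w3⟩ := dK.inter_open_nonempty (interior P1 ∩ interior P2)
      (isOpen_interior.inter isOpen_interior) ⟨z, z1, z2⟩
    exact (hoff w w3).2 ⟨interior_subset w1, interior_subset w2⟩
  refine ⟨?_, ?_⟩
  · apply Set.Subset.antisymm
    · exact hcl r0 (c1.isClosed.union c2.isClosed) fun z hz hzK => (hoff z hzK).1.1 hz
    · refine Set.union_subset ?_ ?_
      · exact hcl r1 c0.isClosed fun z hz hzK => (hoff z hzK).1.2 (Or.inl hz)
      · exact hcl r2 c0.isClosed fun z hz hzK => (hoff z hzK).1.2 (Or.inr hz)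
  · apply Set.Subset.antisymm
    · rintro z ⟨z1, z2⟩
      have t1 : z ∉ interior P1 := by
        intro h
        have : z ∈ closure (interior P2) := by rw [r2]; exact z2
        obtain ⟨w, w1, w2⟩ := mem_closure_iff.1 this (interior P1) isOpen_interior h
        exact hdisj w w1 w2
      have t2 : z ∉ interior P2 := by
        intro h
        have : z ∈ closure (interior P1) := by rw [r1]; exact z1
        obtain ⟨w, w1, w2⟩ := mem_closure_iff.1 this (interior P2) isOpen_interior h
        exact hdisj w w2 w1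
      have u1 : z ∈ curve ([x, y] ++ B) := by
        rw [← f1, c1.isClosed.frontier_eq]; exact ⟨z1, t1⟩
      have u2 : z ∈ curve ([x] ++ E ++ [y]) := by
        rw [← f2, c2.isClosed.frontier_eq]; exact ⟨z2, t2⟩
      rcases (m1 z).1 u1 with h | ⟨e', he', hz'⟩
      · exact h
      rcases (m2 z).1 u2 with ⟨e, he, hz⟩ | h
      · rcases hint e he e' he' z hz hz' with h | h
        · rw [h]; exact left_mem_segment ℝ _ _
        · rw [h]; exact right_mem_segment ℝ _ _
      · exact h
    · intro z hz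
      refine ⟨c1.isClosed.frontier_subset ?_, c2.isClosed.frontier_subset ?_⟩
      · rw [f1]; exact (m1 z).2 (Or.inl hz)
      · rw [f2]; exact (m2 z).2 (Or.inr hz)

end Pool.Agent.H334
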