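import Pool.Agent.Helper334_Fold.CDefs
import Pool.Agent.Helper22.FC.Final

set_option autoImplicit false

open Set


namespace Pool.Agent.H334

open Pool.Agent.Helper22.FC (SimplePolygon IsPaper cyc curve wnd side SimpleL)

/-- normalised barycentric coordinate -/
noncomputable def pt4c (a b c p q x : ℂ) : ℝ := Pool.Agent.Helper22.FC.side p q x / Pool.Agent.Helper22.FC.side a b c

theorem pt4_lin (a b c p q : ℂ) {x y : ℂ} {s t : ℝ} (h : s + t = 1) :
    pt4c a b c p q (s • x + t • y) = s * pt4c a b c p q x + t * pt4c a b c p q y := by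
  have hs : s = 1 - t := by linarith
  subst hs
  unfold pt4c
  rw [← mul_div_assoc, ← mul_div_assoc, ← add_div]
  congr 1
  simp only [Pool.Agent.Helper22.FC.side_eq', Complex.add_im, Complex.add_re, Complex.real_smul, Complex.mul_re,
      Complex.mul_im, Complex.ofReal_re, Complex.ofReal_im]
  ring

theorem pt4_cont (a b c p q : ℂ) : Continuous (pt4c a b c p q) := by
  unfold pt4c
  refine Continuous.div_const ?_ _
  have : side p q = fun x : ℂ => (x.im - p.im) * (q.re - p.re) - (x.re - p.re) * (q.im - p.im) := by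
    funext x
    exact Pool.Agent.Helper22.FC.side_eq' p q x
  rw [this]
  fun_prop

theorem pt4_self {a b c : ℂ} (hs : side a b c ≠ 0) : pt4c a b c a b c = 1 ∧ pt4c a b c b c a = 1 ∧ pt4c a b c c a b = 1 := by
  have h1 : side b c a = side a b c := by simp only [Pool.Agent.Helper22.FC.side_eq']; ring
  have h2 : side c a b = side a b c := by simp only [Pool.Agent.Helper22.FC.side_eq']; ring
  unfold pt4c
  rw [h1, h2]
  exact ⟨div_self hs, div_self hs, div_self hs⟩

theorem pt4_zero (a b c p q : ℂ) : pt4c a b c p q p = 0 ∧ pt4c a b c p q q = 0 := by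
  unfold pt4c
  have h1 : side p q p = 0 := by simp only [Pool.Agent.Helper22.FC.side_eq']; ring
  have h2 : side p q q = 0 := by simp only [Pool.Agent.Helper22.FC.side_eq']; ring
  rw [h1, h2]
  simp

theorem pt4_half (a b c p q : ℂ) : Convex ℝ {x | 0 ≤ pt4c a b c p q x} := by
  intro x hx y hy s t hs ht hst
  show 0 ≤ pt4c a b c p q (s • x + t • y)
  rw [pt4_lin a b c p q hst]
  have hx' : 0 ≤ pt4c a b c p q x := hx
  have hy' : 0 ≤ pt4c a b c p q y := hy
  positivity

theorem pt4_hull {a b c : ℂ} (hs : side a b c ≠ 0) {x : ℂ} :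
    x ∈ convexHull ℝ ({a, b, c} : Set ℂ) ↔ 0 ≤ pt4c a b c b c x ∧ 0 ≤ pt4c a b c c a x ∧ 0 ≤ pt4c a b c a b x := by
  constructor
  · intro hx
    obtain ⟨h1, h2, h3⟩ := pt4_self hs
    have z1 := pt4_zero a b c a b
    have z2 := pt4_zero a b c b c
    have z3 := pt4_zero a b c c a
    have hsub : convexHull ℝ ({a, b, c} : Set ℂ) ⊆
        {x | 0 ≤ pt4c a b c b c x} ∩ ({x | 0 ≤ pt4c a b c c a x} ∩ {x | 0 ≤ pt4c a b c a b x}) := by
      refine convexHull_min ?_ ((pt4_half a b c b c).inter ((pt4_half a b c c a).inter (pt4_half a b c a b)))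
      intro y hy
      simp only [Set.mem_insert_iff, Set.mem_singleton_iff] at hy
      simp only [Set.mem_inter_iff, Set.mem_ofPred_eq]
      rcases hy with rfl | rfl | rfl
      · rw [h2, z3.2, z1.1]; norm_num
      · rw [z2.1, h3, z1.2]; norm_num
      · rw [z2.2, z3.1, h1]; norm_num
    obtain ⟨g1, g2, g3⟩ := hsub hx
    exact ⟨g1, g2, g3⟩
  · rintro ⟨h1, h2, h3⟩
    exact Pool.Agent.Helper22.FC.tri_sub_hull hs h1 h2 h3

/-- a point of the interior of a set on which `f ≥ 0` has `f > 0` if `f v = 1` for some `v` (`f` affine) -/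
theorem pt4_int {a b c p q v x : ℂ} {H : Set ℂ} (hH : ∀ y ∈ H, 0 ≤ pt4c a b c p q y) (hv : pt4c a b c p q v = 1)
    (hx : x ∈ interior H) : 0 < pt4c a b c p q x := by
  by_contra hcon
  push Not at hcon
  have hcont : Continuous (fun t : ℝ => (1 + t) • x + (-t) • v) := by fun_prop
  have h0 : (fun t : ℝ => (1 + t) • x + (-t) • v) 0 = x := by simp
  have hnb : (fun t : ℝ => (1 + t) • x + (-t) • v) ⁻¹' (interior H) ∈ nhds (0 : ℝ) := by
    refine hcont.continuousAt.preimage_mem_nhds ?_
    have h00 : ((1 : ℝ) + 0) • x + (-(0 : ℝ)) • v = x := h0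
    rw [h00]
    exact isOpen_interior.mem_nhds hx
  obtain ⟨ε, hε, hball⟩ := Metric.mem_nhds_iff.1 hnb
  have hmem : ε / 2 ∈ Metric.ball (0 : ℝ) ε := by
    rw [Metric.mem_ball, Real.dist_eq, sub_zero, abs_of_pos (by positivity)]
    linarith
  have h1 := hH _ (interior_subset (hball hmem))
  simp only at h1
  rw [pt4_lin a b c p q (by ring), hv] at h1
  have h2 : (1 + ε / 2) * pt4c a b c p q x ≤ 0 := mul_nonpos_of_nonneg_of_nonpos (by positivity) hcon
  linarith

theorem pt4_seg {a b c p q x : ℂ} (h : x ∈ segment ℝ p q) : pt4c a b c p q x = 0 := by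
  unfold pt4c
  rw [Pool.Agent.Helper22.FC.side_seg h, zero_div]

theorem pt4_curve {a b c x : ℂ} : x ∈ curve [a, b, c] ↔ x ∈ segment ℝ a b ∨ x ∈ segment ℝ b c ∨ x ∈ segment ℝ c a := by
  have hc : cyc [a, b, c] = [(a, b), (b, c), (c, a)] := rfl
  unfold curve
  rw [hc]
  simp only [List.mem_cons, List.not_mem_nil, or_false, Set.mem_ofPred_eq]
  constructor
  · rintro ⟨e, rfl | rfl | rfl, he⟩
    · exact Or.inl he
    · exact Or.inr (Or.inl he)
    · exact Or.inr (Or.inr he)
  · rintro (h | h | h)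
    · exact ⟨_, Or.inl rfl, h⟩
    · exact ⟨_, Or.inr (Or.inl rfl), h⟩
    · exact ⟨_, Or.inr (Or.inr rfl), h⟩

theorem pt4_indep {a b c : ℂ} (hs : side a b c ≠ 0) : AffineIndependent ℝ ![a, b, c] := by
  rw [affineIndependent_iff_not_collinear_set]
  intro hcol
  rw [collinear_iff_of_mem (p₀ := a) (by simp)] at hcol
  obtain ⟨v, hv⟩ := hcol
  obtain ⟨r1, h1⟩ := hv b (by simp)
  obtain ⟨r2, h2⟩ := hv c (by simp)
  apply hs
  rw [Pool.Agent.Helper22.FC.side_eq', h1, h2]
  simp only [vadd_eq_add, Complex.add_im, Complex.add_re, Complex.real_smul, Complex.mul_re,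
      Complex.mul_im, Complex.ofReal_re, Complex.ofReal_im]
  ring

theorem pt4_region {a b c : ℂ} (hs : side a b c ≠ 0) :
    IsCompact (convexHull ℝ ({a, b, c} : Set ℂ)) ∧ closure (interior (convexHull ℝ ({a, b, c} : Set ℂ))) = convexHull ℝ ({a, b, c} : Set ℂ) ∧
      frontier (convexHull ℝ ({a, b, c} : Set ℂ)) = curve [a, b, c] := by
  have hcomp : IsCompact (convexHull ℝ ({a, b, c} : Set ℂ)) := Set.Finite.isCompact_convexHull (𝕜 := ℝ) (Set.toFinite ({a, b, c} : Set ℂ))
  have hone : ∀ x, pt4c a b c b c x + pt4c a b c c a x + pt4c a b c a b x = 1 := fun x =>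
    Pool.Agent.Helper22.FC.bary_one (x := x) hs
  have heq : ∀ x, x = ((pt4c a b c b c x : ℝ) : ℂ) * a + ((pt4c a b c c a x : ℝ) : ℂ) * b + ((pt4c a b c a b x : ℝ) : ℂ) * c := fun x =>
    Pool.Agent.Helper22.FC.bary_eq (x := x) hs
  obtain ⟨s1, s2, s3⟩ := pt4_self hs
  have hint : ∀ x, x ∈ interior (convexHull ℝ ({a, b, c} : Set ℂ)) ↔
      0 < pt4c a b c b c x ∧ 0 < pt4c a b c c a x ∧ 0 < pt4c a b c a b x := by
    intro x
    constructor
    · intro hx
      exact ⟨pt4_int (fun y hy => ((pt4_hull hs).1 hy).1) s2 hx, pt4_int (fun y hy => ((pt4_hull hs).1 hy).2.1) s3 hx,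
        pt4_int (fun y hy => ((pt4_hull hs).1 hy).2.2) s1 hx⟩
    · intro hx
      have hopen : IsOpen ({x | 0 < pt4c a b c b c x} ∩ ({x | 0 < pt4c a b c c a x} ∩ {x | 0 < pt4c a b c a b x})) :=
        (isOpen_lt continuous_const (pt4_cont a b c b c)).inter
          ((isOpen_lt continuous_const (pt4_cont a b c c a)).inter (isOpen_lt continuous_const (pt4_cont a b c a b)))
      refine interior_maximal ?_ hopen ⟨hx.1, hx.2.1, hx.2.2⟩
      rintro y ⟨h1, h2, h3⟩
      exact (pt4_hull hs).2 ⟨le_of_lt h1, le_of_lt h2, le_of_lt h3⟩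
  refine ⟨hcomp, ?_, ?_⟩
  · rw [(convex_convexHull ℝ ({a, b, c} : Set ℂ)).closure_interior_eq_closure_of_nonempty_interior]
    · exact hcomp.isClosed.closure_eq
    · refine ⟨(1 / 2 : ℝ) • ((1 / 2 : ℝ) • a + (1 / 2 : ℝ) • b) + (1 / 2 : ℝ) • c, (hint _).2 ?_⟩
      have z1 := pt4_zero a b c a b
      have z2 := pt4_zero a b c b c
      have z3 := pt4_zero a b c c a
      refine ⟨?_, ?_, ?_⟩
      · rw [pt4_lin _ _ _ _ _ (by norm_num), pt4_lin _ _ _ _ _ (by norm_num), s2, z2.1, z2.2]; norm_num
      · rw [pt4_lin _ _ _ _ _ (by norm_num), pt4_lin _ _ _ _ _ (by norm_num), s3, z3.1, z3.2]; norm_num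
      · rw [pt4_lin _ _ _ _ _ (by norm_num), pt4_lin _ _ _ _ _ (by norm_num), s1, z1.1, z1.2]; norm_num
  · rw [frontier, hcomp.isClosed.closure_eq]
    ext x
    rw [Set.mem_sdiff, hint, pt4_hull hs, pt4_curve]
    constructor
    · rintro ⟨⟨h1, h2, h3⟩, hn⟩
      rcases h1.eq_or_lt with e1 | e1
      · refine Or.inr (Or.inl ?_)
        refine Pool.Agent.Helper22.FC.seg_of_coord0 h2 h3 (by have := hone x; rw [← e1] at this; linarith) ?_
        have he := heq x
        rw [← e1] at he
        simpa using he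
      rcases h2.eq_or_lt with e2 | e2
      · refine Or.inr (Or.inr ?_)
        refine Pool.Agent.Helper22.FC.seg_of_coord0 h3 h1 (by have := hone x; rw [← e2] at this; linarith) ?_
        have he := heq x
        rw [← e2] at he
        rw [add_comm]
        simpa using he
      rcases h3.eq_or_lt with e3 | e3
      · refine Or.inl ?_
        refine Pool.Agent.Helper22.FC.seg_of_coord0 h1 h2 (by have := hone x; rw [← e3] at this; linarith) ?_
        have he := heq x
        rw [← e3] at he
        simpa using he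
      exact absurd ⟨e1, e2, e3⟩ hn
    · intro hx
      have hmem : x ∈ convexHull ℝ ({a, b, c} : Set ℂ) := by
        have hconv := convex_convexHull ℝ ({a, b, c} : Set ℂ)
        have ha : a ∈ convexHull ℝ ({a, b, c} : Set ℂ) := subset_convexHull ℝ _ (by simp)
        have hb : b ∈ convexHull ℝ ({a, b, c} : Set ℂ) := subset_convexHull ℝ _ (by simp)
        have hc : c ∈ convexHull ℝ ({a, b, c} : Set ℂ) := subset_convexHull ℝ _ (by simp)
        rcases hx with hx | hx | hx
        · exact hconv.segment_subset ha hb hx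
        · exact hconv.segment_subset hb hc hx
        · exact hconv.segment_subset hc ha hx
      refine ⟨(pt4_hull hs).1 hmem, ?_⟩
      rintro ⟨h1, h2, h3⟩
      rcases hx with hx | hx | hx
      · rw [pt4_seg hx] at h3
        exact lt_irrefl _ h3
      · rw [pt4_seg hx] at h1
        exact lt_irrefl _ h1
      · rw [pt4_seg hx] at h2
        exact lt_irrefl _ h2

/- TARGET. Plain-words proof:
side a b c ≠ 0 (tri_ne in Build.lean, after rotating the list: SimpleL.rotate). So a, b, c are affinely independent (not collinear: if c - a = t (b - a) or b = a then side a b c = 0). Let H = convexHull {a,b,c}. H is compact (finite set) and convex with nonempty interior, so closure (interior H) = H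
(Convex.closure_interior_eq_closure_of_nonempty_interior). frontier H = H \ interior H = curve [a,b,c] = segment a b ∪ segment b c ∪ segment c a: interior of the convex hull of an affine basis = points with all barycentric coordinates positive (AffineBasis.interior_convexHull), or with the explicit
coordinates side b c z / side a b c, side c a z / side a b c, side a b z / side a b c of T3.lean (bary_eq, bary_one, tri_sub_hull, Co733 in T2.lean). Then region_unique (Final.lean) for U = [a,b,c] with hw gives P = H.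
-/
theorem tri_reg {a b c : ℂ} (h : SimpleL [a, b, c])
    (hw : ∀ z, z ∉ curve [a, b, c] → wnd z [a, b, c] = 0 ∨ wnd z [a, b, c] = 2 * Real.pi)
    {P : Set ℂ}
    (hP : IsCompact P ∧ closure (interior P) = P ∧ frontier P = curve [a, b, c]) :
    AffineIndependent ℝ ![a, b, c] ∧ P = convexHull ℝ {a, b, c} := by
  have h' : SimpleL [b, c, a] := h.rotate 1
  have hs := Pool.Agent.Helper22.FC.tri_ne h'
  refine ⟨pt4_indep hs, ?_⟩
  exact Pool.Agent.Helper22.FC.region_unique h hw (pt4_region hs) hP

end Pool.Agent.H334
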