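import Pool.Agent.Helper334_Fold.CDefs
import Pool.Agent.Helper22.FC.Final
import Pool.Agent.Helper334_Fold.Q_split_reg
import Pool.Agent.Helper334_Fold.Q_tri_reg

set_option autoImplicit false

open Set


namespace Pool.Agent.H334

open Pool.Agent.Helper22.FC (SimplePolygon IsPaper cyc curve wnd side SimpleL)

theorem pg5_seg2 {a b c x : ℂ} (hs : side a b c ≠ 0) (h1 : x ∈ segment ℝ a b)
    (h2 : x ∈ segment ℝ b c) : x = b := by
  have h0 := Helper22.FC.side_seg h1
  obtain ⟨r, t, hr, ht, hrt, rfl⟩ := h2
  have h3 : side a b (r • b + t • c) = t * side a b c := by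
    have hr' : r = 1 - t := by linarith
    subst hr'
    simp only [Helper22.FC.side_eq', Complex.add_re, Complex.add_im, Complex.real_smul,
      Complex.mul_re, Complex.mul_im, Complex.ofReal_re, Complex.ofReal_im]
    ring
  rw [h3] at h0
  rcases mul_eq_zero.1 h0 with h | h
  · subst h
    have : r = 1 := by linarith
    subst this
    simp
  · exact absurd h hs

theorem pg5_simple_tri {a b c : ℂ} (hs : side a b c ≠ 0) : SimpleL [a, b, c] := by
  have hs1 : side b c a ≠ 0 := by
    intro h; apply hs; rw [← h]; simp only [Helper22.FC.side_eq']; ring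
  have hs2 : side c a b ≠ 0 := by
    intro h; apply hs; rw [← h]; simp only [Helper22.FC.side_eq']; ring
  have hab : a ≠ b := by
    rintro rfl; apply hs; simp only [Helper22.FC.side_eq']; ring
  have hbc : b ≠ c := by
    rintro rfl; apply hs; simp only [Helper22.FC.side_eq']; ring
  have hac : a ≠ c := by
    rintro rfl; apply hs; simp only [Helper22.FC.side_eq']; ring
  refine ⟨by simp, by simp [hab, hbc, hac], ?_⟩
  have hcyc : cyc [a, b, c] = [(a, b), (b, c), (c, a)] := by simp [cyc]
  have k1 : segment ℝ a b ∩ segment ℝ b c ⊆ ({b} : Set ℂ) := fun x hx => pg5_seg2 hs hx.1 hx.2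
  have k2 : segment ℝ b c ∩ segment ℝ c a ⊆ ({c} : Set ℂ) := fun x hx => pg5_seg2 hs1 hx.1 hx.2
  have k3 : segment ℝ c a ∩ segment ℝ a b ⊆ ({a} : Set ℂ) := fun x hx => pg5_seg2 hs2 hx.1 hx.2
  intro e he e' he' hne
  rw [hcyc] at he he'
  simp only [List.mem_cons, List.not_mem_nil, or_false] at he he'
  rcases he with rfl | rfl | rfl <;> rcases he' with rfl | rfl | rfl
  · exact absurd rfl hne
  · exact fun x hx => by have := k1 hx; rw [Set.mem_singleton_iff] at this; subst this; simp
  · exact fun x hx => by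
      have := k3 ⟨hx.2, hx.1⟩; rw [Set.mem_singleton_iff] at this; subst this; simp
  · exact fun x hx => by
      have := k1 ⟨hx.2, hx.1⟩; rw [Set.mem_singleton_iff] at this; subst this; simp
  · exact absurd rfl hne
  · exact fun x hx => by have := k2 hx; rw [Set.mem_singleton_iff] at this; subst this; simp
  · exact fun x hx => by have := k3 hx; rw [Set.mem_singleton_iff] at this; subst this; simp
  · exact fun x hx => by
      have := k2 ⟨hx.2, hx.1⟩; rw [Set.mem_singleton_iff] at this; subst this; simp
  · exact absurd rfl hne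

theorem pg5_main {V : List ℂ} (hV : SimpleL V) :
    ∃ s : ℝ, (s = 1 ∨ s = -1) ∧
      (∀ x, x ∉ curve V → wnd x V = 0 ∨ wnd x V = 2 * Real.pi * s) ∧
      (s = 1 → ∀ P : Set ℂ,
        (IsCompact P ∧ closure (interior P) = P ∧ frontier P = curve V) → PG V P) := by
  induction hn : V.length using Nat.strong_induction_on generalizing V with
  | _ n ih =>
  subst hn
  have hVne : V ≠ [] := by
    intro h
    have := hV.1
    rw [h] at this
    simp at this
  obtain ⟨b, hb, u, hu⟩ := Helper22.FC.exists_dir V hVne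
  obtain ⟨S, T, hST⟩ := List.append_of_mem hb
  -- rotated list
  have hrot : V.rotate S.length = b :: (T ++ S) := by
    rw [hST, List.rotate_append_length_eq]
    rfl
  have hlen : 3 ≤ (b :: (T ++ S)).length := by
    rw [← hrot, List.length_rotate]
    exact hV.1
  obtain ⟨c, W, hcW⟩ : ∃ c W, T ++ S = c :: W := by
    cases hTS : T ++ S with
    | nil => rw [hTS] at hlen; simp at hlen
    | cons c W => exact ⟨c, W, rfl⟩
  obtain ⟨M, a, hMa⟩ : ∃ M a, W = M ++ [a] := by
    rcases List.eq_nil_or_concat W with h | ⟨M, a, h⟩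
    · rw [hcW, h] at hlen
      simp at hlen
    · exact ⟨M, a, by rw [h, List.concat_eq_append]⟩
  have hV' : V.rotate S.length = [b, c] ++ M ++ [a] := by
    rw [hrot, hcW, hMa]
    simp
  have hSV : SimpleL ([b, c] ++ M ++ [a]) := hV' ▸ hV.rotate S.length
  have hlenV : V.length = M.length + 3 := by
    rw [← List.length_rotate V S.length, hV']
    simp
  have huV : ∀ v ∈ [c] ++ M ++ [a], 0 < ((v - b) * (starRingEnd ℂ) u).re := by
    intro v hv
    have hvV : v ∈ V := by
      rw [← List.mem_rotate (n := S.length), hV']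
      simp only [List.mem_append, List.mem_cons, List.not_mem_nil, or_false] at hv ⊢
      tauto
    have hvb : v ≠ b := by
      have hnd := hSV.2.1
      intro h
      rw [h] at hv
      have : ([b, c] ++ M ++ [a] : List ℂ) = b :: ([c] ++ M ++ [a]) := by simp
      rw [this, List.nodup_cons] at hnd
      exact hnd.1 hv
    exact hu v hvV hvb
  -- it suffices to treat the rotated list
  suffices hmain : ∃ s : ℝ, (s = 1 ∨ s = -1) ∧
      (∀ x, x ∉ curve ([b, c] ++ M ++ [a]) → wnd x ([b, c] ++ M ++ [a]) = 0 ∨
        wnd x ([b, c] ++ M ++ [a]) = 2 * Real.pi * s) ∧ (s = 1 → ∀ P : Set ℂ,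
        (IsCompact P ∧ closure (interior P) = P ∧ frontier P = curve ([b, c] ++ M ++ [a])) →
          PG ([b, c] ++ M ++ [a]) P) by
    obtain ⟨s, hs, hx, hg⟩ := hmain
    refine ⟨s, hs, ?_, ?_⟩
    · intro x hxV
      rw [← hV', Helper22.FC.curve_rotate] at hx
      have := hx x hxV
      rwa [Helper22.FC.wnd_rotate] at this
    · intro hs1 P hP
      have hG := hg hs1 P (by rw [← hV', Helper22.FC.curve_rotate]; exact hP)
      rw [← hV'] at hG
      obtain ⟨k', hk'⟩ : V.rotate S.length ~r V := List.IsRotated.symm ⟨S.length, rfl⟩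
      have := PG.rot _ _ k' hG
      rwa [hk'] at this
  by_cases hM : M = []
  · subst hM
    have hL : ([b, c] ++ [] ++ [a] : List ℂ) = [b, c, a] := rfl
    rw [hL] at hSV ⊢
    by_cases hside : 0 < side a b c
    · have hval : ∀ x, x ∉ curve [b, c, a] → wnd x [b, c, a] = 0 ∨
          wnd x [b, c, a] = 2 * Real.pi := by
        intro x hx
        have := Helper22.FC.tri3 a b c hSV x hx
        rwa [if_pos hside] at this
      refine ⟨1, Or.inl rfl, ?_, ?_⟩
      · intro x hx
        simpa using hval x hx
      · intro _ P hP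
        obtain ⟨h1, rfl⟩ := tri_reg hSV hval hP
        exact PG.tri b c a h1
    · refine ⟨-1, Or.inr rfl, ?_, ?_⟩
      · intro x hx
        have := Helper22.FC.tri3 a b c hSV x hx
        rw [if_neg hside] at this
        simpa using this
      · intro h
        norm_num at h
  · have hne := (Helper22.FC.near_extreme Helper22.FC.wndFacts hSV huV).1
    rcases Helper22.FC.ear_or_diag hSV hM hne with
      ⟨hS1, hE⟩ | ⟨M₁, d, M₂, hMM, hS1, hS2, hab, hseg⟩
    · -- ear
      obtain ⟨s, hs, hx, hg⟩ := ih ([c] ++ M ++ [a]).length (by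
        rw [hlenV]; simp) hS1 rfl
      obtain ⟨h1, h2⟩ := Helper22.FC.ear_values Helper22.FC.wndFacts hM hSV huV hS1 hE hne hs hx
      refine ⟨s, hs, h2, ?_⟩
      intro hs1 P hP
      subst hs1
      have hside : 0 < side a b c := h1 rfl
      have hside' : 0 < side b c a := by
        have : side b c a = side a b c := by simp only [Helper22.FC.side_eq']; ring
        rw [this]; exact hside
      have hside'' : 0 < side c a b := by
        have : side c a b = side a b c := by simp only [Helper22.FC.side_eq']; ring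
        rw [this]; exact hside
      -- the rotated list
      have hR : ([b, c] ++ M ++ [a]).rotate 1 = [c] ++ M ++ [a] ++ [b] := by simp
      have hT : SimpleL ([c, a] ++ [b]) := pg5_simple_tri hside''.ne'
      have hTw : ∀ z, z ∉ curve ([c, a] ++ [b]) →
          wnd z ([c, a] ++ [b]) = 0 ∨ wnd z ([c, a] ++ [b]) = 2 * Real.pi := by
        intro z hz
        have := Helper22.FC.tri3 b c a hT z hz
        rwa [if_pos hside'] at this
      obtain ⟨P1, P2, hP1, hP2, hPU, hPI⟩ := split_reg (x := c) (y := a) (E := M) (B := [b]) hM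
        (by simp) (by rw [← hR]; exact hSV.rotate 1) hT hS1
        (by
          intro z hz
          rw [← hR, Helper22.FC.curve_rotate] at hz
          rw [← hR, Helper22.FC.wnd_rotate]
          simpa using h2 z hz)
        hTw (by intro z hz; simpa using hx z hz)
        (P := P) (by rw [← hR, Helper22.FC.curve_rotate]; exact hP)
      obtain ⟨h3, hP1e⟩ := tri_reg (a := c) (b := a) (c := b) hT hTw hP1
      have hG1 : PG ([c, a] ++ [b]) P1 := by rw [hP1e]; exact PG.tri c a b h3
      have hG2 : PG ([c] ++ M ++ [a]) P2 := hg rfl P2 hP2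
      have hG3 := PG.cut c a M [b] P1 P2 hM (by simp) hG1 hG2 hPI
      rw [← hPU, ← hR] at hG3
      obtain ⟨k', hk'⟩ : ([b, c] ++ M ++ [a]).rotate 1 ~r ([b, c] ++ M ++ [a]) :=
        List.IsRotated.symm ⟨1, rfl⟩
      have := PG.rot _ _ k' hG3
      rwa [hk'] at this
    · -- diagonal
      subst hMM
      have hl : ([b, c] ++ M₁ ++ [d]).length < V.length := by
        rw [hlenV]; simp
      have hl2 : ([b, d] ++ M₂ ++ [a]).length < V.length := by
        rw [hlenV]; simp
      obtain ⟨s₁, hs1, hx1, hg1⟩ := ih _ hl hS1 rfl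
      obtain ⟨s₂, hs2, hx2, hg2⟩ := ih _ hl2 hS2 rfl
      obtain ⟨hss, hx⟩ := Helper22.FC.split_values Helper22.FC.wndFacts
        (fun h hu => Helper22.FC.near_extreme Helper22.FC.wndFacts h hu) hSV huV hS1 hS2 hab hseg
        hs1 hs2 hx1 hx2
      refine ⟨s₁, hs1, hx, ?_⟩
      intro h1 P hP
      subst hss
      subst h1
      have hA : ([b, d] ++ M₂ ++ [a] : List ℂ) = [b, d] ++ (M₂ ++ [a]) := by simp
      have hB : ([b, c] ++ M₁ ++ [d] : List ℂ) = [b] ++ ([c] ++ M₁) ++ [d] := by simp
      have hC : ([b, c] ++ (M₁ ++ [d] ++ M₂) ++ [a] : List ℂ)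
          = [b] ++ ([c] ++ M₁) ++ [d] ++ (M₂ ++ [a]) := by simp
      rw [hA] at hS2 hx2 hg2
      rw [hB] at hS1 hx1 hg1
      rw [hC] at hSV hx hP ⊢
      obtain ⟨P1, P2, hP1, hP2, hPU, hPI⟩ := split_reg (x := b) (y := d) (E := [c] ++ M₁)
        (B := M₂ ++ [a]) (by simp) (by simp) hSV hS2 hS1
        (by intro z hz; simpa only [mul_one] using hx z hz)
        (by intro z hz; simpa only [mul_one] using hx2 z hz)
        (by intro z hz; simpa only [mul_one] using hx1 z hz) hP
      have hG := PG.cut b d ([c] ++ M₁) (M₂ ++ [a]) P1 P2 (by simp) (by simp) (hg2 rfl P1 hP1)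
        (hg1 rfl P2 hP2) hPI
      rwa [← hPU] at hG

/- TARGET. Plain-words proof:
Follow the proof of simple_good (T5.lean) and of orient, simple_good' (Build.lean, Final.lean). Show by strong induction on the length: for SimpleL V there is s = 1 or s = -1 with (wnd values of V are 0 or 2 π s off curve V) and (s = 1 → ∀ P, (compact, regular, frontier = curve V) → PG V P). All hypotheses of
simple_good (ne, ed, ev, sv, tri3, rot, crot) are available as in simple_good' (near_extreme, ear_or_diag, ear_values, split_values, tri3, wnd_rotate, curve_rotate); for the length 3 case [b,c,a] use tri_reg (and PG.rot, PG.tri). As in simple_good, after a rotation V = [b,c] ++ M ++ [a] with b extreme.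
-/
theorem pg_simple {V : List ℂ} (hV : SimpleL V)
    (hw : ∀ z, z ∉ curve V → wnd z V = 0 ∨ wnd z V = 2 * Real.pi) {P : Set ℂ}
    (hP : IsCompact P ∧ closure (interior P) = P ∧ frontier P = curve V) : PG V P := by
  obtain ⟨s, hs, hx, hg⟩ := pg5_main hV
  rcases hs with rfl | rfl
  · exact hg rfl P hP
  · exfalso
    obtain ⟨x, hxc⟩ := Helper22.FC.curve_nonempty hV
    obtain ⟨z₁, _, z₂, _, h1, h2, h3⟩ := Helper22.FC.two_sides hV hxc one_pos
    have hpi := Real.pi_pos
    have a1 := hw z₁ h1
    have a2 := hx z₁ h1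
    have b1 := hw z₂ h2
    have b2 := hx z₂ h2
    rcases a1 with a1 | a1 <;> rcases a2 with a2 | a2 <;> rcases b1 with b1 | b1 <;>
      rcases b2 with b2 | b2 <;> linarith

end Pool.Agent.H334
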