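import Pool.Agent.Helper334_Fold.CDefs
import Pool.Agent.Helper22.FC.Final
import Pool.Agent.Helper334_Fold.Q_pg_simple

set_option autoImplicit false

open Set


namespace Pool.Agent.H334

open Pool.Agent.Helper22.FC (SimplePolygon IsPaper cyc curve wnd side SimpleL)

/- TARGET. Plain-words proof:
simple_ofFn and orient (Final.lean) give U = List.ofFn w or its reverse, SimpleL U, curve U = curve (List.ofFn w) = boundary w (curve_ofFn), values 0 or 2π. pg_simple gives PG U P from hP. Nodup: SimpleL. Adj: (w i, w (i+1)) ∈ cyc (List.ofFn w) by mem_cyc_ofFn; for the reverse show: (a,b) ∈ cyc V → (b,a) ∈ cyc V.reverse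
(compare simple_reverse, curve_reverse, wnd_reverse in the library, there may be a lemma on cyc of the reverse; otherwise use indices: cyc V consists of the pairs (V[i], V[(i+1) mod n])).
-/
theorem pg_fun {n : ℕ} {w : Fin (n + 3) → ℂ} (hv : SimplePolygon w) {P : Set ℂ}
    (hP : IsPaper w P) : ∃ V : List ℂ, V.Nodup ∧ PG V P ∧ ∀ i, Adj V (w i) (w (i + 1)) := by
  obtain ⟨U, hUe, hU, hUc, -, hw, -⟩ :=
    Pool.Agent.Helper22.FC.orient (Pool.Agent.Helper22.FC.simple_ofFn hv)
  rw [Pool.Agent.Helper22.FC.curve_ofFn] at hUc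
  refine ⟨U, hU.2.1, pg_simple hU hw ⟨hP.compact, hP.regular, by rw [hP.bdry, hUc]⟩, fun i => ?_⟩
  have h : (w i, w (i + 1)) ∈ cyc (List.ofFn w) :=
    Pool.Agent.Helper22.FC.mem_cyc_ofFn.2 ⟨i, rfl⟩
  rcases hUe with rfl | rfl
  · exact Or.inl h
  · exact Or.inr (Pool.Agent.Helper22.FC.mem_cyc_reverse.2 h)

end Pool.Agent.H334
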