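import Pool.Agent.Helper334_Fold.CDefs

set_option autoImplicit false

open Set


namespace Pool.Agent.H334

open Pool.Agent.Helper22.FC (SimplePolygon IsPaper cyc curve wnd side SimpleL)

/- TARGET. Plain-words proof:
S has no index clash with T: the new index type is ι ⊕ κ. From hS.edges x y h1 hne get i0 : ι and a ≠ b with S.vtx i0 a = x, S.vtx i0 b = y, {a,b} ≠ {0,1} and no child of i0 in S at {a,b}. Let M > all S.rank i (ι finite). Define U: vtx (inl i) = S.vtx i, vtx (inr j) = T.vtx j; root = inl S.root;
rank (inl i) = S.rank i, rank (inr j) = M + 1 + T.rank j; par (inl i) = inl (S.par i), par (inr j) = inr (T.par j) for j ≠ T.root, par (inr T.root) = inl i0; u, v as in S, T, and u (inr T.root) = a, v (inr T.root) = b. (Use classical decidability for `if j = T.root`.)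
nondeg, par_lt, ne, len clear (len for inr T.root: both distances are dist x y). once: two children of the same triangle with the same edge: both in S or both in T: S.once, T.once; one in S and the other is inr T.root: excluded by the choice of i0, a, b. base: in S: hS.rb, in T: hT.rb, new: {a,b} ≠ {0,1}.
Planar: e0, e1, g0, g1 clear (new one: T.vtx root 0 = x = S.vtx i0 a by hT.e0). rb clear. cover: U.tri (inl i) = S.tri i etc.; union = Q ∪ P. planar: inl, inl: hS.planar, and S.Glue (i,x) (j,y) → U.Glue (inl i,x) (inl j,y), so EqvGen maps to EqvGen (induction). inr, inr the same.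
z ∈ S.tri i and z ∈ T.tri j: z ∈ Q ∩ P = segment x y, z = lineMap x y s with s ∈ [0,1] (segment_eq_image_lineMap); z ∈ S.tri i0 (vertices a, b) and z ∈ T.tri T.root (vertices 0, 1); so (inl i,z) ~ (inl i0,z) by hS.planar, (inr j,z) ~ (inr T.root,z) by hT.planar and U.Glue (inr T.root, z) (inl i0, z).
edges: let A p' q', {p',q'} ≠ {p,q}. By hA, {p',q'} ≠ {x,y} and A1 p' q' or A2 p' q'. If A1: hS.edges gives i, α, β; children of inl i in U: those of S (excluded by hS.edges), and inr T.root if i = i0, at {a,b}: if {a,b} = {α,β} then {x,y} = {p',q'}, excluded. If A2: hT.edges p' q' (as {p',q'} ≠ {x,y}) gives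
j, α, β; the children of inr j are inr's, excluded by hT.edges.
-/
theorem planar_join {ι κ : Type} {x y p q : ℂ} {P Q : Set ℂ} {A A1 A2 : ℂ → ℂ → Prop}
    (S : CTree ι) (hS : S.Planar A1 Q p q) (T : CTree κ) (hT : T.Planar A2 P x y)
    (hPQ : P ∩ Q = segment ℝ x y) (h1 : A1 x y) (hne : ({x, y} : Set ℂ) ≠ {p, q})
    (hA : ∀ a b, A a b → ({a, b} : Set ℂ) ≠ {x, y} ∧ (A1 a b ∨ A2 a b)) (hι : Finite ι) :
    ∃ U : CTree (ι ⊕ κ), U.Planar A (P ∪ Q) p q := by
  classical
  obtain ⟨i0, a, b, hab, hia, hib, hab01, hfree⟩ := hS.edges x y h1 hne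
  obtain ⟨M, hM⟩ : ∃ M : ℕ, ∀ i, S.rank i ≤ M := by
    have := Set.finite_range S.rank
    obtain ⟨M, hM⟩ := this.bddAbove
    exact ⟨M, fun i => hM ⟨i, rfl⟩⟩
  let par : ι ⊕ κ → ι ⊕ κ := Sum.elim (fun i => Sum.inl (S.par i))
    (fun j => if j = T.root then Sum.inl i0 else Sum.inr (T.par j))
  let uu : ι ⊕ κ → Fin 3 := Sum.elim S.u (fun j => if j = T.root then a else T.u j)
  let vv : ι ⊕ κ → Fin 3 := Sum.elim S.v (fun j => if j = T.root then b else T.v j)
  let vtx : ι ⊕ κ → Fin 3 → ℂ := Sum.elim S.vtx T.vtx
  have par_l : ∀ i, par (Sum.inl i) = Sum.inl (S.par i) := fun i => rfl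
  have par_r : par (Sum.inr T.root) = Sum.inl i0 := if_pos rfl
  have par_n : ∀ j, j ≠ T.root → par (Sum.inr j) = Sum.inr (T.par j) := fun j hj => if_neg hj
  have u_r : uu (Sum.inr T.root) = a := if_pos rfl
  have u_n : ∀ j, j ≠ T.root → uu (Sum.inr j) = T.u j := fun j hj => if_neg hj
  have v_r : vv (Sum.inr T.root) = b := if_pos rfl
  have v_n : ∀ j, j ≠ T.root → vv (Sum.inr j) = T.v j := fun j hj => if_neg hj
  have nl : ∀ i, (Sum.inl i : ι ⊕ κ) ≠ Sum.inl S.root → i ≠ S.root := fun i h e => h (by rw [e])
  let U : CTree (ι ⊕ κ) :=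
    { vtx := vtx
      nondeg := by
        rintro (i | j)
        · exact S.nondeg i
        · exact T.nondeg j
      root := Sum.inl S.root
      rank := Sum.elim S.rank (fun j => M + 1 + T.rank j)
      par := par
      par_lt := by
        rintro (i | j) h
        · exact S.par_lt i (nl i h)
        · by_cases hj : j = T.root
          · subst hj
            rw [par_r]
            show S.rank i0 < M + 1 + T.rank T.root
            have := hM i0
            omega
          · rw [par_n j hj]
            show M + 1 + T.rank (T.par j) < M + 1 + T.rank j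
            have := T.par_lt j hj
            omega
      u := uu
      v := vv
      ne := by
        rintro (i | j) h
        · exact S.ne i (nl i h)
        · by_cases hj : j = T.root
          · subst hj
            rw [u_r, v_r]
            exact hab
          · rw [u_n j hj, v_n j hj]
            exact T.ne j hj
      len := by
        rintro (i | j) h
        · exact S.len i (nl i h)
        · by_cases hj : j = T.root
          · subst hj
            rw [u_r, v_r, par_r]
            show dist (S.vtx i0 a) (S.vtx i0 b) = dist (T.vtx T.root 0) (T.vtx T.root 1)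
            rw [hia, hib, hT.e0, hT.e1]
          · rw [u_n j hj, v_n j hj, par_n j hj]
            exact T.len j hj
      once := by
        rintro (i | j) (i' | j') h h' hp he
        · rw [par_l, par_l] at hp
          exact congrArg Sum.inl (S.once i i' (nl i h) (nl i' h') (Sum.inl.inj hp) he)
        · exfalso
          by_cases hj : j' = T.root
          · subst hj
            rw [par_r, par_l] at hp
            rw [u_r, v_r] at he
            exact hfree i (nl i h) (Sum.inl.inj hp) he
          · rw [par_n j' hj, par_l] at hp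
            exact Sum.inl_ne_inr hp
        · exfalso
          by_cases hj : j = T.root
          · subst hj
            rw [par_r, par_l] at hp
            rw [u_r, v_r] at he
            exact hfree i' (nl i' h') (Sum.inl.inj hp).symm he.symm
          · rw [par_n j hj, par_l] at hp
            exact Sum.inr_ne_inl hp
        · by_cases hj : j = T.root
          · by_cases hj' : j' = T.root
            · rw [hj, hj']
            · exfalso
              subst hj
              rw [par_r, par_n j' hj'] at hp
              exact Sum.inl_ne_inr hp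
          · by_cases hj' : j' = T.root
            · exfalso
              subst hj'
              rw [par_r, par_n j hj] at hp
              exact Sum.inr_ne_inl hp
            · rw [par_n j hj, par_n j' hj'] at hp
              rw [u_n j hj, v_n j hj, u_n j' hj', v_n j' hj'] at he
              exact congrArg Sum.inr (T.once j j' hj hj' (Sum.inr.inj hp) he)
      base := by
        rintro (i | j) h hp
        · exact hS.rb i (nl i h)
        · by_cases hj : j = T.root
          · subst hj
            rw [u_r, v_r]
            exact hab01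
          · rw [u_n j hj, v_n j hj]
            exact hT.rb j hj }
  have Uroot : U.root = Sum.inl S.root := rfl
  have gl : ∀ i x j y, S.Glue (i, x) (j, y) → U.Glue (Sum.inl i, x) (Sum.inl j, y) := by
    rintro i x j y ⟨c, s, hc, hs, h2, h3⟩
    obtain ⟨rfl, rfl⟩ := Prod.mk.inj h2
    obtain ⟨rfl, rfl⟩ := Prod.mk.inj h3
    exact ⟨Sum.inl i, s, fun e => hc (Sum.inl.inj e), hs, rfl, rfl⟩
  have gr : ∀ i x j y, T.Glue (i, x) (j, y) → U.Glue (Sum.inr i, x) (Sum.inr j, y) := by
    rintro i x j y ⟨c, s, hc, hs, h2, h3⟩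
    obtain ⟨rfl, rfl⟩ := Prod.mk.inj h2
    obtain ⟨rfl, rfl⟩ := Prod.mk.inj h3
    refine ⟨Sum.inr i, s, Sum.inr_ne_inl, hs, rfl, ?_⟩
    show (_, _) = (par (Sum.inr i), AffineMap.lineMap (vtx (par (Sum.inr i)) (uu (Sum.inr i)))
      (vtx (par (Sum.inr i)) (vv (Sum.inr i))) s)
    rw [par_n i hc, u_n i hc, v_n i hc]
    rfl
  have el : ∀ p q : ι × ℂ, Relation.EqvGen S.Glue p q →
      Relation.EqvGen U.Glue (Sum.inl p.1, p.2) (Sum.inl q.1, q.2) := by
    intro p q h
    induction h with
    | rel a b h => exact Relation.EqvGen.rel _ _ (gl _ _ _ _ h)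
    | refl a => exact Relation.EqvGen.refl _
    | symm a b _ ih => exact Relation.EqvGen.symm _ _ ih
    | trans a b c _ _ ih1 ih2 => exact Relation.EqvGen.trans _ _ _ ih1 ih2
  have er : ∀ p q : κ × ℂ, Relation.EqvGen T.Glue p q →
      Relation.EqvGen U.Glue (Sum.inr p.1, p.2) (Sum.inr q.1, q.2) := by
    intro p q h
    induction h with
    | rel a b h => exact Relation.EqvGen.rel _ _ (gr _ _ _ _ h)
    | refl a => exact Relation.EqvGen.refl _
    | symm a b _ ih => exact Relation.EqvGen.symm _ _ ih
    | trans a b c _ _ ih1 ih2 => exact Relation.EqvGen.trans _ _ _ ih1 ih2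
  have cross : ∀ i j, ∀ z ∈ S.tri i, z ∈ T.tri j →
      Relation.EqvGen U.Glue (Sum.inl i, z) (Sum.inr j, z) := by
    intro i j z hz hz'
    have hzQ : z ∈ Q := by rw [← hS.cover]; exact Set.mem_iUnion.2 ⟨i, hz⟩
    have hzP : z ∈ P := by rw [← hT.cover]; exact Set.mem_iUnion.2 ⟨j, hz'⟩
    have hseg : z ∈ segment ℝ x y := by rw [← hPQ]; exact ⟨hzP, hzQ⟩
    have hz0 : z ∈ S.tri i0 := by
      refine (convex_convexHull ℝ (Set.range (S.vtx i0))).segment_subset
        (subset_convexHull ℝ _ ⟨a, rfl⟩) (subset_convexHull ℝ _ ⟨b, rfl⟩) ?_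
      rw [hia, hib]; exact hseg
    have hzr : z ∈ T.tri T.root := by
      refine (convex_convexHull ℝ (Set.range (T.vtx T.root))).segment_subset
        (subset_convexHull ℝ _ ⟨0, rfl⟩) (subset_convexHull ℝ _ ⟨1, rfl⟩) ?_
      rw [hT.e0, hT.e1]; exact hseg
    have e1 := el _ _ (hS.planar i i0 z hz hz0)
    have e2 := er _ _ (hT.planar T.root j z hzr hz')
    refine Relation.EqvGen.trans _ _ _ e1 (Relation.EqvGen.trans _ _ _ ?_ e2)
    refine Relation.EqvGen.symm _ _ (Relation.EqvGen.rel _ _ ?_)
    rw [segment_eq_image_lineMap] at hseg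
    obtain ⟨s, hs, rfl⟩ := hseg
    refine ⟨Sum.inr T.root, s, Sum.inr_ne_inl, hs, ?_, ?_⟩
    · show (_, _) = (_, AffineMap.lineMap (T.vtx T.root 0) (T.vtx T.root 1) s)
      rw [hT.e0, hT.e1]
    · show (_, _) = (par (Sum.inr T.root), AffineMap.lineMap
        (vtx (par (Sum.inr T.root)) (uu (Sum.inr T.root)))
        (vtx (par (Sum.inr T.root)) (vv (Sum.inr T.root))) s)
      rw [par_r, u_r, v_r]
      show (_, _) = (Sum.inl i0, AffineMap.lineMap (S.vtx i0 a) (S.vtx i0 b) s)
      rw [hia, hib]
  refine ⟨U, ?_⟩
  constructor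
  · exact hS.e0
  · exact hS.e1
  · rintro (i | j) h
    · exact hS.g0 i (nl i h)
    · by_cases hj : j = T.root
      · subst hj
        show T.vtx T.root 0 = vtx (par (Sum.inr T.root)) (uu (Sum.inr T.root))
        rw [par_r, u_r]
        show T.vtx T.root 0 = S.vtx i0 a
        rw [hT.e0, hia]
      · show T.vtx j 0 = vtx (par (Sum.inr j)) (uu (Sum.inr j))
        rw [par_n j hj, u_n j hj]
        exact hT.g0 j hj
  · rintro (i | j) h
    · exact hS.g1 i (nl i h)
    · by_cases hj : j = T.root
      · subst hj
        show T.vtx T.root 1 = vtx (par (Sum.inr T.root)) (vv (Sum.inr T.root))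
        rw [par_r, v_r]
        show T.vtx T.root 1 = S.vtx i0 b
        rw [hT.e1, hib]
      · show T.vtx j 1 = vtx (par (Sum.inr j)) (vv (Sum.inr j))
        rw [par_n j hj, v_n j hj]
        exact hT.g1 j hj
  · rintro (i | j) h
    · exact hS.rb i (nl i h)
    · by_cases hj : j = T.root
      · subst hj
        show ({uu (Sum.inr T.root), vv (Sum.inr T.root)} : Set (Fin 3)) ≠ {0, 1}
        rw [u_r, v_r]
        exact hab01
      · show ({uu (Sum.inr j), vv (Sum.inr j)} : Set (Fin 3)) ≠ {0, 1}
        rw [u_n j hj, v_n j hj]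
        exact hT.rb j hj
  · rw [← hT.cover, ← hS.cover]
    ext z
    simp only [Set.mem_iUnion, Set.mem_union]
    constructor
    · rintro ⟨i | j, hz⟩
      · exact Or.inr ⟨i, hz⟩
      · exact Or.inl ⟨j, hz⟩
    · rintro (⟨j, hz⟩ | ⟨i, hz⟩)
      · exact ⟨Sum.inr j, hz⟩
      · exact ⟨Sum.inl i, hz⟩
  · rintro (i | j) (i' | j') z hz hz'
    · exact el _ _ (hS.planar i i' z hz hz')
    · exact cross i j' z hz hz'
    · exact Relation.EqvGen.symm _ _ (cross i' j z hz' hz)
    · exact er _ _ (hT.planar j j' z hz hz')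
  · intro p' q' hpq hpq'
    obtain ⟨hxy, hA1 | hA2⟩ := hA p' q' hpq
    · obtain ⟨i, α, β, hαβ, hα, hβ, h01, hf⟩ := hS.edges p' q' hA1 hpq'
      refine ⟨Sum.inl i, α, β, hαβ, hα, hβ, h01, ?_⟩
      rintro (c | c) hc hpc
      · exact hf c (nl c hc) (Sum.inl.inj hpc)
      · by_cases hj : c = T.root
        · subst hj
          intro he
          change par (Sum.inr T.root) = Sum.inl i at hpc
          change ({uu (Sum.inr T.root), vv (Sum.inr T.root)} : Set (Fin 3)) = {α, β} at he
          rw [par_r] at hpc
          rw [u_r, v_r] at he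
          have hi : i0 = i := Sum.inl.inj hpc
          subst hi
          apply hxy
          have h5 := congrArg (fun s : Set (Fin 3) => (S.vtx i0) '' s) he
          simp only [Set.image_pair, hia, hib, hα, hβ] at h5
          exact h5.symm
        · exfalso
          change par (Sum.inr c) = Sum.inl i at hpc
          rw [par_n c hj] at hpc
          exact Sum.inr_ne_inl hpc
    · obtain ⟨j, α, β, hαβ, hα, hβ, h01, hf⟩ := hT.edges p' q' hA2 hxy
      refine ⟨Sum.inr j, α, β, hαβ, hα, hβ, h01, ?_⟩
      rintro (c | c) hc hpc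
      · exact absurd hpc Sum.inl_ne_inr
      · by_cases hj : c = T.root
        · subst hj
          exfalso
          change par (Sum.inr T.root) = Sum.inr j at hpc
          rw [par_r] at hpc
          exact Sum.inl_ne_inr hpc
        · change par (Sum.inr c) = Sum.inr j at hpc
          rw [par_n c hj] at hpc
          show ({uu (Sum.inr c), vv (Sum.inr c)} : Set (Fin 3)) ≠ {α, β}
          rw [u_n c hj, v_n c hj]
          exact hf c hj (Sum.inr.inj hpc)

end Pool.Agent.H334
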