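import Pool.Agent.Helper334_Fold.CDefs
import Pool.Agent.Helper334_Fold.Q_planar_join

set_option autoImplicit false

open Set


namespace Pool.Agent.H334

open Pool.Agent.Helper22.FC (SimplePolygon IsPaper cyc curve wnd side SimpleL)

namespace PExist

/-- consecutive pairs -/
def pr (L : List ℂ) : List (ℂ × ℂ) := L.zip L.tail

theorem pr_cons (a b : ℂ) (L : List ℂ) : pr (a :: b :: L) = (a, b) :: pr (b :: L) := rfl

theorem pr_append (L : List ℂ) (w : ℂ) (L' : List ℂ) :
    pr (L ++ w :: L') = pr (L ++ [w]) ++ pr (w :: L') := by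
  induction L with
  | nil => rfl
  | cons a L ih =>
    cases L with
    | nil => rfl
    | cons b L =>
      change pr (a :: b :: (L ++ w :: L')) = pr (a :: b :: (L ++ [w])) ++ _
      rw [pr_cons, pr_cons, List.cons_append]
      exact congrArg _ ih

theorem mem_pr {L : List ℂ} {a b : ℂ} (h : (a, b) ∈ pr L) : a ∈ L ∧ b ∈ L.tail :=
  List.of_mem_zip h

theorem cyc_cons (z : ℂ) (L : List ℂ) : cyc (z :: L) = pr (z :: (L ++ [z])) := by
  unfold cyc pr
  have e1 : (z :: L).rotate 1 = L ++ [z] := by simp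
  rw [e1, List.tail_cons]
  have e2 : z :: (L ++ [z]) = (z :: L) ++ [z] := rfl
  have e3 : L ++ [z] = (L ++ [z]) ++ [] := (List.append_nil _).symm
  rw [e2]
  nth_rewrite 2 [e3]
  rw [List.zip_append (by simp)]
  simp

theorem cyc_rotate (V : List ℂ) (k : ℕ) : cyc (V.rotate k) = (cyc V).rotate k := by
  unfold cyc
  rw [List.rotate_rotate, add_comm k 1, ← List.rotate_rotate]
  exact (List.zipWith_rotate_distrib _ _ _ k (by simp)).symm

theorem adj_rotate (V : List ℂ) (k : ℕ) (x y : ℂ) : Adj (V.rotate k) x y ↔ Adj V x y := by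
  unfold Adj
  rw [cyc_rotate, List.mem_rotate, List.mem_rotate]

theorem adj_symm {V : List ℂ} {x y : ℂ} (h : Adj V x y) : Adj V y x := Or.symm h

theorem cycV (x y : ℂ) (E B : List ℂ) :
    cyc ([x] ++ E ++ [y] ++ B) = pr (x :: (E ++ [y])) ++ pr (y :: (B ++ [x])) := by
  have e : [x] ++ E ++ [y] ++ B = x :: (E ++ y :: B) := by simp
  rw [e, cyc_cons]
  have e2 : x :: (E ++ y :: B ++ [x]) = (x :: E) ++ y :: (B ++ [x]) := by simp
  rw [e2, pr_append]
  rfl

theorem cycV2 (x y : ℂ) (E : List ℂ) :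
    cyc ([x] ++ E ++ [y]) = pr (x :: (E ++ [y])) ++ [(y, x)] := by
  have e : [x] ++ E ++ [y] = x :: (E ++ [y]) := by simp
  rw [e, cyc_cons]
  have e2 : x :: (E ++ [y] ++ [x]) = (x :: E) ++ y :: [x] := by simp
  rw [e2, pr_append]
  rfl

theorem cycV1 (x y : ℂ) (B : List ℂ) :
    cyc ([x, y] ++ B) = (x, y) :: pr (y :: (B ++ [x])) := by
  have e : [x, y] ++ B = x :: (y :: B) := by simp
  rw [e, cyc_cons]
  rfl

/-- a path from x to y through E does not contain the pairs x y or y x -/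
theorem path_ne {x y : ℂ} {E : List ℂ} (hE : E ≠ []) (h : (x :: (E ++ [y])).Nodup) {a b : ℂ}
    (hab : (a, b) ∈ pr (x :: (E ++ [y]))) : ({a, b} : Set ℂ) ≠ {x, y} := by
  cases E with
  | nil => exact absurd rfl hE
  | cons e E =>
    rw [List.cons_append, pr_cons] at hab
    rw [List.cons_append, List.nodup_cons, List.nodup_cons] at h
    obtain ⟨hx, he, -⟩ := h
    have hxy : x ≠ y := by
      rintro rfl
      apply hx
      simp
    intro hs
    have ha : a ∈ ({x, y} : Set ℂ) := by rw [← hs]; simp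
    have hb : b ∈ ({x, y} : Set ℂ) := by rw [← hs]; simp
    have hx' : x ∈ ({a, b} : Set ℂ) := by rw [hs]; simp
    have hy' : y ∈ ({a, b} : Set ℂ) := by rw [hs]; simp
    simp only [mem_insert_iff, mem_singleton_iff] at ha hb hx' hy'
    rcases List.mem_cons.1 hab with h1 | h1
    · rw [Prod.mk.injEq] at h1
      obtain ⟨rfl, rfl⟩ := h1
      rcases hy' with h2 | h2
      · exact hxy h2.symm
      · apply he
        rw [← h2]
        simp
    · obtain ⟨h2, h3⟩ := mem_pr h1
      rcases hx' with h4 | h4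
      · rw [← h4] at h2
        exact hx h2
      · rw [← h4] at h3
        exact hx (List.mem_of_mem_tail h3)

theorem adj_split {x y : ℂ} {E B : List ℂ} (hE : E ≠ []) (hB : B ≠ [])
    (hV : ([x] ++ E ++ [y] ++ B).Nodup) {a b : ℂ} (h : Adj ([x] ++ E ++ [y] ++ B) a b) :
    ({a, b} : Set ℂ) ≠ {x, y} ∧ (Adj ([x] ++ E ++ [y]) a b ∨ Adj ([x, y] ++ B) a b) := by
  have e : [x] ++ E ++ [y] ++ B = x :: (E ++ y :: B) := by simp
  have n1 : (x :: (E ++ [y])).Nodup := by
    have : [x] ++ E ++ [y] = x :: (E ++ [y]) := by simp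
    rw [← this]
    exact hV.of_append_left
  have n2 : (y :: (B ++ [x])).Nodup := by
    have h1 : ([y] ++ B ++ ([x] ++ E)).Nodup := by
      have : [x] ++ E ++ [y] ++ B = ([x] ++ E) ++ ([y] ++ B) := by simp
      rw [this] at hV
      exact List.nodup_append_comm.1 hV
    have h2 : [y] ++ B ++ ([x] ++ E) = (y :: (B ++ [x])) ++ E := by simp
    rw [h2] at h1
    exact h1.of_append_left
  have key : ∀ a b, (a, b) ∈ cyc ([x] ++ E ++ [y] ++ B) → ({a, b} : Set ℂ) ≠ {x, y} ∧
      ((a, b) ∈ cyc ([x] ++ E ++ [y]) ∨ (a, b) ∈ cyc ([x, y] ++ B)) := by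
    intro a b hab
    rw [cycV] at hab
    rcases List.mem_append.1 hab with h1 | h1
    · refine ⟨path_ne hE n1 h1, Or.inl ?_⟩
      rw [cycV2]
      exact List.mem_append_left _ h1
    · refine ⟨?_, Or.inr ?_⟩
      · rw [Set.pair_comm x y]
        exact path_ne hB n2 h1
      · rw [cycV1]
        exact List.mem_cons_of_mem _ h1
  rcases h with h | h
  · obtain ⟨h1, h2⟩ := key a b h
    exact ⟨h1, h2.imp Or.inl Or.inl⟩
  · obtain ⟨h1, h2⟩ := key b a h
    refine ⟨?_, h2.imp Or.inr Or.inr⟩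
    rw [Set.pair_comm a b]
    exact h1

theorem tri_tree (p q r : ℂ) (h : AffineIndependent ℝ ![p, q, r]) (A : ℂ → ℂ → Prop)
    (hA : ∀ x y, A x y → ({x, y} : Set ℂ) ≠ {p, q} →
      (x = q ∧ y = r) ∨ (x = r ∧ y = q) ∨ (x = p ∧ y = r) ∨ (x = r ∧ y = p)) :
    ∃ (ι : Type) (_ : Fintype ι) (T : CTree ι), T.Planar A (convexHull ℝ {p, q, r}) p q := by
  refine ⟨Unit, inferInstance, ⟨fun _ => ![p, q, r], fun _ => h, (), fun _ => 0, fun _ => (),
    fun i hi => absurd rfl hi, fun _ => 0, fun _ => 0, fun i hi => absurd rfl hi,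
    fun i hi => absurd rfl hi, fun i _ hi => absurd rfl hi, fun i hi => absurd rfl hi⟩, ?_⟩
  refine ⟨rfl, rfl, fun i hi => absurd rfl hi, fun i hi => absurd rfl hi,
    fun i hi => absurd rfl hi, ?_, ?_, ?_⟩
  · unfold CTree.tri
    simp only [Set.iUnion_const]
    congr 1
    ext z
    simp only [Matrix.range_cons, Matrix.range_empty, Set.union_empty, Set.mem_union,
      Set.mem_singleton_iff, Set.mem_insert_iff]
  · intro i j x _ _
    exact Relation.EqvGen.refl _
  · intro x y hxy hne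
    have n12 : ({1, 2} : Set (Fin 3)) ≠ {0, 1} := fun e => by
      have : (2 : Fin 3) ∈ ({0, 1} : Set (Fin 3)) := by rw [← e]; simp
      simp at this
    have n02 : ({0, 2} : Set (Fin 3)) ≠ {0, 1} := fun e => by
      have : (2 : Fin 3) ∈ ({0, 1} : Set (Fin 3)) := by rw [← e]; simp
      simp at this
    rcases hA x y hxy hne with ⟨h1, h2⟩ | ⟨h1, h2⟩ | ⟨h1, h2⟩ | ⟨h1, h2⟩
    · exact ⟨(), 1, 2, by decide, h1.symm, h2.symm, n12, fun c hc => absurd rfl hc⟩
    · exact ⟨(), 2, 1, by decide, h1.symm, h2.symm, by rw [Set.pair_comm]; exact n12,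
        fun c hc => absurd rfl hc⟩
    · exact ⟨(), 0, 2, by decide, h1.symm, h2.symm, n02, fun c hc => absurd rfl hc⟩
    · exact ⟨(), 2, 0, by decide, h1.symm, h2.symm, by rw [Set.pair_comm]; exact n02,
        fun c hc => absurd rfl hc⟩

theorem adj_tri {a b c x y : ℂ} (h : Adj [a, b, c] x y) : (x = a ∧ y = b) ∨ (x = b ∧ y = c) ∨
    (x = c ∧ y = a) ∨ (x = b ∧ y = a) ∨ (x = c ∧ y = b) ∨ (x = a ∧ y = c) := by
  unfold Adj cyc at h
  simp at h
  tauto

end PExist

/- TARGET. Plain-words proof: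
Induction on h : PG V P, for all p q.
tri: V = [a,b,c]; cyc V = [(a,b),(b,c),(c,a)]; Adj p q: (p,q) is one of six ordered pairs of distinct members; let r be the third point. ι = Unit, one triangle with vertices ![p,q,r] (a permutation of ![a,b,c], affinely independent), root = (), u = v = 0 or anything. cover: convexHull {a,b,c}. planar: refl. edges: the other two edges are {q,r}, {r,p}
in either order, indices {1,2} and {0,2}, both ≠ {0,1}; there are no children.
cut: V = [x]++E++[y]++B is Nodup, so are V1 = [x,y]++B and V2 = [x]++E++[y]. cyc V is the path x E y followed by the path y B x; cyc V2 is the path x E y and (y,x); cyc V1 is (x,y) and the path y B x. So Adj V p q implies ({p,q} ≠ {x,y} and (Adj V2 p q or Adj V1 p q)): no pair of consecutive elements of the paths is {x,y} since E and B are not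
empty and V is Nodup; and Adj V2 x y, Adj V1 x y hold. If Adj V2 p q: the induction hypothesis for V2 with p q gives S, for V1 with x y gives T; planar_join with A = Adj V, A1 = Adj V2, A2 = Adj V1 (P ∩ Q = segment x y) gives a tree for P ∪ Q. If Adj V1 p q: S from V1 with p q, T from V2 with x y; planar_join with the roles
of P and Q exchanged (Set.inter_comm, Set.union_comm). (For the list facts it may help to prove: cyc (z :: L) = pairs (z :: (L ++ [z])) with pairs L = L.zip L.tail and pairs (L ++ w :: L') = pairs (L ++ [w]) ++ pairs (w :: L').)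
rot: cyc (V.rotate k) = (cyc V).rotate k (List.zip of rotated lists; e.g. List.zipWith_rotate_distrib / List.zip rotate lemma), so Adj (V.rotate k) = Adj V as a relation; Nodup: List.nodup_rotate.
-/
theorem planar_exists {V : List ℂ} {P : Set ℂ} (h : PG V P) (hV : V.Nodup) (p q : ℂ)
    (hpq : Adj V p q) : ∃ (ι : Type) (_ : Fintype ι) (T : CTree ι), T.Planar (Adj V) P p q := by
  induction h generalizing p q with
  | tri a b c h =>
    have hf : ∀ σ : Equiv.Perm (Fin 3), AffineIndependent ℝ (![a, b, c] ∘ σ) := fun σ =>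
      (affineIndependent_equiv σ).2 h
    have f1 : AffineIndependent ℝ ![b, c, a] := by
      have := hf (finRotate 3)
      convert this using 1
      ext i; fin_cases i <;> rfl
    have f2 : AffineIndependent ℝ ![c, a, b] := by
      have := hf (finRotate 3).symm
      convert this using 1
      ext i; fin_cases i <;> rfl
    have f3 : AffineIndependent ℝ ![b, a, c] := by
      have := hf (Equiv.swap 0 1)
      convert this using 1
      ext i; fin_cases i <;> rfl
    have f4 : AffineIndependent ℝ ![c, b, a] := by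
      have := hf (Equiv.swap 0 2)
      convert this using 1
      ext i; fin_cases i <;> rfl
    have f5 : AffineIndependent ℝ ![a, c, b] := by
      have := hf (Equiv.swap 1 2)
      convert this using 1
      ext i; fin_cases i <;> rfl
    rcases PExist.adj_tri hpq with ⟨e1, e2⟩ | ⟨e1, e2⟩ | ⟨e1, e2⟩ | ⟨e1, e2⟩ | ⟨e1, e2⟩ |
      ⟨e1, e2⟩
    · rw [e1, e2]
      refine PExist.tri_tree _ _ _ h _ fun x y hxy hne => ?_
      rcases PExist.adj_tri hxy with ⟨h1, h2⟩ | ⟨h1, h2⟩ | ⟨h1, h2⟩ | ⟨h1, h2⟩ |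
        ⟨h1, h2⟩ | ⟨h1, h2⟩ <;> rw [h1, h2] at hne <;>
      first | exact absurd rfl hne | exact absurd (Set.pair_comm _ _) hne | simp [h1, h2]
    · have e : ({a, b, c} : Set ℂ) = {b, c, a} := by ext z; simp; tauto
      rw [e1, e2, e]
      refine PExist.tri_tree _ _ _ f1 _ fun x y hxy hne => ?_
      rcases PExist.adj_tri hxy with ⟨h1, h2⟩ | ⟨h1, h2⟩ | ⟨h1, h2⟩ | ⟨h1, h2⟩ |
        ⟨h1, h2⟩ | ⟨h1, h2⟩ <;> rw [h1, h2] at hne <;>
      first | exact absurd rfl hne | exact absurd (Set.pair_comm _ _) hne | simp [h1, h2]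
    · have e : ({a, b, c} : Set ℂ) = {c, a, b} := by ext z; simp; tauto
      rw [e1, e2, e]
      refine PExist.tri_tree _ _ _ f2 _ fun x y hxy hne => ?_
      rcases PExist.adj_tri hxy with ⟨h1, h2⟩ | ⟨h1, h2⟩ | ⟨h1, h2⟩ | ⟨h1, h2⟩ |
        ⟨h1, h2⟩ | ⟨h1, h2⟩ <;> rw [h1, h2] at hne <;>
      first | exact absurd rfl hne | exact absurd (Set.pair_comm _ _) hne | simp [h1, h2]
    · have e : ({a, b, c} : Set ℂ) = {b, a, c} := by ext z; simp; tauto
      rw [e1, e2, e]
      refine PExist.tri_tree _ _ _ f3 _ fun x y hxy hne => ?_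
      rcases PExist.adj_tri hxy with ⟨h1, h2⟩ | ⟨h1, h2⟩ | ⟨h1, h2⟩ | ⟨h1, h2⟩ |
        ⟨h1, h2⟩ | ⟨h1, h2⟩ <;> rw [h1, h2] at hne <;>
      first | exact absurd rfl hne | exact absurd (Set.pair_comm _ _) hne | simp [h1, h2]
    · have e : ({a, b, c} : Set ℂ) = {c, b, a} := by ext z; simp; tauto
      rw [e1, e2, e]
      refine PExist.tri_tree _ _ _ f4 _ fun x y hxy hne => ?_
      rcases PExist.adj_tri hxy with ⟨h1, h2⟩ | ⟨h1, h2⟩ | ⟨h1, h2⟩ | ⟨h1, h2⟩ |
        ⟨h1, h2⟩ | ⟨h1, h2⟩ <;> rw [h1, h2] at hne <;>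
      first | exact absurd rfl hne | exact absurd (Set.pair_comm _ _) hne | simp [h1, h2]
    · have e : ({a, b, c} : Set ℂ) = {a, c, b} := by ext z; simp; tauto
      rw [e1, e2, e]
      refine PExist.tri_tree _ _ _ f5 _ fun x y hxy hne => ?_
      rcases PExist.adj_tri hxy with ⟨h1, h2⟩ | ⟨h1, h2⟩ | ⟨h1, h2⟩ | ⟨h1, h2⟩ |
        ⟨h1, h2⟩ | ⟨h1, h2⟩ <;> rw [h1, h2] at hne <;>
      first | exact absurd rfl hne | exact absurd (Set.pair_comm _ _) hne | simp [h1, h2]
  | cut x y E B P Q hE hB h1 h2 h ih1 ih2 =>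
    have n2 : ([x] ++ E ++ [y]).Nodup := hV.of_append_left
    have n1 : ([x, y] ++ B).Nodup := by
      have e : [x] ++ E ++ [y] ++ B = x :: (E ++ y :: B) := by simp
      rw [e] at hV
      exact hV.sublist (List.Sublist.cons_cons x (List.sublist_append_right E (y :: B)))
    have a2 : Adj ([x] ++ E ++ [y]) x y := by
      right
      rw [PExist.cycV2]
      simp
    have a1 : Adj ([x, y] ++ B) x y := by
      left
      rw [PExist.cycV1]
      simp
    have hsplit : ∀ a b, Adj ([x] ++ E ++ [y] ++ B) a b → ({a, b} : Set ℂ) ≠ {x, y} ∧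
      (Adj ([x] ++ E ++ [y]) a b ∨ Adj ([x, y] ++ B) a b) := fun a b hab =>
      PExist.adj_split hE hB hV hab
    obtain ⟨hne, hor⟩ := hsplit p q hpq
    rcases hor with hq | hq
    · obtain ⟨ι, hι, S, hS⟩ := ih2 n2 p q hq
      obtain ⟨κ, hκ, T, hT⟩ := ih1 n1 x y a1
      obtain ⟨U, hU⟩ := planar_join S hS T hT h a2 hne.symm hsplit inferInstance
      exact ⟨ι ⊕ κ, inferInstance, U, hU⟩
    · obtain ⟨ι, hι, S, hS⟩ := ih1 n1 p q hq
      obtain ⟨κ, hκ, T, hT⟩ := ih2 n2 x y a2
      obtain ⟨U, hU⟩ := planar_join S hS T hT (by rw [Set.inter_comm]; exact h) a1 hne.symm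
        (fun a b hab => ⟨(hsplit a b hab).1, (hsplit a b hab).2.symm⟩) inferInstance
      rw [Set.union_comm] at hU
      exact ⟨ι ⊕ κ, inferInstance, U, hU⟩
  | rot V P k h ih =>
    rw [PExist.adj_rotate] at hpq
    obtain ⟨ι, hι, T, hT⟩ := ih (List.nodup_rotate.1 hV) p q hpq
    have e : Adj (V.rotate k) = Adj V := by
      funext x y
      exact propext (PExist.adj_rotate V k x y)
    rw [e]
    exact ⟨ι, hι, T, hT⟩

end Pool.Agent.H334
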