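import Pool.Agent.Helper334_Fold.CDefs

set_option autoImplicit false

open Set


namespace Pool.Agent.H334

open Pool.Agent.Helper22.FC (SimplePolygon IsPaper cyc curve wnd side SimpleL)

section aux3749

theorem refine_exists_edge {m : ℕ} (w : Fin (m + 3) → ℂ) (hw : Function.Injective w)
    (e e' : Fin (m + 3)) (h : ({w e, w (e + 1)} : Set ℂ) = {w e', w (e' + 1)}) : e = e' := by
  have h1 : w e ∈ ({w e', w (e' + 1)} : Set ℂ) := h ▸ Set.mem_insert _ _
  have h2 : w (e + 1) ∈ ({w e', w (e' + 1)} : Set ℂ) := h ▸ (Set.mem_insert_of_mem _ rfl)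
  rcases h1 with h1 | h1
  · exact hw h1
  · have h1' : e = e' + 1 := hw h1
    rcases h2 with h2 | h2
    · have h2' : e + 1 = e' := hw h2
      exfalso
      have h3 : e' + (1 + 1) = e' + 0 := by rw [← add_assoc, ← h1', h2', add_zero]
      have h4 : (1 + 1 : Fin (m + 3)) = 0 := add_left_cancel h3
      have h5 := congrArg Fin.val h4
      rw [Fin.val_add, Fin.val_zero, Fin.val_one] at h5
      rw [Nat.mod_eq_of_lt (by omega)] at h5
      omega
    · exact add_right_cancel (hw h2)

variable {k : ℕ} (X : PolyTree k) {ι : Fin (k + 1) → Type} (T : ∀ i, CTree (ι i))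

/-- the edge `e` as a set of two points -/
def refine_exists_G (e : Σ i, Fin (X.m i + 3)) : Set ℂ := {X.vtx e.1 e.2, X.vtx e.1 (e.2 + 1)}

theorem refine_exists_G_inj (e e' : Σ i, Fin (X.m i + 3)) (h1 : e.1 = e'.1)
    (h : refine_exists_G X e = refine_exists_G X e') : e = e' := by
  obtain ⟨i, e⟩ := e
  obtain ⟨i', e'⟩ := e'
  change i = i' at h1
  subst h1
  rw [refine_exists_edge (X.vtx i) (X.simple i).inj e e' h]

theorem refine_exists_p (j : Fin k) :
    ({X.p0 j, X.p1 j} : Set ℂ) = refine_exists_G X ⟨X.par j, X.eu j⟩ := by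
  unfold PolyTree.p0 PolyTree.p1 refine_exists_G
  cases X.same j
  · simp only [Bool.false_eq_true, if_false]
    exact Set.pair_comm _ _
  · simp only [if_true]

theorem refine_exists_dist (j : Fin k) : dist (X.p0 j) (X.p1 j) =
    dist (X.vtx (X.par j) (X.eu j)) (X.vtx (X.par j) (X.eu j + 1)) := by
  unfold PolyTree.p0 PolyTree.p1
  cases X.same j
  · simp only [Bool.false_eq_true, if_false]
    exact dist_comm _ _
  · simp only [if_true]

theorem refine_exists_choice (r : ∀ i, Fin (X.m i + 3)) (hr : ∀ j : Fin k, r j.succ = X.ev j)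
    (hT : ∀ i, (T i).Tri (X.vtx i) (X.region i) (r i)) (j : Fin k) :
    ∃ (t : ι (X.par j)) (a b : Fin 3), a ≠ b ∧ (T (X.par j)).vtx t a = X.p0 j ∧
      (T (X.par j)).vtx t b = X.p1 j ∧
      (∀ c, c ≠ (T (X.par j)).root → (T (X.par j)).par c = t →
        ({(T (X.par j)).u c, (T (X.par j)).v c} : Set (Fin 3)) ≠ {a, b}) ∧
      (({a, b} : Set (Fin 3)) ≠ {0, 1} ∨ (X.par j = 0 ∧ t = (T (X.par j)).root)) := by
  by_cases he : X.eu j = r (X.par j)
  · have h0 : X.par j = 0 := by
      by_contra hne
      obtain ⟨l, hl⟩ := Fin.exists_succ_eq.2 hne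
      refine X.once' j l ?_
      have e1 : (⟨X.par j, X.eu j⟩ : Σ i, Fin (X.m i + 3)) = ⟨X.par j, r (X.par j)⟩ := by rw [he]
      have e2 : (⟨X.par j, r (X.par j)⟩ : Σ i, Fin (X.m i + 3)) = ⟨l.succ, r l.succ⟩ := by
        rw [← hl]
      rw [e1, e2, hr l]
    have hv0 := (hT (X.par j)).e0
    have hv1 := (hT (X.par j)).e1
    rw [← he] at hv0 hv1
    have hrb := (hT (X.par j)).rb
    cases hs : X.same j
    · refine ⟨(T (X.par j)).root, 1, 0, by decide, ?_, ?_, ?_, Or.inr ⟨h0, rfl⟩⟩
      · simp only [PolyTree.p0, hs, Bool.false_eq_true, if_false]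
        exact hv1
      · simp only [PolyTree.p1, hs, Bool.false_eq_true, if_false]
        exact hv0
      · intro c hc _
        rw [Set.pair_comm (1 : Fin 3) 0]
        exact hrb c hc
    · refine ⟨(T (X.par j)).root, 0, 1, by decide, ?_, ?_, ?_, Or.inr ⟨h0, rfl⟩⟩
      · simp only [PolyTree.p0, hs, if_true]
        exact hv0
      · simp only [PolyTree.p1, hs, if_true]
        exact hv1
      · intro c hc _
        exact hrb c hc
  · obtain ⟨t, a, b, hab, h1, h2, h3, h4⟩ := (hT (X.par j)).edges (X.eu j) he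
    cases hs : X.same j
    · refine ⟨t, b, a, hab.symm, ?_, ?_, ?_, Or.inl ?_⟩
      · simp only [PolyTree.p0, hs, Bool.false_eq_true, if_false]
        exact h2
      · simp only [PolyTree.p1, hs, Bool.false_eq_true, if_false]
        exact h1
      · intro c hc hc'
        rw [Set.pair_comm b a]
        exact h4 c hc hc'
      · rw [Set.pair_comm b a]
        exact h3
    · refine ⟨t, a, b, hab, ?_, ?_, h4, Or.inl h3⟩
      · simp only [PolyTree.p0, hs, if_true]
        exact h1
      · simp only [PolyTree.p1, hs, if_true]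
        exact h2

open Classical in
/-- the parent in the refined tree -/
noncomputable def refine_exists_par (t : ∀ j, ι (X.par j)) (x : Σ i, ι i) : Σ i, ι i :=
  if x.2 = (T x.1).root then
    Fin.cases (motive := fun _ => Σ i, ι i) ⟨0, (T 0).root⟩ (fun j => ⟨X.par j, t j⟩) x.1
  else ⟨x.1, (T x.1).par x.2⟩

open Classical in
/-- the first end in the refined tree -/
noncomputable def refine_exists_u (a : Fin k → Fin 3) (x : Σ i, ι i) : Fin 3 :=
  if x.2 = (T x.1).root then Fin.cases (motive := fun _ => Fin 3) 0 a x.1 else (T x.1).u x.2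

open Classical in
/-- the second end in the refined tree -/
noncomputable def refine_exists_v (a : Fin k → Fin 3) (x : Σ i, ι i) : Fin 3 :=
  if x.2 = (T x.1).root then Fin.cases (motive := fun _ => Fin 3) 1 a x.1 else (T x.1).v x.2

theorem refine_exists_cases (x : Σ i, ι i) : x = ⟨0, (T 0).root⟩ ∨
    (∃ i s, s ≠ (T i).root ∧ x = ⟨i, s⟩) ∨ (∃ j : Fin k, x = ⟨j.succ, (T j.succ).root⟩) := by
  obtain ⟨i, s⟩ := x
  by_cases hs : s = (T i).root
  · subst hs
    rcases Fin.eq_zero_or_eq_succ i with h | ⟨j, h⟩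
    · subst h
      exact Or.inl rfl
    · subst h
      exact Or.inr (Or.inr ⟨j, rfl⟩)
  · exact Or.inr (Or.inl ⟨i, s, hs, rfl⟩)

end aux3749

theorem refine_exists {k : ℕ} (X : PolyTree k) (ι : Fin (k + 1) → Type) [∀ i, Fintype (ι i)]
    (T : ∀ i, CTree (ι i)) (r : ∀ i, Fin (X.m i + 3)) (hr : ∀ j : Fin k, r j.succ = X.ev j)
    (hT : ∀ i, (T i).Tri (X.vtx i) (X.region i) (r i)) :
    ∃ Y : CTree (Σ i, ι i), Refines X ι T Y := by
  classical
  choose t a b hab ha hb hch h01 using refine_exists_choice X T r hr hT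
  -- equations for the parent
  have hpin : ∀ i (s : ι i), s ≠ (T i).root →
      refine_exists_par X T t ⟨i, s⟩ = ⟨i, (T i).par s⟩ := by
    intro i s hs
    unfold refine_exists_par
    rw [if_neg hs]
  have hph : ∀ j : Fin k, refine_exists_par X T t ⟨j.succ, (T j.succ).root⟩ = ⟨X.par j, t j⟩ := by
    intro j
    unfold refine_exists_par
    rw [if_pos rfl]
    rfl
  have huin : ∀ i (s : ι i), s ≠ (T i).root → refine_exists_u T a ⟨i, s⟩ = (T i).u s := by
    intro i s hs
    unfold refine_exists_u
    rw [if_neg hs]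
  have huh : ∀ j : Fin k, refine_exists_u T a ⟨j.succ, (T j.succ).root⟩ = a j := by
    intro j
    unfold refine_exists_u
    rw [if_pos rfl]
    rfl
  have hvin : ∀ i (s : ι i), s ≠ (T i).root → refine_exists_v T b ⟨i, s⟩ = (T i).v s := by
    intro i s hs
    unfold refine_exists_v
    rw [if_neg hs]
  have hvh : ∀ j : Fin k, refine_exists_v T b ⟨j.succ, (T j.succ).root⟩ = b j := by
    intro j
    unfold refine_exists_v
    rw [if_pos rfl]
    rfl
  -- the bound for the ranks
  obtain ⟨M, hM⟩ : ∃ M : ℕ, ∀ x : Σ i, ι i, (T x.1).rank x.2 < M := by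
    refine ⟨Finset.univ.sup (fun x : Σ i, ι i => (T x.1).rank x.2) + 1, fun x => ?_⟩
    exact Nat.lt_succ_of_le (Finset.le_sup (f := fun x : Σ i, ι i => (T x.1).rank x.2)
      (Finset.mem_univ x))
  -- the root edge
  have hr0 : ∀ j : Fin k, (T j.succ).vtx (T j.succ).root 0 = X.vtx j.succ (X.ev j) := by
    intro j
    rw [(hT j.succ).e0, hr]
  have hr1 : ∀ j : Fin k, (T j.succ).vtx (T j.succ).root 1 = X.vtx j.succ (X.ev j + 1) := by
    intro j
    rw [(hT j.succ).e1, hr]
  let Y : CTree (Σ i, ι i) :=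
    { vtx := fun x => (T x.1).vtx x.2
      nondeg := fun x => (T x.1).nondeg x.2
      root := ⟨0, (T 0).root⟩
      rank := fun x => (x.1 : ℕ) * M + (T x.1).rank x.2
      par := refine_exists_par X T t
      par_lt := by
        intro x hx
        rcases refine_exists_cases T x with h | ⟨i, s, hs, rfl⟩ | ⟨j, rfl⟩
        · exact absurd h hx
        · rw [hpin i s hs]
          exact Nat.add_lt_add_left ((T i).par_lt s hs) _
        · rw [hph j]
          have h1 : (X.par j : ℕ) < (j.succ : ℕ) := X.par_lt j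
          have h2 := hM ⟨X.par j, t j⟩
          have h3 : ((X.par j : ℕ) + 1) * M ≤ (j.succ : ℕ) * M := Nat.mul_le_mul_right _ h1
          simp only at h2 ⊢
          nlinarith
      u := refine_exists_u T a
      v := refine_exists_v T b
      ne := by
        intro x hx
        rcases refine_exists_cases T x with h | ⟨i, s, hs, rfl⟩ | ⟨j, rfl⟩
        · exact absurd h hx
        · rw [huin i s hs, hvin i s hs]
          exact (T i).ne s hs
        · rw [huh j, hvh j]
          exact hab j
      len := by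
        intro x hx
        rcases refine_exists_cases T x with h | ⟨i, s, hs, rfl⟩ | ⟨j, rfl⟩
        · exact absurd h hx
        · rw [huin i s hs, hvin i s hs, hpin i s hs]
          exact (T i).len s hs
        · rw [huh j, hvh j, hph j]
          simp only
          rw [ha j, hb j, refine_exists_dist, X.len j, hr0, hr1]
      once := by
        intro x y hx hy hpar huv
        rcases refine_exists_cases T x with h | ⟨i, s, hs, rfl⟩ | ⟨j, rfl⟩
        · exact absurd h hx
        · rcases refine_exists_cases T y with h' | ⟨i', s', hs', rfl⟩ | ⟨l, rfl⟩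
          · exact absurd h' hy
          · rw [hpin i s hs, hpin i' s' hs'] at hpar
            rw [huin i s hs, hvin i s hs, huin i' s' hs', hvin i' s' hs'] at huv
            obtain rfl : i = i' := congrArg Sigma.fst hpar
            have hp : (T i).par s = (T i).par s' := eq_of_heq (Sigma.mk.inj hpar).2
            rw [(T i).once s s' hs hs' hp huv]
          · exfalso
            rw [hpin i s hs, hph l] at hpar
            rw [huin i s hs, hvin i s hs, huh l, hvh l] at huv
            obtain rfl : i = X.par l := congrArg Sigma.fst hpar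
            have hp : (T (X.par l)).par s = t l := eq_of_heq (Sigma.mk.inj hpar).2
            exact hch l s hs hp huv
        · rcases refine_exists_cases T y with h' | ⟨i', s', hs', rfl⟩ | ⟨l, rfl⟩
          · exact absurd h' hy
          · exfalso
            rw [hpin i' s' hs', hph j] at hpar
            rw [huin i' s' hs', hvin i' s' hs', huh j, hvh j] at huv
            obtain rfl : X.par j = i' := congrArg Sigma.fst hpar
            have hp : t j = (T (X.par j)).par s' := eq_of_heq (Sigma.mk.inj hpar).2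
            exact hch j s' hs' hp.symm huv.symm
          · rw [hph j, hph l] at hpar
            rw [huh j, hvh j, huh l, hvh l] at huv
            have hF : (fun c : Fin 3 => (T (⟨X.par j, t j⟩ : Σ i, ι i).1).vtx
                (⟨X.par j, t j⟩ : Σ i, ι i).2 c) =
                (fun c : Fin 3 => (T (⟨X.par l, t l⟩ : Σ i, ι i).1).vtx
                (⟨X.par l, t l⟩ : Σ i, ι i).2 c) := by rw [hpar]
            simp only at hF
            have e1 : (fun c : Fin 3 => (T (X.par j)).vtx (t j) c) '' {a j, b j} =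
                ({X.p0 j, X.p1 j} : Set ℂ) := by
              rw [Set.image_pair, ha j, hb j]
            have e2 : (fun c : Fin 3 => (T (X.par l)).vtx (t l) c) '' {a l, b l} =
                ({X.p0 l, X.p1 l} : Set ℂ) := by
              rw [Set.image_pair, ha l, hb l]
            rw [hF, huv, e2, refine_exists_p, refine_exists_p] at e1
            have hpj : X.par j = X.par l := congrArg Sigma.fst hpar
            have e3 := refine_exists_G_inj X ⟨X.par j, X.eu j⟩ ⟨X.par l, X.eu l⟩ hpj e1.symm
            obtain rfl := X.once j l e3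
            rfl
      base := by
        intro x hx hp
        rcases refine_exists_cases T x with h | ⟨i, s, hs, rfl⟩ | ⟨j, rfl⟩
        · exact absurd h hx
        · rw [huin i s hs, hvin i s hs]
          exact (hT i).rb s hs
        · rw [huh j, hvh j]
          rw [hph j] at hp
          rcases h01 j with h | ⟨h1, h2⟩
          · exact h
          · exfalso
            apply hp
            rw [h2]
            rw [h1] }
  refine ⟨Y, ?_, ?_, ?_, ?_⟩
  · intro i t
    rfl
  · rintro i s t' x y ⟨c, σ, hc, hσ, h1, h2⟩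
    refine ⟨⟨i, c⟩, σ, ?_, hσ, ?_, ?_⟩
    · intro h
      apply hc
      have h' : (⟨i, c⟩ : Σ i, ι i) = ⟨0, (T 0).root⟩ := h
      obtain rfl : i = 0 := congrArg Sigma.fst h'
      exact eq_of_heq (Sigma.mk.inj h').2
    · obtain ⟨rfl, rfl⟩ := Prod.mk.inj h1
      rfl
    · obtain ⟨rfl, rfl⟩ := Prod.mk.inj h2
      change ((⟨i, (T i).par c⟩ : Σ i, ι i), _) = (refine_exists_par X T t ⟨i, c⟩,
        AffineMap.lineMap (Y.vtx (refine_exists_par X T t ⟨i, c⟩) (refine_exists_u T a ⟨i, c⟩))
          (Y.vtx (refine_exists_par X T t ⟨i, c⟩) (refine_exists_v T b ⟨i, c⟩)) σ)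
      rw [hpin i c hc, huin i c hc, hvin i c hc]
  · rintro i s x i' s' x' ⟨c, σ, hc, hσ, h1, h2⟩
    change (_ : (Σ i, ι i) × ℂ) = (refine_exists_par X T t c,
        AffineMap.lineMap (Y.vtx (refine_exists_par X T t c) (refine_exists_u T a c))
          (Y.vtx (refine_exists_par X T t c) (refine_exists_v T b c)) σ) at h2
    rcases refine_exists_cases T c with h | ⟨i0, s0, hs0, rfl⟩ | ⟨j, rfl⟩
    · exact absurd h hc
    · left
      rw [hpin i0 s0 hs0, huin i0 s0 hs0, hvin i0 s0 hs0] at h2
      obtain ⟨h1a, h1b⟩ := Prod.mk.inj h1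
      obtain ⟨h2a, h2b⟩ := Prod.mk.inj h2
      have e1 : i = i0 := congrArg Sigma.fst h1a
      have e2 : i' = i0 := congrArg Sigma.fst h2a
      refine ⟨e1.trans e2.symm, ?_⟩
      rw [h1b, h2b]
      change AffineMap.lineMap ((T i0).vtx s0 0) ((T i0).vtx s0 1) σ =
        AffineMap.lineMap ((T i0).vtx ((T i0).par s0) ((T i0).u s0))
          ((T i0).vtx ((T i0).par s0) ((T i0).v s0)) σ
      rw [(hT i0).g0 s0 hs0, (hT i0).g1 s0 hs0]
    · right
      rw [hph j, huh j, hvh j] at h2
      obtain ⟨h1a, h1b⟩ := Prod.mk.inj h1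
      obtain ⟨h2a, h2b⟩ := Prod.mk.inj h2
      have e1 : i = j.succ := congrArg Sigma.fst h1a
      have e2 : i' = X.par j := congrArg Sigma.fst h2a
      refine ⟨j, σ, hσ, ?_, ?_⟩
      · rw [e1, h1b]
        change (_, AffineMap.lineMap ((T j.succ).vtx (T j.succ).root 0)
          ((T j.succ).vtx (T j.succ).root 1) σ) = _
        rw [hr0, hr1]
      · rw [e2, h2b]
        change (_, AffineMap.lineMap ((T (X.par j)).vtx (t j) (a j))
          ((T (X.par j)).vtx (t j) (b j)) σ) = _
        rw [ha, hb]
  · rintro i x i' x' ⟨j, σ, hσ, h1, h2⟩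
    obtain ⟨rfl, rfl⟩ := Prod.mk.inj h1
    obtain ⟨rfl, rfl⟩ := Prod.mk.inj h2
    refine ⟨(T j.succ).root, t j, ?_, ?_, ?_⟩
    · rw [← hr0, ← hr1]
      refine segment_subset_convexHull (Set.mem_range_self 0) (Set.mem_range_self 1) ?_
      rw [segment_eq_image_lineMap]
      exact ⟨σ, hσ, rfl⟩
    · rw [← ha, ← hb]
      refine segment_subset_convexHull (Set.mem_range_self (a j)) (Set.mem_range_self (b j)) ?_
      rw [segment_eq_image_lineMap]
      exact ⟨σ, hσ, rfl⟩
    · refine ⟨⟨j.succ, (T j.succ).root⟩, σ, ?_, hσ, ?_, ?_⟩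
      · intro h
        have h' : (⟨j.succ, (T j.succ).root⟩ : Σ i, ι i) = ⟨0, (T 0).root⟩ := h
        exact Fin.succ_ne_zero j (congrArg Sigma.fst h')
      · change _ = (_, AffineMap.lineMap ((T j.succ).vtx (T j.succ).root 0)
          ((T j.succ).vtx (T j.succ).root 1) σ)
        rw [hr0, hr1]
      · change ((⟨X.par j, t j⟩ : Σ i, ι i), _) =
          (refine_exists_par X T t ⟨j.succ, (T j.succ).root⟩,
          AffineMap.lineMap (Y.vtx (refine_exists_par X T t ⟨j.succ, (T j.succ).root⟩)
            (refine_exists_u T a ⟨j.succ, (T j.succ).root⟩))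
          (Y.vtx (refine_exists_par X T t ⟨j.succ, (T j.succ).root⟩)
            (refine_exists_v T b ⟨j.succ, (T j.succ).root⟩)) σ)
        rw [hph j, huh j, hvh j]
        change _ = (_, AffineMap.lineMap ((T (X.par j)).vtx (t j) (a j))
          ((T (X.par j)).vtx (t j) (b j)) σ)
        rw [ha, hb]

end Pool.Agent.H334
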