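import Pool.Agent.Helper334_Fold.CDefs
import Pool.Agent.Helper334_Fold.Q_planar_exists
import Pool.Agent.Helper334_Fold.Q_pg_fun

set_option autoImplicit false

open Set


namespace Pool.Agent.H334

open Pool.Agent.Helper22.FC (SimplePolygon IsPaper cyc curve wnd side SimpleL)

/- TARGET. Plain-words proof:
pg_fun gives V; planar_exists with p = w r, q = w (r+1) gives T with Planar (Adj V) P (w r) (w (r+1)). All fields of Tri are those of Planar; edges e ≠ r: Adj V (w e) (w (e+1)) and {w e, w (e+1)} ≠ {w r, w (r+1)}: otherwise by injectivity {e,e+1} = {r,r+1} in Fin (n+3) with e ≠ r gives e = r+1 and e+1 = r, so r + 2 = r, impossible as n + 3 ≥ 3.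
-/
theorem tri_exists {n : ℕ} {w : Fin (n + 3) → ℂ} (hv : SimplePolygon w) {P : Set ℂ}
    (hP : IsPaper w P) (r : Fin (n + 3)) :
    ∃ (ι : Type) (_ : Fintype ι) (T : CTree ι), T.Tri w P r := by
  obtain ⟨V, hV, hPG, hA⟩ := pg_fun hv hP
  obtain ⟨ι, hι, T, hT⟩ := planar_exists hPG hV (w r) (w (r + 1)) (hA r)
  refine ⟨ι, hι, T, ⟨hT.e0, hT.e1, hT.g0, hT.g1, hT.rb, hT.cover, hT.planar, ?_⟩⟩
  intro e he
  refine hT.edges (w e) (w (e + 1)) (hA e) ?_
  intro hset
  have h1 : w e ∈ ({w r, w (r + 1)} : Set ℂ) := by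
    rw [← hset]
    exact Set.mem_insert _ _
  have h2 : w (e + 1) ∈ ({w r, w (r + 1)} : Set ℂ) := by
    rw [← hset]
    exact Set.mem_insert_of_mem _ rfl
  have h3 : w r ∈ ({w e, w (e + 1)} : Set ℂ) := by
    rw [hset]
    exact Set.mem_insert _ _
  have h4 : e = r + 1 := by
    rcases h1 with h | h
    · exact absurd (hv.inj h) he
    · exact hv.inj h
  have h5 : r = e + 1 := by
    rcases h3 with h | h
    · exact absurd (hv.inj h).symm he
    · exact hv.inj h
  rw [h4] at h5
  have h6 : (1 : Fin (n + 3)) + 1 = 0 := by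
    have h7 : r + (1 + 1) = r + 0 := by
      rw [← add_assoc, add_zero]
      exact h5.symm
    exact add_left_cancel h7
  have h8 := congrArg Fin.val h6
  rw [Fin.val_add] at h8
  have h9 : ((1 : Fin (n + 3)) : ℕ) = 1 := by
    rw [Fin.val_one']
    exact Nat.mod_eq_of_lt (by omega)
  rw [h9] at h8
  simp only [Fin.val_zero] at h8
  rw [Nat.mod_eq_of_lt (by omega)] at h8
  omega

end Pool.Agent.H334
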