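import Pool.Agent.Helper334_Fold.CDefs
import Pool.Agent.Helper334_Fold.Q_ct_result
import Pool.Agent.Helper334_Fold.Q_tri_exists
import Pool.Agent.Helper334_Fold.Q_refine_exists
import Pool.Agent.Helper334_Fold.Q_config_up
import Pool.Agent.Helper334_Fold.Q_sel_eq
import Pool.Agent.Helper334_Fold.Q_embeds_down
import Pool.Agent.Helper334_Fold.Q_folded_down
import Pool.Agent.Helper334_Fold.Q_joins_down

set_option autoImplicit false

open Set


namespace Pool.Agent.H334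

open Pool.Agent.Helper22.FC (SimplePolygon IsPaper cyc curve wnd side SimpleL)

/- TARGET. Plain-words proof:
Let r i be ev j for i = j.succ and 0 for i = 0 (Fin.cases). tri_exists (X.simple i) (X.paper i) (r i) and choice give ι i, Fintype, T i with Tri. refine_exists gives Y. Σ i, ι i is a Fintype. f, g give configurations of Y by config_up; ct_result gives C', F', and G' for each ε. For a map h : (Σ i, ι i) → ℂ → Space define h' i x = h ⟨i,s⟩ x for a chosen s with x ∈ (T i).tri s if there is one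
(classical choice), 0 otherwise. If h agrees on Y-glued points, then h' i x = h ⟨i,s⟩ x for every s with x ∈ tri s, by sel_eq. Take F t = (F' t)', G t = (G' t)' and C i = (⋃ s, C' ⟨i,s⟩) ∪ ((fun s => ((T i).vtx s 0, (T i).vtx s 1)) '' {s | s ≠ root}): finite; segments: c ∈ C' ⟨i,s⟩ has ends in Y.tri ⟨i,s⟩, convex, contained in region i; vtx s 0, vtx s 1 ∈ tri s.
F' t and G' t agree on glued points for t ∈ [0,1] (Folded.1, Embeds.glued), so folded_down, embeds_down, joins_down apply. dist (G t i x) (F t i x) < ε from the bound on tri s.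
-/
theorem poly_result {k : ℕ} (X : PolyTree k) (f g : Fin (k + 1) → ℂ → Space)
    (hf : X.IsConfig f) (hg : X.IsConfig g) :
    ∃ (C : Fin (k + 1) → Set (ℂ × ℂ)) (F : ℝ → Fin (k + 1) → ℂ → Space),
      (∀ i, (C i).Finite ∧ ∀ c ∈ C i, segment ℝ c.1 c.2 ⊆ X.region i) ∧
      X.Joins F f g ∧ (∀ t ∈ Icc (0 : ℝ) 1, X.Folded C (F t)) ∧
      ∀ ε > (0 : ℝ), ∃ G : ℝ → Fin (k + 1) → ℂ → Space,
        X.Joins G f g ∧ (∀ t ∈ Icc (0 : ℝ) 1, X.Embeds (G t)) ∧
        ∀ t ∈ Icc (0 : ℝ) 1, ∀ i, ∀ x ∈ X.region i, dist (G t i x) (F t i x) < ε := by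
  classical
  have hex : ∀ i : Fin (k + 1), ∃ r : Fin (X.m i + 3), ∀ j : Fin k, ∀ h : i = j.succ,
      h ▸ r = X.ev j := by
    intro i
    refine Fin.cases ⟨0, fun j h => absurd h (Fin.succ_ne_zero j).symm⟩ (fun j => ?_) i
    refine ⟨X.ev j, fun j' h => ?_⟩
    obtain rfl := Fin.succ_injective _ h
    rfl
  choose r hr0 using hex
  have hr : ∀ j : Fin k, r j.succ = X.ev j := fun j => hr0 j.succ j rfl
  have hex2 := fun i => tri_exists (X.simple i) (X.paper i) (r i)
  choose ι hF T hT using hex2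
  have : ∀ i, Fintype (ι i) := hF
  obtain ⟨Y, hY⟩ := refine_exists X ι T r hr hT
  have hYtri : ∀ i s, Y.tri ⟨i, s⟩ = (T i).tri s := fun i s => by
    rw [CTree.tri, CTree.tri, hY.vtx]
  obtain ⟨C', F', hC', hJF, hFF, hG'⟩ := ct_result Y _ _ (config_up hT hY hf) (config_up hT hY hg)
  -- the descent of a family of maps
  let D : ((Σ i, ι i) → ℂ → Space) → Fin (k + 1) → ℂ → Space := fun h i x =>
    if hx : ∃ s, x ∈ (T i).tri s then h ⟨i, hx.choose⟩ x else 0
  have hD : ∀ h : (Σ i, ι i) → ℂ → Space, (∀ a b, Y.Glue a b → h a.1 a.2 = h b.1 b.2) →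
      ∀ i s, ∀ x ∈ (T i).tri s, D h i x = h ⟨i, s⟩ x := by
    intro h hh i s x hx
    have hx' : ∃ s, x ∈ (T i).tri s := ⟨s, hx⟩
    have : D h i x = h ⟨i, hx'.choose⟩ x := dif_pos hx'
    rw [this]
    exact sel_eq hT hY hh i _ _ x hx'.choose_spec hx
  have hsub : ∀ i s, (T i).tri s ⊆ X.region i := fun i s => by
    rw [← (hT i).cover]
    exact Set.subset_iUnion _ s
  have hconv : ∀ i s, Convex ℝ ((T i).tri s) := fun i s => convex_convexHull ℝ _
  have hdF : ∀ t ∈ Icc (0 : ℝ) 1, ∀ i s, ∀ x ∈ (T i).tri s, D (F' t) i x = F' t ⟨i, s⟩ x :=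
    fun t ht => hD _ (hFF t ht).1
  refine ⟨fun i => (⋃ s, C' ⟨i, s⟩) ∪
      ((fun s => ((T i).vtx s 0, (T i).vtx s 1)) '' {s | s ≠ (T i).root}),
    fun t => D (F' t), fun i => ⟨?_, ?_⟩, ?_, ?_, ?_⟩
  · exact (Set.finite_iUnion fun s => (hC' ⟨i, s⟩).1).union ((Set.toFinite _).image _)
  · rintro c (hc | hc)
    · obtain ⟨s, hs⟩ := Set.mem_iUnion.mp hc
      have h := (hC' ⟨i, s⟩).2 c hs
      rw [hYtri] at h
      exact ((hconv i s).segment_subset h.1 h.2).trans (hsub i s)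
    · obtain ⟨s, -, rfl⟩ := hc
      exact ((hconv i s).segment_subset (subset_convexHull ℝ _ ⟨0, rfl⟩)
        (subset_convexHull ℝ _ ⟨1, rfl⟩)).trans (hsub i s)
  · exact joins_down hT hY hJF hdF
  · exact fun t ht => folded_down hT hY (fun a => (hC' a).1) (hFF t ht) (hdF t ht)
  · intro ε hε
    obtain ⟨G', hJG, hEG, hdist⟩ := hG' ε hε
    have hdG : ∀ t ∈ Icc (0 : ℝ) 1, ∀ i s, ∀ x ∈ (T i).tri s, D (G' t) i x = G' t ⟨i, s⟩ x :=
      fun t ht => hD _ (hEG t ht).glued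
    refine ⟨fun t => D (G' t), joins_down hT hY hJG hdG,
      fun t ht => embeds_down hT hY (hEG t ht) (hdG t ht), fun t ht i x hx => ?_⟩
    rw [← (hT i).cover] at hx
    obtain ⟨s, hs⟩ := Set.mem_iUnion.mp hx
    show dist (D (G' t) i x) (D (F' t) i x) < ε
    rw [hdG t ht i s x hs, hdF t ht i s x hs]
    exact hdist t ht ⟨i, s⟩ x (by rw [hYtri]; exact hs)

end Pool.Agent.H334
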