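import Pool.Agent.Helper334_Fold.PolyTree

set_option autoImplicit false

namespace Pool.Agent.H334

/-- concatenation of three paths -/
noncomputable def cat3 {α : Type*} (A B C : ℝ → α) (t : ℝ) : α :=
  if t ≤ 1 / 3 then A (3 * t) else if t < 2 / 3 then B (3 * t - 1) else C (3 * t - 2)

end Pool.Agent.H334
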