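import Pool.Agent.Helper334_Fold.PolyTree

set_option autoImplicit false

open Set

namespace Pool.Agent.H334

/-- Parameters of k + 1 affine maps from the plane to 3-space. -/
abbrev Par (k : ℕ) : Type := Fin (k + 1) × Fin 3 × Fin 3 → ℝ

/-- The affine maps with parameters `v`: `v (i, 0, c)` are the coordinates of the image of 0,
`v (i, 1, c)` and `v (i, 2, c)` those of the images of the directions 1 and I. -/
noncomputable def frm {k : ℕ} (v : Par k) (i : Fin (k + 1)) (x : ℂ) : Space :=
  WithLp.toLp 2 (fun c => v (i, 0, c) + x.re * v (i, 1, c) + x.im * v (i, 2, c))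

/-- The affine maps are isometric. -/
def Orth {k : ℕ} (v : Par k) : Prop :=
  ∀ i, (∑ c, v (i, 1, c) ^ 2 = 1) ∧ (∑ c, v (i, 2, c) ^ 2 = 1) ∧
    ∑ c, v (i, 1, c) * v (i, 2, c) = 0

/-- The parameters of the configurations, expressed with the help of one configuration `f0`. -/
def Conf {k : ℕ} (X : PolyTree k) (f0 : Fin (k + 1) → ℂ → Space) : Set (Par k) :=
  {v | Orth v ∧ ∀ i j, ∀ x ∈ X.region i, ∀ y ∈ X.region j,
    (frm v i x = frm v j y ↔ f0 i x = f0 j y)}

end Pool.Agent.H334
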