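import Pool.Agent.Helper334_Fold.CDefs
import Pool.Agent.Helper334_Fold.UDefs
import Pool.Agent.Helper334_Fold.UCat

set_option autoImplicit false

open Set


namespace Pool.Agent.H334

open Pool.Agent.Helper22.FC (SimplePolygon IsPaper cyc curve wnd side SimpleL)

/- TARGET. Plain-words proof:
For fixed i show ContinuousOn (fun p => cat3 A B C p.1 i p.2) (Icc 0 1 ×ˢ region i). This set is the union of Icc 0 (1/3) ×ˢ region, Icc (1/3) (2/3) ×ˢ region, Icc (2/3) 1 ×ˢ region, each closed relative to it (ContinuousOn.union_continuousAt, or ContinuousOn.if / ContinuousOn.piecewise with frontier conditions, or ContinuousOn.union_of_isClosed-type lemmas using the closed sets {p | p.1 ≤ 1/3} etc.); on each the map equals A (3t), B (3t-1), C (3t-2)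
on region i (at t = 1/3 use A 1 i x = g i x = B 0 i x, at t = 2/3 use B 1 i x = h i x = C 0 i x), compositions of continuous maps with (t,x) ↦ (3t,x) etc., which map the strips into Icc 0 1 ×ˢ region. Ends: cat3 at 0 is A 0, at 1 is C 1.
-/
theorem cat_joins {k : ℕ} (X : PolyTree k) {A B C : ℝ → Fin (k + 1) → ℂ → Space}
    {f g h l : Fin (k + 1) → ℂ → Space} (hA : X.Joins A f g) (hB : X.Joins B g h)
    (hC : X.Joins C h l) : X.Joins (cat3 A B C) f l := by
  refine ⟨fun i => ?_, fun i x hx => ⟨?_, ?_⟩⟩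
  · have hcl : IsClosed (X.region i) := (X.paper i).compact.isClosed
    have hU : (Icc (0 : ℝ) 1 ×ˢ X.region i) =
        (Icc (0 : ℝ) (1 / 3) ×ˢ X.region i) ∪ ((Icc (1 / 3 : ℝ) (2 / 3) ×ˢ X.region i) ∪
          (Icc (2 / 3 : ℝ) 1 ×ˢ X.region i)) := by
      ext ⟨t, x⟩
      simp only [mem_prod, mem_union, mem_Icc]
      constructor
      · rintro ⟨⟨h0, h1⟩, hx⟩
        rcases le_total t (1 / 3) with h | h
        · exact Or.inl ⟨⟨h0, h⟩, hx⟩
        · rcases le_total t (2 / 3) with h' | h'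
          · exact Or.inr (Or.inl ⟨⟨h, h'⟩, hx⟩)
          · exact Or.inr (Or.inr ⟨⟨h', h1⟩, hx⟩)
      · rintro (⟨⟨h0, h1⟩, hx⟩ | ⟨⟨h0, h1⟩, hx⟩ | ⟨⟨h0, h1⟩, hx⟩)
        · exact ⟨⟨h0, by linarith⟩, hx⟩
        · exact ⟨⟨by linarith, by linarith⟩, hx⟩
        · exact ⟨⟨by linarith, h1⟩, hx⟩
    have c1 : ContinuousOn (fun p : ℝ × ℂ => cat3 A B C p.1 i p.2)
        (Icc (0 : ℝ) (1 / 3) ×ˢ X.region i) := by
      have h1 : ContinuousOn (fun p : ℝ × ℂ => A (3 * p.1) i p.2)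
          (Icc (0 : ℝ) (1 / 3) ×ˢ X.region i) := by
        have h2 : Continuous (fun p : ℝ × ℂ => ((3 * p.1, p.2) : ℝ × ℂ)) := by fun_prop
        refine (hA.1 i).comp h2.continuousOn ?_
        rintro ⟨t, x⟩ ⟨⟨h0, h1⟩, hx⟩
        simp only at h0 h1 hx
        exact ⟨⟨by simp only; linarith, by simp only; linarith⟩, hx⟩
      refine h1.congr ?_
      rintro ⟨t, x⟩ ⟨⟨h0, h1⟩, hx⟩
      simp only at h0 h1 hx
      simp only [cat3, if_pos h1]
    have c2 : ContinuousOn (fun p : ℝ × ℂ => cat3 A B C p.1 i p.2)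
        (Icc (1 / 3 : ℝ) (2 / 3) ×ˢ X.region i) := by
      have h1 : ContinuousOn (fun p : ℝ × ℂ => B (3 * p.1 - 1) i p.2)
          (Icc (1 / 3 : ℝ) (2 / 3) ×ˢ X.region i) := by
        have h2 : Continuous (fun p : ℝ × ℂ => ((3 * p.1 - 1, p.2) : ℝ × ℂ)) := by fun_prop
        refine (hB.1 i).comp h2.continuousOn ?_
        rintro ⟨t, x⟩ ⟨⟨h0, h1⟩, hx⟩
        simp only at h0 h1 hx
        exact ⟨⟨by simp only; linarith, by simp only; linarith⟩, hx⟩
      refine h1.congr ?_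
      rintro ⟨t, x⟩ ⟨⟨h0, h1⟩, hx⟩
      simp only at h0 h1 hx
      rcases eq_or_lt_of_le h0 with h3 | h3
      · subst h3
        have e1 : (3 : ℝ) * (1 / 3) = 1 := by norm_num
        simp only [cat3, le_refl, if_true, e1, sub_self]
        rw [(hA.2 i x hx).2, (hB.2 i x hx).1]
      · rcases eq_or_lt_of_le h1 with h4 | h4
        · subst h4
          have e1 : ¬ ((2 : ℝ) / 3 ≤ 1 / 3) := by norm_num
          have e2 : ¬ ((2 : ℝ) / 3 < 2 / 3) := lt_irrefl _
          have e3 : (3 : ℝ) * (2 / 3) - 1 = 1 := by norm_num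
          have e4 : (3 : ℝ) * (2 / 3) - 2 = 0 := by norm_num
          simp only [cat3, if_neg e1, if_neg e2, e3, e4]
          rw [(hB.2 i x hx).2, (hC.2 i x hx).1]
        · simp only [cat3, if_neg (not_le.mpr h3), if_pos h4]
    have c3 : ContinuousOn (fun p : ℝ × ℂ => cat3 A B C p.1 i p.2)
        (Icc (2 / 3 : ℝ) 1 ×ˢ X.region i) := by
      have h1 : ContinuousOn (fun p : ℝ × ℂ => C (3 * p.1 - 2) i p.2)
          (Icc (2 / 3 : ℝ) 1 ×ˢ X.region i) := by
        have h2 : Continuous (fun p : ℝ × ℂ => ((3 * p.1 - 2, p.2) : ℝ × ℂ)) := by fun_prop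
        refine (hC.1 i).comp h2.continuousOn ?_
        rintro ⟨t, x⟩ ⟨⟨h0, h1⟩, hx⟩
        simp only at h0 h1 hx
        exact ⟨⟨by simp only; linarith, by simp only; linarith⟩, hx⟩
      refine h1.congr ?_
      rintro ⟨t, x⟩ ⟨⟨h0, h1⟩, hx⟩
      simp only at h0 h1 hx
      have e1 : ¬ (t ≤ 1 / 3) := by linarith
      have e2 : ¬ (t < 2 / 3) := by linarith
      simp only [cat3, if_neg e1, if_neg e2]
    rw [hU]
    exact c1.union_of_isClosed (c2.union_of_isClosed c3 (isClosed_Icc.prod hcl)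
      (isClosed_Icc.prod hcl)) (isClosed_Icc.prod hcl)
      ((isClosed_Icc.prod hcl).union (isClosed_Icc.prod hcl))
  · have e1 : (0 : ℝ) ≤ 1 / 3 := by norm_num
    simp only [cat3, if_pos e1, mul_zero]
    exact (hA.2 i x hx).1
  · have e1 : ¬ ((1 : ℝ) ≤ 1 / 3) := by norm_num
    have e2 : ¬ ((1 : ℝ) < 2 / 3) := by norm_num
    have e3 : (3 : ℝ) * 1 - 2 = 1 := by norm_num
    simp only [cat3, if_neg e1, if_neg e2, e3]
    exact (hC.2 i x hx).2

end Pool.Agent.H334
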