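import Pool.Agent.Helper334_Fold.CDefs
import Pool.Agent.Helper334_Fold.UDefs

set_option autoImplicit false

open Set


namespace Pool.Agent.H334

open Pool.Agent.Helper22.FC (SimplePolygon IsPaper cyc curve wnd side SimpleL)

theorem frm_dist {k : ℕ} {v : Par k} (hv : Orth v) (i : Fin (k + 1)) (x y : ℂ) :
    dist (frm v i x) (frm v i y) = dist x y := by
  have h1 : (dist (frm v i x) (frm v i y)) ^ 2 = (dist x y) ^ 2 := by
    rw [EuclideanSpace.dist_eq, Real.sq_sqrt (Finset.sum_nonneg fun _ _ => sq_nonneg _)]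
    rw [Complex.dist_eq, ← Complex.normSq_eq_norm_sq, Complex.normSq_apply]
    obtain ⟨ha, hb, hc⟩ := hv i
    simp only [Fin.sum_univ_three] at ha hb hc ⊢
    simp only [frm, Real.dist_eq, sq_abs, Complex.sub_re, Complex.sub_im]
    linear_combination (x.re - y.re) ^ 2 * ha + (x.im - y.im) ^ 2 * hb +
      2 * (x.re - y.re) * (x.im - y.im) * hc
  have := (sq_eq_sq₀ dist_nonneg dist_nonneg).1 h1
  exact this

end Pool.Agent.H334
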