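import Pool.Agent.Helper334_Fold.CDefs
import Pool.Agent.Helper334_Fold.UDefs

set_option autoImplicit false

open Set


namespace Pool.Agent.H334

open Pool.Agent.Helper22.FC (SimplePolygon IsPaper cyc curve wnd side SimpleL)

theorem isom_frame {S : Set ℂ} (hS : (interior S).Nonempty) {f : ℂ → Space}
    (hf : ∀ x ∈ S, ∀ y ∈ S, dist (f x) (f y) = dist x y) :
    ∃ u : Fin 3 × Fin 3 → ℝ, (∑ c, u (1, c) ^ 2 = 1) ∧ (∑ c, u (2, c) ^ 2 = 1) ∧
      (∑ c, u (1, c) * u (2, c) = 0) ∧
      ∀ x ∈ S, f x = WithLp.toLp 2 (fun c => u (0, c) + x.re * u (1, c) + x.im * u (2, c)) := by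
  obtain ⟨z0, hz0⟩ := hS
  obtain ⟨ε, hε, hb⟩ := Metric.isOpen_iff.mp isOpen_interior z0 hz0
  obtain ⟨r, hr0, hrε⟩ : ∃ r : ℝ, 0 < r ∧ r < ε := ⟨ε / 2, by positivity, by linarith⟩
  have m0 : z0 ∈ S := interior_subset hz0
  have m1 : z0 + r ∈ S := by
    refine interior_subset (hb ?_)
    rw [Metric.mem_ball, dist_eq_norm, add_sub_cancel_left, Complex.norm_real,
      Real.norm_of_nonneg hr0.le]
    exact hrε
  have m2 : z0 + r * Complex.I ∈ S := by
    refine interior_subset (hb ?_)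
    rw [Metric.mem_ball, dist_eq_norm, add_sub_cancel_left, norm_mul, Complex.norm_real,
      Complex.norm_I, mul_one, Real.norm_of_nonneg hr0.le]
    exact hrε
  obtain ⟨d, hdd⟩ : ∃ d : ℂ → Space, ∀ x, d x = f x - f z0 := ⟨fun x => f x - f z0, fun _ => rfl⟩
  have hd : ∀ x ∈ S, ∀ y ∈ S, ‖d x - d y‖ ^ 2 = (x.re - y.re) ^ 2 + (x.im - y.im) ^ 2 := by
    intro x hx y hy
    have e : d x - d y = f x - f y := by rw [hdd, hdd]; abel
    rw [e, ← dist_eq_norm, hf x hx y hy, Complex.dist_eq, Complex.sq_norm,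
      Complex.normSq_apply, Complex.sub_re, Complex.sub_im]
    ring
  have hd0 : d z0 = 0 := by rw [hdd, sub_self]
  have hn : ∀ x ∈ S, ‖d x‖ ^ 2 = (x.re - z0.re) ^ 2 + (x.im - z0.im) ^ 2 := by
    intro x hx
    have := hd x hx z0 m0
    rwa [hd0, sub_zero] at this
  have hi : ∀ x ∈ S, ∀ y ∈ S, inner ℝ (d x) (d y) =
      (x.re - z0.re) * (y.re - z0.re) + (x.im - z0.im) * (y.im - z0.im) := by
    intro x hx y hy
    have h1 := norm_sub_sq_real (d x) (d y)
    rw [hd x hx y hy, hn x hx, hn y hy] at h1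
    linarith
  obtain ⟨b, hb'⟩ : ∃ b : Space, b = (1 / r) • d (z0 + r) := ⟨_, rfl⟩
  obtain ⟨c, hc'⟩ : ∃ c : Space, c = (1 / r) • d (z0 + r * Complex.I) := ⟨_, rfl⟩
  have hbb : inner ℝ b b = (1 : ℝ) := by
    rw [hb', real_inner_smul_left, real_inner_smul_right, hi _ m1 _ m1]
    simp
    field_simp
  have hcc : inner ℝ c c = (1 : ℝ) := by
    rw [hc', real_inner_smul_left, real_inner_smul_right, hi _ m2 _ m2]
    simp
    field_simp
  have hbc : inner ℝ b c = (0 : ℝ) := by
    rw [hb', hc', real_inner_smul_left, real_inner_smul_right, hi _ m1 _ m2]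
    simp
  have hxb : ∀ x ∈ S, inner ℝ (d x) b = x.re - z0.re := by
    intro x hx
    rw [hb', real_inner_smul_right, hi _ hx _ m1]
    simp
    field_simp
  have hxc : ∀ x ∈ S, inner ℝ (d x) c = x.im - z0.im := by
    intro x hx
    rw [hc', real_inner_smul_right, hi _ hx _ m2]
    simp
    field_simp
  have hx : ∀ x ∈ S, d x = (x.re - z0.re) • b + (x.im - z0.im) • c := by
    intro x hx
    rw [← sub_eq_zero, ← norm_eq_zero, ← sq_eq_zero_iff, norm_sub_sq_real, norm_add_sq_real,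
      hn x hx, inner_add_right, real_inner_smul_right, real_inner_smul_right, hxb x hx, hxc x hx,
      real_inner_smul_left, real_inner_smul_right, hbc, norm_smul, norm_smul, mul_pow, mul_pow,
      ← real_inner_self_eq_norm_sq b, ← real_inner_self_eq_norm_sq c, hbb, hcc, Real.norm_eq_abs,
      Real.norm_eq_abs, sq_abs, sq_abs]
    ring
  have key : ∀ p q : Space, inner ℝ p q = ∑ i, p i * q i := by
    intro p q
    rw [PiLp.inner_apply]
    refine Finset.sum_congr rfl fun i _ => ?_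
    simp [mul_comm]
  refine ⟨fun p => if p.1 = 0 then f z0 p.2 - z0.re * b p.2 - z0.im * c p.2
    else if p.1 = 1 then b p.2 else c p.2, ?_, ?_, ?_, ?_⟩
  · rw [key] at hbb
    rw [← hbb]
    refine Finset.sum_congr rfl fun i _ => ?_
    simp [sq]
  · rw [key] at hcc
    rw [← hcc]
    refine Finset.sum_congr rfl fun i _ => ?_
    simp [sq]
  · rw [key] at hbc
    rw [← hbc]
    refine Finset.sum_congr rfl fun i _ => ?_
    simp
  · intro x hxS
    have h1 : f x = f z0 + ((x.re - z0.re) • b + (x.im - z0.im) • c) := by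
      rw [← hx x hxS, hdd]
      abel
    rw [h1]
    ext i
    simp
    ring

end Pool.Agent.H334
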