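import Pool.Agent.Helper334_Fold.CDefs
import Pool.Agent.Helper334_Fold.UDefs
import Pool.Agent.Helper334_Fold.U_isom_frame
import Pool.Agent.Helper334_Fold.U_frm_dist

set_option autoImplicit false

open Set


namespace Pool.Agent.H334

open Pool.Agent.Helper22.FC (SimplePolygon IsPaper cyc curve wnd side SimpleL)

theorem paper_interior {n : ℕ} {v : Fin (n + 3) → ℂ} {P : Set ℂ} (h : IsPaper v P) :
    (interior P).Nonempty := by
  by_contra hne
  rw [Set.not_nonempty_iff_eq_empty] at hne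
  have h1 := h.regular
  rw [hne, closure_empty] at h1
  have h2 := h.bdry
  rw [← h1, frontier_empty] at h2
  have h3 : v 0 ∈ Pool.Agent.Helper22.FC.boundary v :=
    Set.mem_iUnion.2 ⟨0, left_mem_segment ℝ _ _⟩
  rw [← h2] at h3
  exact h3

theorem eqvGen_eq {k : ℕ} {X : PolyTree k} {f : Fin (k + 1) → ℂ → Space} (h : X.Embeds f)
    {a b : Fin (k + 1) × ℂ} (hab : Relation.EqvGen X.Glue a b) : f a.1 a.2 = f b.1 b.2 := by
  induction hab with
  | rel a b h1 => exact h.glued a b h1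
  | refl a => rfl
  | symm a b _ ih => exact ih.symm
  | trans a b c _ _ ih1 ih2 => exact ih1.trans ih2

theorem embeds_iff {k : ℕ} {X : PolyTree k} {f g : Fin (k + 1) → ℂ → Space} (hf : X.Embeds f)
    (hg : X.Embeds g) (i j : Fin (k + 1)) (x : ℂ) (hx : x ∈ X.region i) (y : ℂ)
    (hy : y ∈ X.region j) : f i x = f j y ↔ g i x = g j y :=
  ⟨fun h => eqvGen_eq hg (hf.inj i j x hx y hy h), fun h => eqvGen_eq hf (hg.inj i j x hx y hy h)⟩

/- TARGET. Plain-words proof:
interior (X.region i) is nonempty: otherwise region i = closure ∅ = ∅ by IsPaper.regular, but its frontier boundary (vtx i) is not empty (contains vtx i 0). isom_frame for each i gives u_i; v (i,a,c) = u_i (a,c). f i x = frm v i x on region i. Orth v clear. For x in region i, y in region j: frm v i x = frm v j y iff f i x = f j y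
iff EqvGen X.Glue (i,x) (j,y) (hf.1.inj; conversely by induction on EqvGen with hf.1.glued) iff f0 i x = f0 j y.
-/
theorem conf_of_config {k : ℕ} (X : PolyTree k) {f0 f : Fin (k + 1) → ℂ → Space}
    (h0 : X.IsConfig f0) (hf : X.IsConfig f) :
    ∃ v ∈ Conf X f0, ∀ i, ∀ x ∈ X.region i, f i x = frm v i x := by
  have hu : ∀ i, ∃ u : Fin 3 × Fin 3 → ℝ, (∑ c, u (1, c) ^ 2 = 1) ∧ (∑ c, u (2, c) ^ 2 = 1) ∧
      (∑ c, u (1, c) * u (2, c) = 0) ∧
      ∀ x ∈ X.region i, f i x =
        WithLp.toLp 2 (fun c => u (0, c) + x.re * u (1, c) + x.im * u (2, c)) :=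
    fun i => isom_frame (paper_interior (X.paper i)) (hf.2 i)
  choose u h1 h2 h3 h4 using hu
  refine ⟨fun p => u p.1 p.2, ⟨fun i => ⟨h1 i, h2 i, h3 i⟩, ?_⟩, fun i x hx => h4 i x hx⟩
  intro i j x hx y hy
  have e1 : frm (fun p : Fin (k + 1) × Fin 3 × Fin 3 => u p.1 p.2) i x = f i x :=
    (h4 i x hx).symm
  have e2 : frm (fun p : Fin (k + 1) × Fin 3 × Fin 3 => u p.1 p.2) j y = f j y :=
    (h4 j y hy).symm
  rw [e1, e2]
  exact embeds_iff hf.1 h0.1 i j x hx y hy

end Pool.Agent.H334
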