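import Pool.Agent.Helper334_Fold.CDefs
import Pool.Agent.Helper334_Fold.UDefs

set_option autoImplicit false

open Set


namespace Pool.Agent.H334

open Pool.Agent.Helper22.FC (SimplePolygon IsPaper cyc curve wnd side SimpleL)

theorem hoffman_aff {E F : Type*} [NormedAddCommGroup E] [NormedSpace ℝ E]
    [NormedAddCommGroup F] [NormedSpace ℝ F] (f : E →ᵃ[ℝ] F) (x y : E) :
    f (x + y) = f x + f.linear y := by
  have h := f.map_vadd x y
  simp only [vadd_eq_add] at h
  rw [add_comm x y, h, add_comm]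

theorem hoffman_lin {E F : Type*} [NormedAddCommGroup E] [NormedSpace ℝ E]
    [NormedAddCommGroup F] [NormedSpace ℝ F] (f : E →ᵃ[ℝ] F) (x y : E) (r : ℝ) :
    f.linear (r • (x - y)) = r • (f x - f y) := by
  rw [map_smul]
  congr 1
  have h3 := hoffman_aff f y (x - y)
  rw [add_sub_cancel] at h3
  rw [h3, add_sub_cancel_left]

/- TARGET. Plain-words proof:
WLOG E = EuclideanSpace (transport by a linear homeomorphism toEuclidean; it changes norms by bounded factors), so assume an inner product. Q = {q | ∀ i, 0 ≤ L i q} is closed (affine maps are continuous in finite dimension) and bounded, so compact. D = Q ∩ {T = 0}. If D is empty then ‖T q‖ has a positive minimum on Q (or Q is empty) and the second alternative holds with C large.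
If D is nonempty, suppose there is no C: for each n there is q_n in Q with: for every p in D, ‖q_n - p‖ > n ‖T q_n‖. Let p_n in D be a nearest point of D to q_n (D compact). q_n ≠ p_n (else T q_n = 0 and ‖q_n - p_n‖ = 0 > 0 is false). u_n = (q_n - p_n)/‖q_n - p_n‖. Pass to a subsequence: u_n → u, ‖u‖ = 1, and the active set {i | L i p_n = 0} is the same set A for
all n (finitely many subsets). Let T', L' be the linear parts. ‖T' u_n‖ = ‖T q_n‖/‖q_n - p_n‖ < 1/n, so T' u = 0. For i in A: L'_i (q_n - p_n) = L_i q_n ≥ 0, so L'_i u ≥ 0. Fix n. For small t > 0 the point p_n + t u is in Q (i in A: L_i = t L'_i u ≥ 0; i not in A: L_i p_n > 0, continuity, finitely many i) and T (p_n + t u) = 0, so it is in D. As p_n is nearest,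
‖q_n - p_n - t u‖ ≥ ‖q_n - p_n‖ for small t > 0, so inner (q_n - p_n) u ≤ 0 (expand the square and divide by t), so inner u_n u ≤ 0 for all n; the limit is inner u u = 1, contradiction.
-/
theorem hoffman {E F : Type*} [NormedAddCommGroup E] [NormedSpace ℝ E]
    [FiniteDimensional ℝ E] [NormedAddCommGroup F] [NormedSpace ℝ F] [FiniteDimensional ℝ F]
    {ι : Type*} [Finite ι] (L : ι → (E →ᵃ[ℝ] ℝ)) (hb : Bornology.IsBounded {q | ∀ i, 0 ≤ L i q})
    (T : E →ᵃ[ℝ] F) :
    ∃ C > (0 : ℝ), ∀ q, (∀ i, 0 ≤ L i q) →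
      (∃ p, (∀ i, 0 ≤ L i p) ∧ T p = 0 ∧ ‖q - p‖ ≤ C * ‖T q‖) ∨ 1 ≤ C * ‖T q‖ := by
  classical
  have : ProperSpace E := FiniteDimensional.proper ℝ E
  by_contra hcon
  push Not at hcon
  have hn0 : ∀ n : ℕ, (0 : ℝ) < (n : ℝ) + 1 := fun n => by positivity
  have h1 := fun n : ℕ => hcon ((n : ℝ) + 1) (hn0 n)
  choose q hq hqp hq1 using h1
  have hQc : IsClosed {q | ∀ i, 0 ≤ L i q} := by
    rw [Set.ofPred_forall]
    exact isClosed_iInter fun i =>
      isClosed_le continuous_const (L i).continuous_of_finiteDimensional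
  have hQ : IsCompact {q | ∀ i, 0 ≤ L i q} := Metric.isCompact_of_isClosed_isBounded hQc hb
  have hT : Continuous T := T.continuous_of_finiteDimensional
  have hTq : Filter.Tendsto (fun n => T (q n)) Filter.atTop (nhds 0) := by
    refine squeeze_zero_norm (a := fun n : ℕ => 1 / ((n : ℝ) + 1)) (fun n => ?_)
      tendsto_one_div_add_atTop_nhds_zero_nat
    rw [le_div_iff₀ (hn0 n), mul_comm]
    exact (hq1 n).le
  obtain ⟨z, hz, φ, hφ, hφt⟩ := hQ.tendsto_subseq hq
  have hTz : T z = 0 :=
    tendsto_nhds_unique ((hT.tendsto z).comp hφt) (hTq.comp hφ.tendsto_atTop)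
  have hD : IsCompact ({q | ∀ i, 0 ≤ L i q} ∩ {p | T p = 0}) :=
    hQ.inter_right (isClosed_eq hT continuous_const)
  have hDne : ({q | ∀ i, 0 ≤ L i q} ∩ {p | T p = 0}).Nonempty := ⟨z, hz, hTz⟩
  have h2 := fun n : ℕ => hD.exists_infDist_eq_dist hDne (q n)
  choose p hp hpd using h2
  have hr : ∀ n : ℕ, ((n : ℝ) + 1) * ‖T (q n)‖ < ‖q n - p n‖ := fun n =>
    hqp n (p n) (hp n).1 (hp n).2
  have hr0 : ∀ n, 0 < ‖q n - p n‖ := fun n =>
    lt_of_le_of_lt (mul_nonneg (hn0 n).le (norm_nonneg _)) (hr n)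
  have hu1 : ∀ n, ‖(‖q n - p n‖)⁻¹ • (q n - p n)‖ = 1 := by
    intro n
    rw [norm_smul, norm_inv, norm_norm, inv_mul_cancel₀ (hr0 n).ne']
  obtain ⟨u, hu, ψ, hψ, hψt⟩ := (isCompact_sphere (0 : E) 1).tendsto_subseq
    (x := fun n => (‖q n - p n‖)⁻¹ • (q n - p n)) (fun n => by
      rw [mem_sphere_zero_iff_norm]
      exact hu1 n)
  rw [mem_sphere_zero_iff_norm] at hu
  -- the linear part of T vanishes at u
  have hTu : T.linear u = 0 := by
    have c1 : Continuous T.linear := T.linear.continuous_of_finiteDimensional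
    have h3 : Filter.Tendsto (fun n => T.linear ((‖q n - p n‖)⁻¹ • (q n - p n))) Filter.atTop
        (nhds 0) := by
      refine squeeze_zero_norm (a := fun n : ℕ => 1 / ((n : ℝ) + 1)) (fun n => ?_)
        tendsto_one_div_add_atTop_nhds_zero_nat
      rw [hoffman_lin, (hp n).2, sub_zero, norm_smul, norm_inv, norm_norm, ← div_eq_inv_mul,
        div_le_div_iff₀ (hr0 n) (hn0 n), one_mul, mul_comm]
      exact (hr n).le
    exact tendsto_nhds_unique ((c1.tendsto u).comp hψt) (h3.comp hψ.tendsto_atTop)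
  -- active constraints
  have hact : ∀ᶠ n in Filter.atTop, ∀ i, L i (p (ψ n)) = 0 → 0 ≤ (L i).linear u := by
    rw [Filter.eventually_all]
    intro i
    by_cases h3 : 0 ≤ (L i).linear u
    · exact Filter.Eventually.of_forall fun n _ => h3
    · have c1 : Continuous (L i).linear := (L i).linear.continuous_of_finiteDimensional
      have h4 := ((c1.tendsto u).comp hψt).eventually_lt_const (not_le.1 h3)
      filter_upwards [h4] with n hn hn0'
      exfalso
      change (L i).linear ((‖q (ψ n) - p (ψ n)‖)⁻¹ • (q (ψ n) - p (ψ n))) < 0 at hn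
      rw [hoffman_lin, hn0', sub_zero, smul_eq_mul] at hn
      exact absurd hn (not_lt.2 (mul_nonneg (inv_nonneg.2 (norm_nonneg _)) (hq (ψ n) i)))
  have hclose : ∀ᶠ n in Filter.atTop,
      ‖(‖q (ψ n) - p (ψ n)‖)⁻¹ • (q (ψ n) - p (ψ n)) - u‖ < 1 := by
    have h3 := Metric.tendsto_nhds.1 hψt 1 one_pos
    filter_upwards [h3] with n hn
    rwa [dist_eq_norm] at hn
  obtain ⟨n, hn1, hn2⟩ := (hact.and hclose).exists
  generalize ψ n = m at hn1 hn2
  -- a smaller step along u
  have hstep : ∀ᶠ t in nhdsWithin (0 : ℝ) (Ioi 0), ∀ i, 0 ≤ L i (p m + t • u) := by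
    rw [Filter.eventually_all]
    intro i
    have e : ∀ t : ℝ, L i (p m + t • u) = L i (p m) + t * (L i).linear u := by
      intro t
      rw [hoffman_aff, map_smul, smul_eq_mul]
    by_cases h3 : L i (p m) = 0
    · filter_upwards [self_mem_nhdsWithin] with t ht
      rw [e, h3, zero_add]
      exact mul_nonneg (le_of_lt ht) (hn1 i h3)
    · have h4 : 0 < L i (p m) := lt_of_le_of_ne ((hp m).1 i) (Ne.symm h3)
      have h5 : Filter.Tendsto (fun t : ℝ => L i (p m) + t * (L i).linear u) (nhds 0)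
          (nhds (L i (p m) + 0 * (L i).linear u)) :=
        (continuous_const.add (continuous_id.mul continuous_const)).tendsto 0
      rw [zero_mul, add_zero] at h5
      have h6 := h5.eventually_const_lt h4
      filter_upwards [h6.filter_mono nhdsWithin_le_nhds] with t ht
      rw [e]
      exact ht.le
  obtain ⟨t, ht1, ht2⟩ := (hstep.and (Ioo_mem_nhdsGT (hr0 m))).exists
  have hmem : p m + t • u ∈ {q | ∀ i, 0 ≤ L i q} ∩ {p | T p = 0} := by
    refine ⟨ht1, ?_⟩
    change T (p m + t • u) = 0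
    rw [hoffman_aff, map_smul, hTu, smul_zero, add_zero]
    exact (hp m).2
  have h3 : dist (q m) (p m) ≤ dist (q m) (p m + t • u) := by
    rw [← hpd m]
    exact Metric.infDist_le_dist_of_mem hmem
  rw [dist_eq_norm, dist_eq_norm] at h3
  have h5 : ‖q m - p m‖ • ((‖q m - p m‖)⁻¹ • (q m - p m)) = q m - p m := by
    rw [smul_smul, mul_inv_cancel₀ (hr0 m).ne', one_smul]
  have h6 := hu1 m
  generalize (‖q m - p m‖)⁻¹ • (q m - p m) = x at hn2 h5 h6
  have h4 : q m - (p m + t • u) = (‖q m - p m‖ - t) • x + t • (x - u) := by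
    rw [sub_smul, h5, smul_sub]
    abel
  have h7 : ‖q m - (p m + t • u)‖ ≤ (‖q m - p m‖ - t) + t * ‖x - u‖ := by
    rw [h4]
    refine (norm_add_le _ _).trans ?_
    rw [norm_smul, norm_smul, h6, mul_one, Real.norm_eq_abs, Real.norm_eq_abs,
      abs_of_pos ht2.1, abs_of_pos (sub_pos.2 ht2.2)]
  have h8 : t * ‖x - u‖ < t * 1 := mul_lt_mul_of_pos_left hn2 ht2.1
  linarith

end Pool.Agent.H334
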