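import Pool.Agent.Helper334_Fold.CDefs
import Pool.Agent.Helper334_Fold.UDefs
import Pool.Agent.Helper334_Fold.Q_tri_exists

set_option autoImplicit false

open Set


namespace Pool.Agent.H334

open Pool.Agent.Helper22.FC (SimplePolygon IsPaper cyc curve wnd side SimpleL)

/- TARGET. Plain-words proof:
tri_exists hv hP 0 gives ι, Fintype ι, T with Tri; take N = card ι and an equivalence Fin N ≃ ι. For s : ι let L s c be the c-th barycentric coordinate of T.vtx s (affine basis of ℂ: affinely independent triple in the 2-dimensional real space ℂ spans; AffineBasis.coord; convexHull_eq_nonneg_coord / AffineBasis.convexHull_eq_nonneg_coord).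
So {x | ∀ c, 0 ≤ L s c x} = convexHull of the three vertices = T.tri s, bounded, and the union is P by (Tri).cover.
-/
theorem region_cover {n : ℕ} {w : Fin (n + 3) → ℂ} (hv : SimplePolygon w) {P : Set ℂ}
    (hP : IsPaper w P) :
    ∃ (N : ℕ) (L : Fin N → Fin 3 → (ℂ →ᵃ[ℝ] ℝ)),
      (∀ s, Bornology.IsBounded {x | ∀ c, 0 ≤ L s c x}) ∧ ⋃ s, {x | ∀ c, 0 ≤ L s c x} = P := by
  obtain ⟨ι, _, T, hT⟩ := tri_exists hv hP 0
  let e : ι ≃ Fin (Fintype.card ι) := Fintype.equivFin ι
  let b : ι → AffineBasis (Fin 3) ℝ ℂ := fun i => ⟨T.vtx i, T.nondeg i,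
    (T.nondeg i).affineSpan_eq_top_iff_card_eq_finrank_add_one.2 (by simp)⟩
  have hb : ∀ i, {x | ∀ c, 0 ≤ (b i).coord c x} = T.tri i := by
    intro i
    exact ((b i).convexHull_eq_nonneg_coord).symm
  refine ⟨Fintype.card ι, fun s c => (b (e.symm s)).coord c, fun s => ?_, ?_⟩
  · rw [hb]
    exact isBounded_convexHull.2 (Set.finite_range _).isBounded
  · rw [← hT.cover]
    simp only [hb]
    exact e.symm.surjective.iUnion_comp T.tri

end Pool.Agent.H334
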