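import Pool.Agent.Helper334_Fold.CDefs
import Pool.Agent.Helper334_Fold.UDefs
import Pool.Agent.Helper334_Fold.U_hoffman
import Pool.Agent.Helper334_Fold.U_region_cover
import Pool.Agent.Helper334_Fold.U_frm_dist

set_option autoImplicit false

open Set


namespace Pool.Agent.H334

open Pool.Agent.Helper22.FC (SimplePolygon IsPaper cyc curve wnd side SimpleL)

/-- the linear part of `frm` -/
noncomputable def linP {k : ℕ} (v : Par k) (i : Fin (k + 1)) : ℂ →ₗ[ℝ] Space where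
  toFun x := WithLp.toLp 2 (fun c => x.re * v (i, 1, c) + x.im * v (i, 2, c))
  map_add' x y := by
    ext c
    simp only [PiLp.add_apply, Complex.add_re, Complex.add_im]
    ring
  map_smul' a x := by
    ext c
    simp only [PiLp.smul_apply, Complex.smul_re, Complex.smul_im, RingHom.id_apply, smul_eq_mul]
    ring

theorem frm_sub {k : ℕ} (v : Par k) (i : Fin (k + 1)) (x y : ℂ) :
    frm v i x - frm v i y = linP v i (x - y) := by
  ext c
  simp only [frm, linP, PiLp.sub_apply, LinearMap.coe_mk, AddHom.coe_mk, Complex.sub_re,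
    Complex.sub_im]
  ring

theorem norm_toLp_le (u : Fin 3 → ℝ) (B : ℝ) (hB : 0 ≤ B) (h : ∀ c, |u c| ≤ B) :
    ‖(WithLp.toLp 2 u : Space)‖ ≤ 2 * B := by
  rw [EuclideanSpace.norm_eq, Fin.sum_univ_three]
  apply Real.sqrt_le_iff.mpr
  refine ⟨by positivity, ?_⟩
  have h0 := h 0
  have h1 := h 1
  have h2 := h 2
  simp only [Real.norm_eq_abs, sq_abs]
  have e : ∀ c, u c ^ 2 ≤ B ^ 2 := fun c => by
    rw [← sq_abs]; exact pow_le_pow_left₀ (abs_nonneg _) (h c) 2
  nlinarith [e 0, e 1, e 2, sq_nonneg B]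

theorem linP_sub_le {k : ℕ} (v w : Par k) (i : Fin (k + 1)) (z : ℂ) :
    ‖linP w i z - linP v i z‖ ≤ 4 * dist w v * ‖z‖ := by
  have e : linP w i z - linP v i z = WithLp.toLp 2 (fun c => z.re * (w (i, 1, c) - v (i, 1, c)) +
      z.im * (w (i, 2, c) - v (i, 2, c))) := by
    ext c
    simp only [linP, PiLp.sub_apply, LinearMap.coe_mk, AddHom.coe_mk]
    ring
  rw [e]
  have hd : ∀ a, |w a - v a| ≤ dist w v := fun a => by
    have := dist_le_pi_dist w v a
    rwa [Real.dist_eq] at this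
  refine (norm_toLp_le _ (2 * dist w v * ‖z‖) (by positivity) fun c => ?_).trans (by ring_nf; rfl)
  refine (abs_add_le _ _).trans ?_
  rw [abs_mul, abs_mul]
  have h1 := Complex.abs_re_le_norm z
  have h2 := Complex.abs_im_le_norm z
  have h3 : |z.re| * |w (i, 1, c) - v (i, 1, c)| ≤ ‖z‖ * dist w v := by
    gcongr; exact hd _
  have h4 : |z.im| * |w (i, 2, c) - v (i, 2, c)| ≤ ‖z‖ * dist w v := by
    gcongr; exact hd _
  nlinarith

theorem frm_sub_le {k : ℕ} (v w : Par k) (i : Fin (k + 1)) (x : ℂ) :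
    ‖frm w i x - frm v i x‖ ≤ 4 * dist w v * (1 + ‖x‖) := by
  have e : frm w i x - frm v i x = WithLp.toLp 2 (fun c => (w (i, 0, c) - v (i, 0, c)) +
      (x.re * (w (i, 1, c) - v (i, 1, c)) + x.im * (w (i, 2, c) - v (i, 2, c)))) := by
    ext c
    simp only [frm, PiLp.sub_apply]
    ring
  rw [e]
  have hd : ∀ a, |w a - v a| ≤ dist w v := fun a => by
    have := dist_le_pi_dist w v a
    rwa [Real.dist_eq] at this
  refine (norm_toLp_le _ (dist w v + 2 * dist w v * ‖x‖) (by positivity) fun c => ?_).trans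
    (by nlinarith [dist_nonneg (x := w) (y := v), norm_nonneg x,
      mul_nonneg (dist_nonneg (x := w) (y := v)) (norm_nonneg x)])
  refine (abs_add_le _ _).trans ?_
  refine add_le_add (hd _) ?_
  refine (abs_add_le _ _).trans ?_
  rw [abs_mul, abs_mul]
  have h1 := Complex.abs_re_le_norm x
  have h2 := Complex.abs_im_le_norm x
  have h3 : |x.re| * |w (i, 1, c) - v (i, 1, c)| ≤ ‖x‖ * dist w v := by
    gcongr; exact hd _
  have h4 : |x.im| * |w (i, 2, c) - v (i, 2, c)| ≤ ‖x‖ * dist w v := by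
    gcongr; exact hd _
  nlinarith

theorem frm_eqvGen {k : ℕ} (X : PolyTree k) {w : Par k}
    (hw : ∀ a b, X.Glue a b → frm w a.1 a.2 = frm w b.1 b.2) {a b : Fin (k + 1) × ℂ}
    (h : Relation.EqvGen X.Glue a b) : frm w a.1 a.2 = frm w b.1 b.2 := by
  induction h with
  | rel a b h => exact hw a b h
  | refl a => rfl
  | symm a b _ ih => exact ih.symm
  | trans a b c _ _ h1 h2 => exact h1.trans h2

theorem conf_open {k : ℕ} (X : PolyTree k) {f0 : Fin (k + 1) → ℂ → Space}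
    (h0 : X.IsConfig f0) {v : Par k} (hv : v ∈ Conf X f0) :
    ∃ δ > (0 : ℝ), ∀ w : Par k, Orth w → (∀ a b, X.Glue a b → frm w a.1 a.2 = frm w b.1 b.2) →
      dist w v < δ → w ∈ Conf X f0 := by
  classical
  have hcov := fun i => region_cover (X.simple i) (X.paper i)
  choose N L hLb hLc using hcov
  have key : ∀ (i j : Fin (k + 1)) (s : Fin (N i)) (t : Fin (N j)), ∀ᶠ w : Par k in nhds v,
      (∀ a b, X.Glue a b → frm w a.1 a.2 = frm w b.1 b.2) → ∀ x y, (∀ c, 0 ≤ L i s c x) →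
        (∀ c, 0 ≤ L j t c y) → frm w i x = frm w j y → frm v i x = frm v j y := by
    intro i j s t
    let TL : ℂ × ℂ →ₗ[ℝ] Space := (linP v i).comp (LinearMap.fst ℝ ℂ ℂ) -
      (linP v j).comp (LinearMap.snd ℝ ℂ ℂ)
    let T : ℂ × ℂ →ᵃ[ℝ] Space := TL.toAffineMap +
      AffineMap.const ℝ (ℂ × ℂ) (frm v i 0 - frm v j 0)
    have hT : ∀ q, T q = frm v i q.1 - frm v j q.2 := by
      intro q
      have h1 := frm_sub v i q.1 0
      have h2 := frm_sub v j q.2 0
      rw [sub_zero] at h1 h2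
      change (linP v i q.1 - linP v j q.2) + (frm v i 0 - frm v j 0) = _
      rw [← h1, ← h2]; abel
    let L' : Fin 3 ⊕ Fin 3 → (ℂ × ℂ →ᵃ[ℝ] ℝ) := Sum.elim
      (fun c => (L i s c).comp (LinearMap.fst ℝ ℂ ℂ).toAffineMap)
      (fun c => (L j t c).comp (LinearMap.snd ℝ ℂ ℂ).toAffineMap)
    have hQ : ∀ q : ℂ × ℂ, (∀ e, 0 ≤ L' e q) ↔ (∀ c, 0 ≤ L i s c q.1) ∧ ∀ c, 0 ≤ L j t c q.2 := by
      intro q
      constructor
      · intro h
        exact ⟨fun c => h (Sum.inl c), fun c => h (Sum.inr c)⟩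
      · rintro ⟨h1, h2⟩ (c | c)
        · exact h1 c
        · exact h2 c
    have hb : Bornology.IsBounded {q : ℂ × ℂ | ∀ e, 0 ≤ L' e q} := by
      refine ((hLb i s).prod (hLb j t)).subset ?_
      intro q hq
      exact (hQ q).mp hq
    obtain ⟨C, hC, hH⟩ := hoffman L' hb T
    obtain ⟨R, hR⟩ := hb.exists_norm_le
    set R' := max R 0 with hR'
    have hR0 : 0 ≤ R' := le_max_right _ _
    rw [Metric.eventually_nhds_iff]
    refine ⟨1 / (16 * C * (1 + R')), by positivity, fun w hwd hw x y hx hy hxy => ?_⟩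
    have hd0 : 0 ≤ dist w v := dist_nonneg
    have hdd : dist w v * (16 * C * (1 + R')) < 1 := by
      rw [lt_div_iff₀ (by positivity)] at hwd
      exact hwd
    have hq : ∀ e, 0 ≤ L' e (x, y) := (hQ (x, y)).mpr ⟨hx, hy⟩
    have hnq : ‖((x, y) : ℂ × ℂ)‖ ≤ R' := (hR _ hq).trans (le_max_left _ _)
    have hnx : ‖x‖ ≤ R' := (norm_fst_le (x, y)).trans hnq
    have hny : ‖y‖ ≤ R' := (norm_snd_le (x, y)).trans hnq
    have hTq := hT (x, y)
    simp only at hTq
    rw [← sub_eq_zero, ← hTq, ← norm_eq_zero]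
    have hT0 : 0 ≤ ‖T (x, y)‖ := norm_nonneg _
    rcases hH (x, y) hq with ⟨p, hp, hTp, hpq⟩ | h1
    · have hp' := (hQ p).mp hp
      have hp1 : p.1 ∈ X.region i := by
        rw [← hLc i]; exact mem_iUnion.mpr ⟨s, hp'.1⟩
      have hp2 : p.2 ∈ X.region j := by
        rw [← hLc j]; exact mem_iUnion.mpr ⟨t, hp'.2⟩
      rw [hT p, sub_eq_zero] at hTp
      have h2 := (hv.2 i j p.1 hp1 p.2 hp2).mp hTp
      have h3 := frm_eqvGen X hw (h0.1.inj i j p.1 hp1 p.2 hp2 h2)
      simp only at h3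
      have e1 : T (x, y) = (linP v i (x - p.1) - linP w i (x - p.1)) -
          (linP v j (y - p.2) - linP w j (y - p.2)) := by
        rw [hTq, ← frm_sub, ← frm_sub, ← frm_sub, ← frm_sub, hxy, h3, hTp]
        abel
      have e2 : ‖T (x, y)‖ ≤ 4 * dist w v * ‖x - p.1‖ + 4 * dist w v * ‖y - p.2‖ := by
        rw [e1]
        refine (norm_sub_le _ _).trans (add_le_add ?_ ?_)
        · rw [norm_sub_rev]; exact linP_sub_le v w i _
        · rw [norm_sub_rev]; exact linP_sub_le v w j _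
      have h4 : ‖x - p.1‖ ≤ C * ‖T (x, y)‖ := (norm_fst_le ((x, y) - p)).trans hpq
      have h5 : ‖y - p.2‖ ≤ C * ‖T (x, y)‖ := (norm_snd_le ((x, y) - p)).trans hpq
      have h6 : ‖T (x, y)‖ ≤ 8 * dist w v * C * ‖T (x, y)‖ := by
        calc ‖T (x, y)‖ ≤ _ := e2
          _ ≤ 4 * dist w v * (C * ‖T (x, y)‖) + 4 * dist w v * (C * ‖T (x, y)‖) := by gcongr
          _ = _ := by ring
      have h7 : 8 * dist w v * C ≤ 1 / 2 := by nlinarith [mul_nonneg (mul_nonneg hd0 hC.le) hR0]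
      nlinarith
    · exfalso
      have e1 : T (x, y) = (frm v i x - frm w i x) - (frm v j y - frm w j y) := by
        rw [hTq, hxy]; abel
      have e2 : ‖T (x, y)‖ ≤ 4 * dist w v * (1 + R') + 4 * dist w v * (1 + R') := by
        rw [e1]
        refine (norm_sub_le _ _).trans (add_le_add ?_ ?_)
        · rw [norm_sub_rev]; refine (frm_sub_le v w i _).trans ?_; gcongr
        · rw [norm_sub_rev]; refine (frm_sub_le v w j _).trans ?_; gcongr
      have h2 : C * ‖T (x, y)‖ ≤ C * (4 * dist w v * (1 + R') + 4 * dist w v * (1 + R')) := by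
        gcongr
      nlinarith
  have key' : ∀ᶠ w : Par k in nhds v, ∀ (i j : Fin (k + 1)) (s : Fin (N i)) (t : Fin (N j)),
      (∀ a b, X.Glue a b → frm w a.1 a.2 = frm w b.1 b.2) → ∀ x y, (∀ c, 0 ≤ L i s c x) →
        (∀ c, 0 ≤ L j t c y) → frm w i x = frm w j y → frm v i x = frm v j y := by
    simp only [Filter.eventually_all]
    exact key
  rw [Metric.eventually_nhds_iff] at key'
  obtain ⟨δ, hδ, hk⟩ := key'
  refine ⟨δ, hδ, fun w hwO hwG hwd => ⟨hwO, fun i j x hx y hy => ⟨fun h => ?_, fun h => ?_⟩⟩⟩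
  · have hx' := hx
    have hy' := hy
    rw [← hLc i] at hx'
    rw [← hLc j] at hy'
    obtain ⟨s, hs⟩ := mem_iUnion.mp hx'
    obtain ⟨t, ht⟩ := mem_iUnion.mp hy'
    exact (hv.2 i j x hx y hy).mp (hk hwd i j s t hwG x y hs ht h)
  · exact frm_eqvGen X hwG (h0.1.inj i j x hx y hy h)

end Pool.Agent.H334
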