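import Pool.Agent.Helper334_Fold.CDefs
import Pool.Agent.Helper334_Fold.UDefs
import Pool.Agent.Helper334_SA.Comp
import Pool.Agent.Helper334_Fold.U_conf_of_config
import Pool.Agent.Helper334_Fold.U_region_cover

set_option autoImplicit false

open Set


namespace Pool.Agent.H334

open Pool.Agent.Helper22.FC (SimplePolygon IsPaper cyc curve wnd side SimpleL)

open Helper334_SA in
theorem uc6_forall_real {ι : Type} {p : (Option ι → ℝ) → Prop} (hp : SAP p) :
    SAP (fun v : ι → ℝ => ∀ t, p (ext t v)) :=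
  (hp.not.exists_real).not.congr fun v => by simp

open Helper334_SA in
theorem uc6_forall_fin {ι α : Type} [Finite α] {p : α → (ι → ℝ) → Prop}
    (h : ∀ a, SAP (p a)) : SAP (fun v => ∀ a, p a v) := by
  classical
  have := Fintype.ofFinite α
  exact SAP.congr (SAP.forall_mem Finset.univ fun a _ => h a) (by simp)

theorem uc6_aff (L : ℂ →ᵃ[ℝ] ℝ) (a b : ℝ) :
    L ⟨a, b⟩ = L 0 + a * (L 1 - L 0) + b * (L Complex.I - L 0) := by
  have h : ∀ x : ℂ, L.linear x = L x - L 0 := fun x => by
    have := L.linearMap_vsub x 0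
    simpa using this
  have h1 : (⟨a, b⟩ : ℂ) = a • (1 : ℂ) + b • Complex.I := by
    apply Complex.ext <;> simp
  have h2 : L.linear ⟨a, b⟩ = a * L.linear 1 + b * L.linear Complex.I := by
    rw [h1, map_add, map_smul, map_smul, smul_eq_mul, smul_eq_mul]
  rw [h, h, h] at h2
  linarith

/-- coordinates of `frm` -/
def uc6_fc {k : ℕ} (v : Par k) (i : Fin (k + 1)) (a b : ℝ) (c : Fin 3) : ℝ :=
  v (i, 0, c) + a * v (i, 1, c) + b * v (i, 2, c)

theorem uc6_frm {k : ℕ} (v w : Par k) (i j : Fin (k + 1)) (x y : ℂ) :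
    frm v i x = frm w j y ↔ ∀ c, uc6_fc v i x.re x.im c = uc6_fc w j y.re y.im c := by
  unfold frm uc6_fc
  rw [(WithLp.toLp_injective 2).eq_iff, funext_iff]

/-- the condition with four added coordinates -/
def uc6_inn {k : ℕ} (N : Fin (k + 1) → ℕ) (L : ∀ i, Fin (N i) → Fin 3 → (ℂ →ᵃ[ℝ] ℝ))
    (v0 : Par k) (i j : Fin (k + 1))
    (w : Option (Option (Option (Option (Fin (k + 1) × Fin 3 × Fin 3)))) → ℝ) : Prop :=
  (∃ s, ∀ e, 0 ≤ L i s e ⟨w (some (some (some none))), w (some (some none))⟩) →
    (∃ s, ∀ e, 0 ≤ L j s e ⟨w (some none), w none⟩) →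
      ((∀ c, uc6_fc (fun p => w (some (some (some (some p))))) i (w (some (some (some none))))
          (w (some (some none))) c =
        uc6_fc (fun p => w (some (some (some (some p))))) j (w (some none)) (w none) c) ↔
      ∀ c, uc6_fc v0 i (w (some (some (some none)))) (w (some (some none))) c =
        uc6_fc v0 j (w (some none)) (w none) c)

open Helper334_SA in
theorem uc6_sap {k : ℕ} (N : Fin (k + 1) → ℕ) (L : ∀ i, Fin (N i) → Fin 3 → (ℂ →ᵃ[ℝ] ℝ))
    (v0 : Par k) (i j : Fin (k + 1)) : SAP (uc6_inn N L v0 i j) := by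
  have hL : ∀ (M : ℂ →ᵃ[ℝ] ℝ)
      (p q : Option (Option (Option (Option (Fin (k + 1) × Fin 3 × Fin 3))))),
      PF (fun w : Option (Option (Option (Option (Fin (k + 1) × Fin 3 × Fin 3)))) → ℝ =>
        M ⟨w p, w q⟩) := by
    intro M p q
    have : (fun w : Option (Option (Option (Option (Fin (k + 1) × Fin 3 × Fin 3)))) → ℝ =>
        M ⟨w p, w q⟩) = fun w => M 0 + w p * (M 1 - M 0) + w q * (M Complex.I - M 0) := by
      funext w
      exact uc6_aff M _ _
    rw [this]
    exact ((PF.const _).add ((PF.coord p).mul (PF.const _))).add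
      ((PF.coord q).mul (PF.const _))
  have h1 : ∀ (i' : Fin (k + 1))
      (p q : Option (Option (Option (Option (Fin (k + 1) × Fin 3 × Fin 3))))),
      SAP (fun w : Option (Option (Option (Option (Fin (k + 1) × Fin 3 × Fin 3)))) → ℝ =>
        ∃ s, ∀ e, 0 ≤ L i' s e ⟨w p, w q⟩) := fun i' p q =>
    SAP.exists_fin fun s => uc6_forall_fin fun e => SAP.le PF.zero (hL _ p q)
  have h2 : ∀ (i' : Fin (k + 1)) (c : Fin 3)
      (p q : Option (Option (Option (Option (Fin (k + 1) × Fin 3 × Fin 3))))),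
      PF (fun w : Option (Option (Option (Option (Fin (k + 1) × Fin 3 × Fin 3)))) → ℝ =>
        uc6_fc (fun r => w (some (some (some (some r))))) i' (w p) (w q) c) := by
    intro i' c p q
    unfold uc6_fc
    exact ((PF.coord _).add ((PF.coord p).mul (PF.coord _))).add ((PF.coord q).mul (PF.coord _))
  have h3 : ∀ (i' : Fin (k + 1)) (c : Fin 3)
      (p q : Option (Option (Option (Option (Fin (k + 1) × Fin 3 × Fin 3))))),
      PF (fun w : Option (Option (Option (Option (Fin (k + 1) × Fin 3 × Fin 3)))) → ℝ =>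
        uc6_fc v0 i' (w p) (w q) c) := by
    intro i' c p q
    unfold uc6_fc
    exact ((PF.const _).add ((PF.coord p).mul (PF.const _))).add ((PF.coord q).mul (PF.const _))
  unfold uc6_inn
  exact (h1 i _ _).imp ((h1 j _ _).imp ((uc6_forall_fin fun c => SAP.eq (h2 i c _ _)
    (h2 j c _ _)).iff (uc6_forall_fin fun c => SAP.eq (h3 i c _ _) (h3 j c _ _))))

open Helper334_SA in
theorem uc6_orth {k : ℕ} : SAP (fun v : Par k => Orth v) := by
  unfold Orth
  refine uc6_forall_fin fun i => ?_
  refine SAP.and ?_ (SAP.and ?_ ?_)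
  · exact SAP.eq (PF.sum _ fun c _ => (PF.coord _).pow 2) PF.one
  · exact SAP.eq (PF.sum _ fun c _ => (PF.coord _).pow 2) PF.one
  · exact SAP.eq (PF.sum _ fun c _ => (PF.coord _).mul (PF.coord _)) PF.zero

/- TARGET. Plain-words proof:
Use the library Helper334_SA: SA, SAP, PF (SA.lean) and SAP.exists_real (QE.lean). conf_of_config X h0 h0 gives v0 with f0 i x = frm v0 i x on region i. region_cover for every polygon gives affine L. So v ∈ Conf X f0 iff Orth v and for all i, j (finitely many, SAP.forall_mem / forall over a Fintype via Finset.univ) and all real numbers a, b, c, d: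
(∃ s, ∀ e, 0 ≤ L_i s e (a + b I)) → (∃ s, ∀ e, 0 ≤ L_j s e (c + d I)) → (frm v i (a + b I) = frm v j (c + d I) ↔ frm v0 i (a+bI) = frm v0 j (c+dI)). An affine map L : ℂ →ᵃ[ℝ] ℝ is L(a + bI) = L 0 + a (L 1 - L 0) + b (L I - L 0) (real coefficients), a polynomial in the variables; equality in Space is equality of the three coordinates, which are
polynomials in v and a, b (resp. c, d). Universal quantifier over a real variable = not exists not (SAP.not, SAP.exists_real with index types Option ι, Option (Option ι), ...; ext a v adds a coordinate: the inner predicate is a predicate on Option (Option (Option (Option ι))) → ℝ built with PF.coord, PF.add, PF.mul, PF.const, SAP.eq, SAP.le, SAP.and, SAP.or, SAP.imp, SAP.iff,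
SAP.exists_fin). Orth: three polynomial equations for each i.
-/
theorem conf_sa {k : ℕ} (X : PolyTree k) (f0 : Fin (k + 1) → ℂ → Space) (h0 : X.IsConfig f0) :
    Helper334_SA.SA (Conf X f0) := by
  classical
  obtain ⟨v0, -, hv0⟩ := conf_of_config X h0 h0
  choose N L hb hL using fun i => region_cover (X.simple i) (X.paper i)
  have hreg : ∀ i (x : ℂ), x ∈ X.region i ↔ ∃ s, ∀ e, 0 ≤ L i s e ⟨x.re, x.im⟩ := by
    intro i x
    rw [← hL i]
    simp
  have key : Helper334_SA.SAP (fun v : Par k => Orth v ∧ ∀ i j, ∀ a b c d : ℝ,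
      uc6_inn N L v0 i j (Helper334_SA.ext d (Helper334_SA.ext c
        (Helper334_SA.ext b (Helper334_SA.ext a v))))) := by
    refine uc6_orth.and (uc6_forall_fin fun i => uc6_forall_fin fun j => ?_)
    have e1 := uc6_forall_real (uc6_sap N L v0 i j)
    have e2 := uc6_forall_real e1
    have e3 := uc6_forall_real e2
    exact uc6_forall_real e3
  refine key.congr fun v => ?_
  constructor
  · rintro ⟨h1, h2⟩
    refine ⟨h1, fun i j a b c d => ?_⟩
    intro hx hy
    have hx' : (⟨a, b⟩ : ℂ) ∈ X.region i := (hreg i _).2 hx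
    have hy' : (⟨c, d⟩ : ℂ) ∈ X.region j := (hreg j _).2 hy
    have h3 := h2 i j _ hx' _ hy'
    rw [hv0 i _ hx', hv0 j _ hy', uc6_frm, uc6_frm] at h3
    exact h3
  · rintro ⟨h1, h2⟩
    refine ⟨h1, fun i j x hx y hy => ?_⟩
    have h3 := h2 i j x.re x.im y.re y.im ((hreg i _).1 hx) ((hreg j _).1 hy)
    rw [hv0 i _ hx, hv0 j _ hy, uc6_frm, uc6_frm]
    exact h3

end Pool.Agent.H334
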