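import Pool.Agent.Helper334_Fold.CDefs
import Pool.Agent.Helper334_Fold.UDefs
import Pool.Agent.Helper334_Fold.U_frm_dist

set_option autoImplicit false

open Set


namespace Pool.Agent.H334

open Pool.Agent.Helper22.FC (SimplePolygon IsPaper cyc curve wnd side SimpleL)

/- TARGET. Plain-words proof:
glued: X.Glue a b: the points are on edges, hence in the regions (segment ⊆ boundary = frontier ⊆ region since the region is compact, so closed; lineMap with parameter in [0,1] is in the segment; for p0, p1 distinguish X.same j and use segment_symm), f0 a.1 a.2 = f0 b.1 b.2 by h0.1.glued, so frm v agrees by hv.2. cont: frm v i is continuous.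
inj: frm v i x = frm v j y → f0 i x = f0 j y → EqvGen by h0.1.inj. Isometry: frm_dist hv.1.
-/
theorem config_of_conf {k : ℕ} (X : PolyTree k) {f0 : Fin (k + 1) → ℂ → Space}
    (h0 : X.IsConfig f0) {v : Par k} (hv : v ∈ Conf X f0) : X.IsConfig (frm v) := by
  have hseg : ∀ i e, segment ℝ (X.vtx i e) (X.vtx i (e + 1)) ⊆ X.region i := by
    intro i e x hx
    have h1 : x ∈ frontier (X.region i) := by
      rw [(X.paper i).bdry]
      exact Set.mem_iUnion.2 ⟨e, hx⟩
    exact (X.paper i).compact.isClosed.frontier_subset h1
  refine ⟨⟨?_, ?_, ?_⟩, ?_⟩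
  · intro a b hg
    have hg' := hg
    obtain ⟨j, s, hs, ha, hb⟩ := hg
    have h1 : a.2 ∈ X.region a.1 := by
      rw [ha]
      apply hseg j.succ (X.ev j)
      rw [segment_eq_image_lineMap]
      exact ⟨s, hs, rfl⟩
    have h2 : b.2 ∈ X.region b.1 := by
      rw [hb]
      apply hseg (X.par j) (X.eu j)
      by_cases hj : X.same j
      · have e0 : X.p0 j = X.vtx (X.par j) (X.eu j) := by
          unfold PolyTree.p0; rw [if_pos hj]
        have e1 : X.p1 j = X.vtx (X.par j) (X.eu j + 1) := by
          unfold PolyTree.p1; rw [if_pos hj]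
        rw [e0, e1, segment_eq_image_lineMap]
        exact ⟨s, hs, rfl⟩
      · have e0 : X.p0 j = X.vtx (X.par j) (X.eu j + 1) := by
          unfold PolyTree.p0; rw [if_neg hj]
        have e1 : X.p1 j = X.vtx (X.par j) (X.eu j) := by
          unfold PolyTree.p1; rw [if_neg hj]
        rw [e0, e1, segment_symm, segment_eq_image_lineMap]
        exact ⟨s, hs, rfl⟩
    exact (hv.2 _ _ _ h1 _ h2).2 (h0.1.glued a b hg')
  · intro i
    apply Continuous.continuousOn
    unfold frm
    apply (PiLp.continuous_toLp 2 _).comp
    apply continuous_pi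
    intro c
    fun_prop
  · intro i j x hx y hy h
    exact h0.1.inj i j x hx y hy ((hv.2 i j x hx y hy).1 h)
  · intro i x _ y _
    exact frm_dist hv.1 i x y

end Pool.Agent.H334
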