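import Pool.Agent.Helper334_Fold.CDefs
import Pool.Agent.Helper334_Fold.UDefs

set_option autoImplicit false

open Set


namespace Pool.Agent.H334

open Pool.Agent.Helper22.FC (SimplePolygon IsPaper cyc curve wnd side SimpleL)

theorem frame_path (h : ℝ → Space) (hc : ContinuousOn h (Icc 0 1))
    (hn : ∀ t ∈ Icc (0 : ℝ) 1, ‖h t‖ = 1) (ν0 ν1 : Space)
    (h0 : ‖ν0‖ = 1) (h1 : ‖ν1‖ = 1) (o0 : inner ℝ (h 0) ν0 = 0) (o1 : inner ℝ (h 1) ν1 = 0)
    (ε : ℝ) (hε1 : ε ≤ 1 / 4) (hd : ‖ν1 - ν0‖ ≤ ε)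
    (hh : ∀ t ∈ Icc (0 : ℝ) 1, ‖h t - h 0‖ ≤ ε) :
    ∃ ν : ℝ → Space, ContinuousOn ν (Icc 0 1) ∧ ν 0 = ν0 ∧ ν 1 = ν1 ∧
      ∀ t ∈ Icc (0 : ℝ) 1, ‖ν t‖ = 1 ∧ inner ℝ (h t) (ν t) = 0 ∧ ‖ν t - ν0‖ ≤ 8 * ε := by
  classical
  have hε0 : 0 ≤ ε := (norm_nonneg _).trans hd
  have h00 : ‖h 0‖ = 1 := hn 0 ⟨le_rfl, zero_le_one⟩
  set m : ℝ → Space := fun t => ν0 + t • (ν1 - ν0) with hm
  have hmc : Continuous m := by
    rw [hm]; fun_prop
  have hmd : ∀ t ∈ Icc (0 : ℝ) 1, ‖m t - ν0‖ ≤ ε := by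
    intro t ht
    have e : m t - ν0 = t • (ν1 - ν0) := by simp [hm]
    rw [e, norm_smul, Real.norm_eq_abs, abs_of_nonneg ht.1]
    have := norm_nonneg (ν1 - ν0)
    nlinarith [ht.2]
  have hmn : ∀ t ∈ Icc (0 : ℝ) 1, ‖m t‖ ≤ 1 := by
    intro t ht
    have e : m t = (1 - t) • ν0 + t • ν1 := by
      simp only [hm, smul_sub, sub_smul, one_smul]
      abel
    rw [e]
    refine (norm_add_le _ _).trans ?_
    rw [norm_smul, norm_smul, h0, h1, Real.norm_eq_abs, Real.norm_eq_abs,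
      abs_of_nonneg (by linarith [ht.2] : 0 ≤ 1 - t), abs_of_nonneg ht.1]
    linarith
  set P : ℝ → Space := fun t => m t - (inner ℝ (h t) (m t)) • h t with hP
  have hPc : ContinuousOn P (Icc 0 1) := by
    have hi : ContinuousOn (fun t => inner ℝ (h t) (m t)) (Icc (0 : ℝ) 1) :=
      hc.inner (𝕜 := ℝ) hmc.continuousOn
    exact hmc.continuousOn.sub (hi.smul hc)
  have hin : ∀ t ∈ Icc (0 : ℝ) 1, |inner ℝ (h t) (m t)| ≤ 2 * ε := by
    intro t ht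
    have e : inner ℝ (h t) (m t) = inner ℝ (h t - h 0) (m t) + inner ℝ (h 0) (m t - ν0) := by
      rw [inner_sub_left, inner_sub_right, o0]
      ring
    rw [e]
    have e1 : |inner ℝ (h t - h 0) (m t)| ≤ ‖h t - h 0‖ * ‖m t‖ := abs_real_inner_le_norm _ _
    have e2 : |inner ℝ (h 0) (m t - ν0)| ≤ ‖h 0‖ * ‖m t - ν0‖ := abs_real_inner_le_norm _ _
    have e3 : ‖h t - h 0‖ * ‖m t‖ ≤ ε * 1 :=
      mul_le_mul (hh t ht) (hmn t ht) (norm_nonneg _) hε0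
    have e4 := hmd t ht
    rw [h00, one_mul] at e2
    refine (abs_add_le _ _).trans ?_
    linarith
  have hPd : ∀ t ∈ Icc (0 : ℝ) 1, ‖P t - ν0‖ ≤ 3 * ε := by
    intro t ht
    have e : P t - ν0 = (m t - ν0) - (inner ℝ (h t) (m t)) • h t := by
      simp only [hP]; abel
    rw [e]
    refine (norm_sub_le _ _).trans ?_
    rw [norm_smul, hn t ht, mul_one, Real.norm_eq_abs]
    linarith [hmd t ht, hin t ht]
  have hPn : ∀ t ∈ Icc (0 : ℝ) 1, |1 - ‖P t‖| ≤ 3 * ε := by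
    intro t ht
    have := abs_norm_sub_norm_le ν0 (P t)
    rw [h0] at this
    refine this.trans ?_
    rw [norm_sub_rev]
    exact hPd t ht
  have hPpos : ∀ t ∈ Icc (0 : ℝ) 1, 0 < ‖P t‖ := by
    intro t ht
    have := (abs_le.1 (hPn t ht)).2
    linarith
  have hP0 : P 0 = ν0 := by
    have : m 0 = ν0 := by simp [hm]
    simp only [hP, this, o0, zero_smul, sub_zero]
  have hP1 : P 1 = ν1 := by
    have : m 1 = ν1 := by simp [hm]
    simp only [hP, this, o1, zero_smul, sub_zero]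
  refine ⟨fun t => ‖P t‖⁻¹ • P t, ?_, ?_, ?_, ?_⟩
  · exact (hPc.norm.inv₀ fun t ht => (hPpos t ht).ne').smul hPc
  · simp only [hP0, h0, inv_one, one_smul]
  · simp only [hP1, h1, inv_one, one_smul]
  · intro t ht
    have hp := hPpos t ht
    refine ⟨?_, ?_, ?_⟩
    · show ‖‖P t‖⁻¹ • P t‖ = 1
      rw [norm_smul, norm_inv, norm_norm, inv_mul_cancel₀ hp.ne']
    · show inner ℝ (h t) (‖P t‖⁻¹ • P t) = 0
      rw [real_inner_smul_right]
      have : inner ℝ (h t) (P t) = 0 := by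
        simp only [hP]
        rw [inner_sub_right, real_inner_smul_right, real_inner_self_eq_norm_sq, hn t ht]
        ring
      rw [this, mul_zero]
    · show ‖‖P t‖⁻¹ • P t - ν0‖ ≤ 8 * ε
      have e : ‖P t‖⁻¹ • P t - ν0 = (‖P t‖⁻¹ - 1) • P t + (P t - ν0) := by
        rw [sub_smul, one_smul]; abel
      rw [e]
      refine (norm_add_le _ _).trans ?_
      have e2 : ‖(‖P t‖⁻¹ - 1) • P t‖ = |1 - ‖P t‖| := by
        rw [norm_smul, Real.norm_eq_abs]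
        have : 1 - ‖P t‖ = (‖P t‖⁻¹ - 1) * ‖P t‖ := by
          field_simp
        rw [this, abs_mul, abs_of_pos hp]
      rw [e2]
      linarith [hPn t ht, hPd t ht]

end Pool.Agent.H334
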