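import Pool.Agent.Helper334_Fold.CDefs
import Pool.Agent.Helper334_Fold.UDefs

set_option autoImplicit false

open Set


namespace Pool.Agent.H334

open Pool.Agent.Helper22.FC (SimplePolygon IsPaper cyc curve wnd side SimpleL)

/- TARGET. Plain-words proof:
m(t) = (1-t) ν0 + t ν1, ‖m t - ν0‖ ≤ ε ≤ 1/4 (note 0 ≤ ‖ν1 - ν0‖ ≤ ε), so ‖m t‖ ≥ 3/4; ν t = m t / ‖m t‖; ‖ν t - ν0‖ ≤ |1 - ‖m t‖| + ‖m t - ν0‖ ≤ 2 ε.
-/
theorem unit_path (ν0 ν1 : Space) (h0 : ‖ν0‖ = 1) (h1 : ‖ν1‖ = 1)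
    (ε : ℝ) (hε1 : ε ≤ 1 / 4) (hd : ‖ν1 - ν0‖ ≤ ε) :
    ∃ ν : ℝ → Space, ContinuousOn ν (Icc 0 1) ∧ ν 0 = ν0 ∧ ν 1 = ν1 ∧
      ∀ t ∈ Icc (0 : ℝ) 1, ‖ν t‖ = 1 ∧ ‖ν t - ν0‖ ≤ 8 * ε := by
  have hε0 : 0 ≤ ε := (norm_nonneg _).trans hd
  set m : ℝ → Space := fun t => (1 - t) • ν0 + t • ν1 with hm
  have hmc : Continuous m := by
    simp only [hm]
    fun_prop
  have hmd : ∀ t ∈ Icc (0 : ℝ) 1, ‖m t - ν0‖ ≤ ε := by
    intro t ht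
    have e : m t - ν0 = t • (ν1 - ν0) := by
      simp only [hm, smul_sub, sub_smul, one_smul]
      abel
    rw [e, norm_smul, Real.norm_of_nonneg ht.1]
    calc t * ‖ν1 - ν0‖ ≤ 1 * ε := mul_le_mul ht.2 hd (norm_nonneg _) zero_le_one
      _ = ε := one_mul _
  have hm1 : ∀ t ∈ Icc (0 : ℝ) 1, |‖m t‖ - 1| ≤ ε := by
    intro t ht
    have := abs_norm_sub_norm_le (m t) ν0
    rw [h0] at this
    exact this.trans (hmd t ht)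
  have hmpos : ∀ t ∈ Icc (0 : ℝ) 1, 0 < ‖m t‖ := by
    intro t ht
    have := (abs_le.1 (hm1 t ht)).1
    linarith
  refine ⟨fun t => ‖m t‖⁻¹ • m t, ?_, ?_, ?_, ?_⟩
  · exact (hmc.norm.continuousOn.inv₀ (fun t ht => (hmpos t ht).ne')).smul hmc.continuousOn
  · simp [hm, h0]
  · simp [hm, h1]
  · intro t ht
    have hp := hmpos t ht
    refine ⟨?_, ?_⟩
    · rw [norm_smul, norm_inv, norm_norm, inv_mul_cancel₀ hp.ne']
    · have e : ‖m t‖⁻¹ • m t - m t = (‖m t‖⁻¹ * (1 - ‖m t‖)) • m t := by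
        rw [← one_smul ℝ (m t), smul_smul, ← sub_smul, one_smul]
        congr 1
        field_simp
      have h3 : ‖‖m t‖⁻¹ • m t - m t‖ ≤ ε := by
        rw [e, norm_smul, norm_mul, norm_inv, norm_norm]
        have : ‖m t‖⁻¹ * ‖1 - ‖m t‖‖ * ‖m t‖ = ‖1 - ‖m t‖‖ := by
          field_simp
        rw [this, Real.norm_eq_abs, abs_sub_comm]
        exact hm1 t ht
      calc ‖‖m t‖⁻¹ • m t - ν0‖ ≤ ‖‖m t‖⁻¹ • m t - m t‖ + ‖m t - ν0‖ := norm_sub_le_norm_sub_add_norm_sub _ _ _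
        _ ≤ ε + ε := add_le_add h3 (hmd t ht)
        _ ≤ 8 * ε := by linarith

end Pool.Agent.H334
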