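import Pool.Agent.Helper334_Fold.CDefs
import Pool.Agent.Helper334_Fold.UDefs
import Pool.Agent.Helper334_Fold.U_unit_path
import Pool.Agent.Helper334_Fold.U_frame_path
import Pool.Agent.Helper334_Fold.U_frm_dist

set_option autoImplicit false

open Set


namespace Pool.Agent.H334

open Pool.Agent.Helper22.FC (SimplePolygon IsPaper cyc curve wnd side SimpleL)

/-- the linear part of `frm` -/
noncomputable def linP_local_path {k : ℕ} (v : Par k) (i : Fin (k + 1)) : ℂ →ₗ[ℝ] Space where
  toFun x := WithLp.toLp 2 (fun c => x.re * v (i, 1, c) + x.im * v (i, 2, c))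
  map_add' x y := by
    ext c
    simp only [PiLp.add_apply, Complex.add_re, Complex.add_im]
    ring
  map_smul' a x := by
    ext c
    simp only [PiLp.smul_apply, Complex.smul_re, Complex.smul_im, RingHom.id_apply, smul_eq_mul]
    ring

theorem linP_apply {k : ℕ} (v : Par k) (i : Fin (k + 1)) (x : ℂ) (c : Fin 3) :
    linP_local_path v i x c = x.re * v (i, 1, c) + x.im * v (i, 2, c) := rfl

theorem frm_apply {k : ℕ} (v : Par k) (i : Fin (k + 1)) (x : ℂ) (c : Fin 3) :
    frm v i x c = v (i, 0, c) + x.re * v (i, 1, c) + x.im * v (i, 2, c) := rfl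

theorem frm_sub_local_path {k : ℕ} (v : Par k) (i : Fin (k + 1)) (x y : ℂ) :
    frm v i x - frm v i y = linP_local_path v i (x - y) := by
  ext c
  simp only [frm_apply, linP_apply, PiLp.sub_apply, Complex.sub_re, Complex.sub_im]
  ring

theorem norm_le_of_coord (u : Space) (B : ℝ) (hB : 0 ≤ B) (h : ∀ c, |u c| ≤ B) :
    ‖u‖ ≤ 2 * B := by
  rw [EuclideanSpace.norm_eq, Fin.sum_univ_three]
  apply Real.sqrt_le_iff.mpr
  refine ⟨by positivity, ?_⟩
  simp only [Real.norm_eq_abs, sq_abs]
  have e : ∀ c, u c ^ 2 ≤ B ^ 2 := fun c => by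
    rw [← sq_abs]; exact pow_le_pow_left₀ (abs_nonneg _) (h c) 2
  nlinarith [e 0, e 1, e 2, sq_nonneg B]

theorem coord_le_norm (u : Space) (c : Fin 3) : |u c| ≤ ‖u‖ := by
  rw [EuclideanSpace.norm_eq]
  apply Real.le_sqrt_of_sq_le
  simp only [Real.norm_eq_abs, sq_abs]
  exact Finset.single_le_sum (f := fun c => u c ^ 2) (fun c _ => sq_nonneg _) (Finset.mem_univ c)

theorem linP_close {k : ℕ} {v w : Par k} {i : Fin (k + 1)} {η : ℝ} (hη : 0 ≤ η)
    (h : ∀ a c, |w (i, a, c) - v (i, a, c)| ≤ η) (z : ℂ) :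
    ‖linP_local_path w i z - linP_local_path v i z‖ ≤ 4 * η * ‖z‖ := by
  refine (norm_le_of_coord _ (2 * η * ‖z‖) (by positivity) fun c => ?_).trans (by ring_nf; rfl)
  have e : (linP_local_path w i z - linP_local_path v i z) c = z.re * (w (i, 1, c) - v (i, 1, c)) +
      z.im * (w (i, 2, c) - v (i, 2, c)) := by
    simp only [linP_apply, PiLp.sub_apply]
    ring
  rw [e]
  refine (abs_add_le _ _).trans ?_
  rw [abs_mul, abs_mul]
  have h1 := Complex.abs_re_le_norm z
  have h2 := Complex.abs_im_le_norm z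
  have h3 : |z.re| * |w (i, 1, c) - v (i, 1, c)| ≤ ‖z‖ * η := by
    gcongr; exact h _ _
  have h4 : |z.im| * |w (i, 2, c) - v (i, 2, c)| ≤ ‖z‖ * η := by
    gcongr; exact h _ _
  nlinarith

theorem frm_close {k : ℕ} {v w : Par k} {i : Fin (k + 1)} {η : ℝ} (hη : 0 ≤ η)
    (h : ∀ a c, |w (i, a, c) - v (i, a, c)| ≤ η) (x : ℂ) :
    ‖frm w i x - frm v i x‖ ≤ 4 * η * (1 + ‖x‖) := by
  have e : frm w i x - frm v i x = (frm w i 0 - frm v i 0) + (linP_local_path w i x - linP_local_path v i x) := by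
    have h1 := frm_sub_local_path w i x 0
    have h2 := frm_sub_local_path v i x 0
    rw [sub_zero] at h1 h2
    rw [← h1, ← h2]; abel
  have h0 : ‖frm w i 0 - frm v i 0‖ ≤ 2 * η := by
    refine norm_le_of_coord _ η hη fun c => ?_
    have : (frm w i 0 - frm v i 0) c = w (i, 0, c) - v (i, 0, c) := by
      simp [frm_apply]
    rw [this]; exact h _ _
  rw [e]
  refine (norm_add_le _ _).trans ?_
  have := linP_close hη h x
  nlinarith

theorem inner_three (A B : Space) : inner ℝ A B = ∑ c, A c * B c := by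
  simp [PiLp.inner_apply, mul_comm]

/-- orthonormality of one polygon's map -/
def OrthAt {k : ℕ} (v : Par k) (i : Fin (k + 1)) : Prop :=
  (∑ c, v (i, 1, c) ^ 2 = 1) ∧ (∑ c, v (i, 2, c) ^ 2 = 1) ∧ ∑ c, v (i, 1, c) * v (i, 2, c) = 0

theorem inner_linP {k : ℕ} {v : Par k} {i : Fin (k + 1)} (h : OrthAt v i) (z z' : ℂ) :
    inner ℝ (linP_local_path v i z) (linP_local_path v i z') = z.re * z'.re + z.im * z'.im := by
  obtain ⟨h1, h2, h3⟩ := h
  rw [inner_three]
  simp only [linP_apply, Fin.sum_univ_three] at h1 h2 h3 ⊢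
  linear_combination (z.re * z'.re) * h1 + (z.im * z'.im) * h2 +
    (z.re * z'.im + z.im * z'.re) * h3

theorem norm_eq_one_of_inner {A : Space} (h : inner ℝ A A = 1) : ‖A‖ = 1 := by
  rw [real_inner_self_eq_norm_sq] at h
  have := norm_nonneg A
  nlinarith

theorem inner_self_of_norm {A : Space} (h : ‖A‖ = 1) : inner ℝ A A = 1 := by
  rw [real_inner_self_eq_norm_sq, h]; norm_num

/-- one new polygon: continuous maps given by an orthonormal frame -/
theorem new_orth {h ν : Space} (hh : ‖h‖ = 1) (hν : ‖ν‖ = 1) (ho : inner ℝ h ν = 0) {d : ℂ}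
    (hd : ‖d‖ = 1) :
    (∑ c, (d.re • h - d.im • ν) c ^ 2 = 1) ∧ (∑ c, (d.im • h + d.re • ν) c ^ 2 = 1) ∧
      ∑ c, (d.re • h - d.im • ν) c * (d.im • h + d.re • ν) c = 0 := by
  have h1 := inner_self_of_norm hh
  have h2 := inner_self_of_norm hν
  rw [inner_three, Fin.sum_univ_three] at h1 h2 ho
  have h3 : d.re ^ 2 + d.im ^ 2 = 1 := by
    have h4 : ‖d‖ ^ 2 = 1 := by rw [hd]; norm_num
    rw [← h4, Complex.sq_norm, Complex.normSq_apply]; ring
  simp only [Fin.sum_univ_three, PiLp.sub_apply, PiLp.add_apply, PiLp.smul_apply, smul_eq_mul]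
  refine ⟨?_, ?_, ?_⟩
  · linear_combination d.re ^ 2 * h1 + d.im ^ 2 * h2 - 2 * d.re * d.im * ho + h3
  · linear_combination d.im ^ 2 * h1 + d.re ^ 2 * h2 + 2 * d.re * d.im * ho + h3
  · linear_combination d.re * d.im * h1 - d.re * d.im * h2 + (d.re ^ 2 - d.im ^ 2) * ho

/-- the statement for the polygons up to number `m` -/
def Upto {k : ℕ} (X : PolyTree k) (v w : Par k) (ε : ℝ) (m : ℕ) (γ : ℝ → Par k) : Prop :=
  ContinuousOn γ (Icc 0 1) ∧
  (∀ i : Fin (k + 1), i.val ≤ m → ∀ a c, γ 0 (i, a, c) = v (i, a, c) ∧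
    γ 1 (i, a, c) = w (i, a, c)) ∧
  ∀ t ∈ Icc (0 : ℝ) 1, (∀ i : Fin (k + 1), i.val ≤ m → OrthAt (γ t) i ∧
      ∀ a c, |γ t (i, a, c) - v (i, a, c)| < ε) ∧
    ∀ j : Fin k, j.succ.val ≤ m →
      frm (γ t) j.succ (X.vtx j.succ (X.ev j)) = frm (γ t) (X.par j) (X.p0 j) ∧
      frm (γ t) j.succ (X.vtx j.succ (X.ev j + 1)) = frm (γ t) (X.par j) (X.p1 j)

theorem glue_ends {k : ℕ} (X : PolyTree k) {v : Par k}
    (hg : ∀ a b, X.Glue a b → frm v a.1 a.2 = frm v b.1 b.2) (j : Fin k) :
    frm v j.succ (X.vtx j.succ (X.ev j)) = frm v (X.par j) (X.p0 j) ∧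
      frm v j.succ (X.vtx j.succ (X.ev j + 1)) = frm v (X.par j) (X.p1 j) := by
  constructor
  · have := hg (j.succ, X.vtx j.succ (X.ev j)) (X.par j, X.p0 j)
      ⟨j, 0, ⟨le_rfl, zero_le_one⟩, by simp, by simp⟩
    exact this
  · have := hg (j.succ, X.vtx j.succ (X.ev j + 1)) (X.par j, X.p1 j)
      ⟨j, 1, ⟨zero_le_one, le_rfl⟩, by simp, by simp⟩
    exact this

theorem frm_lineMap {k : ℕ} (v : Par k) (i : Fin (k + 1)) (x y : ℂ) (s : ℝ) :
    frm v i (AffineMap.lineMap x y s) = AffineMap.lineMap (frm v i x) (frm v i y) s := by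
  ext c
  simp only [AffineMap.lineMap_apply_module', PiLp.add_apply, PiLp.smul_apply, PiLp.sub_apply,
    frm_apply, Complex.add_re, Complex.add_im, Complex.smul_re, Complex.smul_im, Complex.sub_re,
    Complex.sub_im, smul_eq_mul]
  ring

theorem upto_zero {k : ℕ} (X : PolyTree k) (v : Par k) (hv : Orth v) (ε : ℝ) (hε : 0 < ε) :
    ∃ δ > (0 : ℝ), ∀ w : Par k, Orth w → dist w v < δ → ∃ γ, Upto X v w ε 0 γ := by
  set ε' := min (1 / 64) (ε / 256) with hε'
  have hε'0 : 0 < ε' := by positivity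
  have hε1 : ε' ≤ 1 / 64 := min_le_left _ _
  have hε2 : ε' ≤ ε / 256 := min_le_right _ _
  refine ⟨ε' / 4, by positivity, fun w hw hwv => ?_⟩
  have hd : ∀ a, |w a - v a| ≤ ε' / 4 := fun a => by
    have := dist_le_pi_dist w v a
    rw [Real.dist_eq] at this
    exact this.trans hwv.le
  -- the two frame vectors
  set A0 := linP_local_path v 0 1 with hA0
  set A1 := linP_local_path w 0 1 with hA1
  set B0 := linP_local_path v 0 Complex.I with hB0
  set B1 := linP_local_path w 0 Complex.I with hB1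
  have hO : OrthAt v 0 := hv 0
  have hO' : OrthAt w 0 := hw 0
  have nA0 : ‖A0‖ = 1 := norm_eq_one_of_inner (by rw [hA0, inner_linP hO]; simp)
  have nA1 : ‖A1‖ = 1 := norm_eq_one_of_inner (by rw [hA1, inner_linP hO']; simp)
  have nB0 : ‖B0‖ = 1 := norm_eq_one_of_inner (by rw [hB0, inner_linP hO]; simp)
  have nB1 : ‖B1‖ = 1 := norm_eq_one_of_inner (by rw [hB1, inner_linP hO']; simp)
  have hAd : ‖A1 - A0‖ ≤ ε' := by
    have := linP_close (v := v) (w := w) (i := 0) (η := ε' / 4) (by positivity)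
      (fun a c => hd _) 1
    rw [norm_one] at this
    exact this.trans (by linarith)
  have hBd : ‖B1 - B0‖ ≤ ε' := by
    have := linP_close (v := v) (w := w) (i := 0) (η := ε' / 4) (by positivity)
      (fun a c => hd _) Complex.I
    rw [Complex.norm_I] at this
    exact this.trans (by linarith)
  obtain ⟨h, hc, h00, h01, hh⟩ := unit_path A0 A1 nA0 nA1 ε' (by linarith) hAd
  obtain ⟨ν, nc, n00, n01, hn⟩ := frame_path h hc (fun t ht => (hh t ht).1) B0 B1 nB0 nB1
    (by rw [h00, hA0, hB0, inner_linP hO]; simp) (by rw [h01, hA1, hB1, inner_linP hO']; simp)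
    (8 * ε') (by linarith) (hBd.trans (by linarith)) (fun t ht => by rw [h00]; exact (hh t ht).2)
  -- the path
  let γ : ℝ → Par k := fun t p => if p.2.1 = 0 then (1 - t) * v (0, 0, p.2.2) + t * w (0, 0, p.2.2)
    else if p.2.1 = 1 then h t p.2.2 else ν t p.2.2
  have g0 : ∀ t i c, γ t (i, 0, c) = (1 - t) * v (0, 0, c) + t * w (0, 0, c) := fun t i c => by
    simp [γ]
  have g1 : ∀ t i c, γ t (i, 1, c) = h t c := fun t i c => by simp [γ]
  have g2 : ∀ t i c, γ t (i, 2, c) = ν t c := fun t i c => by simp [γ]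
  have hz : ∀ i : Fin (k + 1), i.val ≤ 0 → i = 0 := fun i hi => Fin.ext (by simpa using hi)
  refine ⟨γ, ?_, ?_, ?_⟩
  · rw [continuousOn_pi]
    rintro ⟨i, a, c⟩
    have hcc : ContinuousOn (fun t => h t c) (Icc 0 1) :=
      (EuclideanSpace.proj c : Space →L[ℝ] ℝ).continuous.comp_continuousOn hc
    have hnc : ContinuousOn (fun t => ν t c) (Icc 0 1) :=
      (EuclideanSpace.proj c : Space →L[ℝ] ℝ).continuous.comp_continuousOn nc
    fin_cases a
    · change ContinuousOn (fun t => γ t (i, 0, c)) _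
      simp only [g0]; fun_prop
    · change ContinuousOn (fun t => γ t (i, 1, c)) _
      simp only [g1]; exact hcc
    · change ContinuousOn (fun t => γ t (i, 2, c)) _
      simp only [g2]; exact hnc
  · intro i hi a c
    rw [hz i hi]
    fin_cases a
    · change γ 0 (0, 0, c) = v (0, 0, c) ∧ γ 1 (0, 0, c) = w (0, 0, c)
      rw [g0, g0]; constructor <;> ring
    · change γ 0 (0, 1, c) = v (0, 1, c) ∧ γ 1 (0, 1, c) = w (0, 1, c)
      rw [g1, g1, h00, h01, hA0, hA1, linP_apply, linP_apply]; simp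
    · change γ 0 (0, 2, c) = v (0, 2, c) ∧ γ 1 (0, 2, c) = w (0, 2, c)
      rw [g2, g2, n00, n01, hB0, hB1, linP_apply, linP_apply]; simp
  · intro t ht
    refine ⟨fun i hi => ⟨?_, fun a c => ?_⟩, fun j hj => absurd hj (by simp)⟩
    · have e1 := inner_self_of_norm (hh t ht).1
      have e2 := inner_self_of_norm (hn t ht).1
      have e3 := (hn t ht).2.1
      rw [inner_three] at e1 e2 e3
      refine ⟨?_, ?_, ?_⟩
      · simp only [g1, sq]; exact e1
      · simp only [g2, sq]; exact e2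
      · simp only [g1, g2]; exact e3
    · rw [hz i hi]
      fin_cases a
      · change |γ t (0, 0, c) - v (0, 0, c)| < ε
        rw [g0]
        have : (1 - t) * v (0, 0, c) + t * w (0, 0, c) - v (0, 0, c) =
          t * (w (0, 0, c) - v (0, 0, c)) := by ring
        rw [this, abs_mul, abs_of_nonneg ht.1]
        have h5 := hd (0, 0, c)
        nlinarith [ht.2, abs_nonneg (w (0, 0, c) - v (0, 0, c)), ht.1]
      · change |γ t (0, 1, c) - v (0, 1, c)| < ε
        rw [g1]
        have h5 := coord_le_norm (h t - A0) c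
        have h6 := (hh t ht).2
        have h7 : (h t - A0) c = h t c - v (0, 1, c) := by
          rw [PiLp.sub_apply, hA0, linP_apply]; simp
        rw [h7] at h5
        linarith
      · change |γ t (0, 2, c) - v (0, 2, c)| < ε
        rw [g2]
        have h5 := coord_le_norm (ν t - B0) c
        have h6 := (hn t ht).2.2
        have h7 : (ν t - B0) c = ν t c - v (0, 2, c) := by
          rw [PiLp.sub_apply, hB0, linP_apply]; simp
        rw [h7] at h5
        linarith

theorem cont_linP {k : ℕ} (p : Fin (k + 1)) (z : ℂ) :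
    Continuous fun v : Par k => linP_local_path v p z := by
  change Continuous fun v : Par k =>
    (WithLp.toLp 2 (fun c => z.re * v (p, 1, c) + z.im * v (p, 2, c)) : Space)
  refine (PiLp.continuous_toLp 2 _).comp (continuous_pi fun c => ?_)
  fun_prop

theorem cont_frm {k : ℕ} (p : Fin (k + 1)) (z : ℂ) :
    Continuous fun v : Par k => frm v p z := by
  change Continuous fun v : Par k =>
    (WithLp.toLp 2 (fun c => v (p, 0, c) + z.re * v (p, 1, c) + z.im * v (p, 2, c)) : Space)
  refine (PiLp.continuous_toLp 2 _).comp (continuous_pi fun c => ?_)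
  fun_prop

theorem linP_one {k : ℕ} (v : Par k) (i : Fin (k + 1)) (c : Fin 3) :
    linP_local_path v i 1 c = v (i, 1, c) := by rw [linP_apply]; simp

theorem linP_I {k : ℕ} (v : Par k) (i : Fin (k + 1)) (c : Fin 3) :
    linP_local_path v i Complex.I c = v (i, 2, c) := by rw [linP_apply]; simp

theorem frm_zero {k : ℕ} (v : Par k) (i : Fin (k + 1)) (c : Fin 3) :
    frm v i 0 c = v (i, 0, c) := by rw [frm_apply]; simp

theorem linP_split {k : ℕ} (v : Par k) (i : Fin (k + 1)) (z : ℂ) :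
    linP_local_path v i z = z.re • linP_local_path v i 1 + z.im • linP_local_path v i Complex.I := by
  ext c
  simp only [PiLp.add_apply, PiLp.smul_apply, smul_eq_mul, linP_one, linP_I]
  rfl

theorem linP_frame {k : ℕ} (v : Par k) (i : Fin (k + 1)) {d : ℂ} (hd : ‖d‖ = 1) :
    d.re • linP_local_path v i d - d.im • linP_local_path v i (Complex.I * d) = linP_local_path v i 1 ∧
      d.im • linP_local_path v i d + d.re • linP_local_path v i (Complex.I * d) = linP_local_path v i Complex.I := by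
  have h3 : d.re ^ 2 + d.im ^ 2 = 1 := by
    have h4 : ‖d‖ ^ 2 = 1 := by rw [hd]; norm_num
    rw [← h4, Complex.sq_norm, Complex.normSq_apply]; ring
  constructor
  · rw [← map_smul, ← map_smul, ← map_sub]
    congr 1
    apply Complex.ext
    · simp; linear_combination h3
    · simp; ring
  · rw [← map_smul, ← map_smul, ← map_add]
    congr 1
    apply Complex.ext
    · simp; ring
    · simp; linear_combination h3

theorem upto_succ {k : ℕ} (X : PolyTree k) (v : Par k) (hv : Orth v)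
    (hg : ∀ a b, X.Glue a b → frm v a.1 a.2 = frm v b.1 b.2) (m : ℕ) (hm : m + 1 ≤ k)
    (ih : ∀ ε > (0 : ℝ), ∃ δ > (0 : ℝ), ∀ w : Par k, Orth w →
      (∀ a b, X.Glue a b → frm w a.1 a.2 = frm w b.1 b.2) → dist w v < δ →
        ∃ γ, Upto X v w ε m γ) (ε : ℝ) (hε : 0 < ε) :
    ∃ δ > (0 : ℝ), ∀ w : Par k, Orth w →
      (∀ a b, X.Glue a b → frm w a.1 a.2 = frm w b.1 b.2) → dist w v < δ →
        ∃ γ, Upto X v w ε (m + 1) γ := by
  classical
  set j : Fin k := ⟨m, by omega⟩ with hj
  set i : Fin (k + 1) := j.succ with hi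
  have hival : i.val = m + 1 := rfl
  set p := X.par j with hp
  have hpi : p.val ≤ m := by
    have := X.par_lt j
    rw [Fin.lt_def] at this
    omega
  have hpne : p ≠ i := fun h => by rw [h, hival] at hpi; omega
  set P := X.vtx i (X.ev j) with hP
  set Q := X.vtx i (X.ev j + 1) with hQ
  set P' := X.p0 j with hP'
  set Q' := X.p1 j with hQ'
  set l := dist P Q with hl
  have hl' : dist P' Q' = l := by
    have h1 := X.len j
    rw [hP', hQ', PolyTree.p0, PolyTree.p1]
    split_ifs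
    · exact h1
    · rw [dist_comm]; exact h1
  have hne : P ≠ Q := by
    intro h
    have h1 := (X.simple i).inj h
    have h2 : (1 : Fin (X.m i + 3)) = 0 := by
      have h3 : X.ev j + 1 = X.ev j + 0 := by rw [add_zero]; exact h1.symm
      exact add_left_cancel h3
    exact absurd (congrArg Fin.val h2) (by simp)
  have hl0 : 0 < l := dist_pos.mpr hne
  set d : ℂ := (l⁻¹ : ℝ) • (Q - P) with hd
  set d' : ℂ := (l⁻¹ : ℝ) • (Q' - P') with hd'
  have nd : ‖d‖ = 1 := by
    rw [hd, norm_smul, Real.norm_eq_abs, abs_of_pos (inv_pos.mpr hl0), ← dist_eq_norm,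
      dist_comm, ← hl]
    exact inv_mul_cancel₀ hl0.ne'
  have nd' : ‖d'‖ = 1 := by
    rw [hd', norm_smul, Real.norm_eq_abs, abs_of_pos (inv_pos.mpr hl0), ← dist_eq_norm,
      dist_comm, hl']
    exact inv_mul_cancel₀ hl0.ne'
  have hQP : Q - P = l • d := by
    rw [hd, smul_smul, mul_inv_cancel₀ hl0.ne', one_smul]
  have hQP' : Q' - P' = l • d' := by
    rw [hd', smul_smul, mul_inv_cancel₀ hl0.ne', one_smul]
  have h3 : d.re ^ 2 + d.im ^ 2 = 1 := by
    have h4 : ‖d‖ ^ 2 = 1 := by rw [nd]; norm_num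
    rw [← h4, Complex.sq_norm, Complex.normSq_apply]; ring
  have hre : |d.re| ≤ 1 := (Complex.abs_re_le_norm d).trans nd.le
  have him : |d.im| ≤ 1 := (Complex.abs_im_le_norm d).trans nd.le
  -- a configuration respects the hinge
  have hcomp : ∀ u : Par k, (∀ a b, X.Glue a b → frm u a.1 a.2 = frm u b.1 b.2) →
      linP_local_path u p d' = linP_local_path u i d := by
    intro u hu
    obtain ⟨e1, e2⟩ := glue_ends X hu j
    have h5 : linP_local_path u i (Q - P) = linP_local_path u p (Q' - P') := by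
      rw [← frm_sub_local_path, ← frm_sub_local_path, e1, e2]
    rw [hd, hd', map_smul, map_smul, h5]
  set M := 1 + ‖P‖ + ‖P'‖ with hM
  have hM1 : 1 ≤ M := by have := norm_nonneg P; have := norm_nonneg P'; linarith
  set ε2 := min (1 / 64) (ε / (20 * M)) with hε2
  have hε20 : 0 < ε2 := by positivity
  have hε2a : ε2 ≤ 1 / 64 := min_le_left _ _
  have hε2b : ε2 * (20 * M) ≤ ε := by
    have : ε2 ≤ ε / (20 * M) := min_le_right _ _
    rwa [le_div_iff₀ (by positivity)] at this
  obtain ⟨δ, hδ, hih⟩ := ih (ε2 / 4) (by positivity)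
  refine ⟨min δ (ε2 / 4), by positivity, fun w hw hgw hwv => ?_⟩
  obtain ⟨γ, hγc, hγe, hγt⟩ := hih w hw hgw (hwv.trans_le (min_le_left _ _))
  have hwd : ∀ a, |w a - v a| ≤ ε2 / 4 := fun a => by
    have h5 := dist_le_pi_dist w v a
    rw [Real.dist_eq] at h5
    exact h5.trans (hwv.le.trans (min_le_right _ _))
  -- ends
  have hlin : ∀ (u u' : Par k) (q : Fin (k + 1)), (∀ a c, u (q, a, c) = u' (q, a, c)) →
      (∀ z, linP_local_path u q z = linP_local_path u' q z) ∧ ∀ z, frm u q z = frm u' q z := by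
    intro u u' q h
    constructor
    · intro z; ext c; rw [linP_apply, linP_apply, h, h]
    · intro z; ext c; rw [frm_apply, frm_apply, h, h, h]
  have hγ0 := hlin (γ 0) v p (fun a c => (hγe p hpi a c).1)
  have hγ1 := hlin (γ 1) w p (fun a c => (hγe p hpi a c).2)
  set h : ℝ → Space := fun t => linP_local_path (γ t) p d' with hh
  have hhc : ContinuousOn h (Icc 0 1) := (cont_linP p d').comp_continuousOn hγc
  have hhn : ∀ t ∈ Icc (0 : ℝ) 1, ‖h t‖ = 1 := by
    intro t ht
    apply norm_eq_one_of_inner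
    rw [hh]
    simp only
    rw [inner_linP ((hγt t ht).1 p hpi).1]
    have h4 : ‖d'‖ ^ 2 = 1 := by rw [nd']; norm_num
    rw [← h4, Complex.sq_norm, Complex.normSq_apply]
  have hh0 : h 0 = linP_local_path v i d := by rw [hh]; simp only; rw [hγ0.1, hcomp v hg]
  have hh1 : h 1 = linP_local_path w i d := by rw [hh]; simp only; rw [hγ1.1, hcomp w hgw]
  have hhd : ∀ t ∈ Icc (0 : ℝ) 1, ‖h t - h 0‖ ≤ ε2 := by
    intro t ht
    have h5 := linP_close (v := v) (w := γ t) (i := p) (η := ε2 / 4) (by positivity)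
      (fun a c => (((hγt t ht).1 p hpi).2 a c).le) d'
    rw [nd'] at h5
    rw [hh]
    simp only
    rw [hγ0.1]
    linarith
  have hOv : OrthAt v i := hv i
  have hOw : OrthAt w i := hw i
  have hnI : ‖Complex.I * d‖ = 1 := by rw [norm_mul, Complex.norm_I, nd, one_mul]
  have hort : ∀ u : Par k, OrthAt u i → ‖linP_local_path u i (Complex.I * d)‖ = 1 ∧
      inner ℝ (linP_local_path u i d) (linP_local_path u i (Complex.I * d)) = 0 := by
    intro u hu
    constructor
    · apply norm_eq_one_of_inner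
      rw [inner_linP hu]
      have h4 : ‖Complex.I * d‖ ^ 2 = 1 := by rw [hnI]; norm_num
      rw [← h4, Complex.sq_norm, Complex.normSq_apply]
    · rw [inner_linP hu]; simp; ring
  obtain ⟨ν, nc, n0, n1, hn⟩ := frame_path h hhc hhn (linP_local_path v i (Complex.I * d))
    (linP_local_path w i (Complex.I * d)) (hort v hOv).1 (hort w hOw).1
    (by rw [hh0]; exact (hort v hOv).2) (by rw [hh1]; exact (hort w hOw).2) ε2 (by linarith)
    (by
      have h5 := linP_close (v := v) (w := w) (i := i) (η := ε2 / 4) (by positivity)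
        (fun a c => hwd _) (Complex.I * d)
      rw [hnI] at h5
      linarith) hhd
  set N1 : ℝ → Space := fun t => d.re • h t - d.im • ν t with hN1
  set N2 : ℝ → Space := fun t => d.im • h t + d.re • ν t with hN2
  set N0 : ℝ → Space := fun t => frm (γ t) p P' - (P.re • N1 t + P.im • N2 t) with hN0
  have hN1c : ContinuousOn (fun t => d.re • h t - d.im • ν t) (Icc 0 1) :=
    ContinuousOn.sub (ContinuousOn.const_smul hhc d.re) (ContinuousOn.const_smul nc d.im)
  have hN2c : ContinuousOn (fun t => d.im • h t + d.re • ν t) (Icc 0 1) :=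
    ContinuousOn.add (ContinuousOn.const_smul hhc d.im) (ContinuousOn.const_smul nc d.re)
  have hN0c : ContinuousOn (fun t => frm (γ t) p P' - (P.re • N1 t + P.im • N2 t)) (Icc 0 1) :=
    ContinuousOn.sub ((cont_frm p P').comp_continuousOn hγc)
      (ContinuousOn.add (ContinuousOn.const_smul hN1c P.re) (ContinuousOn.const_smul hN2c P.im))
  let γ' : ℝ → Par k := fun t q => if q.1 = i then
    (if q.2.1 = 0 then N0 t q.2.2 else if q.2.1 = 1 then N1 t q.2.2 else N2 t q.2.2) else γ t q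
  have g0 : ∀ t c, γ' t (i, 0, c) = N0 t c := fun t c => by simp [γ']
  have g1 : ∀ t c, γ' t (i, 1, c) = N1 t c := fun t c => by simp [γ']
  have g2 : ∀ t c, γ' t (i, 2, c) = N2 t c := fun t c => by simp [γ']
  have gn : ∀ t q a c, q ≠ i → γ' t (q, a, c) = γ t (q, a, c) := fun t q a c hq => by
    simp [γ', hq]
  have gl : ∀ t z, linP_local_path (γ' t) i z = z.re • N1 t + z.im • N2 t := by
    intro t z; ext c
    rw [linP_apply, g1, g2]; rfl
  have gf0 : ∀ t, frm (γ' t) i 0 = N0 t := by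
    intro t; ext c; rw [frm_zero, g0]
  have gfP : ∀ t, frm (γ' t) i P = frm (γ t) p P' := by
    intro t
    have h5 := frm_sub_local_path (γ' t) i P 0
    rw [sub_zero, gl, gf0] at h5
    rw [sub_eq_iff_eq_add.mp h5, hN0]; simp only; abel
  have gld : ∀ t, linP_local_path (γ' t) i d = h t := by
    intro t
    rw [gl, hN1, hN2]
    ext c
    simp only [PiLp.add_apply, PiLp.smul_apply, PiLp.sub_apply, smul_eq_mul]
    linear_combination (h t c) * h3
  have gfQ : ∀ t, frm (γ' t) i Q = frm (γ t) p Q' := by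
    intro t
    have h5 := frm_sub_local_path (γ' t) i Q P
    have h6 := frm_sub_local_path (γ t) p Q' P'
    rw [hQP, map_smul, gld] at h5
    rw [hQP', map_smul] at h6
    rw [sub_eq_iff_eq_add.mp h5, sub_eq_iff_eq_add.mp h6, gfP]
  -- the ends of the path
  have hend : ∀ (u : Par k) (s : ℝ), (∀ a b, X.Glue a b → frm u a.1 a.2 = frm u b.1 b.2) →
      h s = linP_local_path u i d → ν s = linP_local_path u i (Complex.I * d) →
      (∀ z, frm (γ s) p z = frm u p z) → N1 s = linP_local_path u i 1 ∧ N2 s = linP_local_path u i Complex.I ∧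
        N0 s = frm u i 0 := by
    intro u s hu e1 e2 e3
    obtain ⟨f1, f2⟩ := linP_frame u i nd
    have a1 : N1 s = linP_local_path u i 1 := by rw [hN1]; simp only; rw [e1, e2, f1]
    have a2 : N2 s = linP_local_path u i Complex.I := by rw [hN2]; simp only; rw [e1, e2, f2]
    refine ⟨a1, a2, ?_⟩
    rw [hN0]
    simp only
    rw [a1, a2, ← linP_split, e3, ← (glue_ends X hu j).1]
    have h5 := frm_sub_local_path u i P 0
    rw [sub_zero] at h5
    rw [← h5]; abel
  obtain ⟨v1, v2, v0⟩ := hend v 0 hg hh0 n0 hγ0.2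
  obtain ⟨w1, w2, w0⟩ := hend w 1 hgw hh1 n1 hγ1.2
  have hNd : ∀ t ∈ Icc (0 : ℝ) 1, ‖N1 t - N1 0‖ ≤ 9 * ε2 ∧ ‖N2 t - N2 0‖ ≤ 9 * ε2 := by
    intro t ht
    have b1 := hhd t ht
    have b2 := (hn t ht).2.2
    rw [← n0] at b2
    have c1 : ∀ x y : ℝ, |x| ≤ 1 → |y| ≤ 1 →
        ‖x • (h t - h 0) + y • (ν t - ν 0)‖ ≤ 9 * ε2 := by
      intro x y hx hy
      refine (norm_add_le _ _).trans ?_
      rw [norm_smul, norm_smul, Real.norm_eq_abs, Real.norm_eq_abs]
      have d1 : |x| * ‖h t - h 0‖ ≤ 1 * ε2 := by gcongr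
      have d2 : |y| * ‖ν t - ν 0‖ ≤ 1 * (8 * ε2) := by gcongr
      linarith
    constructor
    · have : N1 t - N1 0 = d.re • (h t - h 0) + (-d.im) • (ν t - ν 0) := by
        rw [hN1]; simp only [smul_sub, neg_smul]; abel
      rw [this]
      exact c1 _ _ hre (by rwa [abs_neg])
    · have : N2 t - N2 0 = d.im • (h t - h 0) + d.re • (ν t - ν 0) := by
        rw [hN2]; simp only [smul_sub]; abel
      rw [this]
      exact c1 _ _ him hre
  have hN0d : ∀ t ∈ Icc (0 : ℝ) 1, ‖N0 t - N0 0‖ ≤ 19 * M * ε2 := by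
    intro t ht
    obtain ⟨b1, b2⟩ := hNd t ht
    have b3 : ‖frm (γ t) p P' - frm v p P'‖ ≤ ε2 * (1 + ‖P'‖) := by
      have h5 := frm_close (v := v) (w := γ t) (i := p) (η := ε2 / 4) (by positivity)
        (fun a c => (((hγt t ht).1 p hpi).2 a c).le) P'
      linarith
    have e : N0 t - N0 0 = (frm (γ t) p P' - frm v p P') -
        (P.re • (N1 t - N1 0) + P.im • (N2 t - N2 0)) := by
      have a1 : N0 t = frm (γ t) p P' - (P.re • N1 t + P.im • N2 t) := rfl
      have a2 : N0 0 = frm v p P' - (P.re • N1 0 + P.im • N2 0) := by rw [← hγ0.2]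
      rw [a1, a2]
      generalize N1 t = x1
      generalize N2 t = x2
      generalize N1 0 = x3
      generalize N2 0 = x4
      module
    rw [e]
    have c1 : ‖P.re • (N1 t - N1 0)‖ ≤ ‖P‖ * (9 * ε2) := by
      rw [norm_smul, Real.norm_eq_abs]
      have := Complex.abs_re_le_norm P
      gcongr
    have c2 : ‖P.im • (N2 t - N2 0)‖ ≤ ‖P‖ * (9 * ε2) := by
      rw [norm_smul, Real.norm_eq_abs]
      have := Complex.abs_im_le_norm P
      gcongr
    have c3 := norm_sub_le (frm (γ t) p P' - frm v p P')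
      (P.re • (N1 t - N1 0) + P.im • (N2 t - N2 0))
    have c4 := norm_add_le (P.re • (N1 t - N1 0)) (P.im • (N2 t - N2 0))
    have c5 := norm_nonneg P
    have c6 := norm_nonneg P'
    rw [hM]
    nlinarith [mul_nonneg hε20.le c5, mul_nonneg hε20.le c6]
  have hle : ∀ q : Fin (k + 1), q.val ≤ m + 1 → q = i ∨ (q ≠ i ∧ q.val ≤ m) := by
    intro q hq
    rcases Nat.lt_or_ge q.val (m + 1) with h5 | h5
    · right
      refine ⟨fun h6 => ?_, by omega⟩
      rw [h6, hival] at h5; omega
    · left; exact Fin.ext (by omega)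
  refine ⟨γ', ?_, ?_, ?_⟩
  · rw [continuousOn_pi]
    rintro ⟨q, a, c⟩
    by_cases hq : q = i
    · subst hq
      have hco : ∀ N : ℝ → Space, ContinuousOn N (Icc 0 1) →
          ContinuousOn (fun t => N t c) (Icc 0 1) := fun N hN =>
        (EuclideanSpace.proj c : Space →L[ℝ] ℝ).continuous.comp_continuousOn hN
      fin_cases a
      · change ContinuousOn (fun t => γ' t (i, 0, c)) _
        simp only [g0]; exact hco _ hN0c
      · change ContinuousOn (fun t => γ' t (i, 1, c)) _
        simp only [g1]; exact hco _ hN1c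
      · change ContinuousOn (fun t => γ' t (i, 2, c)) _
        simp only [g2]; exact hco _ hN2c
    · simp only [gn _ q a c hq]
      exact (continuousOn_pi.mp hγc) (q, a, c)
  · intro q hq a c
    rcases hle q hq with rfl | ⟨hq1, hq2⟩
    · fin_cases a
      · change γ' 0 (i, 0, c) = v (i, 0, c) ∧ γ' 1 (i, 0, c) = w (i, 0, c)
        rw [g0, g0, v0, w0, frm_zero, frm_zero]; exact ⟨rfl, rfl⟩
      · change γ' 0 (i, 1, c) = v (i, 1, c) ∧ γ' 1 (i, 1, c) = w (i, 1, c)
        rw [g1, g1, v1, w1, linP_one, linP_one]; exact ⟨rfl, rfl⟩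
      · change γ' 0 (i, 2, c) = v (i, 2, c) ∧ γ' 1 (i, 2, c) = w (i, 2, c)
        rw [g2, g2, v2, w2, linP_I, linP_I]; exact ⟨rfl, rfl⟩
    · rw [gn _ _ _ _ hq1, gn _ _ _ _ hq1]
      exact hγe q hq2 a c
  · intro t ht
    refine ⟨fun q hq => ?_, fun j' hj' => ?_⟩
    · rcases hle q hq with rfl | ⟨hq1, hq2⟩
      · constructor
        · have := new_orth (hhn t ht) (hn t ht).1 (hn t ht).2.1 nd
          refine ⟨?_, ?_, ?_⟩
          · simp only [g1]; exact this.1
          · simp only [g2]; exact this.2.1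
          · simp only [g1, g2]; exact this.2.2
        · intro a c
          obtain ⟨b1, b2⟩ := hNd t ht
          have b0 := hN0d t ht
          have hlt9 : 9 * ε2 < ε := by nlinarith
          have hlt19 : 19 * M * ε2 < ε := by nlinarith
          fin_cases a
          · change |γ' t (i, 0, c) - v (i, 0, c)| < ε
            rw [g0]
            have h5 := coord_le_norm (N0 t - N0 0) c
            rw [PiLp.sub_apply, v0, frm_zero] at h5
            rw [v0] at b0
            linarith
          · change |γ' t (i, 1, c) - v (i, 1, c)| < ε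
            rw [g1]
            have h5 := coord_le_norm (N1 t - N1 0) c
            rw [PiLp.sub_apply, v1, linP_one] at h5
            rw [v1] at b1
            linarith
          · change |γ' t (i, 2, c) - v (i, 2, c)| < ε
            rw [g2]
            have h5 := coord_le_norm (N2 t - N2 0) c
            rw [PiLp.sub_apply, v2, linP_I] at h5
            rw [v2] at b2
            linarith
      · obtain ⟨b1, b2⟩ := (hγt t ht).1 q hq2
        constructor
        · refine ⟨?_, ?_, ?_⟩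
          · simp only [gn _ _ _ _ hq1]; exact b1.1
          · simp only [gn _ _ _ _ hq1]; exact b1.2.1
          · simp only [gn _ _ _ _ hq1]; exact b1.2.2
        · intro a c
          rw [gn _ _ _ _ hq1]
          have := b2 a c
          nlinarith
    · have hfr : ∀ q, q ≠ i → ∀ z, frm (γ' t) q z = frm (γ t) q z := fun q hq =>
        (hlin (γ' t) (γ t) q (fun a c => gn t q a c hq)).2
      rcases hle j'.succ hj' with h5 | ⟨hq1, hq2⟩
      · have h6 : j' = j := Fin.succ_injective _ h5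
        subst h6
        rw [hfr p hpne, hfr p hpne]
        exact ⟨gfP t, gfQ t⟩
      · have h7 : X.par j' ≠ i := by
          intro h8
          have := X.par_lt j'
          rw [h8, Fin.lt_def, hival] at this
          omega
        rw [hfr _ hq1, hfr _ hq1, hfr _ h7, hfr _ h7]
        exact (hγt t ht).2 j' hq2

theorem local_path {k : ℕ} (X : PolyTree k) (v : Par k) (hv : Orth v)
    (hg : ∀ a b, X.Glue a b → frm v a.1 a.2 = frm v b.1 b.2) (ε : ℝ) (hε : 0 < ε) :
    ∃ δ > (0 : ℝ), ∀ w : Par k, Orth w → (∀ a b, X.Glue a b → frm w a.1 a.2 = frm w b.1 b.2) →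
      dist w v < δ → ∃ γ : ℝ → Par k, ContinuousOn γ (Icc 0 1) ∧ γ 0 = v ∧ γ 1 = w ∧
        ∀ t ∈ Icc (0 : ℝ) 1, Orth (γ t) ∧ dist (γ t) v < ε ∧
          ∀ a b, X.Glue a b → frm (γ t) a.1 a.2 = frm (γ t) b.1 b.2 := by
  have main : ∀ m ≤ k, ∀ ε > (0 : ℝ), ∃ δ > (0 : ℝ), ∀ w : Par k, Orth w →
      (∀ a b, X.Glue a b → frm w a.1 a.2 = frm w b.1 b.2) → dist w v < δ →
        ∃ γ, Upto X v w ε m γ := by
    intro m
    induction m with
    | zero =>
      intro _ ε hε
      obtain ⟨δ, hδ, h⟩ := upto_zero X v hv ε hε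
      exact ⟨δ, hδ, fun w hw _ hd => h w hw hd⟩
    | succ m ih => exact fun hm => upto_succ X v hv hg m hm (ih (by omega))
  obtain ⟨δ, hδ, h⟩ := main k le_rfl (ε / 2) (by positivity)
  refine ⟨δ, hδ, fun w hw hgw hd => ?_⟩
  obtain ⟨γ, hc, he, ht⟩ := h w hw hgw hd
  have hk : ∀ i : Fin (k + 1), i.val ≤ k := fun i => by omega
  refine ⟨γ, hc, ?_, ?_, fun t htt => ⟨fun i => ((ht t htt).1 i (hk i)).1, ?_, ?_⟩⟩
  · funext ⟨i, a, c⟩; exact (he i (hk i) a c).1
  · funext ⟨i, a, c⟩; exact (he i (hk i) a c).2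
  · refine lt_of_le_of_lt ((dist_pi_le_iff (by positivity : (0 : ℝ) ≤ ε / 2)).mpr ?_)
      (half_lt_self hε)
    rintro ⟨i, a, c⟩
    rw [Real.dist_eq]
    exact (((ht t htt).1 i (hk i)).2 a c).le
  · rintro a b ⟨j, s, hs, rfl, rfl⟩
    obtain ⟨e1, e2⟩ := (ht t htt).2 j (hk _)
    simp only
    rw [frm_lineMap, frm_lineMap, e1, e2]

end Pool.Agent.H334
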