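import Pool.Agent.Helper334_Fold.CDefs
import Pool.Agent.Helper334_Fold.UDefs
import Pool.Agent.Helper334_SA.Comp
import Pool.Agent.Helper334_Fold.U_conf_sa
import Pool.Agent.Helper334_Fold.U_conf_open
import Pool.Agent.Helper334_Fold.U_local_path
import Pool.Agent.Helper334_Fold.U_config_of_conf

set_option autoImplicit false

open Set


namespace Pool.Agent.H334

open Pool.Agent.Helper22.FC (SimplePolygon IsPaper cyc curve wnd side SimpleL)

theorem finite_classes_LC {k : ℕ} (X : PolyTree k) {f0 : Fin (k + 1) → ℂ → Space}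
    (h0 : X.IsConfig f0) (v : Par k) :
    Helper334_SA.LC (Conf X f0) {w | w ∈ Conf X f0 ∧ JoinedIn (Conf X f0) v w} := by
  intro x hx
  have hxg : ∀ a b, X.Glue a b → frm x a.1 a.2 = frm x b.1 b.2 :=
    (config_of_conf X h0 hx).1.glued
  obtain ⟨δ1, hδ1, h1⟩ := conf_open X h0 hx
  obtain ⟨δ2, hδ2, h2⟩ := local_path X x hx.1 hxg δ1 hδ1
  rw [eventually_nhdsWithin_iff]
  filter_upwards [Metric.ball_mem_nhds x hδ2] with y hy hyV
  have hyg : ∀ a b, X.Glue a b → frm y a.1 a.2 = frm y b.1 b.2 :=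
    (config_of_conf X h0 hyV).1.glued
  obtain ⟨γ, hγc, hγ0, hγ1, hγ⟩ := h2 y hyV.1 hyg hy
  have hin : ∀ t ∈ Icc (0 : ℝ) 1, γ t ∈ Conf X f0 := fun t ht =>
    h1 (γ t) (hγ t ht).1 (hγ t ht).2.2 (hγ t ht).2.1
  have hj : JoinedIn (Conf X f0) x y :=
    JoinedIn.ofLine hγc hγ0 hγ1 (by rintro _ ⟨t, ht, rfl⟩; exact hin t ht)
  constructor
  · rintro ⟨-, h⟩
    exact ⟨hx, h.trans hj.symm⟩
  · rintro ⟨-, h⟩
    exact ⟨hyV, h.trans hj⟩

theorem finite_classes {k : ℕ} (X : PolyTree k) {f0 : Fin (k + 1) → ℂ → Space}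
    (h0 : X.IsConfig f0) :
    ∃ R : Set (Par k), R.Finite ∧ R ⊆ Conf X f0 ∧ ∀ v ∈ Conf X f0, ∃ r ∈ R,
      JoinedIn (Conf X f0) v r := by
  classical
  set V : Set (Par k) := Conf X f0 with hV
  have hfc := Helper334_SA.fc_sa (Fin (k + 1) × Fin 3 × Fin 3) V (conf_sa X f0 h0)
  set Wf : Par k → Set (Par k) := fun v => {w | w ∈ V ∧ JoinedIn V v w} with hWf
  have hfin : (Wf '' V).Finite := by
    refine hfc.subset ?_
    rintro _ ⟨v, hv, rfl⟩
    exact ⟨fun w hw => hw.1, finite_classes_LC X h0 v⟩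
  have hch : ∀ W ∈ Wf '' V, ∃ v ∈ V, Wf v = W := fun W hW => hW
  choose! g hgV hg using hch
  refine ⟨g '' (Wf '' V), hfin.image g, ?_, fun v hv => ?_⟩
  · rintro _ ⟨W, hW, rfl⟩
    exact hgV W hW
  · have hW : Wf v ∈ Wf '' V := ⟨v, hv, rfl⟩
    refine ⟨g (Wf v), ⟨Wf v, hW, rfl⟩, ?_⟩
    have h1 : g (Wf v) ∈ Wf (g (Wf v)) := ⟨hgV _ hW, JoinedIn.refl (hgV _ hW)⟩
    rw [hg _ hW] at h1
    exact h1.2

end Pool.Agent.H334
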