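import Pool.Agent.Helper334_Fold.CDefs
import Pool.Agent.Helper334_Fold.UDefs
import Pool.Agent.Helper334_Fold.U_config_of_conf

set_option autoImplicit false

open Set


namespace Pool.Agent.H334

open Pool.Agent.Helper22.FC (SimplePolygon IsPaper cyc curve wnd side SimpleL)

/- TARGET. Plain-words proof:
Let γ : Path v w in Conf X f0 (JoinedIn.somePath). H t i x = frm (γ.extend t) i x. For t in [0,1], γ.extend t ∈ Conf X f0, so IsConfig by config_of_conf. Joins: (t,x) ↦ frm (γ.extend t) i x is continuous (WithLp.toLp 2 of a continuous function of (t,x); coordinates γ.extend t (i,a,c) are continuous in t). H 0 i x = frm v i x = f i x on region i, H 1 i x = frm w i x = g i x.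
-/
theorem rigid_joins {k : ℕ} (X : PolyTree k) {f0 : Fin (k + 1) → ℂ → Space}
    (h0 : X.IsConfig f0) {v w : Par k} (h : JoinedIn (Conf X f0) v w)
    {f g : Fin (k + 1) → ℂ → Space} (hf : ∀ i, ∀ x ∈ X.region i, f i x = frm v i x)
    (hg : ∀ i, ∀ x ∈ X.region i, g i x = frm w i x) :
    ∃ H : ℝ → Fin (k + 1) → ℂ → Space, X.Joins H f g ∧ ∀ t ∈ Icc (0 : ℝ) 1, X.IsConfig (H t) := by
  classical
  set γ := h.somePath with hγ
  have hmem : ∀ t, γ t ∈ Conf X f0 := h.somePath_mem
  have hcont : Continuous (γ.extend : ℝ → Par k) := γ.continuous_extend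
  refine ⟨fun t i x => frm (γ.extend t) i x, ⟨fun i => ?_, fun i x hx => ⟨?_, ?_⟩⟩, fun t ht => ?_⟩
  · refine Continuous.continuousOn ?_
    have hc : ∀ (a c : Fin 3), Continuous fun p : ℝ × ℂ => γ.extend p.1 (i, a, c) := fun a c =>
      (continuous_apply (i, a, c)).comp (hcont.comp continuous_fst)
    refine (PiLp.continuous_toLp 2 _).comp ?_
    refine continuous_pi fun c => ?_
    exact ((hc 0 c).add ((Complex.continuous_re.comp continuous_snd).mul (hc 1 c))).add
      ((Complex.continuous_im.comp continuous_snd).mul (hc 2 c))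
  · rw [hf i x hx]
    simp
  · rw [hg i x hx]
    simp
  · refine config_of_conf X h0 ?_
    rw [Path.extend_apply γ ht]
    exact hmem _

end Pool.Agent.H334
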