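import Pool.Agent.Helper334_Fold.CDefs
import Pool.Agent.Helper334_Fold.UDefs
import Pool.Agent.Helper334_Fold.UCat
import Pool.Agent.Helper334_Fold.U_cat_joins
import Pool.Agent.Helper334_Fold.U_rigid_joins
import Pool.Agent.Helper334_Fold.U_finite_classes
import Pool.Agent.Helper334_Fold.U_config_of_conf
import Pool.Agent.Helper334_Fold.U_conf_of_config
import Pool.Agent.Helper334_Fold.Q_poly_result

set_option autoImplicit false

open Set


namespace Pool.Agent.H334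

open Pool.Agent.Helper22.FC (SimplePolygon IsPaper cyc curve wnd side SimpleL)

theorem config_folded {k : ℕ} {X : PolyTree k} {f : Fin (k + 1) → ℂ → Space} (hf : X.IsConfig f)
    (C : Fin (k + 1) → Set (ℂ × ℂ)) : X.Folded C f := by
  refine ⟨hf.1.glued, fun i x hx y hy => ?_⟩
  have h := connectedComponentIn_subset _ _ hy
  exact hf.2 i x hx.1 y h.1

theorem folded_mono {k : ℕ} {X : PolyTree k} {f : Fin (k + 1) → ℂ → Space}
    {C C' : Fin (k + 1) → Set (ℂ × ℂ)} (h : ∀ i, C i ⊆ C' i) (hf : X.Folded C f) :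
    X.Folded C' f := by
  have hcr : ∀ i, crs (C i) ⊆ crs (C' i) := fun i => biUnion_subset_biUnion_left (h i)
  have hsub : ∀ i, X.region i \ crs (C' i) ⊆ X.region i \ crs (C i) := fun i =>
    sdiff_subset_sdiff_right (hcr i)
  refine ⟨hf.1, fun i x hx y hy => ?_⟩
  exact hf.2 i x (hsub i hx) y (connectedComponentIn_mono x (hsub i) hy)

/-- a property of all times of the three pieces holds along the concatenation -/
theorem cat3_forall {α : Type*} {A B D : ℝ → α} {P : α → Prop}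
    (hA : ∀ t ∈ Icc (0 : ℝ) 1, P (A t)) (hB : ∀ t ∈ Icc (0 : ℝ) 1, P (B t))
    (hD : ∀ t ∈ Icc (0 : ℝ) 1, P (D t)) : ∀ t ∈ Icc (0 : ℝ) 1, P (cat3 A B D t) := by
  rintro t ⟨h0, h1⟩
  unfold cat3
  split_ifs with h2 h3
  · exact hA _ ⟨by linarith, by linarith⟩
  · exact hB _ ⟨by linarith, by linarith⟩
  · exact hD _ ⟨by linarith, by linarith⟩

/- TARGET. Plain-words proof:
If X has no configuration take C = fun _ => ∅. Otherwise fix a configuration f0 and R from finite_classes. For r, r' in R poly_result X (frm r) (frm r') (config_of_conf) gives C_{r,r'}, F_{r,r'} and the G's (choose functions of r, r'). C i = ⋃ r ∈ R, ⋃ r' ∈ R, C_{r,r'} i : finite, segments inside the region.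
Folded is monotone: crs (C_{r,r'} i) ⊆ crs (C i), so region \ crs (C i) ⊆ region \ crs (C_{r,r'} i) and connectedComponentIn_mono. A configuration is Folded for every C (glued; connectedComponentIn F x ⊆ F ⊆ region i, isometric on region i).
Given f, g: conf_of_config gives v, w; r, r' in R with JoinedIn V v r, JoinedIn V w r'. rigid_joins gives H1 from f to frm r and H2 from frm r' to g (JoinedIn.symm). F = cat3 H1 F_{r,r'} H2, G = cat3 H1 G_{r,r'} H2 with cat_joins. For t in [0,1]: cat3 at t is one of the three paths at a time in [0,1] (cases t ≤ 1/3, t < 2/3, else), so Folded, Embeds and the bound dist < ε hold (in the outer parts G = F, dist = 0 < ε).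
-/
theorem uniform_result {k : ℕ} (X : PolyTree k) :
    ∃ C : Fin (k + 1) → Set (ℂ × ℂ),
      (∀ i, (C i).Finite ∧ ∀ c ∈ C i, segment ℝ c.1 c.2 ⊆ X.region i) ∧
      ∀ f g : Fin (k + 1) → ℂ → Space, X.IsConfig f → X.IsConfig g →
        ∃ F : ℝ → Fin (k + 1) → ℂ → Space,
          X.Joins F f g ∧ (∀ t ∈ Icc (0 : ℝ) 1, X.Folded C (F t)) ∧
          ∀ ε > (0 : ℝ), ∃ G : ℝ → Fin (k + 1) → ℂ → Space,
            X.Joins G f g ∧ (∀ t ∈ Icc (0 : ℝ) 1, X.Embeds (G t)) ∧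
            ∀ t ∈ Icc (0 : ℝ) 1, ∀ i, ∀ x ∈ X.region i, dist (G t i x) (F t i x) < ε := by
  classical
  by_cases hne : ∃ f0 : Fin (k + 1) → ℂ → Space, X.IsConfig f0
  swap
  · refine ⟨fun _ => ∅, fun i => ⟨finite_empty, fun c hc => absurd hc (notMem_empty c)⟩, ?_⟩
    intro f g hf _
    exact absurd ⟨f, hf⟩ hne
  obtain ⟨f0, h0⟩ := hne
  obtain ⟨R, hRf, hRs, hR⟩ := finite_classes X h0
  have hex : ∀ r r' : Par k, ∃ (C : Fin (k + 1) → Set (ℂ × ℂ))
      (F : ℝ → Fin (k + 1) → ℂ → Space), r ∈ R → r' ∈ R →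
      ((∀ i, (C i).Finite ∧ ∀ c ∈ C i, segment ℝ c.1 c.2 ⊆ X.region i) ∧
      X.Joins F (frm r) (frm r') ∧ (∀ t ∈ Icc (0 : ℝ) 1, X.Folded C (F t)) ∧
      ∀ ε > (0 : ℝ), ∃ G : ℝ → Fin (k + 1) → ℂ → Space,
        X.Joins G (frm r) (frm r') ∧ (∀ t ∈ Icc (0 : ℝ) 1, X.Embeds (G t)) ∧
        ∀ t ∈ Icc (0 : ℝ) 1, ∀ i, ∀ x ∈ X.region i, dist (G t i x) (F t i x) < ε) := by
    intro r r'
    by_cases h : r ∈ R ∧ r' ∈ R
    · obtain ⟨C, F, hh⟩ := poly_result X (frm r) (frm r') (config_of_conf X h0 (hRs h.1))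
        (config_of_conf X h0 (hRs h.2))
      exact ⟨C, F, fun _ _ => hh⟩
    · exact ⟨fun _ => ∅, fun _ _ _ => 0, fun h1 h2 => absurd ⟨h1, h2⟩ h⟩
  choose CC FF hCF using hex
  let C : Fin (k + 1) → Set (ℂ × ℂ) := fun i => ⋃ r ∈ R, ⋃ r' ∈ R, CC r r' i
  have hCsub : ∀ r ∈ R, ∀ r' ∈ R, ∀ i, CC r r' i ⊆ C i := by
    intro r hr r' hr' i c hc
    exact mem_iUnion₂.2 ⟨r, hr, mem_iUnion₂.2 ⟨r', hr', hc⟩⟩
  refine ⟨C, fun i => ⟨?_, ?_⟩, ?_⟩
  · exact hRf.biUnion fun r hr => hRf.biUnion fun r' hr' => ((hCF r r' hr hr').1 i).1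
  · intro c hc
    obtain ⟨r, hr, hc⟩ := mem_iUnion₂.1 hc
    obtain ⟨r', hr', hc⟩ := mem_iUnion₂.1 hc
    exact ((hCF r r' hr hr').1 i).2 c hc
  intro f g hf hg
  obtain ⟨v, hv, hfv⟩ := conf_of_config X h0 hf
  obtain ⟨w, hw, hgw⟩ := conf_of_config X h0 hg
  obtain ⟨r, hr, hvr⟩ := hR v hv
  obtain ⟨r', hr', hwr⟩ := hR w hw
  obtain ⟨H1, hH1, hH1c⟩ := rigid_joins X h0 hvr (f := f) (g := frm r) hfv
    (fun i x _ => rfl)
  obtain ⟨H2, hH2, hH2c⟩ := rigid_joins X h0 hwr.symm (f := frm r') (g := g) (fun i x _ => rfl)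
    hgw
  obtain ⟨-, hJ, hFold, hG⟩ := hCF r r' hr hr'
  refine ⟨cat3 H1 (FF r r') H2, cat_joins X hH1 hJ hH2, ?_, ?_⟩
  · exact cat3_forall (P := fun F => X.Folded C F) (fun t ht => config_folded (hH1c t ht) C)
      (fun t ht => folded_mono (hCsub r hr r' hr') (hFold t ht))
      (fun t ht => config_folded (hH2c t ht) C)
  · intro ε hε
    obtain ⟨G, hGJ, hGE, hGd⟩ := hG ε hε
    refine ⟨cat3 H1 G H2, cat_joins X hH1 hGJ hH2, ?_, ?_⟩
    · exact cat3_forall (P := fun F => X.Embeds F) (fun t ht => (hH1c t ht).1) hGE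
        (fun t ht => (hH2c t ht).1)
    · rintro t ⟨ht0, ht1⟩ i x hx
      unfold cat3
      split_ifs with h2 h3
      · rw [dist_self]
        exact hε
      · exact hGd _ ⟨by linarith, by linarith⟩ i x hx
      · rw [dist_self]
        exact hε

end Pool.Agent.H334
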